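import Mathlib

/-! Compactness degrees and compactness deficiency. -/

universe u

namespace Pool.Agent.Helper286.Strict

open Set Topology

/-- `CmpLE k X` says that the small inductive compactness degree of `X` is at most `k - 1`. -/
def CmpLE : ℕ → (X : Type u) → [TopologicalSpace X] → Prop
  | 0, X, _ => CompactSpace X
  | k + 1, X, _ => ∀ (p : X) (G : Set X), IsClosed G → p ∉ G →
      ∃ S U V : Set X, IsClosed S ∧ IsOpen U ∧ IsOpen V ∧ Disjoint U V ∧ Sᶜ = U ∪ V ∧
        p ∈ U ∧ G ⊆ V ∧ CmpLE k S

/-- `CmpLargeLE k X` says that the large inductive compactness degree of `X` is at most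
`k - 1`: compact spaces have degree `-1`, rim-compact spaces have degree at most `0`, and for
positive values any two disjoint closed sets have a partition of smaller degree. -/
def CmpLargeLE : ℕ → (X : Type u) → [TopologicalSpace X] → Prop
  | 0, X, _ => CompactSpace X
  | 1, X, _ => CmpLE 1 X
  | k + 2, X, _ => ∀ (F G : Set X), IsClosed F → IsClosed G → Disjoint F G →
      ∃ S U V : Set X, IsClosed S ∧ IsOpen U ∧ IsOpen V ∧ Disjoint U V ∧ Sᶜ = U ∪ V ∧
        F ⊆ U ∧ G ⊆ V ∧ CmpLargeLE (k + 1) S

/-- `CovDimLE k M` says that the covering dimension of `M` is at most `k - 1`: every finite open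
cover has a finite open refinement such that every point lies in at most `k` of its members. -/
def CovDimLE (k : ℕ) (M : Type u) [TopologicalSpace M] : Prop :=
  ∀ 𝒰 : Set (Set M), 𝒰.Finite → (∀ U ∈ 𝒰, IsOpen U) → ⋃₀ 𝒰 = univ →
    ∃ 𝒱 : Set (Set M), 𝒱.Finite ∧ (∀ V ∈ 𝒱, IsOpen V) ∧ ⋃₀ 𝒱 = univ ∧
      (∀ V ∈ 𝒱, ∃ U ∈ 𝒰, V ⊆ U) ∧ ∀ x : M, {V | V ∈ 𝒱 ∧ x ∈ V}.ncard ≤ k

/-- `DefLE k X` says that `X` has a metrizable compactification `Y` such that the covering
dimension of `Y \ X` is at most `k - 1`. -/
def DefLE (k : ℕ) (X : Type u) [TopologicalSpace X] : Prop :=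
  ∃ (Y : Type u) (_ : TopologicalSpace Y) (f : X → Y), CompactSpace Y ∧
    TopologicalSpace.MetrizableSpace Y ∧ IsEmbedding f ∧ DenseRange f ∧
    CovDimLE k ((range f)ᶜ : Set Y)

open Classical in
/-- The least value `k - 1` with `P k`, or infinity if there is none. -/
noncomputable def degr (P : ℕ → Prop) : WithTop ℤ :=
  if h : ∃ k : ℕ, P k then (((Nat.find h : ℕ) : ℤ) - 1 : ℤ) else ⊤

/-- The small inductive compactness degree. -/
noncomputable def cmp (X : Type u) [TopologicalSpace X] : WithTop ℤ := degr (fun k => CmpLE k X)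

/-- The large inductive compactness degree. -/
noncomputable def Cmp (X : Type u) [TopologicalSpace X] : WithTop ℤ :=
  degr (fun k => CmpLargeLE k X)

/-- The compactness deficiency. -/
noncomputable def defic (X : Type u) [TopologicalSpace X] : WithTop ℤ :=
  degr (fun k => DefLE k X)

end Pool.Agent.Helper286.Strict
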