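import Mathlib

/-! Sign extension lemma and the abstract stage lemma. -/

namespace Pool.Agent.Helper286.Strict

open Set Topology

section Sign

variable {E : Type*} [TopologicalSpace E]

/-- Change a continuous function off a closed set so that it gets prescribed signs. -/
lemma sign_extend [NormalSpace E] {X₀ A B : Set E} (hX : IsClosed X₀) (hA : IsClosed A)
    (hB : IsClosed B) (hAB : Disjoint A B) (g : C(E, ℝ)) (hgA : ∀ x ∈ X₀, x ∈ A → 0 < g x)
    (hgB : ∀ x ∈ X₀, x ∈ B → g x < 0) :
    ∃ f : C(E, ℝ), (∀ x ∈ X₀, f x = g x) ∧ (∀ x ∈ A, 0 < f x) ∧ (∀ x ∈ B, f x < 0) := by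
  have hA' : IsClosed (A ∩ {x | g x ≤ 0}) :=
    hA.inter (isClosed_le g.continuous continuous_const)
  have hB' : IsClosed (B ∩ {x | 0 ≤ g x}) :=
    hB.inter (isClosed_le continuous_const g.continuous)
  have hd1 : Disjoint (X₀ ∪ B) (A ∩ {x | g x ≤ 0}) := by
    rw [Set.disjoint_left]
    rintro x (hx | hx) ⟨hxA, hxg⟩
    · exact absurd (hgA x hx hxA) (not_lt.mpr hxg)
    · exact (Set.disjoint_left.mp hAB) hxA hx
  have hd2 : Disjoint (X₀ ∪ A) (B ∩ {x | 0 ≤ g x}) := by
    rw [Set.disjoint_left]
    rintro x (hx | hx) ⟨hxB, hxg⟩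
    · exact absurd (hgB x hx hxB) (not_lt.mpr hxg)
    · exact (Set.disjoint_left.mp hAB) hx hxB
  obtain ⟨φ, hφ0, hφ1, hφI⟩ := exists_continuous_zero_one_of_isClosed (hX.union hB) hA' hd1
  obtain ⟨ψ, hψ0, hψ1, hψI⟩ := exists_continuous_zero_one_of_isClosed (hX.union hA) hB' hd2
  refine ⟨⟨fun x => g x + φ x * (|g x| + 1) - ψ x * (|g x| + 1), by fun_prop⟩, ?_, ?_, ?_⟩
  · intro x hx
    have h1 : φ x = 0 := hφ0 (Or.inl hx)
    have h2 : ψ x = 0 := hψ0 (Or.inl hx)
    simp [h1, h2]
  · intro x hx
    have h2 : ψ x = 0 := hψ0 (Or.inr hx)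
    show 0 < g x + φ x * (|g x| + 1) - ψ x * (|g x| + 1)
    rw [h2]
    by_cases hg : g x ≤ 0
    · have h1 : φ x = 1 := hφ1 ⟨hx, hg⟩
      rw [h1, abs_of_nonpos hg]
      linarith
    · have h0 := (hφI x).1
      have h3 : 0 ≤ φ x * (|g x| + 1) := mul_nonneg h0 (by positivity)
      push Not at hg
      linarith
  · intro x hx
    have h2 : φ x = 0 := hφ0 (Or.inr hx)
    show g x + φ x * (|g x| + 1) - ψ x * (|g x| + 1) < 0
    rw [h2]
    by_cases hg : 0 ≤ g x
    · have h1 : ψ x = 1 := hψ1 ⟨hx, hg⟩
      rw [h1, abs_of_nonneg hg]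
      linarith
    · have h0 := (hψI x).1
      have h3 : 0 ≤ ψ x * (|g x| + 1) := mul_nonneg h0 (by positivity)
      push Not at hg
      linarith

end Sign

section Stage

variable {E : Type*} {ι : Type*} [LinearOrder ι]

/-- number of walls with smaller index through a point -/
noncomputable def cnt (W : ι → Set E) (b : ι) (x : E) : ℕ := {u | u < b ∧ x ∈ W u}.ncard

/-- the sign condition for a pair of indices at a point -/
def PairGood (W : ι → Set E) (lam : ι → ι → ℕ) (sg : ι → ι → Prop) (h : ι → E → ℝ)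
    (b s : ι) (x : E) : Prop :=
  x ∈ W b → x ∈ W s → lam b s ≤ cnt W b x → h s x = 0 →
    (sg b s → 0 < h b x) ∧ (¬ sg b s → h b x < 0)

variable [TopologicalSpace E]

lemma isClosed_cnt {W : ι → Set E} {X : Set E} (hX : IsClosed X) {T : Finset ι}
    (hT : ∀ s, s ∉ T → W s ∩ X = ∅) (hW : ∀ s, IsClosed (W s ∩ X)) (b : ι) (l : ℕ) :
    IsClosed {x | x ∈ X ∧ l ≤ cnt W b x} := by
  classical
  have key : {x | x ∈ X ∧ l ≤ cnt W b x} =
      ⋃ S ∈ (T.powerset.filter (fun S => (∀ u ∈ S, u < b) ∧ l ≤ S.card)),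
        (X ∩ ⋂ u ∈ S, (W u ∩ X)) := by
    ext x
    simp only [mem_setOf_eq, mem_iUnion, Finset.mem_filter, Finset.mem_powerset, exists_prop,
      mem_inter_iff, mem_iInter]
    constructor
    · rintro ⟨hx, hl⟩
      have hfin : {u | u < b ∧ x ∈ W u} ⊆ (T : Set ι) := by
        rintro u ⟨-, hu⟩
        by_contra hc
        have := hT u hc
        have h2 : x ∈ W u ∩ X := ⟨hu, hx⟩
        rw [this] at h2
        exact h2
      refine ⟨T.filter (fun u => u < b ∧ x ∈ W u), ⟨Finset.filter_subset _ _, ?_, ?_⟩, hx, ?_⟩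
      · intro u hu
        exact (Finset.mem_filter.mp hu).2.1
      · have : {u | u < b ∧ x ∈ W u} =
            ((T.filter (fun u => u < b ∧ x ∈ W u) : Finset ι) : Set ι) := by
          ext u
          simp only [mem_setOf_eq, Finset.coe_filter]
          exact ⟨fun hu => ⟨hfin hu, hu⟩, fun hu => hu.2⟩
        unfold cnt at hl
        rw [this, Set.ncard_coe_finset] at hl
        exact hl
      · intro u hu
        exact ⟨(Finset.mem_filter.mp hu).2.2, hx⟩
    · rintro ⟨S, ⟨hST, hSb, hl⟩, hx, hS⟩
      refine ⟨hx, ?_⟩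
      have hfin : {u | u < b ∧ x ∈ W u} ⊆ (T : Set ι) := by
        rintro u ⟨-, hu⟩
        by_contra hc
        have := hT u hc
        have h2 : x ∈ W u ∩ X := ⟨hu, hx⟩
        rw [this] at h2
        exact h2
      have hsub : (S : Set ι) ⊆ {u | u < b ∧ x ∈ W u} := fun u hu => ⟨hSb u hu, (hS u hu).1⟩
      have := Set.ncard_le_ncard hsub (T.finite_toSet.subset hfin)
      rw [Set.ncard_coe_finset] at this
      exact hl.trans this
  rw [key]
  apply Set.Finite.isClosed_biUnion (Finset.finite_toSet _)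
  intro S _
  exact hX.inter (isClosed_biInter (fun u _ => hW u))

/-- Relative stage lemma. -/
theorem stage [NormalSpace E] {A B W : ι → Set E} {lam : ι → ι → ℕ} {sg : ι → ι → Prop}
    (hA : ∀ s, IsClosed (A s)) (hB : ∀ s, IsClosed (B s)) (hAB : ∀ s, Disjoint (A s) (B s))
    {X₀ X₁ : Set E} (hX₀ : IsClosed X₀) (hX₁ : IsClosed X₁) {T : Finset ι}
    (hT : ∀ s, s ∉ T → W s ∩ X₁ = ∅) (hW : ∀ s, IsClosed (W s ∩ X₁)) (hX01 : X₀ ⊆ X₁)
    (H2 : ∀ b s' s, b < s' → s' < s → ∀ x ∈ X₁, x ∈ W b → x ∈ W s' → x ∈ W s →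
      lam b s ≤ cnt W b x → lam b s' ≤ cnt W b x → ¬ (sg b s ↔ sg b s') → lam s' s ≤ cnt W s' x)
    (H3 : ∀ b s, b < s → ∀ x ∈ X₁, x ∈ W b → x ∈ W s → lam b s ≤ cnt W b x → x ∉ A s → x ∉ B s →
      (x ∈ A b → sg b s) ∧ (x ∈ B b → ¬ sg b s))
    (g : ι → C(E, ℝ)) (hgA : ∀ s, ∀ x ∈ A s, 0 < g s x) (hgB : ∀ s, ∀ x ∈ B s, g s x < 0)
    (hg : ∀ b s, b < s → ∀ x ∈ X₀, PairGood W lam sg (fun s => g s) b s x) :
    ∃ h : ι → C(E, ℝ), (∀ s, ∀ x ∈ X₀, h s x = g s x) ∧ (∀ s, ∀ x ∈ A s, 0 < h s x) ∧
      (∀ s, ∀ x ∈ B s, h s x < 0) ∧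
      ∀ b s, b < s → ∀ x ∈ X₁, PairGood W lam sg (fun s => h s) b s x := by
  classical
  -- process finite sets from the top
  have main : ∀ T' : Finset ι, ∃ h : ι → C(E, ℝ), (∀ s, ∀ x ∈ X₀, h s x = g s x) ∧
      (∀ s, ∀ x ∈ A s, 0 < h s x) ∧ (∀ s, ∀ x ∈ B s, h s x < 0) ∧
      ∀ b ∈ T', ∀ s ∈ T', b < s → ∀ x ∈ X₁, PairGood W lam sg (fun s => h s) b s x := by
    intro T'
    induction T' using Finset.induction_on_min with
    | empty => exact ⟨g, fun s x _ => rfl, hgA, hgB, by simp⟩
    | insert a T' hlt ih =>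
      obtain ⟨h, h0, h1, h2, h3⟩ := ih
      -- the closed sets carrying constraints
      let F : ι → Set E := fun s =>
        {x | x ∈ X₁ ∧ x ∈ W a ∧ x ∈ W s ∧ lam a s ≤ cnt W a x ∧ h s x = 0}
      have hF : ∀ s, IsClosed (F s) := by
        intro s
        have e : F s = (W a ∩ X₁) ∩ (W s ∩ X₁) ∩ {x | x ∈ X₁ ∧ lam a s ≤ cnt W a x} ∩
            {x | h s x = 0} := by
          ext x
          simp only [F, mem_setOf_eq, mem_inter_iff]
          tauto
        rw [e]
        exact (((hW a).inter (hW s)).inter (isClosed_cnt hX₁ hT hW a _)).inter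
          (isClosed_eq (h s).continuous continuous_const)
      let P : Set E := A a ∪ ⋃ s ∈ T'.filter (fun s => sg a s), F s
      let N : Set E := B a ∪ ⋃ s ∈ T'.filter (fun s => ¬ sg a s), F s
      have hP : IsClosed P :=
        (hA a).union (Set.Finite.isClosed_biUnion (Finset.finite_toSet _) (fun s _ => hF s))
      have hN : IsClosed N :=
        (hB a).union (Set.Finite.isClosed_biUnion (Finset.finite_toSet _) (fun s _ => hF s))
      have hFAB : ∀ s ∈ T', ∀ x ∈ F s, (x ∈ A a → sg a s) ∧ (x ∈ B a → ¬ sg a s) := by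
        intro s hs x hx
        obtain ⟨hx1, hxa, hxs, hl, hz⟩ := hx
        refine H3 a s (hlt s hs) x hx1 hxa hxs hl ?_ ?_
        · intro hc
          have := h1 s x hc
          rw [hz] at this
          exact lt_irrefl _ this
        · intro hc
          have := h2 s x hc
          rw [hz] at this
          exact lt_irrefl _ this
      have hFF : ∀ s ∈ T', ∀ s' ∈ T', sg a s → ¬ sg a s' → ∀ x, x ∈ F s → x ∉ F s' := by
        intro s hs s' hs' hsg hsg' x hx hx'
        obtain ⟨hx1, hxa, hxs, hl, hz⟩ := hx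
        obtain ⟨-, -, hxs', hl', hz'⟩ := hx'
        rcases lt_trichotomy s s' with hlt' | heq | hlt'
        · have hl2 := H2 a s s' (hlt s hs) hlt' x hx1 hxa hxs hxs' hl' hl (by tauto)
          have := h3 s hs s' hs' hlt' x hx1 hxs hxs' hl2 hz'
          by_cases hh : sg s s'
          · have h5 := this.1 hh
            simp only [hz] at h5
            exact lt_irrefl _ h5
          · have h5 := this.2 hh
            simp only [hz] at h5
            exact lt_irrefl _ h5
        · rw [heq] at hsg
          exact hsg' hsg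
        · have hl2 := H2 a s' s (hlt s' hs') hlt' x hx1 hxa hxs' hxs hl hl' (by tauto)
          have := h3 s' hs' s hs hlt' x hx1 hxs' hxs hl2 hz
          by_cases hh : sg s' s
          · have h5 := this.1 hh
            simp only [hz'] at h5
            exact lt_irrefl _ h5
          · have h5 := this.2 hh
            simp only [hz'] at h5
            exact lt_irrefl _ h5
      have hPN : Disjoint P N := by
        rw [Set.disjoint_left]
        intro x hxP hxN
        rcases hxP with hxP | hxP
        · rcases hxN with hxN | hxN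
          · exact (Set.disjoint_left.mp (hAB a)) hxP hxN
          · simp only [mem_iUnion, Finset.mem_filter, exists_prop] at hxN
            obtain ⟨s, ⟨hs, hsg⟩, hxF⟩ := hxN
            exact hsg ((hFAB s hs x hxF).1 hxP)
        · simp only [mem_iUnion, Finset.mem_filter, exists_prop] at hxP
          obtain ⟨s, ⟨hs, hsg⟩, hxF⟩ := hxP
          rcases hxN with hxN | hxN
          · exact (hFAB s hs x hxF).2 hxN hsg
          · simp only [mem_iUnion, Finset.mem_filter, exists_prop] at hxN
            obtain ⟨s', ⟨hs', hsg'⟩, hxF'⟩ := hxN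
            exact hFF s hs s' hs' hsg hsg' x hxF hxF'
      -- signs on `X₀`
      have hold : ∀ s ∈ T', ∀ x ∈ X₀, x ∈ F s →
          (sg a s → 0 < h a x) ∧ (¬ sg a s → h a x < 0) := by
        intro s hs x hx0 hx
        obtain ⟨hx1, hxa, hxs, hl, hz⟩ := hx
        have := hg a s (hlt s hs) x hx0 hxa hxs hl (by
          show g s x = 0
          rw [← h0 s x hx0, hz])
        simp only [← h0 a x hx0] at this
        exact this
      obtain ⟨f, f0, f1, f2⟩ := sign_extend hX₀ hP hN hPN (h a)
        (by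
          intro x hx0 hxP
          rcases hxP with hxP | hxP
          · exact h1 a x hxP
          · simp only [mem_iUnion, Finset.mem_filter, exists_prop] at hxP
            obtain ⟨s, ⟨hs, hsg⟩, hxF⟩ := hxP
            exact (hold s hs x hx0 hxF).1 hsg)
        (by
          intro x hx0 hxP
          rcases hxP with hxP | hxP
          · exact h2 a x hxP
          · simp only [mem_iUnion, Finset.mem_filter, exists_prop] at hxP
            obtain ⟨s, ⟨hs, hsg⟩, hxF⟩ := hxP
            exact (hold s hs x hx0 hxF).2 hsg)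
      have haT : a ∉ T' := fun hc => lt_irrefl _ (hlt a hc)
      have hne : ∀ s ∈ T', s ≠ a := fun s hs => (hlt s hs).ne'
      refine ⟨Function.update h a f, ?_, ?_, ?_, ?_⟩
      · intro s x hx
        by_cases hs : s = a
        · subst hs
          rw [Function.update_self, f0 x hx, h0 s x hx]
        · rw [Function.update_of_ne hs, h0 s x hx]
      · intro s x hx
        by_cases hs : s = a
        · subst hs
          rw [Function.update_self]
          exact f1 x (Or.inl hx)
        · rw [Function.update_of_ne hs]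
          exact h1 s x hx
      · intro s x hx
        by_cases hs : s = a
        · subst hs
          rw [Function.update_self]
          exact f2 x (Or.inl hx)
        · rw [Function.update_of_ne hs]
          exact h2 s x hx
      · intro b hb s hs hbs x hx
        have hsT : s ∈ T' := by
          rcases Finset.mem_insert.mp hs with hs | hs
          · exfalso
            rcases Finset.mem_insert.mp hb with hb | hb
            · rw [hb, hs] at hbs
              exact lt_irrefl _ hbs
            · rw [hs] at hbs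
              exact lt_asymm hbs (hlt b hb)
          · exact hs
        intro hxb hxs hl hz
        simp only [Function.update_of_ne (hne s hsT)] at hz
        rcases Finset.mem_insert.mp hb with hb | hb
        · subst hb
          simp only [Function.update_self]
          have hxF : x ∈ F s := ⟨hx, hxb, hxs, hl, hz⟩
          constructor
          · intro hsg
            apply f1
            right
            simp only [mem_iUnion, Finset.mem_filter, exists_prop]
            exact ⟨s, ⟨hsT, hsg⟩, hxF⟩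
          · intro hsg
            apply f2
            right
            simp only [mem_iUnion, Finset.mem_filter, exists_prop]
            exact ⟨s, ⟨hsT, hsg⟩, hxF⟩
        · simp only [Function.update_of_ne (hne b hb)]
          exact h3 b hb s hsT hbs x hx hxb hxs hl hz
  obtain ⟨h, h0, h1, h2, h3⟩ := main T
  refine ⟨h, h0, h1, h2, ?_⟩
  intro b s hbs x hx hxb hxs hl hz
  have hbT : b ∈ T := by
    by_contra hc
    have := hT b hc
    have h5 : x ∈ W b ∩ X₁ := ⟨hxb, hx⟩
    rw [this] at h5
    exact h5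
  have hsT : s ∈ T := by
    by_contra hc
    have := hT s hc
    have h5 : x ∈ W s ∩ X₁ := ⟨hxs, hx⟩
    rw [this] at h5
    exact h5
  exact h3 b hbT s hsT hbs x hx hxb hxs hl hz

end Stage

end Pool.Agent.Helper286.Strict
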