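import Pool.Agent.Helper286.Strict.P01

/-! Passing to the limit in the stage lemma. -/

namespace Pool.Agent.Helper286.Strict

open Set Topology

variable {E : Type*} {ι : Type*} [LinearOrder ι] [TopologicalSpace E]

theorem limit [NormalSpace E] {A B W : ι → Set E} {lam : ι → ι → ℕ} {sg : ι → ι → Prop}
    (hA : ∀ s, IsClosed (A s)) (hB : ∀ s, IsClosed (B s)) (hAB : ∀ s, Disjoint (A s) (B s))
    {X : ℕ → Set E} (hXc : ∀ k, IsClosed (X k)) (hX0 : X 0 = ∅)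
    (hmono : ∀ k, X k ⊆ interior (X (k + 1)))
    {T : ℕ → Finset ι} (hT : ∀ k s, s ∉ T k → W s ∩ X k = ∅) (hW : ∀ k s, IsClosed (W s ∩ X k))
    (H2 : ∀ b s' s, b < s' → s' < s → ∀ k, ∀ x ∈ X k, x ∈ W b → x ∈ W s' → x ∈ W s →
      lam b s ≤ cnt W b x → lam b s' ≤ cnt W b x → ¬ (sg b s ↔ sg b s') → lam s' s ≤ cnt W s' x)
    (H3 : ∀ b s, b < s → ∀ k, ∀ x ∈ X k, x ∈ W b → x ∈ W s → lam b s ≤ cnt W b x →
      x ∉ A s → x ∉ B s → (x ∈ A b → sg b s) ∧ (x ∈ B b → ¬ sg b s))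
    (g : ι → C(E, ℝ)) (hgA : ∀ s, ∀ x ∈ A s, 0 < g s x) (hgB : ∀ s, ∀ x ∈ B s, g s x < 0) :
    ∃ h : ι → E → ℝ, (∀ s, ∀ k, ∀ x ∈ X k, ContinuousAt (h s) x) ∧
      (∀ s, ∀ k, ∀ x ∈ X k, x ∈ A s → 0 < h s x) ∧
      (∀ s, ∀ k, ∀ x ∈ X k, x ∈ B s → h s x < 0) ∧
      ∀ b s, b < s → ∀ k, ∀ x ∈ X k, PairGood W lam sg h b s x := by
  classical
  let Pr : ℕ → (ι → C(E, ℝ)) → Prop := fun k h =>
    (∀ s, ∀ x ∈ A s, 0 < h s x) ∧ (∀ s, ∀ x ∈ B s, h s x < 0) ∧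
      ∀ b s, b < s → ∀ x ∈ X k, PairGood W lam sg (fun s => h s) b s x
  have hsub : ∀ k, X k ⊆ X (k + 1) := fun k => (hmono k).trans interior_subset
  have step : ∀ k (h : {h : ι → C(E, ℝ) // Pr k h}), ∃ h' : {h : ι → C(E, ℝ) // Pr (k + 1) h},
      ∀ s, ∀ x ∈ X k, h'.1 s x = h.1 s x := by
    rintro k ⟨h, h1, h2, h3⟩
    obtain ⟨h', e0, e1, e2, e3⟩ := stage hA hB hAB (hXc k) (hXc (k + 1)) (hT (k + 1))
      (hW (k + 1)) (hsub k)
      (fun b s' s hb hs x hx => H2 b s' s hb hs (k + 1) x hx)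
      (fun b s hb x hx => H3 b s hb (k + 1) x hx) h h1 h2 h3
    exact ⟨⟨h', e1, e2, e3⟩, e0⟩
  have start : Pr 0 g := ⟨hgA, hgB, fun b s _ x hx => by rw [hX0] at hx; exact absurd hx (by simp)⟩
  choose nxt hnxt using step
  let G : ∀ k, {h : ι → C(E, ℝ) // Pr k h} := fun k => Nat.rec ⟨g, start⟩ (fun k h => nxt k h) k
  have hG : ∀ k s, ∀ x ∈ X k, (G (k + 1)).1 s x = (G k).1 s x := fun k s x hx =>
    hnxt k (G k) s x hx
  have hmonoX : ∀ k j, X k ⊆ X (k + j) := by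
    intro k j
    induction j with
    | zero => exact subset_rfl
    | succ j ih => exact ih.trans (hsub (k + j))
  have hG2 : ∀ k j s, ∀ x ∈ X k, (G (k + j)).1 s x = (G k).1 s x := by
    intro k j
    induction j with
    | zero => intro s x _; rfl
    | succ j ih =>
      intro s x hx
      rw [← ih s x hx]
      exact hG (k + j) s x (hmonoX k j hx)
  let H : ι → E → ℝ := fun s x => if hx : ∃ k, x ∈ X k then (G (Nat.find hx)).1 s x else 0
  have hH : ∀ k s, ∀ x ∈ X k, H s x = (G k).1 s x := by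
    intro k s x hx
    have hex : ∃ k, x ∈ X k := ⟨k, hx⟩
    have h1 : H s x = (G (Nat.find hex)).1 s x := by
      simp only [H, dif_pos hex]
    rw [h1]
    have h2 : Nat.find hex ≤ k := Nat.find_min' hex hx
    obtain ⟨j, rfl⟩ := Nat.exists_eq_add_of_le h2
    exact (hG2 (Nat.find hex) j s x (Nat.find_spec hex)).symm
  refine ⟨H, ?_, ?_, ?_, ?_⟩
  · intro s k x hx
    have h1 : H s =ᶠ[𝓝 x] (G (k + 1)).1 s := by
      filter_upwards [mem_interior_iff_mem_nhds.mp (hmono k hx)] with y hy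
      exact hH (k + 1) s y hy
    exact (ContinuousAt.congr ((G (k + 1)).1 s).continuous.continuousAt h1.symm)
  · intro s k x hx hxA
    rw [hH k s x hx]
    exact (G k).2.1 s x hxA
  · intro s k x hx hxB
    rw [hH k s x hx]
    exact (G k).2.2.1 s x hxB
  · intro b s hbs k x hx hxb hxs hl hz
    rw [hH k b x hx]
    rw [hH k s x hx] at hz
    exact (G k).2.2.2 b s hbs x hx hxb hxs hl hz

end Pool.Agent.Helper286.Strict
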