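import Mathlib

/-! The tree of balls. -/

namespace Pool.Agent.Helper286.Strict

open Set Topology

/-- length of the common initial part of two lists -/
def cp : List ℕ → List ℕ → ℕ
  | a :: l, b :: l' => if a = b then cp l l' + 1 else 0
  | _, _ => 0

lemma cp_nil_left (l : List ℕ) : cp [] l = 0 := by
  cases l <;> rfl

lemma cp_nil_right (l : List ℕ) : cp l [] = 0 := by
  cases l <;> rfl

lemma cp_cons (a b : ℕ) (l l' : List ℕ) :
    cp (a :: l) (b :: l') = if a = b then cp l l' + 1 else 0 := rfl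

lemma cp_self : ∀ l : List ℕ, cp l l = l.length := by
  intro l
  induction l with
  | nil => rfl
  | cons a l ih => simp [cp_cons, ih]

lemma cp_comm : ∀ l l' : List ℕ, cp l l' = cp l' l := by
  intro l
  induction l with
  | nil => intro l'; rw [cp_nil_left, cp_nil_right]
  | cons a l ih =>
    intro l'
    cases l' with
    | nil => rw [cp_nil_left, cp_nil_right]
    | cons b l' =>
      simp only [cp_cons, ih l']
      by_cases h : a = b
      · simp [h]
      · simp [h, Ne.symm h]

lemma cp_ultra : ∀ l l' l'' : List ℕ, min (cp l l') (cp l' l'') ≤ cp l l'' := by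
  intro l
  induction l with
  | nil => intro l' l''; simp [cp_nil_left]
  | cons a l ih =>
    intro l' l''
    cases l' with
    | nil => simp [cp_nil_left, cp_nil_right]
    | cons b l' =>
      cases l'' with
      | nil => simp [cp_nil_right]
      | cons c l'' =>
        simp only [cp_cons]
        by_cases h : a = b
        · by_cases h' : b = c
          · have h'' : a = c := h.trans h'
            simp only [h, h', if_true]
            have := ih l' l''
            omega
          · simp [h']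
        · simp [h]

/-- A finite tree of balls of depth `k` over the ball with centre `c` and radius `R`. -/
structure Block {M : Type*} [PseudoMetricSpace M] (k : ℕ) (ε : ℝ) (c : M) (R : ℝ)
    (T : Finset (List ℕ)) (q : List ℕ → M) (r : List ℕ → ℝ) : Prop where
  len : ∀ a ∈ T, a.length = k
  rpos : ∀ a ∈ T, 0 < r a
  rle : ∀ a ∈ T, r a ≤ R
  clus : ∀ s ∈ T, ∀ s' ∈ T, 1 ≤ cp s s' → dist (q s) (q s') + 2 * r s + 2 * r s' ≤ ε
  whole : ∀ s ∈ T, dist (q s) c + 2 * r s ≤ 2 * R + ε
  d1 : ∀ b ∈ T, ∀ s ∈ T, ∀ s' ∈ T, b < s → b < s' → cp b s + 2 ≤ cp s s' →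
    dist (q s) (q s') + 2 * r s + 2 * r s' ≤ r b
  cover : ∀ x, dist x c < R → ∃ a ∈ T, dist x (q a) < r a

section

variable {M : Type*} [PseudoMetricSpace M]

/-- Choose blocks one after the other, each one much finer than all the previous ones. -/
lemma concat {k : ℕ}
    (Hk : ∀ ε : ℝ, 0 < ε → ∀ c : M, ∀ R : ℝ, 0 < R → ∃ T q r, Block k ε c R T q r)
    (c : ℕ → M) (R : ℕ → ℝ) (hR : ∀ j, 0 < R j) {ε : ℝ} (hε : 0 < ε) :
    ∃ (δ : ℕ → ℝ) (T : ℕ → Finset (List ℕ)) (q : ℕ → List ℕ → M) (r : ℕ → List ℕ → ℝ),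
      (∀ j, 0 < δ j ∧ δ j ≤ ε ∧ Block k (δ j) (c j) (R j) (T j) (q j) (r j)) ∧
      ∀ i j, i < j → ∀ b ∈ T i, δ j ≤ r i b := by
  have Hk' : ∀ (j : ℕ) (e : {e : ℝ // 0 < e}), ∃ T q r, Block k e.1 (c j) (R j) T q r :=
    fun j e => Hk e.1 e.2 (c j) (R j) (hR j)
  choose T q r hB using Hk'
  have Hd : ∀ (j : ℕ) (e : {e : ℝ // 0 < e}), ∃ e' : {e : ℝ // 0 < e}, e'.1 ≤ e.1 ∧
      ∀ b ∈ T j e, e'.1 ≤ r j e b := by
    intro j e
    have hpos : ∃ e' : ℝ, 0 < e' ∧ ∀ y ∈ insert e.1 ((T j e).image (r j e)), e' ≤ y := by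
      have hne : (insert e.1 ((T j e).image (r j e))).Nonempty := Finset.insert_nonempty _ _
      refine ⟨(insert e.1 ((T j e).image (r j e))).min' hne, ?_, fun y hy => Finset.min'_le _ _ hy⟩
      have := Finset.min'_mem _ hne
      rcases Finset.mem_insert.mp this with h | h
      · rw [h]; exact e.2
      · obtain ⟨a, ha, hae⟩ := Finset.mem_image.mp h
        rw [← hae]
        exact (hB j e).rpos a ha
    obtain ⟨e', he', hall⟩ := hpos
    exact ⟨⟨e', he'⟩, hall _ (Finset.mem_insert_self _ _), fun b hb =>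
      hall _ (Finset.mem_insert_of_mem (Finset.mem_image_of_mem _ hb))⟩
  choose nx hnx1 hnx2 using Hd
  let D : ℕ → {e : ℝ // 0 < e} := fun j => Nat.rec ⟨ε, hε⟩ (fun j e => nx j e) j
  have hD : ∀ j, (D (j + 1)).1 ≤ (D j).1 := fun j => hnx1 j (D j)
  have hanti : ∀ i j, i ≤ j → (D j).1 ≤ (D i).1 := by
    intro i j hij
    induction j, hij using Nat.le_induction with
    | base => exact le_rfl
    | succ j _ ih => exact (hD j).trans ih
  refine ⟨fun j => (D j).1, fun j => T j (D j), fun j => q j (D j), fun j => r j (D j), ?_, ?_⟩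
  · intro j
    exact ⟨(D j).2, hanti 0 j (Nat.zero_le _), hB j (D j)⟩
  · intro i j hij b hb
    exact (hanti (i + 1) j hij).trans (hnx2 i (D i) b hb)

/-- combine functions on sub-blocks -/
def comb {β : Type*} (d : β) (f : ℕ → List ℕ → β) : List ℕ → β
  | [] => d
  | j :: a => f j a

lemma comb_cons {β : Type*} (d : β) (f : ℕ → List ℕ → β) (j : ℕ) (a : List ℕ) :
    comb d f (j :: a) = f j a := rfl

lemma comb_d1 {k : ℕ} {c : ℕ → M} {R : ℕ → ℝ} {δ : ℕ → ℝ} {T : ℕ → Finset (List ℕ)}
    {q : ℕ → List ℕ → M} {r : ℕ → List ℕ → ℝ}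
    (hB : ∀ j, Block k (δ j) (c j) (R j) (T j) (q j) (r j))
    (hδ : ∀ i j, i < j → ∀ b ∈ T i, δ j ≤ r i b) (d : M) (e : ℝ)
    {ib is is' : ℕ} {b s s' : List ℕ} (hb : b ∈ T ib) (hs : s ∈ T is) (hs' : s' ∈ T is')
    (hbs : ib :: b < is :: s) (hbs' : ib :: b < is' :: s')
    (hcp : cp (ib :: b) (is :: s) + 2 ≤ cp (is :: s) (is' :: s')) :
    dist (comb d q (is :: s)) (comb d q (is' :: s')) + 2 * comb e r (is :: s) +
      2 * comb e r (is' :: s') ≤ comb e r (ib :: b) := by
  simp only [comb_cons]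
  have h1 : is = is' := by
    by_contra hne
    rw [cp_cons is is', if_neg hne] at hcp
    omega
  subst h1
  rw [cp_cons is is, if_pos rfl] at hcp
  rw [List.cons_lt_cons_iff] at hbs hbs'
  by_cases h2 : ib = is
  · subst h2
    rw [cp_cons, if_pos rfl] at hcp
    have e1 : b < s := by
      rcases hbs with h | h
      · exact absurd h (lt_irrefl _)
      · exact h.2
    have e2 : b < s' := by
      rcases hbs' with h | h
      · exact absurd h (lt_irrefl _)
      · exact h.2
    exact (hB ib).d1 b hb s hs s' hs' e1 e2 (by omega)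
  · have h3 : ib < is := by
      rcases hbs with h | h
      · exact h
      · exact absurd h.1 h2
    have h4 : 1 ≤ cp s s' := by omega
    exact ((hB is).clus s hs s' hs' h4).trans (hδ ib is h3 b hb)

/-- Existence of finite trees. -/
theorem exists_block [ProperSpace M] : ∀ k : ℕ, ∀ ε : ℝ, 0 < ε → ∀ c : M, ∀ R : ℝ, 0 < R →
    ∃ T q r, Block k ε c R T q r := by
  intro k
  induction k with
  | zero =>
    intro ε hε c R hR
    refine ⟨{[]}, fun _ => c, fun _ => R, ?_⟩
    constructor
    · intro a ha; simp only [Finset.mem_singleton] at ha; rw [ha]; rfl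
    · intro a _; exact hR
    · intro a _; exact le_rfl
    · intro s hs s' _ h
      simp only [Finset.mem_singleton] at hs
      rw [hs, cp_nil_left] at h
      omega
    · intro s _
      rw [dist_self]
      linarith
    · intro b _ s hs s' _ _ _ h
      simp only [Finset.mem_singleton] at hs
      rw [hs, cp_nil_left] at h
      omega
    · intro x hx
      exact ⟨[], by simp, hx⟩
  | succ k ih =>
    intro ε hε c R hR
    -- a finite cover by small balls
    have hR' : 0 < min (R / 2) (ε / 16) := by positivity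
    obtain ⟨t, htc, htcov⟩ := (isCompact_closedBall c R).elim_nhds_subcover
      (fun x => Metric.ball x (min (R / 2) (ε / 16))) (fun x _ => Metric.ball_mem_nhds x hR')
    let L := t.toList
    let C : ℕ → M := fun j => L.getD j c
    have hCc : ∀ j, dist (C j) c ≤ R := by
      intro j
      by_cases hj : j < L.length
      · have h1 : C j = L[j] := by simp [C, List.getD, hj]
        have h2 : C j ∈ t := by
          rw [h1, ← Finset.mem_toList]
          exact List.getElem_mem hj
        exact Metric.mem_closedBall.mp (htc _ h2)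
      · have h1 : C j = c := by
          simp only [C]
          exact List.getD_eq_default _ _ (by omega)
        rw [h1, dist_self]
        exact hR.le
    obtain ⟨δ, T, q, r, hB, hδ⟩ := concat ih C (fun _ => min (R / 2) (ε / 16)) (fun _ => hR')
      (ε := ε / 8) (by positivity)
    have hm1 : min (R / 2) (ε / 16) ≤ R / 2 := min_le_left _ _
    have hm2 : min (R / 2) (ε / 16) ≤ ε / 16 := min_le_right _ _
    refine ⟨(Finset.range L.length).biUnion (fun j => (T j).image (fun a => j :: a)),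
      comb c q, comb 1 r, ?_⟩
    have hmem : ∀ a, a ∈ (Finset.range L.length).biUnion
        (fun j => (T j).image (fun a => j :: a)) → ∃ j a', j < L.length ∧ a' ∈ T j ∧ a = j :: a' := by
      intro a ha
      simp only [Finset.mem_biUnion, Finset.mem_range, Finset.mem_image] at ha
      obtain ⟨j, hj, a', ha', rfl⟩ := ha
      exact ⟨j, a', hj, ha', rfl⟩
    constructor
    · intro a ha
      obtain ⟨j, a', hj, ha', rfl⟩ := hmem a ha
      simp [(hB j).2.2.len a' ha']
    · intro a ha
      obtain ⟨j, a', hj, ha', rfl⟩ := hmem a ha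
      exact (hB j).2.2.rpos a' ha'
    · intro a ha
      obtain ⟨j, a', hj, ha', rfl⟩ := hmem a ha
      exact ((hB j).2.2.rle a' ha').trans (by linarith)
    · intro s hs s' hs' hcp
      obtain ⟨j, a, hj, ha, rfl⟩ := hmem s hs
      obtain ⟨j', a', hj', ha', rfl⟩ := hmem s' hs'
      have h1 : j = j' := by
        by_contra hne
        rw [cp_cons, if_neg hne] at hcp
        omega
      subst h1
      simp only [comb_cons]
      have w1 := (hB j).2.2.whole a ha
      have w2 := (hB j).2.2.whole a' ha'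
      have w3 := (hB j).2.1
      have w4 := dist_triangle_right (q j a) (q j a') (C j)
      linarith
    · intro s hs
      obtain ⟨j, a, hj, ha, rfl⟩ := hmem s hs
      simp only [comb_cons]
      have w1 := (hB j).2.2.whole a ha
      have w3 := (hB j).2.1
      have w4 := dist_triangle (q j a) (C j) c
      have w5 := hCc j
      linarith
    · intro b hb s hs s' hs' h1 h2 h3
      obtain ⟨jb, b', hjb, hb', rfl⟩ := hmem b hb
      obtain ⟨j, a, hj, ha, rfl⟩ := hmem s hs
      obtain ⟨j', a', hj', ha', rfl⟩ := hmem s' hs'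
      exact comb_d1 (fun j => (hB j).2.2) hδ c 1 hb' ha ha' h1 h2 h3
    · intro x hx
      have h1 : x ∈ Metric.closedBall c R := Metric.mem_closedBall.mpr hx.le
      have h2 := htcov h1
      simp only [mem_iUnion, Metric.mem_ball, exists_prop] at h2
      obtain ⟨y, hy, hxy⟩ := h2
      obtain ⟨j, hj, hjy⟩ := List.getElem_of_mem (Finset.mem_toList.mpr hy)
      have h3 : C j = y := by
        have : C j = L[j] := List.getD_eq_getElem _ _ hj
        rw [this]
        exact hjy
      rw [← h3] at hxy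
      obtain ⟨a, ha, hxa⟩ := (hB j).2.2.cover x hxy
      refine ⟨j :: a, ?_, hxa⟩
      simp only [Finset.mem_biUnion, Finset.mem_range, Finset.mem_image]
      exact ⟨j, hj, a, ha, rfl⟩

/-- The infinite design. -/
theorem exists_design [ProperSpace M] (m : ℕ) {ρ : ℝ} (hρ : 0 < ρ) (c : ℕ → M) (R : ℕ → ℝ)
    (hR : ∀ j, 0 < R j) (hR8 : ∀ j, R j ≤ ρ / 8) :
    ∃ (T : Set (List ℕ)) (q : List ℕ → M) (r : List ℕ → ℝ),
      (∀ a ∈ T, a.length = m + 1) ∧ (∀ a ∈ T, 0 < r a) ∧
      (∀ s ∈ T, ∀ s' ∈ T, 1 ≤ cp s s' → dist (q s) (q s') + 2 * r s + 2 * r s' ≤ ρ) ∧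
      (∀ b ∈ T, ∀ s ∈ T, ∀ s' ∈ T, b < s → b < s' → cp b s + 2 ≤ cp s s' →
        dist (q s) (q s') + 2 * r s + 2 * r s' ≤ r b) ∧
      (∀ j, ∀ x, dist x (c j) < R j → ∃ a ∈ T, dist x (q a) < r a ∧ r a ≤ R j) := by
  obtain ⟨δ, T, q, r, hB, hδ⟩ := concat (exists_block (M := M) m) c R hR
    (ε := ρ / 4) (by positivity)
  refine ⟨{l | ∃ j, ∃ a ∈ T j, l = j :: a}, comb (c 0) q, comb 1 r, ?_, ?_, ?_, ?_, ?_⟩
  · rintro _ ⟨j, a, ha, rfl⟩
    simp [(hB j).2.2.len a ha]
  · rintro _ ⟨j, a, ha, rfl⟩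
    exact (hB j).2.2.rpos a ha
  · rintro _ ⟨j, a, ha, rfl⟩ _ ⟨j', a', ha', rfl⟩ hcp
    have h1 : j = j' := by
      by_contra hne
      rw [cp_cons, if_neg hne] at hcp
      omega
    subst h1
    simp only [comb_cons]
    have w1 := (hB j).2.2.whole a ha
    have w2 := (hB j).2.2.whole a' ha'
    have w3 := (hB j).2.1
    have w4 := dist_triangle_right (q j a) (q j a') (c j)
    have w5 := hR8 j
    linarith
  · rintro _ ⟨jb, b, hb, rfl⟩ _ ⟨j, a, ha, rfl⟩ _ ⟨j', a', ha', rfl⟩ h1 h2 h3
    exact comb_d1 (fun j => (hB j).2.2) hδ (c 0) 1 hb ha ha' h1 h2 h3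
  · intro j x hx
    obtain ⟨a, ha, hxa⟩ := (hB j).2.2.cover x hx
    exact ⟨j :: a, ⟨j, a, ha, rfl⟩, hxa, (hB j).2.2.rle a ha⟩

end

end Pool.Agent.Helper286.Strict
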