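import Pool.Agent.Helper286.Strict.P02
import Pool.Agent.Helper286.Strict.P03

/-! The concrete walls and the functions. -/

namespace Pool.Agent.Helper286.Strict

open Set Topology

/-- wall values -/
noncomputable def wv (s : List ℕ) (u : ℚ) : ℝ := (Encodable.encode s : ℝ) * √2 + u

lemma wv_inj {s s' : List ℕ} {u u' : ℚ} (h : wv s u = wv s' u') : s = s' := by
  unfold wv at h
  by_contra hne
  have h1 : (Encodable.encode s : ℤ) - (Encodable.encode s' : ℤ) ≠ 0 := by
    intro h0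
    apply hne
    apply Encodable.encode_injective
    omega
  have h2 : Irrational (√2 * (((Encodable.encode s : ℤ) - (Encodable.encode s' : ℤ) : ℤ) : ℝ)) :=
    irrational_sqrt_two.mul_intCast h1
  apply h2
  refine ⟨u' - u, ?_⟩
  push_cast
  linarith

section

variable {m : ℕ}

/-- the walls with index `s` -/
def Wall (m : ℕ) (S : Set (List ℕ)) (s : List ℕ) : Set ((Fin (m + 1) → ℝ) × ℝ) :=
  {z | 0 < z.2 ∧ s ∈ S ∧ (s = [] ∨ ∃ i : Fin (m + 1), ∃ u : ℚ, z.1 i = wv s u ∧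
    ((Encodable.encode s + Encodable.encode u : ℕ) : ℝ) * z.2 ≤ 1)}

lemma ncard_walls (S : Set (List ℕ)) (z : (Fin (m + 1) → ℝ) × ℝ) :
    {s | z ∈ Wall m S s}.Finite ∧ {s | z ∈ Wall m S s}.ncard ≤ m + 2 := by
  classical
  let f : Option (Fin (m + 1)) → List ℕ := fun o => match o with
    | none => []
    | some i => if h : ∃ s : List ℕ, ∃ u : ℚ, z.1 i = wv s u then h.choose else []
  have hsub : {s | z ∈ Wall m S s} ⊆ range f := by
    rintro s ⟨-, -, hs⟩
    rcases hs with hs | ⟨i, u, hi, -⟩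
    · exact ⟨none, hs.symm⟩
    · refine ⟨some i, ?_⟩
      have hex : ∃ s : List ℕ, ∃ u : ℚ, z.1 i = wv s u := ⟨s, u, hi⟩
      show (if h : ∃ s : List ℕ, ∃ u : ℚ, z.1 i = wv s u then h.choose else []) = s
      rw [dif_pos hex]
      obtain ⟨u', hu'⟩ := hex.choose_spec
      exact wv_inj (hu'.symm.trans hi)
  have hfin : (range f).Finite := finite_range f
  refine ⟨hfin.subset hsub, (ncard_le_ncard hsub hfin).trans ?_⟩
  have h1 : (range f).ncard ≤ Nat.card (Option (Fin (m + 1))) := by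
    rw [← image_univ]
    refine (ncard_image_le (finite_univ)).trans ?_
    rw [ncard_univ]
  refine h1.trans ?_
  rw [Nat.card_eq_fintype_card, Fintype.card_option, Fintype.card_fin]

lemma cnt_succ_le {S : Set (List ℕ)} {z : (Fin (m + 1) → ℝ) × ℝ} {b s : List ℕ} (hbs : b < s)
    (hb : z ∈ Wall m S b) : cnt (Wall m S) b z + 1 ≤ cnt (Wall m S) s z := by
  unfold cnt
  have hfin := (ncard_walls S z).1
  have h1 : b ∉ {u | u < b ∧ z ∈ Wall m S u} := fun h => lt_irrefl _ h.1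
  have h2 : {u | u < b ∧ z ∈ Wall m S u}.Finite := hfin.subset (fun u hu => hu.2)
  rw [← ncard_insert_of_notMem h1 h2]
  apply ncard_le_ncard _ (hfin.subset (fun u hu => hu.2))
  intro u hu
  rcases hu with hu | hu
  · rw [hu]; exact ⟨hbs, hb⟩
  · exact ⟨hu.1.trans hbs, hu.2⟩

lemma cnt_le {S : Set (List ℕ)} {z : (Fin (m + 1) → ℝ) × ℝ} {b s : List ℕ} (hbs : b < s)
    (hb : z ∈ Wall m S b) (hs : z ∈ Wall m S s) : cnt (Wall m S) b z ≤ m := by
  have h1 := cnt_succ_le hbs hb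
  have h2 : cnt (Wall m S) s z + 1 ≤ m + 2 := by
    unfold cnt
    have hfin := (ncard_walls S z).1
    have h1 : s ∉ {u | u < s ∧ z ∈ Wall m S u} := fun h => lt_irrefl _ h.1
    have h2 : {u | u < s ∧ z ∈ Wall m S u}.Finite := hfin.subset (fun u hu => hu.2)
    rw [← ncard_insert_of_notMem h1 h2]
    refine le_trans (ncard_le_ncard ?_ hfin) (ncard_walls S z).2
    intro u hu
    rcases hu with hu | hu
    · rw [hu]; exact hs
    · exact hu.2
  omega

/-- the region of times at least `1/k` -/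
def Xk (m k : ℕ) : Set ((Fin (m + 1) → ℝ) × ℝ) := {z | 1 ≤ (k : ℝ) * z.2}

lemma Xk_pos {k : ℕ} {z : (Fin (m + 1) → ℝ) × ℝ} (hz : z ∈ Xk m k) : 0 < z.2 := by
  have h : 1 ≤ (k : ℝ) * z.2 := hz
  by_contra hc
  push Not at hc
  have := mul_nonpos_of_nonneg_of_nonpos (Nat.cast_nonneg (α := ℝ) k) hc
  linarith

lemma mem_Xk_of_pos {z : (Fin (m + 1) → ℝ) × ℝ} (hz : 0 < z.2) : ∃ k, z ∈ Xk m k := by
  obtain ⟨k, hk⟩ := exists_nat_gt (1 / z.2)
  refine ⟨k, ?_⟩
  rw [div_lt_iff₀ hz] at hk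
  exact hk.le

lemma Xk_closed (k : ℕ) : IsClosed (Xk m k) :=
  isClosed_le continuous_const (by fun_prop)

lemma Xk_zero : Xk m 0 = ∅ := by
  ext z
  simp only [Xk, mem_setOf_eq, Nat.cast_zero, zero_mul, mem_empty_iff_false, iff_false]
  norm_num

lemma Xk_mono (k : ℕ) : Xk m k ⊆ interior (Xk m (k + 1)) := by
  have ho : IsOpen {z : (Fin (m + 1) → ℝ) × ℝ | 1 < ((k + 1 : ℕ) : ℝ) * z.2} :=
    isOpen_lt continuous_const (by fun_prop)
  have hsub : {z : (Fin (m + 1) → ℝ) × ℝ | 1 < ((k + 1 : ℕ) : ℝ) * z.2} ⊆ Xk m (k + 1) := by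
    intro z hz
    have hz' : 1 < ((k + 1 : ℕ) : ℝ) * z.2 := hz
    exact hz'.le
  refine Subset.trans ?_ (interior_maximal hsub ho)
  intro z hz
  have h0 := Xk_pos hz
  have h : 1 ≤ (k : ℝ) * z.2 := hz
  show 1 < ((k + 1 : ℕ) : ℝ) * z.2
  push_cast
  linarith

lemma wall_empty {S : Set (List ℕ)} {k : ℕ} {s : List ℕ} (hs : s ≠ [])
    (hk : k < Encodable.encode s) : Wall m S s ∩ Xk m k = ∅ := by
  ext z
  simp only [mem_inter_iff, mem_empty_iff_false, iff_false, not_and]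
  rintro ⟨h0, -, h | ⟨i, u, -, hu⟩⟩ hz
  · exact hs h
  · have h : 1 ≤ (k : ℝ) * z.2 := hz
    have h1 : ((Encodable.encode s + Encodable.encode u : ℕ) : ℝ) ≤ k := by
      by_contra hc
      push Not at hc
      have := mul_lt_mul_of_pos_right hc h0
      linarith
    have h2 : Encodable.encode s + Encodable.encode u ≤ k := by exact_mod_cast h1
    omega

lemma wall_closed (S : Set (List ℕ)) (k : ℕ) (s : List ℕ) : IsClosed (Wall m S s ∩ Xk m k) := by
  classical
  by_cases hS : s ∈ S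
  swap
  · have : Wall m S s ∩ Xk m k = ∅ := by
      ext z
      simp only [mem_inter_iff, mem_empty_iff_false, iff_false, not_and]
      rintro ⟨-, h, -⟩
      exact absurd h hS
    rw [this]
    exact isClosed_empty
  by_cases hs : s = []
  · have : Wall m S s ∩ Xk m k = Xk m k := by
      ext z
      simp only [mem_inter_iff, and_iff_right_iff_imp]
      intro hz
      exact ⟨Xk_pos hz, hS, Or.inl hs⟩
    rw [this]
    exact Xk_closed k
  have hU : {u : ℚ | Encodable.encode u ≤ k}.Finite :=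
    (finite_Iic k).preimage (Encodable.encode_injective.injOn)
  have key : Wall m S s ∩ Xk m k = Xk m k ∩ ⋃ i ∈ (univ : Set (Fin (m + 1))),
      ⋃ u ∈ {u : ℚ | Encodable.encode u ≤ k}, {z | z.1 i = wv s u ∧
        ((Encodable.encode s + Encodable.encode u : ℕ) : ℝ) * z.2 ≤ 1} := by
    ext z
    simp only [mem_inter_iff, mem_iUnion, mem_setOf_eq, exists_prop, mem_univ, true_and]
    constructor
    · rintro ⟨⟨h0, -, h | ⟨i, u, h1, h2⟩⟩, hz⟩
      · exact absurd h hs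
      · refine ⟨hz, i, u, ?_, h1, h2⟩
        have h : 1 ≤ (k : ℝ) * z.2 := hz
        have h1 : ((Encodable.encode s + Encodable.encode u : ℕ) : ℝ) ≤ k := by
          by_contra hc
          push Not at hc
          have := mul_lt_mul_of_pos_right hc h0
          linarith
        have h2 : Encodable.encode s + Encodable.encode u ≤ k := by exact_mod_cast h1
        omega
    · rintro ⟨hz, i, u, -, h1, h2⟩
      exact ⟨⟨Xk_pos hz, hS, Or.inr ⟨i, u, h1, h2⟩⟩, hz⟩
  rw [key]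
  refine (Xk_closed k).inter (finite_univ.isClosed_biUnion fun i _ => hU.isClosed_biUnion ?_)
  intro u _
  have h1 : IsClosed {z : (Fin (m + 1) → ℝ) × ℝ | z.1 i = wv s u} :=
    isClosed_eq (by fun_prop) continuous_const
  have h2 : IsClosed {z : (Fin (m + 1) → ℝ) × ℝ |
      ((Encodable.encode s + Encodable.encode u : ℕ) : ℝ) * z.2 ≤ 1} :=
    isClosed_le (by fun_prop) continuous_const
  exact h1.inter h2

/-- The functions which define the partitions. -/
theorem exists_functions (m : ℕ) (x₀ : Fin (m + 1) → ℝ) {ρ : ℝ} (hρ : 0 < ρ) :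
    ∃ (S : Set (List ℕ)) (Q : List ℕ → Fin (m + 1) → ℝ) (r : List ℕ → ℝ)
      (h : List ℕ → (Fin (m + 1) → ℝ) × ℝ → ℝ),
      Q [] = x₀ ∧ r [] = ρ ∧ (∀ s, 0 < r s) ∧ (∀ s z, 0 < z.2 → ContinuousAt (h s) z) ∧
      (∀ s z, 0 < z.2 → dist z.1 (Q s) ≤ r s → 0 < h s z) ∧
      (∀ s z, 0 < z.2 → 2 * r s ≤ dist z.1 (Q s) → h s z < 0) ∧
      (∀ s ∈ S, ∀ (u : ℚ) (i : Fin (m + 1)) z, 0 < z.2 → z.1 i = wv s u →
        ((Encodable.encode s + Encodable.encode u : ℕ) : ℝ) * z.2 ≤ 1 → h s z = 0 →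
        h [] z ≠ 0) ∧
      (∀ x : Fin (m + 1) → ℝ, ∀ η : ℝ, 0 < η → ∃ s ∈ S, dist x (Q s) < r s ∧ r s ≤ η) := by
  classical
  -- the design
  let c : ℕ → (Fin (m + 1) → ℝ) := fun j => TopologicalSpace.denseSeq _ (Nat.unpair j).1
  let R : ℕ → ℝ := fun j => ρ / 8 / ((Nat.unpair j).2 + 1)
  have hR : ∀ j, 0 < R j := fun j => by positivity
  have hR8 : ∀ j, R j ≤ ρ / 8 := fun j => by
    apply div_le_self (by positivity)
    have : (0 : ℝ) ≤ ((Nat.unpair j).2 : ℝ) := Nat.cast_nonneg _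
    linarith
  obtain ⟨T, q, r, hlen, hrpos, hbase, hd1, hcov⟩ := exists_design m hρ c R hR hR8
  let r' : List ℕ → ℝ := fun a => if a ∈ T then r a else 1
  have hr'pos : ∀ a, 0 < r' a := by
    intro a
    by_cases ha : a ∈ T
    · simp only [r', if_pos ha]; exact hrpos a ha
    · simp only [r', if_neg ha]; norm_num
  have hr' : ∀ a ∈ T, r' a = r a := fun a ha => by simp only [r', if_pos ha]
  let S : Set (List ℕ) := {s | s = [] ∨ ∃ a ∈ T, s = 0 :: a}
  let Q : List ℕ → (Fin (m + 1) → ℝ) := comb x₀ (fun _ => q)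
  let Rr : List ℕ → ℝ := comb ρ (fun _ => r')
  have hRr : ∀ s, 0 < Rr s := by
    intro s
    cases s with
    | nil => exact hρ
    | cons a l => exact hr'pos l
  have hnil : ([] : List ℕ) ∈ S := Or.inl rfl
  have hScons : ∀ b s, s ∈ S → b < s → ∃ a ∈ T, s = 0 :: a := by
    intro b s hs hbs
    rcases hs with hs | hs
    · rw [hs] at hbs
      exact absurd hbs (List.not_lt_nil b)
    · exact hs
  have hlenS : ∀ b s, s ∈ S → b < s → s.length = m + 2 := by
    intro b s hs hbs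
    obtain ⟨a, ha, rfl⟩ := hScons b s hs hbs
    simp [hlen a ha]
  have hD1 : ∀ b ∈ S, ∀ s ∈ S, ∀ s' ∈ S, b < s → b < s' → cp b s + 2 ≤ cp s s' →
      dist (Q s) (Q s') + 2 * Rr s + 2 * Rr s' ≤ Rr b := by
    intro b hb s hs s' hs' hbs hbs' hcp
    obtain ⟨a, ha, rfl⟩ := hScons b s hs hbs
    obtain ⟨a', ha', rfl⟩ := hScons b s' hs' hbs'
    rw [cp_cons 0 0 a a', if_pos rfl] at hcp
    have e1 : Q (0 :: a) = q a := rfl
    have e2 : Q (0 :: a') = q a' := rfl
    have e3 : Rr (0 :: a) = r a := hr' a ha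
    have e4 : Rr (0 :: a') = r a' := hr' a' ha'
    rw [e1, e2, e3, e4]
    rcases hb with hb | ⟨b', hb', hb⟩
    · subst hb
      exact hbase a ha a' ha' (by omega)
    · subst hb
      have e5 : Rr (0 :: b') = r b' := hr' b' hb'
      rw [e5]
      rw [cp_cons 0 0 b' a, if_pos rfl] at hcp
      have l1 : b' < a := by
        rcases List.cons_lt_cons_iff.mp hbs with h | h
        · exact absurd h (lt_irrefl _)
        · exact h.2
      have l2 : b' < a' := by
        rcases List.cons_lt_cons_iff.mp hbs' with h | h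
        · exact absurd h (lt_irrefl _)
        · exact h.2
      exact hd1 b' hb' a ha a' ha' l1 l2 (by omega)
  -- the data of the stage lemma
  let A : List ℕ → Set ((Fin (m + 1) → ℝ) × ℝ) := fun s => {z | dist z.1 (Q s) ≤ Rr s}
  let B : List ℕ → Set ((Fin (m + 1) → ℝ) × ℝ) := fun s => {z | 2 * Rr s ≤ dist z.1 (Q s)}
  have hA : ∀ s, IsClosed (A s) := fun s => isClosed_le (by fun_prop) continuous_const
  have hB : ∀ s, IsClosed (B s) := fun s => isClosed_le continuous_const (by fun_prop)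
  have hAB : ∀ s, Disjoint (A s) (B s) := by
    intro s
    rw [Set.disjoint_left]
    intro z hz1 hz2
    have h1 : dist z.1 (Q s) ≤ Rr s := hz1
    have h2 : 2 * Rr s ≤ dist z.1 (Q s) := hz2
    have := hRr s
    linarith
  let sg : List ℕ → List ℕ → Prop := fun b s => ∃ s' ∈ S, b < s' ∧ cp b s + 2 ≤ cp s s' ∧
    ∃ x : Fin (m + 1) → ℝ, dist x (Q s') < 2 * Rr s' ∧ dist x (Q b) ≤ Rr b
  have hTfin : ∀ k, {s : List ℕ | Encodable.encode s ≤ k}.Finite := fun k =>
    (finite_Iic k).preimage (Encodable.encode_injective.injOn)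
  let TT : ℕ → Finset (List ℕ) := fun k => insert [] (hTfin k).toFinset
  have hT : ∀ k s, s ∉ TT k → Wall m S s ∩ Xk m k = ∅ := by
    intro k s hs
    simp only [TT, Finset.mem_insert, Finite.mem_toFinset, mem_setOf_eq, not_or, not_le] at hs
    exact wall_empty hs.1 hs.2
  have H2 : ∀ b s' s, b < s' → s' < s → ∀ k, ∀ x ∈ Xk m k, x ∈ Wall m S b → x ∈ Wall m S s' →
      x ∈ Wall m S s → cp b s ≤ cnt (Wall m S) b x → cp b s' ≤ cnt (Wall m S) b x →
      ¬ (sg b s ↔ sg b s') → cp s' s ≤ cnt (Wall m S) s' x := by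
    intro b s' s hbs' hs's k x _ hxb _ _ hc1 hc2 hne
    by_contra hc
    push Not at hc
    apply hne
    have h1 := cnt_succ_le (S := S) (z := x) hbs' hxb
    have u1 := cp_ultra b s' s
    have u2 := cp_ultra b s s'
    rw [cp_comm s s'] at u2
    have heq : cp b s = cp b s' := by
      rcases le_total (cp b s) (cp b s') with h | h
      · rw [min_eq_left (by omega)] at u1
        omega
      · rw [min_eq_left (by omega)] at u2
        omega
    constructor
    · rintro ⟨s'', hS'', hb, hcp, hx⟩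
      refine ⟨s'', hS'', hb, ?_, hx⟩
      have u3 := cp_ultra s' s s''
      have u4 : cp b s + 2 ≤ min (cp s' s) (cp s s'') := le_min (by omega) hcp
      omega
    · rintro ⟨s'', hS'', hb, hcp, hx⟩
      refine ⟨s'', hS'', hb, ?_, hx⟩
      have u3 := cp_ultra s s' s''
      have u4 : cp b s' + 2 ≤ min (cp s s') (cp s' s'') :=
        le_min (by rw [cp_comm s s']; omega) hcp
      omega
  have H3 : ∀ b s, b < s → ∀ k, ∀ x ∈ Xk m k, x ∈ Wall m S b → x ∈ Wall m S s →
      cp b s ≤ cnt (Wall m S) b x → x ∉ A s → x ∉ B s →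
      (x ∈ A b → sg b s) ∧ (x ∈ B b → ¬ sg b s) := by
    intro b s hbs k x _ hxb hxs hcp _ hxB
    have hxB' : dist x.1 (Q s) < 2 * Rr s := not_le.mp hxB
    have hbS : b ∈ S := hxb.2.1
    have hsS : s ∈ S := hxs.2.1
    have h1 := cnt_le hbs hxb hxs
    have h2 := hlenS b s hsS hbs
    constructor
    · intro hxA
      refine ⟨s, hsS, hbs, ?_, x.1, hxB', hxA⟩
      rw [cp_self, h2]
      omega
    · rintro hxBb ⟨s', hs'S, hbs', hcp', y, hy1, hy2⟩
      have h3 := hD1 b hbS s hsS s' hs'S hbs hbs' hcp'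
      have h4 : 2 * Rr b ≤ dist x.1 (Q b) := hxBb
      have t1 := dist_triangle x.1 (Q s) (Q b)
      have t2 := dist_triangle (Q s) (Q s') (Q b)
      have t3 := dist_triangle_left (Q s') (Q b) y
      linarith
  let g : List ℕ → C((Fin (m + 1) → ℝ) × ℝ, ℝ) := fun s =>
    ⟨fun z => 3 / 2 * Rr s - dist z.1 (Q s), by fun_prop⟩
  have hgA : ∀ s, ∀ x ∈ A s, 0 < g s x := by
    intro s x hx
    have h1 : dist x.1 (Q s) ≤ Rr s := hx
    have h2 := hRr s
    show 0 < 3 / 2 * Rr s - dist x.1 (Q s)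
    linarith
  have hgB : ∀ s, ∀ x ∈ B s, g s x < 0 := by
    intro s x hx
    have h1 : 2 * Rr s ≤ dist x.1 (Q s) := hx
    have h2 := hRr s
    show 3 / 2 * Rr s - dist x.1 (Q s) < 0
    linarith
  obtain ⟨h, h1, h2, h3, h4⟩ := limit (E := (Fin (m + 1) → ℝ) × ℝ) hA hB hAB
    (X := Xk m) Xk_closed Xk_zero Xk_mono
    hT (wall_closed S) (lam := cp) (sg := sg) H2 H3 g hgA hgB
  refine ⟨{s | ∃ a ∈ T, s = 0 :: a}, Q, Rr, h, rfl, rfl, hRr, ?_, ?_, ?_, ?_, ?_⟩
  · intro s z hz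
    obtain ⟨k, hk⟩ := mem_Xk_of_pos hz
    exact h1 s k z hk
  · intro s z hz hd
    obtain ⟨k, hk⟩ := mem_Xk_of_pos hz
    exact h2 s k z hk hd
  · intro s z hz hd
    obtain ⟨k, hk⟩ := mem_Xk_of_pos hz
    exact h3 s k z hk hd
  · rintro _ ⟨a, ha, rfl⟩ u i z hz hzi hu hzero
    obtain ⟨k, hk⟩ := mem_Xk_of_pos hz
    have hW0 : z ∈ Wall m S [] := ⟨hz, hnil, Or.inl rfl⟩
    have hWs : z ∈ Wall m S (0 :: a) := ⟨hz, Or.inr ⟨a, ha, rfl⟩, Or.inr ⟨i, u, hzi, hu⟩⟩
    have := h4 [] (0 :: a) (List.nil_lt_cons _ _) k z hk hW0 hWs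
      (by rw [cp_nil_left]; exact Nat.zero_le _) hzero
    by_cases hs : sg [] (0 :: a)
    · exact (this.1 hs).ne'
    · exact (this.2 hs).ne
  · intro x η hη
    obtain ⟨v, hv⟩ := exists_nat_gt (ρ / 8 / η)
    have hv1 : 0 < ρ / 8 / ((v : ℝ) + 1) := by positivity
    have hd := TopologicalSpace.denseRange_denseSeq (Fin (m + 1) → ℝ)
    obtain ⟨w, hw⟩ := hd.exists_mem_open (Metric.isOpen_ball (x := x)
      (ε := ρ / 8 / ((v : ℝ) + 1))) ⟨x, Metric.mem_ball_self hv1⟩
    have hj1 : c (Nat.pair w v) = TopologicalSpace.denseSeq _ w := by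
      simp only [c, Nat.unpair_pair]
    have hj2 : R (Nat.pair w v) = ρ / 8 / ((v : ℝ) + 1) := by
      simp only [R, Nat.unpair_pair]
    obtain ⟨a, ha, hxa, hra⟩ := hcov (Nat.pair w v) x (by
      rw [hj1, hj2, dist_comm]
      exact Metric.mem_ball.mp hw)
    refine ⟨0 :: a, ⟨a, ha, rfl⟩, ?_, ?_⟩
    · show dist x (q a) < r' a
      rw [hr' a ha]
      exact hxa
    · show r' a ≤ η
      rw [hr' a ha]
      refine hra.trans ?_
      rw [hj2]
      rw [div_lt_iff₀ hη] at hv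
      rw [div_le_iff₀ (by positivity)]
      nlinarith [hv, hη]

end

end Pool.Agent.Helper286.Strict
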