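import Pool.Agent.Helper286.Strict.Defs
import Pool.Agent.Helper286.Strict.P04

/-! Partitions and the upper bound. -/

universe u

namespace Pool.Agent.Helper286.Strict

open Set Topology

section Ambient

variable {E : Type u} [TopologicalSpace E]

/-- Ambient form of `CmpLE`. -/
def PCmp : ℕ → Set E → Prop
  | 0, Y => IsCompact Y
  | k + 1, Y => ∀ p ∈ Y, ∀ G : Set E, IsClosed G → p ∉ G →
      ∃ U V : Set E, IsOpen U ∧ IsOpen V ∧ U ∩ V ∩ Y = ∅ ∧ p ∈ U ∧ G ∩ Y ⊆ V ∧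
        PCmp k (Y \ (U ∪ V))

lemma cmpLE_iff : ∀ (k : ℕ) {X : Type u} [TopologicalSpace X] {f : X → E},
    IsEmbedding f → (CmpLE k X ↔ PCmp k (range f)) := by
  intro k
  induction k with
  | zero =>
    intro X _ f hf
    show CompactSpace X ↔ IsCompact (range f)
    rw [← image_univ, ← hf.isCompact_iff, isCompact_univ_iff]
  | succ k ih =>
    intro X _ f hf
    constructor
    · rintro h _ ⟨x, rfl⟩ G hG hxG
      obtain ⟨S, U', V', hS, hU', hV', hd, hSc, hxU, hGV, hSk⟩ :=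
        h x (f ⁻¹' G) (hG.preimage hf.continuous) hxG
      obtain ⟨U, hU, rfl⟩ := hf.isInducing.isOpen_iff.mp hU'
      obtain ⟨V, hV, rfl⟩ := hf.isInducing.isOpen_iff.mp hV'
      refine ⟨U, V, hU, hV, ?_, hxU, ?_, ?_⟩
      · ext y
        simp only [mem_inter_iff, mem_empty_iff_false, iff_false, not_and]
        rintro ⟨hyU, hyV⟩ ⟨x', rfl⟩
        exact (Set.disjoint_left.mp hd) hyU hyV
      · rintro _ ⟨hyG, x', rfl⟩
        exact hGV hyG
      · have he : IsEmbedding (fun s : S => f s.1) := hf.comp IsEmbedding.subtypeVal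
        have h1 := (ih he).mp hSk
        have h2 : range (fun s : S => f s.1) = range f \ (U ∪ V) := by
          ext y
          constructor
          · rintro ⟨⟨s, hs⟩, rfl⟩
            refine ⟨⟨s, rfl⟩, ?_⟩
            intro hc
            have : s ∈ Sᶜ := by
              rw [hSc]
              exact hc
            exact this hs
          · rintro ⟨⟨x', rfl⟩, hx'⟩
            have : x' ∈ S := by
              by_contra hc
              have h3 : x' ∈ Sᶜ := hc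
              rw [hSc] at h3
              exact hx' h3
            exact ⟨⟨x', this⟩, rfl⟩
        rw [h2] at h1
        exact h1
    · intro h x G' hG' hxG'
      obtain ⟨G, hG, rfl⟩ := hf.isInducing.isClosed_iff.mp hG'
      obtain ⟨U, V, hU, hV, hUV, hxU, hGV, hk⟩ := h (f x) ⟨x, rfl⟩ G hG hxG'
      refine ⟨(f ⁻¹' U ∪ f ⁻¹' V)ᶜ, f ⁻¹' U, f ⁻¹' V, ?_, hU.preimage hf.continuous,
        hV.preimage hf.continuous, ?_, compl_compl _, hxU, ?_, ?_⟩
      · exact ((hU.preimage hf.continuous).union (hV.preimage hf.continuous)).isClosed_compl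
      · rw [Set.disjoint_left]
        intro y hy1 hy2
        have : f y ∈ U ∩ V ∩ range f := ⟨⟨hy1, hy2⟩, y, rfl⟩
        rw [hUV] at this
        exact this
      · intro y hy
        exact hGV ⟨hy, y, rfl⟩
      · have he : IsEmbedding (fun s : ((f ⁻¹' U ∪ f ⁻¹' V)ᶜ : Set X) => f s.1) :=
          hf.comp IsEmbedding.subtypeVal
        rw [ih he]
        have h2 : range (fun s : ((f ⁻¹' U ∪ f ⁻¹' V)ᶜ : Set X) => f s.1) =
            range f \ (U ∪ V) := by
          ext y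
          constructor
          · rintro ⟨⟨s, hs⟩, rfl⟩
            exact ⟨⟨s, rfl⟩, hs⟩
          · rintro ⟨⟨x', rfl⟩, hx'⟩
            exact ⟨⟨x', hx'⟩, rfl⟩
        rw [h2]
        exact hk

end Ambient

section Metric

variable {E : Type u} [PseudoMetricSpace E]

lemma exists_closedBall_disjoint {p : E} {G : Set E} (hG : IsClosed G) (hp : p ∉ G) :
    ∃ η : ℝ, 0 < η ∧ ∀ z ∈ G, η < dist z p := by
  obtain ⟨η, hη, h⟩ := Metric.nhds_basis_closedBall.mem_iff.mp (hG.isOpen_compl.mem_nhds hp)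
  refine ⟨η, hη, fun z hz => ?_⟩
  by_contra hc
  exact h (Metric.mem_closedBall.mpr (not_lt.mp hc)) hz

lemma PCmp.of_isCompact : ∀ (k : ℕ) {Y : Set E}, IsCompact Y → PCmp k Y := by
  intro k
  induction k with
  | zero => intro Y h; exact h
  | succ k ih =>
    intro Y hY p _ G hG hpG
    obtain ⟨η, hη, h⟩ := exists_closedBall_disjoint hG hpG
    refine ⟨Metric.ball p η, (Metric.closedBall p η)ᶜ, Metric.isOpen_ball,
      Metric.isClosed_closedBall.isOpen_compl, ?_, Metric.mem_ball_self hη, ?_, ?_⟩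
    · ext y
      simp only [mem_inter_iff, mem_empty_iff_false, iff_false, not_and]
      rintro ⟨hy1, hy2⟩
      exact absurd (Metric.ball_subset_closedBall hy1) hy2
    · rintro z ⟨hz, -⟩
      rw [mem_compl_iff, Metric.mem_closedBall, not_le]
      exact h z hz
    · apply ih
      exact hY.diff (Metric.isOpen_ball.union Metric.isClosed_closedBall.isOpen_compl)

end Metric

section Model

/-- The model: `x` in the cube, `t` in `[0,2]`, and `t > 0` or `x` in the boundary. -/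
def ZM (m : ℕ) : Set ((Fin (m + 1) → ℝ) × ℝ) :=
  {z | (∀ i, z.1 i ∈ Icc (-1 : ℝ) 1) ∧ z.2 ∈ Icc (0 : ℝ) 2 ∧
    (0 < z.2 ∨ ∃ i, z.1 i = 1 ∨ z.1 i = -1)}

variable {m : ℕ}

/-- compact parts of the model -/
def KM (m : ℕ) (ε : ℝ) : Set ((Fin (m + 1) → ℝ) × ℝ) :=
  {z | (∀ i, z.1 i ∈ Icc (-1 : ℝ) 1) ∧ z.2 ∈ Icc (0 : ℝ) 2 ∧
    (ε ≤ z.2 ∨ ∃ i, z.1 i = 1 ∨ z.1 i = -1)}

lemma KM_compact (ε : ℝ) : IsCompact (KM m ε) := by
  have h1 : IsCompact ((Set.pi univ (fun _ : Fin (m + 1) => Icc (-1 : ℝ) 1)) ×ˢ Icc (0 : ℝ) 2) :=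
    (isCompact_univ_pi (fun _ => isCompact_Icc)).prod isCompact_Icc
  have h2 : IsClosed ({z : (Fin (m + 1) → ℝ) × ℝ | ε ≤ z.2} ∪
      ⋃ i ∈ (univ : Set (Fin (m + 1))), {z : (Fin (m + 1) → ℝ) × ℝ | z.1 i = 1 ∨ z.1 i = -1}) := by
    refine IsClosed.union (isClosed_le continuous_const continuous_snd) ?_
    refine finite_univ.isClosed_biUnion fun i _ => ?_
    have e1 : IsClosed {z : (Fin (m + 1) → ℝ) × ℝ | z.1 i = 1} :=
      isClosed_eq (by fun_prop) continuous_const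
    have e2 : IsClosed {z : (Fin (m + 1) → ℝ) × ℝ | z.1 i = -1} :=
      isClosed_eq (by fun_prop) continuous_const
    exact e1.union e2
  have h3 := h1.inter_right h2
  have h4 : KM m ε = ((Set.pi univ (fun _ : Fin (m + 1) => Icc (-1 : ℝ) 1)) ×ˢ Icc (0 : ℝ) 2) ∩
      ({z : (Fin (m + 1) → ℝ) × ℝ | ε ≤ z.2} ∪
      ⋃ i ∈ (univ : Set (Fin (m + 1))),
        {z : (Fin (m + 1) → ℝ) × ℝ | z.1 i = 1 ∨ z.1 i = -1}) := by
    ext z
    simp only [KM, mem_inter_iff, mem_prod, mem_pi, mem_univ, forall_const, mem_union,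
      mem_iUnion, mem_setOf_eq, exists_prop, true_and]
    exact and_assoc.symm
  rw [h4]
  exact h3

lemma KM_subset {ε : ℝ} (hε : 0 < ε) : KM m ε ⊆ ZM m := by
  rintro z ⟨h1, h2, h3⟩
  refine ⟨h1, h2, ?_⟩
  rcases h3 with h3 | h3
  · exact Or.inl (hε.trans_le h3)
  · exact Or.inr h3

lemma compact_of_subset {C : Set ((Fin (m + 1) → ℝ) × ℝ)} (hC : IsClosed C) {ε : ℝ} (hε : 0 < ε)
    (h : ∀ z ∈ ZM m ∩ C, z.2 = 0 ∨ ε ≤ z.2) : IsCompact (ZM m ∩ C) := by
  have e : ZM m ∩ C = KM m ε ∩ C := by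
    ext z
    constructor
    · rintro ⟨hz, hzC⟩
      refine ⟨⟨hz.1, hz.2.1, ?_⟩, hzC⟩
      rcases h z ⟨hz, hzC⟩ with h0 | h0
      · rcases hz.2.2 with h1 | h1
        · rw [h0] at h1
          exact absurd h1 (lt_irrefl _)
        · exact Or.inr h1
      · exact Or.inl h0
    · rintro ⟨hz, hzC⟩
      exact ⟨KM_subset hε hz, hzC⟩
  rw [e]
  exact (KM_compact ε).inter_right hC

lemma step_local {C : Set ((Fin (m + 1) → ℝ) × ℝ)} (hC : IsClosed C)
    {p : (Fin (m + 1) → ℝ) × ℝ} (hp2 : 0 < p.2) {G : Set ((Fin (m + 1) → ℝ) × ℝ)}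
    (hG : IsClosed G) (hpG : p ∉ G) (k : ℕ) :
    ∃ U V : Set ((Fin (m + 1) → ℝ) × ℝ), IsOpen U ∧ IsOpen V ∧ U ∩ V ∩ (ZM m ∩ C) = ∅ ∧ p ∈ U ∧
      G ∩ (ZM m ∩ C) ⊆ V ∧ PCmp k ((ZM m ∩ C) \ (U ∪ V)) := by
  obtain ⟨η, hη, h⟩ := exists_closedBall_disjoint hG hpG
  have hη' : 0 < min η (p.2 / 2) := by positivity
  refine ⟨Metric.ball p (min η (p.2 / 2)), (Metric.closedBall p (min η (p.2 / 2)))ᶜ,
    Metric.isOpen_ball, Metric.isClosed_closedBall.isOpen_compl, ?_,
    Metric.mem_ball_self hη', ?_, ?_⟩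
  · ext y
    simp only [mem_inter_iff, mem_empty_iff_false, iff_false, not_and]
    rintro ⟨hy1, hy2⟩
    exact absurd (Metric.ball_subset_closedBall hy1) hy2
  · rintro z ⟨hz, -⟩
    rw [mem_compl_iff, Metric.mem_closedBall, not_le]
    exact (min_le_left _ _).trans_lt (h z hz)
  · apply PCmp.of_isCompact
    have e : (ZM m ∩ C) \ (Metric.ball p (min η (p.2 / 2)) ∪
        (Metric.closedBall p (min η (p.2 / 2)))ᶜ) = ZM m ∩ (C ∩ (Metric.ball p (min η (p.2 / 2)) ∪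
        (Metric.closedBall p (min η (p.2 / 2)))ᶜ)ᶜ) := by
      rw [diff_eq, inter_assoc]
    rw [e]
    apply compact_of_subset (ε := p.2 / 2)
    · exact hC.inter (Metric.isOpen_ball.union Metric.isClosed_closedBall.isOpen_compl).isClosed_compl
    · positivity
    · rintro z ⟨-, -, hz⟩
      right
      rw [mem_compl_iff, mem_union, not_or, mem_compl_iff, not_not, Metric.mem_closedBall] at hz
      have h1 := hz.2.trans (min_le_right _ _)
      have h2 : dist z.2 p.2 ≤ dist z p := le_max_right _ _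
      rw [Real.dist_eq] at h2
      have h3 := abs_le.mp (h2.trans h1)
      linarith [h3.1]

/-- inner side of a partition -/
def Uo (x₀ : Fin (m + 1) → ℝ) (r δ : ℝ) (h : (Fin (m + 1) → ℝ) × ℝ → ℝ) :
    Set ((Fin (m + 1) → ℝ) × ℝ) :=
  {z | z.2 < δ} ∩ ({z | dist z.1 x₀ < r} ∪ {z | 0 < z.2 ∧ 0 < h z})

/-- outer side of a partition -/
def Vo (x₀ : Fin (m + 1) → ℝ) (r δ : ℝ) (h : (Fin (m + 1) → ℝ) × ℝ → ℝ) :
    Set ((Fin (m + 1) → ℝ) × ℝ) :=
  {z | δ < z.2} ∪ ({z | 2 * r < dist z.1 x₀} ∪ {z | 0 < z.2 ∧ h z < 0})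

lemma Uo_open {x₀ : Fin (m + 1) → ℝ} {r δ : ℝ} {h : (Fin (m + 1) → ℝ) × ℝ → ℝ}
    (hc : ∀ z, 0 < z.2 → ContinuousAt h z) : IsOpen (Uo x₀ r δ h) := by
  refine (isOpen_lt continuous_snd continuous_const).inter
    ((isOpen_lt (by fun_prop) continuous_const).union ?_)
  rw [isOpen_iff_mem_nhds]
  rintro z ⟨hz1, hz2⟩
  filter_upwards [(isOpen_lt continuous_const continuous_snd).mem_nhds hz1,
    (hc z hz1).eventually (lt_mem_nhds hz2)] with y hy1 hy2
  exact ⟨hy1, hy2⟩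

lemma Vo_open {x₀ : Fin (m + 1) → ℝ} {r δ : ℝ} {h : (Fin (m + 1) → ℝ) × ℝ → ℝ}
    (hc : ∀ z, 0 < z.2 → ContinuousAt h z) : IsOpen (Vo x₀ r δ h) := by
  refine (isOpen_lt continuous_const continuous_snd).union
    ((isOpen_lt continuous_const (by fun_prop)).union ?_)
  rw [isOpen_iff_mem_nhds]
  rintro z ⟨hz1, hz2⟩
  filter_upwards [(isOpen_lt continuous_const continuous_snd).mem_nhds hz1,
    (hc z hz1).eventually (gt_mem_nhds hz2)] with y hy1 hy2
  exact ⟨hy1, hy2⟩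

lemma UoVo_disj {x₀ : Fin (m + 1) → ℝ} {r δ : ℝ} {h : (Fin (m + 1) → ℝ) × ℝ → ℝ} (hr : 0 < r)
    (h1 : ∀ z, 0 < z.2 → dist z.1 x₀ ≤ r → 0 < h z)
    (h2 : ∀ z, 0 < z.2 → 2 * r ≤ dist z.1 x₀ → h z < 0) (z : (Fin (m + 1) → ℝ) × ℝ)
    (hzU : z ∈ Uo x₀ r δ h) (hzV : z ∈ Vo x₀ r δ h) : False := by
  obtain ⟨hδ, hU⟩ := hzU
  have hδ' : z.2 < δ := hδ
  rcases hzV with hV | hV | ⟨hV1, hV2⟩
  · have hV' : δ < z.2 := hV
    exact lt_asymm hV' hδ'
  · have hV' : 2 * r < dist z.1 x₀ := hV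
    rcases hU with hU | ⟨hU1, hU2⟩
    · have hU' : dist z.1 x₀ < r := hU
      linarith
    · exact lt_asymm hU2 (h2 z hU1 hV'.le)
  · rcases hU with hU | ⟨hU1, hU2⟩
    · have hU' : dist z.1 x₀ < r := hU
      exact lt_asymm hV2 (h1 z hV1 hU'.le)
    · exact lt_asymm hU2 hV2

lemma zero_of_notMem {x₀ : Fin (m + 1) → ℝ} {r δ : ℝ} {h : (Fin (m + 1) → ℝ) × ℝ → ℝ}
    {z : (Fin (m + 1) → ℝ) × ℝ} (hz : z ∉ Uo x₀ r δ h ∪ Vo x₀ r δ h) (h0 : 0 < z.2)
    (h1 : z.2 < δ) : h z = 0 := by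
  rw [mem_union, not_or] at hz
  have e1 : ¬ 0 < h z := fun hc => hz.1 ⟨h1, Or.inr ⟨h0, hc⟩⟩
  have e2 : ¬ h z < 0 := fun hc => hz.2 (Or.inr (Or.inr ⟨h0, hc⟩))
  exact le_antisymm (not_lt.mp e1) (not_lt.mp e2)

lemma wv_btwn (s : List ℕ) {a b : ℝ} (hab : a < b) : ∃ u : ℚ, a < wv s u ∧ wv s u < b := by
  obtain ⟨u, h1, h2⟩ := exists_rat_btwn (sub_lt_sub_right hab ((Encodable.encode s : ℝ) * √2))
  exact ⟨u, by unfold wv; linarith, by unfold wv; linarith⟩

/-- The upper bound in the model. -/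
theorem pcmp_three (m : ℕ) : PCmp 3 (ZM m) := by
  intro p hp G hG hpG
  by_cases hp2 : 0 < p.2
  · have := step_local (m := m) isClosed_univ hp2 hG hpG 2
    rw [inter_univ] at this
    exact this
  have hp0 : p.2 = 0 := le_antisymm (not_lt.mp hp2) hp.2.1.1
  obtain ⟨η, hη, hηG⟩ := exists_closedBall_disjoint hG hpG
  obtain ⟨S, Q, r, h, hQ, hr, hrpos, hcont, hpos, hneg, hwall, hcov⟩ :=
    exists_functions m p.1 (ρ := η / 2) (by positivity)
  have hU0 : IsOpen (Uo p.1 (η / 2) η (h [])) := Uo_open (hcont [])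
  have hV0 : IsOpen (Vo p.1 (η / 2) η (h [])) := Vo_open (hcont [])
  refine ⟨Uo p.1 (η / 2) η (h []), Vo p.1 (η / 2) η (h []), hU0, hV0, ?_, ?_, ?_, ?_⟩
  · ext z
    simp only [mem_inter_iff, mem_empty_iff_false, iff_false, not_and]
    rintro ⟨hz1, hz2⟩ -
    refine UoVo_disj (by positivity) ?_ ?_ z hz1 hz2
    · intro z hz hd
      exact hpos [] z hz (by rw [hQ, hr]; exact hd)
    · intro z hz hd
      exact hneg [] z hz (by rw [hQ, hr]; exact hd)
  · refine ⟨?_, Or.inl ?_⟩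
    · show p.2 < η
      rw [hp0]; exact hη
    · show dist p.1 p.1 < η / 2
      rw [dist_self]; positivity
  · rintro z ⟨hzG, hzZ⟩
    have h1 := hηG z hzG
    rcases lt_max_iff.mp h1 with h2 | h2
    · right; left
      show 2 * (η / 2) < dist z.1 p.1
      linarith
    · left
      show η < z.2
      rw [hp0, Real.dist_eq, sub_zero, abs_of_nonneg hzZ.2.1.1] at h2
      exact h2
  -- the first partition
  intro z hz G' hG' hzG'
  have hC0 : IsClosed (Uo p.1 (η / 2) η (h []) ∪ Vo p.1 (η / 2) η (h []))ᶜ :=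
    (hU0.union hV0).isClosed_compl
  by_cases hz2 : 0 < z.2
  · rw [diff_eq]
    exact step_local hC0 hz2 hG' hzG' 1
  have hz0 : z.2 = 0 := le_antisymm (not_lt.mp hz2) hz.1.2.1.1
  obtain ⟨η', hη', hηG'⟩ := exists_closedBall_disjoint hG' hzG'
  obtain ⟨s, hs, hzs, hrs⟩ := hcov z.1 (η' / 4) (by positivity)
  have hUs : IsOpen (Uo (Q s) (r s) η' (h s)) := Uo_open (hcont s)
  have hVs : IsOpen (Vo (Q s) (r s) η' (h s)) := Vo_open (hcont s)
  refine ⟨Uo (Q s) (r s) η' (h s), Vo (Q s) (r s) η' (h s), hUs, hVs, ?_, ?_, ?_, ?_⟩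
  · ext w
    simp only [mem_inter_iff, mem_empty_iff_false, iff_false, not_and]
    rintro ⟨hw1, hw2⟩ -
    exact UoVo_disj (hrpos s) (hpos s) (hneg s) w hw1 hw2
  · refine ⟨?_, Or.inl hzs⟩
    show z.2 < η'
    rw [hz0]; exact hη'
  · rintro w ⟨hwG, hwZ⟩
    have h1 := hηG' w hwG
    rcases lt_max_iff.mp h1 with h2 | h2
    · right; left
      show 2 * r s < dist w.1 (Q s)
      have h3 := dist_triangle_right w.1 z.1 (Q s)
      have h4 := hrpos s
      linarith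
    · left
      show η' < w.2
      rw [hz0, Real.dist_eq, sub_zero, abs_of_nonneg hwZ.1.2.1.1] at h2
      exact h2
  -- the second partition
  intro w hw G'' hG'' hwG''
  have hCs : IsClosed (Uo (Q s) (r s) η' (h s) ∪ Vo (Q s) (r s) η' (h s))ᶜ :=
    (hUs.union hVs).isClosed_compl
  by_cases hw2 : 0 < w.2
  · rw [diff_eq, diff_eq, inter_assoc]
    exact step_local (hC0.inter hCs) hw2 hG'' hwG'' 0
  have hw0 : w.2 = 0 := le_antisymm (not_lt.mp hw2) hw.1.1.2.1.1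
  obtain ⟨ζ, hζ, hζG⟩ := exists_closedBall_disjoint hG'' hwG''
  have hu : ∀ i : Fin (m + 1), ∃ u : ℚ, w.1 i - ζ < wv s u ∧ wv s u < w.1 i := fun i =>
    wv_btwn s (by linarith)
  have hv : ∀ i : Fin (m + 1), ∃ u : ℚ, w.1 i < wv s u ∧ wv s u < w.1 i + ζ := fun i =>
    wv_btwn s (by linarith)
  choose u hu1 hu2 using hu
  choose v hv1 hv2 using hv
  let N : ℕ := ∑ i, ((Encodable.encode s + Encodable.encode (u i)) +
    (Encodable.encode s + Encodable.encode (v i)))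
  have hN : ∀ i, (Encodable.encode s + Encodable.encode (u i)) +
      (Encodable.encode s + Encodable.encode (v i)) ≤ N := fun i =>
    Finset.single_le_sum (f := fun i => (Encodable.encode s + Encodable.encode (u i)) +
      (Encodable.encode s + Encodable.encode (v i))) (fun i _ => Nat.zero_le _)
      (Finset.mem_univ i)
  let t₁ : ℝ := min (min (η / 2) (η' / 2)) (min ζ (1 / (N + 1)))
  have ht₁ : 0 < t₁ := by positivity
  have ht1a : t₁ < η := by
    have : t₁ ≤ η / 2 := (min_le_left _ _).trans (min_le_left _ _)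
    linarith
  have ht1b : t₁ < η' := by
    have : t₁ ≤ η' / 2 := (min_le_left _ _).trans (min_le_right _ _)
    linarith
  have ht1c : t₁ ≤ ζ := (min_le_right _ _).trans (min_le_left _ _)
  have ht1d : (N + 1 : ℝ) * t₁ ≤ 1 := by
    have h1 : t₁ ≤ 1 / (N + 1) := (min_le_right _ _).trans (min_le_right _ _)
    have h2 : (0 : ℝ) < N + 1 := by positivity
    rw [le_div_iff₀ h2] at h1
    linarith
  have hUo : IsOpen {y : (Fin (m + 1) → ℝ) × ℝ | (∀ i, wv s (u i) < y.1 i ∧ y.1 i < wv s (v i)) ∧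
      y.2 < t₁} := by
    have e : {y : (Fin (m + 1) → ℝ) × ℝ | (∀ i, wv s (u i) < y.1 i ∧ y.1 i < wv s (v i)) ∧
        y.2 < t₁} = (⋂ i, ({y : (Fin (m + 1) → ℝ) × ℝ | wv s (u i) < y.1 i} ∩
          {y : (Fin (m + 1) → ℝ) × ℝ | y.1 i < wv s (v i)})) ∩
          {y : (Fin (m + 1) → ℝ) × ℝ | y.2 < t₁} := by
      ext y
      simp only [mem_inter_iff, mem_iInter, mem_setOf_eq]
    rw [e]
    refine IsOpen.inter (isOpen_iInter_of_finite fun i => ?_)
      (isOpen_lt continuous_snd continuous_const)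
    exact (isOpen_lt continuous_const (by fun_prop)).inter
      (isOpen_lt (by fun_prop) continuous_const)
  have hVo : IsOpen {y : (Fin (m + 1) → ℝ) × ℝ | (∃ i, y.1 i < wv s (u i) ∨ wv s (v i) < y.1 i) ∨
      t₁ < y.2} := by
    have e : {y : (Fin (m + 1) → ℝ) × ℝ | (∃ i, y.1 i < wv s (u i) ∨ wv s (v i) < y.1 i) ∨
        t₁ < y.2} = (⋃ i, ({y : (Fin (m + 1) → ℝ) × ℝ | y.1 i < wv s (u i)} ∪
          {y : (Fin (m + 1) → ℝ) × ℝ | wv s (v i) < y.1 i})) ∪
          {y : (Fin (m + 1) → ℝ) × ℝ | t₁ < y.2} := by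
      ext y
      simp only [mem_union, mem_iUnion, mem_setOf_eq]
    rw [e]
    refine IsOpen.union (isOpen_iUnion fun i => ?_)
      (isOpen_lt continuous_const continuous_snd)
    exact (isOpen_lt (by fun_prop) continuous_const).union
      (isOpen_lt continuous_const (by fun_prop))
  refine ⟨_, _, hUo, hVo, ?_, ?_, ?_, ?_⟩
  · ext y
    simp only [mem_inter_iff, mem_empty_iff_false, iff_false, not_and]
    rintro ⟨⟨hy1, hy2⟩, hy3⟩ -
    rcases hy3 with ⟨i, hi | hi⟩ | hy3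
    · exact lt_asymm hi (hy1 i).1
    · exact lt_asymm hi (hy1 i).2
    · exact lt_asymm hy3 hy2
  · refine ⟨fun i => ⟨hu2 i, hv1 i⟩, ?_⟩
    rw [hw0]; exact ht₁
  · rintro y ⟨hyG, hyZ⟩
    have h1 := hζG y hyG
    rcases lt_max_iff.mp h1 with h2 | h2
    · left
      obtain ⟨i, hi⟩ : ∃ i, ζ < dist (y.1 i) (w.1 i) := by
        by_contra hc
        push Not at hc
        have := (dist_pi_le_iff hζ.le).mpr hc
        linarith
      rw [Real.dist_eq] at hi
      refine ⟨i, ?_⟩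
      rcases lt_abs.mp hi with h3 | h3
      · right; linarith [hv2 i]
      · left; linarith [hu1 i]
    · right
      rw [hw0, Real.dist_eq, sub_zero, abs_of_nonneg hyZ.1.1.2.1.1] at h2
      linarith
  -- the third partition is compact
  show IsCompact _
  rw [diff_eq, diff_eq, diff_eq, inter_assoc, inter_assoc]
  refine compact_of_subset (hC0.inter (hCs.inter (hUo.union hVo).isClosed_compl)) ht₁ ?_
  rintro y ⟨hyZ, hy0, hys, hyw⟩
  by_contra hc
  push Not at hc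
  have hypos : 0 < y.2 := lt_of_le_of_ne hyZ.2.1.1 (Ne.symm hc.1)
  have hylt : y.2 < t₁ := hc.2
  have hz1 : h [] y = 0 := zero_of_notMem hy0 hypos (hylt.trans ht1a)
  have hz2 : h s y = 0 := zero_of_notMem hys hypos (hylt.trans ht1b)
  rw [mem_compl_iff, mem_union, not_or] at hyw
  obtain ⟨hyU, hyV⟩ := hyw
  have hyV1 : ∀ i, wv s (u i) ≤ y.1 i ∧ y.1 i ≤ wv s (v i) := by
    intro i
    constructor
    · by_contra hcc
      exact hyV (Or.inl ⟨i, Or.inl (not_le.mp hcc)⟩)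
    · by_contra hcc
      exact hyV (Or.inl ⟨i, Or.inr (not_le.mp hcc)⟩)
  have hex : ∃ i, y.1 i = wv s (u i) ∨ y.1 i = wv s (v i) := by
    by_contra hcc
    push Not at hcc
    apply hyU
    refine ⟨fun i => ⟨?_, ?_⟩, hylt⟩
    · exact lt_of_le_of_ne (hyV1 i).1 (Ne.symm (hcc i).1)
    · exact lt_of_le_of_ne (hyV1 i).2 (hcc i).2
  obtain ⟨i, hi | hi⟩ := hex
  · refine hwall s hs (u i) i y hypos hi ?_ hz2 hz1
    have e1 : ((Encodable.encode s + Encodable.encode (u i) : ℕ) : ℝ) ≤ (N : ℝ) + 1 := by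
      have : Encodable.encode s + Encodable.encode (u i) ≤ N + 1 := by
        have := hN i
        omega
      exact_mod_cast this
    calc ((Encodable.encode s + Encodable.encode (u i) : ℕ) : ℝ) * y.2
        ≤ ((N : ℝ) + 1) * t₁ := by gcongr
      _ ≤ 1 := ht1d
  · refine hwall s hs (v i) i y hypos hi ?_ hz2 hz1
    have e1 : ((Encodable.encode s + Encodable.encode (v i) : ℕ) : ℝ) ≤ (N : ℝ) + 1 := by
      have : Encodable.encode s + Encodable.encode (v i) ≤ N + 1 := by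
        have := hN i
        omega
      exact_mod_cast this
    calc ((Encodable.encode s + Encodable.encode (v i) : ℕ) : ℝ) * y.2
        ≤ ((N : ℝ) + 1) * t₁ := by gcongr
      _ ≤ 1 := ht1d

end Model

end Pool.Agent.Helper286.Strict
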