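import Mathlib

/-! Cubical cochains, path sums of labels and box sums, all modulo 2. -/

namespace Pool.Agent.Helper286.Strict

open Finset

set_option linter.unusedSectionVars false

variable {ι : Type*} [DecidableEq ι]

/-- cubical coboundary modulo 2 -/
def dd (Φ : Finset ι → (ι → ℤ) → ZMod 2) (V : Finset ι) (x : ι → ℤ) : ZMod 2 :=
  ∑ i ∈ V, (Φ (V.erase i) x + Φ (V.erase i) (x + Pi.single i 1))

/-- number modulo 2 of monotone paths through the cube `(V, x)` with `k` steps such that the
labels of the vertices run once through `T` -/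
def FF (l : (ι → ℤ) → ℕ) : ℕ → Finset ι → (ι → ℤ) → Finset ℕ → ZMod 2
  | 0, _, x, T => if T = {l x} then 1 else 0
  | k + 1, V, x, T => ∑ i ∈ V,
      if l x ∈ T then FF l k (V.erase i) (x + Pi.single i 1) (T.erase (l x)) else 0

lemma z2 (a : ZMod 2) : a + a = 0 := CharTwo.add_self_eq_zero a

lemma sum_swap (V : Finset ι) (f : ι → ι → ZMod 2) :
    ∑ i ∈ V, ∑ j ∈ V.erase i, f i j = ∑ i ∈ V, ∑ j ∈ V.erase i, f j i := by
  apply Finset.sum_comm'
  intro x y
  simp only [mem_erase]
  tauto

lemma sum_symm_zero (V : Finset ι) (f : ι → ι → ZMod 2) (hf : ∀ i j, i ≠ j → f i j = f j i) :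
    ∑ i ∈ V, ∑ j ∈ V.erase i, f i j = 0 := by
  rw [Finset.sum_sigma']
  refine Finset.sum_involution (fun a _ => ⟨a.2, a.1⟩) ?_ ?_ ?_ ?_
  · rintro ⟨i, j⟩ h
    simp only [mem_sigma, mem_erase] at h
    simp only
    rw [hf i j (fun h' => h.2.1 h'.symm)]
    exact z2 _
  · rintro ⟨i, j⟩ h _
    simp only [mem_sigma, mem_erase] at h
    intro hc
    simp only [Sigma.mk.injEq] at hc
    exact h.2.1 hc.1
  · rintro ⟨i, j⟩ h
    simp only [mem_sigma, mem_erase] at h ⊢
    exact ⟨h.2.2, fun h' => h.2.1 h'.symm, h.1⟩
  · rintro ⟨i, j⟩ _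
    rfl

lemma dFF (l : (ι → ℤ) → ℕ) (Λ : Finset ℕ) (hl : ∀ x, l x ∈ Λ) : ∀ (k : ℕ) (V : Finset ι)
    (x : ι → ℤ) (T : Finset ℕ), T.card = k + 1 →
    ∑ i ∈ V, (FF l k (V.erase i) x T + FF l k (V.erase i) (x + Pi.single i 1) T) =
      ∑ y ∈ Λ \ T, FF l (k + 1) V x (insert y T) := by
  intro k
  induction k with
  | zero =>
    intro V x T hT
    obtain ⟨s, rfl⟩ := Finset.card_eq_one.mp hT
    simp only [FF]
    rw [Finset.sum_comm]
    refine Finset.sum_congr rfl fun i _ => ?_
    by_cases h : s = l x
    · subst h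
      simp only [if_true]
      have h1 : ∀ y ∈ Λ \ {l x}, (if l x ∈ insert y ({l x} : Finset ℕ) then
          (if (insert y ({l x} : Finset ℕ)).erase (l x) = {l (x + Pi.single i 1)} then
            (1 : ZMod 2) else 0) else 0) = if y = l (x + Pi.single i 1) then 1 else 0 := by
        intro y hy
        simp only [mem_sdiff, mem_singleton] at hy
        have h2 : (insert y ({l x} : Finset ℕ)).erase (l x) = {y} := by
          ext a
          simp only [mem_erase, mem_insert, mem_singleton]
          constructor
          · rintro ⟨h3, h4 | h4⟩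
            · exact h4
            · exact absurd h4 h3
          · rintro rfl
            exact ⟨hy.2, Or.inl rfl⟩
        rw [if_pos (by simp), h2]
        simp
      rw [Finset.sum_congr rfl h1]
      by_cases h5 : l (x + Pi.single i 1) = l x
      · rw [h5]
        simp only [if_true]
        rw [Finset.sum_eq_zero]
        · exact z2 _
        · intro y hy
          simp only [mem_sdiff, mem_singleton] at hy
          rw [if_neg hy.2]
      · have h6 : ¬ ({l x} : Finset ℕ) = {l (x + Pi.single i 1)} := by
          simp only [Finset.singleton_inj]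
          exact fun h => h5 h.symm
        rw [if_neg h6, Finset.sum_ite_eq']
        rw [if_pos (by simp only [mem_sdiff, mem_singleton]; exact ⟨hl _, h5⟩), add_zero]
    · have h7 : ¬ ({s} : Finset ℕ) = {l x} := by
        simp only [Finset.singleton_inj]
        exact h
      rw [if_neg h7, zero_add]
      rw [Finset.sum_eq_single (l x)]
      · have h8 : (insert (l x) ({s} : Finset ℕ)).erase (l x) = {s} := by
          rw [Finset.erase_insert]
          simp only [mem_singleton]
          exact fun h' => h h'.symm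
        rw [h8, if_pos (Finset.mem_insert_self (l x) ({s} : Finset ℕ))]
      · intro y _ hy
        rw [if_neg]
        simp only [mem_insert, mem_singleton, not_or]
        exact ⟨fun h' => hy h'.symm, fun h' => h h'.symm⟩
      · intro h'
        exfalso
        apply h'
        simp only [mem_sdiff, mem_singleton]
        exact ⟨hl _, fun h'' => h h''.symm⟩
  | succ k ih =>
    intro V x T hT
    by_cases hx : l x ∈ T
    · set T' := T.erase (l x) with hT'
      have hTc : T'.card = k + 1 := by
        rw [hT', Finset.card_erase_of_mem hx, hT]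
        rfl
      have hins : insert (l x) T' = T := Finset.insert_erase hx
      have hnot : l x ∉ T' := Finset.notMem_erase _ _
      -- the right side
      have hR : ∑ y ∈ Λ \ T, FF l (k + 2) V x (insert y T) =
          ∑ y ∈ Λ \ T, ∑ i ∈ V, FF l (k + 1) (V.erase i) (x + Pi.single i 1) (insert y T') := by
        refine Finset.sum_congr rfl fun y hy => ?_
        simp only [mem_sdiff] at hy
        have h1 : (insert y T).erase (l x) = insert y T' := by
          rw [Finset.erase_insert_of_ne]
          rintro rfl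
          exact hy.2 hx
        show (∑ i ∈ V, if l x ∈ insert y T then _ else _) = _
        refine Finset.sum_congr rfl fun i _ => ?_
        rw [if_pos (Finset.mem_insert_of_mem hx), h1]
      have hΛ : Λ \ T' = insert (l x) (Λ \ T) := by
        ext a
        simp only [mem_sdiff, mem_insert, hT', mem_erase, not_and]
        constructor
        · rintro ⟨h1, h2⟩
          by_cases h3 : a = l x
          · exact Or.inl h3
          · exact Or.inr ⟨h1, h2 h3⟩
        · rintro (h1 | ⟨h1, h2⟩)
          · subst h1
            exact ⟨hl _, fun h => absurd rfl h⟩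
          · exact ⟨h1, fun _ => h2⟩
      have hI : ∑ y ∈ Λ \ T', ∑ i ∈ V,
          FF l (k + 1) (V.erase i) (x + Pi.single i 1) (insert y T') =
          ∑ i ∈ V, ∑ j ∈ V.erase i, (FF l k ((V.erase i).erase j) (x + Pi.single i 1) T' +
            FF l k ((V.erase i).erase j) (x + Pi.single i 1 + Pi.single j 1) T') := by
        rw [Finset.sum_comm]
        refine Finset.sum_congr rfl fun i _ => ?_
        exact (ih (V.erase i) (x + Pi.single i 1) T' hTc).symm
      rw [hΛ, Finset.sum_insert (by simp [hx])] at hI
      rw [hins] at hI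
      have hL1 : ∑ i ∈ V, FF l (k + 1) (V.erase i) x T =
          ∑ i ∈ V, ∑ j ∈ V.erase i, FF l k ((V.erase i).erase j) (x + Pi.single i 1) T' := by
        rw [sum_swap]
        refine Finset.sum_congr rfl fun i _ => ?_
        show (∑ j ∈ V.erase i, if l x ∈ T then _ else _) = _
        refine Finset.sum_congr rfl fun j _ => ?_
        rw [if_pos hx, Finset.erase_right_comm]
      have hS : ∑ i ∈ V, ∑ j ∈ V.erase i,
          FF l k ((V.erase i).erase j) (x + Pi.single i 1 + Pi.single j 1) T' = 0 := by
        apply sum_symm_zero V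
          (fun i j => FF l k ((V.erase i).erase j) (x + Pi.single i 1 + Pi.single j 1) T')
        intro i j _
        rw [Finset.erase_right_comm, add_right_comm]
      rw [Finset.sum_add_distrib, hL1]
      simp only [Finset.sum_add_distrib] at hI
      rw [hS, add_zero] at hI
      rw [← hI, hR]
      have := z2 (∑ i ∈ V, FF l (k + 1) (V.erase i) (x + Pi.single i 1) T)
      linear_combination this
    · have hL : ∀ i ∈ V, FF l (k + 1) (V.erase i) x T = 0 := by
        intro i _
        show (∑ j ∈ V.erase i, if l x ∈ T then _ else _) = _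
        refine Finset.sum_eq_zero fun j _ => ?_
        rw [if_neg hx]
      rw [Finset.sum_add_distrib, Finset.sum_eq_zero hL, zero_add]
      rw [Finset.sum_eq_single (l x)]
      · show _ = (∑ i ∈ V, if l x ∈ insert (l x) T then _ else _)
        refine Finset.sum_congr rfl fun i _ => ?_
        rw [if_pos (Finset.mem_insert_self _ _), Finset.erase_insert hx]
      · intro y _ hy
        show (∑ i ∈ V, if l x ∈ insert y T then _ else _) = _
        refine Finset.sum_eq_zero fun j _ => ?_
        rw [if_neg]
        simp only [mem_insert, not_or]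
        exact ⟨fun h' => hy h'.symm, hx⟩
      · intro h'
        exfalso
        apply h'
        simp only [mem_sdiff]
        exact ⟨hl _, hx⟩

/-- vertices of a cube -/
def vt (V : Finset ι) (x y : ι → ℤ) : Prop := ∀ i, y i = x i ∨ (i ∈ V ∧ y i = x i + 1)

lemma vt_self (V : Finset ι) (x : ι → ℤ) : vt V x x := fun _ => Or.inl rfl

lemma vt_step {V : Finset ι} {x y : ι → ℤ} {i : ι} (hi : i ∈ V)
    (h : vt (V.erase i) (x + Pi.single i 1) y) : vt V x y := by
  intro j
  have hj := h j
  by_cases hji : j = i
  · subst hji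
    right
    refine ⟨hi, ?_⟩
    rcases hj with hj | hj
    · simpa using hj
    · exact absurd hj.1 (Finset.notMem_erase _ _)
  · simp only [Pi.add_apply, Pi.single_eq_of_ne hji, add_zero, mem_erase] at hj
    rcases hj with hj | hj
    · exact Or.inl hj
    · exact Or.inr ⟨hj.1.2, hj.2⟩

lemma vt_mono {V W : Finset ι} (hVW : V ⊆ W) {x y : ι → ℤ} (h : vt V x y) : vt W x y := by
  intro j
  rcases h j with hj | hj
  · exact Or.inl hj
  · exact Or.inr ⟨hVW hj.1, hj.2⟩

lemma FF_attain (l : (ι → ℤ) → ℕ) : ∀ (k : ℕ) (V : Finset ι) (x : ι → ℤ) (T : Finset ℕ),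
    FF l k V x T ≠ 0 → ∀ t ∈ T, ∃ y, vt V x y ∧ l y = t := by
  intro k
  induction k with
  | zero =>
    intro V x T h t ht
    simp only [FF] at h
    by_cases hT : T = {l x}
    · rw [hT, mem_singleton] at ht
      exact ⟨x, vt_self V x, ht.symm⟩
    · rw [if_neg hT] at h
      exact absurd rfl h
  | succ k ih =>
    intro V x T h t ht
    have h' : (∑ i ∈ V,
      if l x ∈ T then FF l k (V.erase i) (x + Pi.single i 1) (T.erase (l x)) else 0) ≠ 0 := h
    obtain ⟨i, hi, hi'⟩ := Finset.exists_ne_zero_of_sum_ne_zero h'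
    by_cases hx : l x ∈ T
    · rw [if_pos hx] at hi'
      by_cases htx : t = l x
      · exact ⟨x, vt_self V x, htx.symm⟩
      · obtain ⟨y, hy, hyt⟩ := ih _ _ _ hi' t (Finset.mem_erase.mpr ⟨htx, ht⟩)
        exact ⟨y, vt_step hi hy, hyt⟩
    · rw [if_neg hx] at hi'
      exact absurd rfl hi'

lemma FF_congr {l l' : (ι → ℤ) → ℕ} : ∀ (k : ℕ) (V : Finset ι) (x : ι → ℤ) (T : Finset ℕ),
    (∀ y, vt V x y → l y = l' y) → FF l k V x T = FF l' k V x T := by
  intro k
  induction k with
  | zero =>
    intro V x T h
    simp only [FF]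
    rw [h x (vt_self V x)]
  | succ k ih =>
    intro V x T h
    show (∑ i ∈ V,
      if l x ∈ T then FF l k (V.erase i) (x + Pi.single i 1) (T.erase (l x)) else 0) =
      (∑ i ∈ V,
      if l' x ∈ T then FF l' k (V.erase i) (x + Pi.single i 1) (T.erase (l' x)) else 0)
    refine Finset.sum_congr rfl fun i hi => ?_
    rw [h x (vt_self V x), ih _ _ _ (fun y hy => h y (vt_step hi hy))]

/-! ### window labels -/

open Classical in
/-- first index `c` in `[a, a+k)` with `Z c`, or `a + k` if there is none -/
noncomputable def lab (Z : ℕ → Prop) : ℕ → ℕ → ℕ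
  | a, 0 => a
  | a, k + 1 => if Z a then a else lab Z (a + 1) k

lemma lab_ge (Z : ℕ → Prop) : ∀ (k a : ℕ), a ≤ lab Z a k := by
  intro k
  induction k with
  | zero => intro a; exact le_rfl
  | succ k ih =>
    intro a
    simp only [lab]
    split_ifs
    · exact le_rfl
    · exact le_trans (Nat.le_succ a) (ih (a + 1))

lemma lab_le (Z : ℕ → Prop) : ∀ (k a : ℕ), lab Z a k ≤ a + k := by
  intro k
  induction k with
  | zero => intro a; exact le_rfl
  | succ k ih =>
    intro a
    simp only [lab]
    split_ifs
    · omega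
    · have := ih (a + 1)
      omega

lemma lab_ne (Z : ℕ → Prop) : ∀ (k a b : ℕ), b < a + k → ¬ Z b → lab Z a k ≠ b := by
  intro k
  induction k with
  | zero =>
    intro a b hb _ h
    simp only [lab] at h
    omega
  | succ k ih =>
    intro a b hb hZ
    simp only [lab]
    split_ifs with h
    · rintro rfl
      exact hZ h
    · exact ih (a + 1) b (by omega) hZ

lemma lab_le_of (Z : ℕ → Prop) : ∀ (k a b : ℕ), a ≤ b → b < a + k → Z b → lab Z a k ≤ b := by
  intro k
  induction k with
  | zero => intro a b h1 h2; omega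
  | succ k ih =>
    intro a b h1 h2 hZ
    simp only [lab]
    split_ifs with h
    · exact h1
    · have : b ≠ a := by
        rintro rfl
        exact h hZ
      exact ih (a + 1) b (by omega) (by omega) hZ

lemma lab_succ_of_not (Z : ℕ → Prop) (k a : ℕ) (h : ¬ Z a) :
    lab Z a (k + 1) = lab Z (a + 1) k := by
  simp only [lab]
  rw [if_neg h]

lemma lab_succ_of (Z : ℕ → Prop) : ∀ (k a : ℕ), Z (a + k) → lab Z a (k + 1) = lab Z a k := by
  intro k
  induction k with
  | zero =>
    intro a h
    simp only [lab]
    rw [if_pos (by simpa using h)]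
  | succ k ih =>
    intro a h
    rw [lab]
    conv_rhs => rw [lab]
    split_ifs with h1
    · rfl
    · apply ih
      have : a + 1 + k = a + (k + 1) := by omega
      rw [this]
      exact h

lemma lab_congr {Z Z' : ℕ → Prop} : ∀ (k a : ℕ), (∀ b, a ≤ b → b < a + k → (Z b ↔ Z' b)) →
    lab Z a k = lab Z' a k := by
  intro k
  induction k with
  | zero => intro a _; rfl
  | succ k ih =>
    intro a h
    rw [lab]
    conv_rhs => rw [lab]
    rw [ih (a + 1) (fun b h1 h2 => h b (by omega) (by omega))]
    have h0 := h a le_rfl (by omega)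
    by_cases hZ : Z a
    · rw [if_pos hZ, if_pos (h0.mp hZ)]
    · rw [if_neg hZ, if_neg (fun h' => hZ (h0.mpr h'))]

/-! ### box sums -/

/-- the box of offsets supported in `V` -/
noncomputable def bx [Fintype ι] (V : Finset ι) (N : ι → ℕ) : Finset (ι → ℤ) :=
  Fintype.piFinset (fun i => if i ∈ V then Finset.Ico (0 : ℤ) (N i) else {0})

lemma mem_bx [Fintype ι] {V : Finset ι} {N : ι → ℕ} {u : ι → ℤ} :
    u ∈ bx V N ↔ (∀ i ∈ V, 0 ≤ u i ∧ u i < N i) ∧ ∀ i, i ∉ V → u i = 0 := by
  unfold bx
  rw [Fintype.mem_piFinset]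
  constructor
  · intro h
    refine ⟨fun i hi => ?_, fun i hi => ?_⟩
    · have := h i
      rw [if_pos hi, mem_Ico] at this
      exact this
    · have := h i
      rw [if_neg hi, mem_singleton] at this
      exact this
  · rintro ⟨h1, h2⟩ i
    by_cases hi : i ∈ V
    · rw [if_pos hi, mem_Ico]
      exact h1 i hi
    · rw [if_neg hi, mem_singleton]
      exact h2 i hi

/-- box sums -/
noncomputable def bs [Fintype ι] (V : Finset ι) (N : ι → ℕ) (F : (ι → ℤ) → ZMod 2) : ZMod 2 :=
  ∑ u ∈ bx V N, F u

variable [Fintype ι]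

lemma bs_congr {V : Finset ι} {N : ι → ℕ} {F G : (ι → ℤ) → ZMod 2}
    (h : ∀ u ∈ bx V N, F u = G u) : bs V N F = bs V N G := Finset.sum_congr rfl h

lemma bs_zero {V : Finset ι} {N : ι → ℕ} {F : (ι → ℤ) → ZMod 2}
    (h : ∀ u ∈ bx V N, F u = 0) : bs V N F = 0 := Finset.sum_eq_zero h

lemma bs_empty (N : ι → ℕ) (F : (ι → ℤ) → ZMod 2) : bs ∅ N F = F 0 := by
  have : bx (∅ : Finset ι) N = {0} := by
    ext u
    rw [mem_bx, mem_singleton]
    constructor
    · intro h
      funext i
      exact h.2 i (Finset.notMem_empty i)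
    · rintro rfl
      exact ⟨fun i hi => absurd hi (Finset.notMem_empty i), fun i _ => rfl⟩
  unfold bs
  rw [this, Finset.sum_singleton]

lemma bs_add (V : Finset ι) (N : ι → ℕ) (F G : (ι → ℤ) → ZMod 2) :
    bs V N (fun u => F u + G u) = bs V N F + bs V N G := Finset.sum_add_distrib

lemma bs_insert {V : Finset ι} {i : ι} (hi : i ∉ V) (N : ι → ℕ) (F : (ι → ℤ) → ZMod 2) :
    bs (insert i V) N F = ∑ t ∈ range (N i), bs V N (fun u => F (u + Pi.single i (t : ℤ))) := by
  unfold bs
  rw [← Finset.sum_product']
  refine Finset.sum_bij' (fun u _ => ((u i).toNat, Function.update u i 0))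
    (fun p _ => p.2 + Pi.single i (p.1 : ℤ)) ?_ ?_ ?_ ?_ ?_
  · intro u hu
    rw [mem_bx] at hu
    have h1 := hu.1 i (mem_insert_self i V)
    simp only [mem_product, mem_range, mem_bx]
    refine ⟨by omega, fun j hj => ?_, fun j hj => ?_⟩
    · have : j ≠ i := fun h => hi (h ▸ hj)
      rw [Function.update_of_ne this]
      exact hu.1 j (mem_insert_of_mem hj)
    · by_cases hji : j = i
      · subst hji
        simp
      · rw [Function.update_of_ne hji]
        apply hu.2
        simp only [mem_insert, not_or]
        exact ⟨hji, hj⟩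
  · rintro ⟨t, u⟩ h
    simp only [mem_product, mem_range, mem_bx] at h
    rw [mem_bx]
    have h0 := h.2.2 i hi
    refine ⟨fun j hj => ?_, fun j hj => ?_⟩
    · by_cases hji : j = i
      · subst hji
        simp only [Pi.add_apply, Pi.single_eq_same, h0]
        omega
      · simp only [Pi.add_apply, Pi.single_eq_of_ne hji, add_zero]
        exact h.2.1 j ((mem_insert.mp hj).resolve_left hji)
    · simp only [mem_insert, not_or] at hj
      simp only [Pi.add_apply, Pi.single_eq_of_ne hj.1, add_zero]
      exact h.2.2 j hj.2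
  · intro u hu
    rw [mem_bx] at hu
    have h1 := hu.1 i (mem_insert_self i V)
    funext j
    by_cases hji : j = i
    · subst hji
      simp only [Pi.add_apply, Function.update_self, Pi.single_eq_same, zero_add]
      omega
    · simp only [Pi.add_apply, Function.update_of_ne hji, Pi.single_eq_of_ne hji, add_zero]
  · rintro ⟨t, u⟩ h
    simp only [mem_product, mem_range, mem_bx] at h
    have h0 := h.2.2 i hi
    refine Prod.ext ?_ ?_
    · simp only [Pi.add_apply, Pi.single_eq_same, h0]
      omega
    · funext j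
      by_cases hji : j = i
      · subst hji
        simp only [Function.update_self, h0]
      · simp only [Function.update_of_ne hji, Pi.add_apply, Pi.single_eq_of_ne hji, add_zero]
  · intro u hu
    rw [mem_bx] at hu
    have h1 := hu.1 i (mem_insert_self i V)
    simp only
    congr 1
    funext j
    by_cases hji : j = i
    · subst hji
      simp only [Pi.add_apply, Function.update_self, Pi.single_eq_same, zero_add]
      omega
    · simp only [Pi.add_apply, Function.update_of_ne hji, Pi.single_eq_of_ne hji, add_zero]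

/-- telescoping modulo 2 -/
lemma tele (N : ℕ) (f : ℕ → ZMod 2) :
    ∑ t ∈ range N, (f t + f (t + 1)) = f 0 + f N := by
  induction N with
  | zero => simp [z2]
  | succ N ih =>
    rw [Finset.sum_range_succ, ih]
    have := z2 (f N)
    linear_combination this

lemma bs_sum {κ : Type*} (V : Finset ι) (N : ι → ℕ) (S : Finset κ)
    (F : κ → (ι → ℤ) → ZMod 2) :
    bs V N (fun u => ∑ i ∈ S, F i u) = ∑ i ∈ S, bs V N (F i) := Finset.sum_comm

/-- Stokes for box sums -/
lemma stokes (V : Finset ι) (N : ι → ℕ) (Φ : Finset ι → (ι → ℤ) → ZMod 2) (y : ι → ℤ) :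
    bs V N (fun u => dd Φ V (y + u)) =
      ∑ i ∈ V, (bs (V.erase i) N (fun u => Φ (V.erase i) (y + u)) +
        bs (V.erase i) N (fun u => Φ (V.erase i) (y + Pi.single i (N i : ℤ) + u))) := by
  unfold dd
  rw [bs_sum]
  refine Finset.sum_congr rfl fun i hi => ?_
  conv_lhs => rw [← Finset.insert_erase hi]
  rw [bs_insert (Finset.notMem_erase i V)]
  simp only [Finset.insert_erase hi]
  unfold bs
  rw [Finset.sum_comm]
  rw [← Finset.sum_add_distrib]
  refine Finset.sum_congr rfl fun u _ => ?_
  have h := tele (N i) (fun t => Φ (V.erase i) (y + u + Pi.single i (t : ℤ)))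
  simp only [Nat.cast_zero, Pi.single_zero, add_zero, Nat.cast_add, Nat.cast_one,
    Pi.single_add] at h
  have h2 : y + Pi.single i (N i : ℤ) + u = y + u + Pi.single i (N i : ℤ) := by abel
  rw [h2, ← h]
  refine Finset.sum_congr rfl fun t _ => ?_
  congr 2
  · abel
  · abel

end Pool.Agent.Helper286.Strict
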