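import Pool.Agent.Helper286.Strict.P06

/-! Block sums, independence of the fixed coordinates, and the pairing. -/

namespace Pool.Agent.Helper286.Strict

open Finset

set_option linter.unusedSectionVars false

variable {ι : Type*} [DecidableEq ι] [Fintype ι]

lemma bs_union {V W : Finset ι} (hVW : Disjoint V W) (N : ι → ℕ) (F : (ι → ℤ) → ZMod 2) :
    bs (V ∪ W) N F = bs V N (fun u => bs W N (fun w => F (u + w))) := by
  induction V using Finset.induction_on generalizing F with
  | empty =>
    rw [bs_empty, Finset.empty_union]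
    simp
  | insert i V hi ih =>
    rw [Finset.insert_union, bs_insert hi]
    rw [Finset.disjoint_insert_left] at hVW
    rw [bs_insert (by simp only [mem_union, not_or]; exact ⟨hi, hVW.1⟩)]
    refine Finset.sum_congr rfl fun t _ => ?_
    rw [ih hVW.2]
    apply bs_congr
    intro u _
    apply bs_congr
    intro w _
    congr 1
    abel

/-- scaled and shifted block sums of a cochain -/
noncomputable def blk (g : ℕ) (o : ι → ℤ) (Φ : Finset ι → (ι → ℤ) → ZMod 2) (V : Finset ι)
    (X : ι → ℤ) : ZMod 2 :=
  bs V (fun _ => g) (fun u => Φ V ((g : ℤ) • X + o + u))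

lemma dd_blk (g : ℕ) (o : ι → ℤ) (Φ : Finset ι → (ι → ℤ) → ZMod 2) (V : Finset ι)
    (X : ι → ℤ) : dd (blk g o Φ) V X = bs V (fun _ => g) (fun u => dd Φ V ((g : ℤ) • X + o + u)) := by
  rw [stokes]
  unfold dd blk
  refine Finset.sum_congr rfl fun i _ => ?_
  congr 2
  funext u
  congr 2
  rw [smul_add]
  have : (g : ℤ) • (Pi.single i 1 : ι → ℤ) = Pi.single i (g : ℤ) := by
    funext j
    by_cases hj : j = i
    · subst hj
      simp
    · simp [Pi.single_eq_of_ne hj]
  rw [this]
  abel

lemma sum_range_mul' (g N : ℕ) (f : ℕ → ZMod 2) :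
    ∑ t ∈ range (g * N), f t = ∑ T ∈ range N, ∑ s ∈ range g, f (g * T + s) := by
  induction N with
  | zero => simp
  | succ N ih =>
    rw [Nat.mul_succ, Finset.sum_range_add, ih, Finset.sum_range_succ]

lemma bs_comp (g : ℕ) (V : Finset ι) (N : ι → ℕ) : ∀ (F : (ι → ℤ) → ZMod 2),
    bs V (fun i => g * N i) F =
      bs V N (fun X => bs V (fun _ => g) (fun u => F ((g : ℤ) • X + u))) := by
  induction V using Finset.induction_on with
  | empty =>
    intro F
    rw [bs_empty, bs_empty, bs_empty]
    simp
  | insert i V hi ih =>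
    intro F
    rw [bs_insert hi, bs_insert hi, sum_range_mul']
    refine Finset.sum_congr rfl fun T _ => ?_
    have h1 : ∀ X : ι → ℤ, bs (insert i V) (fun _ => g)
        (fun u => F ((g : ℤ) • (X + Pi.single i (T : ℤ)) + u)) =
        ∑ s ∈ range g, bs V (fun _ => g)
          (fun u => F ((g : ℤ) • (X + Pi.single i (T : ℤ)) + (u + Pi.single i (s : ℤ)))) := by
      intro X
      rw [bs_insert hi]
    simp only [h1]
    rw [bs_sum]
    refine Finset.sum_congr rfl fun s _ => ?_
    rw [ih]
    apply bs_congr
    intro X _
    apply bs_congr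
    intro u _
    congr 1
    funext j
    by_cases hj : j = i
    · subst hj
      simp
      ring
    · simp [Pi.single_eq_of_ne hj]

/-- independence of the fixed coordinates -/
lemma wi {V : Finset ι} {j : ι} (hj : j ∉ V) (N : ι → ℕ) (b : Finset ι → (ι → ℤ) → ZMod 2)
    (y : ι → ℤ) (h1 : ∀ x, dd b (insert j V) x = 0)
    (h2 : ∀ i ∈ V, ∀ x : ι → ℤ, (x i = y i ∨ x i = y i + N i) → b ((insert j V).erase i) x = 0) :
    bs V N (fun u => b V (y + u)) = bs V N (fun u => b V (y + Pi.single j 1 + u)) := by
  have hN : ∀ F : (ι → ℤ) → ZMod 2, bs V (Function.update N j 1) F = bs V N F := by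
    intro F
    unfold bs
    congr 1
    ext u
    simp only [mem_bx]
    have : ∀ i ∈ V, Function.update N j 1 i = N i := by
      intro i hi
      rw [Function.update_of_ne]
      rintro rfl
      exact hj hi
    constructor
    · rintro ⟨h3, h4⟩
      exact ⟨fun i hi => by rw [← this i hi]; exact h3 i hi, h4⟩
    · rintro ⟨h3, h4⟩
      exact ⟨fun i hi => by rw [this i hi]; exact h3 i hi, h4⟩
  have h := stokes (insert j V) (Function.update N j 1) b y
  rw [bs_zero (fun u _ => h1 _), Finset.sum_insert hj, Finset.erase_insert hj] at h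
  have h3 : ∑ i ∈ V, (bs ((insert j V).erase i) (Function.update N j 1)
      (fun u => b ((insert j V).erase i) (y + u)) +
      bs ((insert j V).erase i) (Function.update N j 1) (fun u => b ((insert j V).erase i)
      (y + Pi.single i ((Function.update N j 1 i : ℕ) : ℤ) + u))) = 0 := by
    refine Finset.sum_eq_zero fun i hi => ?_
    have hij : i ≠ j := fun h => hj (h ▸ hi)
    rw [bs_zero, bs_zero, add_zero]
    · intro u hu
      rw [mem_bx] at hu
      apply h2 i hi
      right
      have := hu.2 i (Finset.notMem_erase _ _)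
      simp only [Pi.add_apply, Pi.single_eq_same, this, add_zero, Function.update_of_ne hij]
    · intro u hu
      rw [mem_bx] at hu
      apply h2 i hi
      left
      have := hu.2 i (Finset.notMem_erase _ _)
      simp only [Pi.add_apply, this, add_zero]
  rw [h3, add_zero, hN, hN] at h
  simp only [Function.update_self, Nat.cast_one] at h
  have h4 := z2 (bs V N (fun u => b V (y + u)))
  linear_combination h4 + h

lemma bs_erase (i : ι) (N : ι → ℕ) (F : (ι → ℤ) → ZMod 2) :
    bs univ N F = ∑ t ∈ range (N i), bs (univ.erase i) N (fun u => F (u + Pi.single i (t : ℤ))) := by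
  conv_lhs => rw [← Finset.insert_erase (Finset.mem_univ i)]
  exact bs_insert (Finset.notMem_erase i _) N F

/-- shift of the summation variable -/
lemma shift (i : ι) (N : ι → ℕ) (y : ι → ℤ) (F : (ι → ℤ) → ZMod 2)
    (h : ∀ x : ι → ℤ, (x i = y i ∨ x i = y i + N i) → F x = 0) :
    bs univ N (fun u => F (y + u + Pi.single i 1)) = bs univ N (fun u => F (y + u)) := by
  have h0 : bs univ N (fun u => F (y + u)) + bs univ N (fun u => F (y + u + Pi.single i 1)) = 0 := by
    rw [bs_erase i, bs_erase i, ← Finset.sum_add_distrib]
    have h1 := tele (N i) (fun t => bs (univ.erase i) N (fun u => F (y + (u + Pi.single i (t : ℤ)))))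
    have ha : bs (univ.erase i) N (fun u => F (y + (u + Pi.single i ((0 : ℕ) : ℤ)))) = 0 := by
      apply bs_zero
      intro u hu
      rw [mem_bx] at hu
      apply h
      left
      have := hu.2 i (Finset.notMem_erase _ _)
      simp [this]
    have hb : bs (univ.erase i) N (fun u => F (y + (u + Pi.single i ((N i : ℕ) : ℤ)))) = 0 := by
      apply bs_zero
      intro u hu
      rw [mem_bx] at hu
      apply h
      right
      have := hu.2 i (Finset.notMem_erase _ _)
      simp [this]
    rw [ha, hb, add_zero] at h1
    rw [← h1]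
    refine Finset.sum_congr rfl fun t _ => ?_
    congr 1
    apply bs_congr
    intro u _
    congr 1
    funext j
    by_cases hj : j = i
    · subst hj
      simp
      ring
    · simp [Pi.single_eq_of_ne hj]
  have h4 := z2 (bs univ N (fun u => F (y + u)))
  linear_combination h0 - h4

end Pool.Agent.Helper286.Strict
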