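import Pool.Agent.Helper286.Strict.P07

/-! The pairing of a primal and a dual cochain. -/

namespace Pool.Agent.Helper286.Strict

open Finset

set_option linter.unusedSectionVars false

variable {ι : Type*} [DecidableEq ι] [Fintype ι]

/-- indicator vector -/
def eV (V : Finset ι) : ι → ℤ := fun i => if i ∈ V then 1 else 0

lemma eV_insert {V : Finset ι} {i : ι} (hi : i ∉ V) :
    eV (insert i V) = eV V + Pi.single i 1 := by
  funext j
  unfold eV
  by_cases hj : j = i
  · subst hj
    simp [hi]
  · simp [hj]

/-- the pairing -/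
noncomputable def PP (m : ℕ) (S : ι → ℤ) (R : ι → ℕ) (Φ Ψ : Finset ι → (ι → ℤ) → ZMod 2) :
    ZMod 2 :=
  bs univ R (fun X => ∑ V ∈ powersetCard (m + 1) univ, Φ V (S + X) * Ψ Vᶜ (S + X + eV V))

lemma reindex (m : ℕ) (f : Finset ι → ι → ZMod 2) :
    ∑ V ∈ powersetCard (m + 1) (univ : Finset ι), ∑ i ∈ V, f (V.erase i) i =
      ∑ V ∈ powersetCard m (univ : Finset ι), ∑ i ∈ Vᶜ, f V i := by
  rw [Finset.sum_sigma', Finset.sum_sigma']
  refine Finset.sum_bij' (fun a _ => ⟨a.1.erase a.2, a.2⟩) (fun a _ => ⟨insert a.2 a.1, a.2⟩)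
    ?_ ?_ ?_ ?_ ?_
  · rintro ⟨V, i⟩ h
    simp only [mem_sigma, mem_powersetCard_univ] at h
    simp only [mem_sigma, mem_powersetCard_univ, mem_compl]
    refine ⟨?_, Finset.notMem_erase _ _⟩
    rw [Finset.card_erase_of_mem h.2, h.1]
    rfl
  · rintro ⟨V, i⟩ h
    simp only [mem_sigma, mem_powersetCard_univ, mem_compl] at h
    simp only [mem_sigma, mem_powersetCard_univ]
    refine ⟨?_, mem_insert_self _ _⟩
    rw [Finset.card_insert_of_notMem h.2, h.1]
  · rintro ⟨V, i⟩ h
    simp only [mem_sigma, mem_powersetCard_univ] at h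
    simp only [Finset.insert_erase h.2]
  · rintro ⟨V, i⟩ h
    simp only [mem_sigma, mem_powersetCard_univ, mem_compl] at h
    simp only [Finset.erase_insert h.2]
  · rintro ⟨V, i⟩ h
    rfl

lemma adj (m : ℕ) (S : ι → ℤ) (R : ι → ℕ) (γ Ψ : Finset ι → (ι → ℤ) → ZMod 2)
    (hb : ∀ (V : Finset ι) (i : ι) (x : ι → ℤ), V.card = m → i ∉ V →
      (x i = S i ∨ x i = S i + R i) → γ V x * Ψ (insert i V)ᶜ (x + eV V) = 0)
    (hΨ : ∀ (V : Finset ι) (x : ι → ℤ), V.card = m → dd Ψ Vᶜ x = 0) :
    PP m S R (dd γ) Ψ = 0 := by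
  have h1 : PP m S R (dd γ) Ψ = ∑ V ∈ powersetCard (m + 1) (univ : Finset ι), ∑ i ∈ V,
      bs univ R (fun X => (γ (V.erase i) (S + X) + γ (V.erase i) (S + X + Pi.single i 1)) *
        Ψ (insert i (V.erase i))ᶜ (S + X + (eV (V.erase i) + Pi.single i 1))) := by
    unfold PP
    rw [bs_sum]
    refine Finset.sum_congr rfl fun V _ => ?_
    rw [← bs_sum]
    apply bs_congr
    intro X _
    unfold dd
    rw [Finset.sum_mul]
    refine Finset.sum_congr rfl fun i hi => ?_
    rw [Finset.insert_erase hi, ← eV_insert (Finset.notMem_erase i V), Finset.insert_erase hi]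
  have h0 := reindex m (fun V i => bs univ R
    (fun X => (γ V (S + X) + γ V (S + X + Pi.single i 1)) *
        Ψ (insert i V)ᶜ (S + X + (eV V + Pi.single i 1))))
  beta_reduce at h0
  rw [h1, h0]
  refine Finset.sum_eq_zero fun V hV => ?_
  rw [mem_powersetCard_univ] at hV
  have h2 : ∀ i ∈ Vᶜ, bs univ R (fun X => (γ V (S + X) + γ V (S + X + Pi.single i 1)) *
        Ψ (insert i V)ᶜ (S + X + (eV V + Pi.single i 1))) =
      bs univ R (fun X => γ V (S + X) * (Ψ (Vᶜ.erase i) (S + X + eV V) +
        Ψ (Vᶜ.erase i) (S + X + eV V + Pi.single i 1))) := by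
    intro i hi
    rw [mem_compl] at hi
    have h3 := shift i R S (fun x => γ V x * Ψ (insert i V)ᶜ (x + eV V))
      (fun x hx => hb V i x hV hi hx)
    have h4 : ∀ X : ι → ℤ, S + X + Pi.single i 1 + eV V = S + X + (eV V + Pi.single i 1) := by
      intro X
      abel
    simp only [h4] at h3
    simp only [add_mul]
    rw [bs_add, h3, ← bs_add]
    apply bs_congr
    intro X _
    rw [Finset.compl_insert, ← add_assoc (S + X)]
    ring
  rw [Finset.sum_congr rfl h2, ← bs_sum]
  apply bs_zero
  intro X _
  rw [← Finset.mul_sum]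
  have h5 := hΨ V (S + X + eV V) hV
  unfold dd at h5
  rw [h5, mul_zero]

/-! ### projection of one coordinate -/

/-- primitive of a function of one integer variable, starting at `s` -/
def prim (s : ℤ) (f : ℤ → ZMod 2) (x : ℤ) : ZMod 2 :=
  ∑ t ∈ range (x - s).toNat, f (s + t)

lemma prim_succ (s : ℤ) (f : ℤ → ZMod 2) (x : ℤ) (hx : s ≤ x) :
    prim s f (x + 1) = prim s f x + f x := by
  unfold prim
  have h1 : (x + 1 - s).toNat = (x - s).toNat + 1 := by omega
  rw [h1, Finset.sum_range_succ]
  congr 2
  omega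

lemma prim_tele (s : ℤ) (f : ℤ → ZMod 2) (x : ℤ) (hx : s ≤ x) :
    prim s (fun t => f t + f (t + 1)) x = f s + f x := by
  unfold prim
  have h := tele (x - s).toNat (fun t => f (s + t))
  simp only [Nat.cast_zero, add_zero] at h
  have h2 : s + ((x - s).toNat : ℤ) = x := by omega
  rw [h2] at h
  rw [← h]
  refine Finset.sum_congr rfl fun t _ => ?_
  simp only [Nat.cast_add, Nat.cast_one, add_assoc]

lemma prim_add (s : ℤ) (f g : ℤ → ZMod 2) (x : ℤ) :
    prim s (fun t => f t + g t) x = prim s f x + prim s g x := Finset.sum_add_distrib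

lemma prim_sum {κ : Type*} (s : ℤ) (A : Finset κ) (f : κ → ℤ → ZMod 2) (x : ℤ) :
    prim s (fun t => ∑ i ∈ A, f i t) x = ∑ i ∈ A, prim s (f i) x := Finset.sum_comm

/-- homotopy operator -/
def DD (s : ℤ) (i : ι) (Φ : Finset ι → (ι → ℤ) → ZMod 2) (V : Finset ι) (X : ι → ℤ) : ZMod 2 :=
  if i ∈ V then 0 else prim s (fun t => Φ (insert i V) (Function.update X i t)) (X i)

/-- projection of the coordinate `i` to the value `s` -/
def pr (s : ℤ) (i : ι) (Φ : Finset ι → (ι → ℤ) → ZMod 2) (V : Finset ι) (X : ι → ℤ) : ZMod 2 :=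
  if i ∈ V then 0 else Φ V (Function.update X i s)

lemma update_add_single {i j : ι} (hij : j ≠ i) (X : ι → ℤ) (t : ℤ) :
    Function.update (X + Pi.single j 1) i t = Function.update X i t + Pi.single j 1 := by
  funext k
  by_cases hk : k = i
  · subst hk
    simp [Pi.single_eq_of_ne (Ne.symm hij)]
  · simp [Function.update_of_ne hk]

lemma homotopy (s : ℤ) (i : ι) (Φ : Finset ι → (ι → ℤ) → ZMod 2) (V : Finset ι) (X : ι → ℤ)
    (hX : s ≤ X i) (hc : i ∉ V → ∀ x, dd Φ (insert i V) x = 0) :
    Φ V X = pr s i Φ V X + dd (DD s i Φ) V X := by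
  by_cases hi : i ∈ V
  · have h1 : dd (DD s i Φ) V X = Φ V X := by
      unfold dd
      rw [Finset.sum_eq_single i]
      · unfold DD
        rw [if_neg (Finset.notMem_erase i V), if_neg (Finset.notMem_erase i V)]
        rw [Finset.insert_erase hi]
        have h2 : ∀ t, Function.update (X + Pi.single i 1) i t = Function.update X i t := by
          intro t
          funext k
          by_cases hk : k = i
          · subst hk
            simp
          · simp [Function.update_of_ne hk, Pi.single_eq_of_ne hk]
        simp only [h2, Pi.add_apply, Pi.single_eq_same]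
        rw [prim_succ _ _ _ hX, ← add_assoc, z2, zero_add, Function.update_eq_self]
      · intro j _ hj
        have : i ∈ V.erase j := Finset.mem_erase.mpr ⟨Ne.symm hj, hi⟩
        unfold DD
        rw [if_pos this, if_pos this, add_zero]
      · intro h
        exact absurd hi h
    unfold pr
    rw [if_pos hi, zero_add, h1]
  · have h1 : dd (DD s i Φ) V X = prim s (fun t => ∑ j ∈ V,
        (Φ ((insert i V).erase j) (Function.update X i t) +
         Φ ((insert i V).erase j) (Function.update X i t + Pi.single j 1))) (X i) := by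
      rw [prim_sum]
      unfold dd
      refine Finset.sum_congr rfl fun j hj => ?_
      have hji : j ≠ i := fun h => hi (h ▸ hj)
      have h2 : i ∉ V.erase j := fun h => hi (Finset.mem_of_mem_erase h)
      unfold DD
      rw [if_neg h2, if_neg h2, prim_add]
      simp only [update_add_single hji, Pi.add_apply, Pi.single_eq_of_ne (Ne.symm hji), add_zero]
      have h3 : insert i (V.erase j) = (insert i V).erase j := by
        rw [Finset.erase_insert_of_ne (Ne.symm hji)]
      rw [h3]
    have h4 : ∀ t : ℤ, ∑ j ∈ V,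
        (Φ ((insert i V).erase j) (Function.update X i t) +
         Φ ((insert i V).erase j) (Function.update X i t + Pi.single j 1)) =
        Φ V (Function.update X i t) + Φ V (Function.update X i (t + 1)) := by
      intro t
      have h5 := hc hi (Function.update X i t)
      unfold dd at h5
      rw [Finset.sum_insert hi, Finset.erase_insert hi] at h5
      have h6 : Function.update X i t + Pi.single i 1 = Function.update X i (t + 1) := by
        funext k
        by_cases hk : k = i
        · subst hk
          simp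
        · simp [Function.update_of_ne hk, Pi.single_eq_of_ne hk]
      rw [h6] at h5
      have h7 := z2 (Φ V (Function.update X i t) + Φ V (Function.update X i (t + 1)))
      linear_combination h5 - h7
    simp only [h4] at h1
    rw [prim_tele _ (fun t => Φ V (Function.update X i t)) _ hX] at h1
    rw [h1]
    unfold pr
    rw [if_neg hi, Function.update_eq_self, ← add_assoc, z2, zero_add]

lemma dd_pr (s : ℤ) (i : ι) (Φ : Finset ι → (ι → ℤ) → ZMod 2) (V : Finset ι)
    (hc : ∀ x, dd Φ V x = 0) (X : ι → ℤ) : dd (pr s i Φ) V X = 0 := by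
  by_cases hi : i ∈ V
  · unfold dd
    refine Finset.sum_eq_zero fun j hj => ?_
    unfold pr
    by_cases hji : j = i
    · subst hji
      rw [if_neg (Finset.notMem_erase _ _), if_neg (Finset.notMem_erase _ _)]
      have h2 : Function.update (X + Pi.single j 1) j s = Function.update X j s := by
        funext k
        by_cases hk : k = j
        · subst hk
          simp
        · simp [Function.update_of_ne hk, Pi.single_eq_of_ne hk]
      rw [h2]
      exact z2 _
    · have : i ∈ V.erase j := Finset.mem_erase.mpr ⟨fun h => hji h.symm, hi⟩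
      rw [if_pos this, if_pos this, add_zero]
  · have h1 := hc (Function.update X i s)
    rw [← h1]
    unfold dd
    refine Finset.sum_congr rfl fun j hj => ?_
    have hji : j ≠ i := fun h => hi (h ▸ hj)
    have h2 : i ∉ V.erase j := fun h => hi (Finset.mem_of_mem_erase h)
    unfold pr
    rw [if_neg h2, if_neg h2, update_add_single hji]

end Pool.Agent.Helper286.Strict
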