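import Pool.Agent.Helper286.Strict.P08

/-! Evaluation of the pairing. -/

namespace Pool.Agent.Helper286.Strict

open Finset

set_option linter.unusedSectionVars false

variable {ι : Type*} [DecidableEq ι] [Fintype ι]

lemma PP_pr (m : ℕ) (hι : Fintype.card ι = 2 * (m + 1)) (J : Finset ι) (s : ℤ) (r : ℕ)
    (Φ Ψ : Finset ι → (ι → ℤ) → ZMod 2)
    (h1 : ∀ (V : Finset ι) (x : ι → ℤ), V.card = m + 2 → dd Φ V x = 0)
    (h2 : ∀ (V : Finset ι) (x : ι → ℤ), V.card = m + 2 → dd Ψ V x = 0)
    (h3 : ∀ (V : Finset ι) (x : ι → ℤ), V.card = m + 1 → ∀ i ∈ J, i ∉ V →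
      (x i = s ∨ x i = s + r) →
      Φ V x = 0)
    (h4 : ∀ (V : Finset ι) (x : ι → ℤ), V.card = m + 1 → ∀ i, i ∉ J → i ∉ V →
      (x i = s ∨ x i = s + r) →
      Ψ V x = 0) (i : ι) (hi : i ∉ J) :
    PP m (fun _ => s) (fun _ => r) (pr s i Φ) Ψ = PP m (fun _ => s) (fun _ => r) Φ Ψ := by
  have hadj : PP m (fun _ => s) (fun _ => r) (dd (DD s i Φ)) Ψ = 0 := by
    apply adj
    · intro V j x hV hj hx
      by_cases hjJ : j ∈ J
      · have hij : i ≠ j := fun h => hi (h ▸ hjJ)
        have : DD s i Φ V x = 0 := by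
          unfold DD
          split_ifs with hiV
          · rfl
          · unfold prim
            refine Finset.sum_eq_zero fun t _ => ?_
            apply h3 _ _ _ j hjJ
            · simp only [mem_insert, not_or]
              exact ⟨Ne.symm hij, hj⟩
            · rw [Function.update_of_ne (Ne.symm hij)]
              exact hx
            · rw [Finset.card_insert_of_notMem hiV, hV]
        rw [this, zero_mul]
      · rw [h4 _ _ _ j hjJ, mul_zero]
        · simp
        · have : eV V j = 0 := by
            unfold eV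
            rw [if_neg hj]
          simp only [Pi.add_apply, this, add_zero]
          exact hx
        · rw [Finset.card_compl, Finset.card_insert_of_notMem hj, hV, hι]
          omega
    · intro V x hV
      apply h2
      rw [Finset.card_compl, hV, hι]
      omega
  have hsum : PP m (fun _ => s) (fun _ => r) Φ Ψ =
      PP m (fun _ => s) (fun _ => r) (pr s i Φ) Ψ +
      PP m (fun _ => s) (fun _ => r) (dd (DD s i Φ)) Ψ := by
    unfold PP
    rw [← bs_add]
    apply bs_congr
    intro X hX
    rw [← Finset.sum_add_distrib]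
    refine Finset.sum_congr rfl fun V hV => ?_
    rw [mem_powersetCard_univ] at hV
    rw [← add_mul]
    congr 1
    apply homotopy
    · rw [mem_bx] at hX
      have := (hX.1 i (mem_univ i)).1
      simp only [Pi.add_apply]
      omega
    · intro hiV x
      apply h1
      rw [Finset.card_insert_of_notMem hiV, hV]
  rw [hsum, hadj, add_zero]

/-- projection of all coordinates in `K` -/
def prK (s : ℤ) (K : Finset ι) (Φ : Finset ι → (ι → ℤ) → ZMod 2) (V : Finset ι) (X : ι → ℤ) :
    ZMod 2 :=
  if Disjoint V K then Φ V (fun i => if i ∈ K then s else X i) else 0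

lemma PP_prK (m : ℕ) (hι : Fintype.card ι = 2 * (m + 1)) (J : Finset ι) (s : ℤ) (r : ℕ)
    (Ψ : Finset ι → (ι → ℤ) → ZMod 2)
    (h2 : ∀ (V : Finset ι) (x : ι → ℤ), V.card = m + 2 → dd Ψ V x = 0)
    (h4 : ∀ (V : Finset ι) (x : ι → ℤ), V.card = m + 1 → ∀ i, i ∉ J → i ∉ V →
      (x i = s ∨ x i = s + r) →
      Ψ V x = 0) (K : Finset ι) (hK : Disjoint K J) :
    ∀ (Φ : Finset ι → (ι → ℤ) → ZMod 2),
    (∀ (V : Finset ι) (x : ι → ℤ), V.card = m + 2 → dd Φ V x = 0) →
    (∀ (V : Finset ι) (x : ι → ℤ), V.card = m + 1 → ∀ i ∈ J, i ∉ V →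
      (x i = s ∨ x i = s + r) →
      Φ V x = 0) →
    PP m (fun _ => s) (fun _ => r) (prK s K Φ) Ψ = PP m (fun _ => s) (fun _ => r) Φ Ψ := by
  induction K using Finset.induction_on with
  | empty =>
    intro Φ _ _
    congr 1
    funext V X
    unfold prK
    simp
  | insert i K hi ih =>
    rw [Finset.disjoint_insert_left] at hK
    intro Φ h1 h3
    have h5 : prK s (insert i K) Φ = prK s K (pr s i Φ) := by
      funext V X
      unfold prK pr
      by_cases hd : Disjoint V K
      · by_cases hiV : i ∈ V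
        · rw [if_neg, if_pos hd, if_pos hiV]
          rw [Finset.disjoint_insert_right]
          exact fun h => h.1 hiV
        · rw [if_pos, if_pos hd, if_neg hiV]
          · congr 1
            funext j
            by_cases hj : j = i
            · subst hj
              simp
            · rw [Function.update_of_ne hj]
              simp [hj]
          · rw [Finset.disjoint_insert_right]
            exact ⟨hiV, hd⟩
      · rw [if_neg, if_neg hd]
        rw [Finset.disjoint_insert_right]
        exact fun h => hd h.2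
    rw [h5, ih hK.2 (pr s i Φ), PP_pr m hι J s r Φ Ψ h1 h2 h3 h4 i hK.1]
    · intro V x hV
      exact dd_pr s i Φ V (fun x => h1 V x hV) x
    · intro V x hV j hj hjV hx
      unfold pr
      split_ifs with hiV
      · rfl
      · apply h3 V _ hV j hj hjV
        have : j ≠ i := fun h => hK.1 (h ▸ hj)
        rw [Function.update_of_ne this]
        exact hx

/-- the sum over a window does not depend on the fixed coordinates -/
lemma wi_all (m : ℕ) (J : Finset ι) (hJ : J.card = m + 1) (N : ι → ℕ)
    (Ψ : Finset ι → (ι → ℤ) → ZMod 2) (y : ι → ℤ)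
    (h2 : ∀ (V : Finset ι) (x : ι → ℤ), V.card = m + 2 → dd Ψ V x = 0)
    (h4 : ∀ (V : Finset ι) (x : ι → ℤ), V.card = m + 1 → ∀ i ∈ J, i ∉ V →
      (x i = y i ∨ x i = y i + N i) →
      Ψ V x = 0) : ∀ y' : ι → ℤ, (∀ i ∈ J, y' i = y i) →
    bs J N (fun u => Ψ J (y' + u)) = bs J N (fun u => Ψ J (y + u)) := by
  -- one step
  have step : ∀ (y' : ι → ℤ) (j : ι), (∀ i ∈ J, y' i = y i) → j ∉ J →
      bs J N (fun u => Ψ J (y' + u)) = bs J N (fun u => Ψ J (y' + Pi.single j 1 + u)) := by
    intro y' j hy' hj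
    apply wi hj
    · intro x
      apply h2
      rw [Finset.card_insert_of_notMem hj, hJ]
    · intro i hi x hx
      rw [hy' i hi] at hx
      apply h4 _ _ _ i hi (Finset.notMem_erase _ _) hx
      rw [Finset.card_erase_of_mem (mem_insert_of_mem hi), Finset.card_insert_of_notMem hj, hJ]
      rfl
  -- many steps in one direction
  have steps : ∀ (y' : ι → ℤ) (j : ι) (c : ℤ), (∀ i ∈ J, y' i = y i) → j ∉ J →
      bs J N (fun u => Ψ J (y' + u)) = bs J N (fun u => Ψ J (y' + Pi.single j c + u)) := by
    intro y' j c hy' hj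
    have hz : ∀ c : ℤ, ∀ i ∈ J, (y' + Pi.single j c : ι → ℤ) i = y i := by
      intro c i hi
      have : i ≠ j := fun h => hj (h ▸ hi)
      simp [Pi.single_eq_of_ne this, hy' i hi]
    induction c using Int.induction_on with
    | zero => simp
    | succ c ih =>
      rw [ih, step (y' + Pi.single j (c : ℤ)) j (hz _) hj]
      simp only [Pi.single_add, add_assoc]
    | pred c ih =>
      rw [ih]
      have := step (y' + Pi.single j (-(c : ℤ) - 1)) j (hz _) hj
      rw [this]
      have h5 : y' + Pi.single j (-(c : ℤ) - 1) + Pi.single j 1 = y' + Pi.single j (-(c : ℤ)) := by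
        rw [add_assoc, ← Pi.single_add]
        simp
      rw [h5]
  -- all directions
  have all : ∀ (K : Finset ι), Disjoint K J → ∀ (y' y'' : ι → ℤ), (∀ i ∈ J, y' i = y i) →
      (∀ i, i ∉ K → y' i = y'' i) →
      bs J N (fun u => Ψ J (y' + u)) = bs J N (fun u => Ψ J (y'' + u)) := by
    intro K
    induction K using Finset.induction_on with
    | empty =>
      intro _ y' y'' _ h
      have : y' = y'' := by
        funext i
        exact h i (Finset.notMem_empty i)
      rw [this]
    | insert i K hi ih =>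
      intro hK y' y'' hy' h
      rw [Finset.disjoint_insert_left] at hK
      rw [steps y' i (y'' i - y' i) hy' hK.1]
      apply ih hK.2
      · intro j hj
        have : j ≠ i := fun h => hK.1 (h ▸ hj)
        simp [Pi.single_eq_of_ne this, hy' j hj]
      · intro j hj
        by_cases hji : j = i
        · subst hji
          simp
        · simp only [Pi.add_apply, Pi.single_eq_of_ne hji, add_zero]
          apply h
          simp only [mem_insert, not_or]
          exact ⟨hji, hj⟩
  intro y' hy'
  apply all Jᶜ _ y' y hy'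
  · intro i hi
    simp only [mem_compl, not_not] at hi
    exact hy' i hi
  · rw [Finset.disjoint_left]
    intro i hi
    exact mem_compl.mp hi

/-- evaluation of the pairing -/
lemma PP_eval (m : ℕ) (hι : Fintype.card ι = 2 * (m + 1)) (J : Finset ι) (hJ : J.card = m + 1)
    (s : ℤ) (r : ℕ) (Φ Ψ : Finset ι → (ι → ℤ) → ZMod 2)
    (h1 : ∀ (V : Finset ι) (x : ι → ℤ), V.card = m + 2 → dd Φ V x = 0)
    (h2 : ∀ (V : Finset ι) (x : ι → ℤ), V.card = m + 2 → dd Ψ V x = 0)
    (h3 : ∀ (V : Finset ι) (x : ι → ℤ), V.card = m + 1 → ∀ i ∈ J, i ∉ V →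
      (x i = s ∨ x i = s + r) →
      Φ V x = 0)
    (h4 : ∀ (V : Finset ι) (x : ι → ℤ), V.card = m + 1 → ∀ i, i ∉ J → i ∉ V →
      (x i = s ∨ x i = s + r) →
      Ψ V x = 0) :
    PP m (fun _ => s) (fun _ => r) Φ Ψ =
      bs J (fun _ => r) (fun u => Φ J ((fun _ => s) + u)) *
      bs Jᶜ (fun _ => r) (fun u => Ψ Jᶜ ((fun _ => s) + u)) := by
  have hJc : Jᶜ.card = m + 1 := by
    rw [Finset.card_compl, hJ, hι]
    omega
  rw [← PP_prK m hι J s r Ψ h2 h4 Jᶜ (Finset.disjoint_left.mpr (fun i hi => mem_compl.mp hi))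
    Φ h1 h3]
  unfold PP
  have hV : ∀ X : ι → ℤ, ∑ V ∈ powersetCard (m + 1) (univ : Finset ι),
      prK s Jᶜ Φ V ((fun _ => s) + X) * Ψ Vᶜ ((fun _ => s) + X + eV V) =
      prK s Jᶜ Φ J ((fun _ => s) + X) * Ψ Jᶜ ((fun _ => s) + X + eV J) := by
    intro X
    apply Finset.sum_eq_single J
    · intro V hV hVJ
      rw [mem_powersetCard_univ] at hV
      unfold prK
      rw [if_neg, zero_mul]
      intro hd
      apply hVJ
      apply Finset.eq_of_subset_of_card_le
      · intro i hi
        by_contra hc
        exact (Finset.disjoint_left.mp hd) hi (mem_compl.mpr hc)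
      · rw [hV, hJ]
    · intro h
      exact absurd (mem_powersetCard_univ.mpr hJ) h
  simp only [hV]
  have huniv : (univ : Finset ι) = J ∪ Jᶜ := (Finset.union_compl J).symm
  have hdis : Disjoint J Jᶜ := disjoint_compl_right
  conv_lhs => rw [huniv]
  rw [bs_union hdis]
  have hin : ∀ u ∈ bx J (fun _ => r), bs Jᶜ (fun _ => r) (fun w =>
      prK s Jᶜ Φ J ((fun _ => s) + (u + w)) * Ψ Jᶜ ((fun _ => s) + (u + w) + eV J)) =
      Φ J ((fun _ => s) + u) * bs Jᶜ (fun _ => r) (fun w => Ψ Jᶜ ((fun _ => s) + w)) := by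
    intro u hu
    have h5 : bs Jᶜ (fun _ => r) (fun w =>
      prK s Jᶜ Φ J ((fun _ => s) + (u + w)) * Ψ Jᶜ ((fun _ => s) + (u + w) + eV J)) =
      bs Jᶜ (fun _ => r) (fun w =>
      Φ J ((fun _ => s) + u) * Ψ Jᶜ (((fun _ => s) + u + eV J) + w)) := by
      apply bs_congr
      intro w hw
      have h6 : prK s Jᶜ Φ J ((fun _ => s) + (u + w)) = Φ J ((fun _ => s) + u) := by
        unfold prK
        rw [if_pos hdis]
        congr 1
        funext i
        rw [mem_bx] at hu hw
        by_cases hi : i ∈ J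
        · rw [if_neg (by simp [hi])]
          have := hw.2 i (by simp [hi])
          simp [this]
        · rw [if_pos (by simp [hi])]
          have := hu.2 i hi
          simp [this]
      rw [h6]
      congr 2
      abel
    rw [h5]
    have h7 := wi_all m Jᶜ hJc (fun _ => r) Ψ (fun _ => s) h2
      (fun V x hV i hi hiV hx => h4 V x hV i (mem_compl.mp hi) hiV hx) ((fun _ => s) + u + eV J)
      (by
        intro i hi
        rw [mem_bx] at hu
        have h8 := hu.2 i (mem_compl.mp hi)
        have h9 : eV J i = 0 := by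
          unfold eV
          rw [if_neg (mem_compl.mp hi)]
        simp [h8, h9])
    rw [← h7]
    unfold bs
    rw [Finset.mul_sum]
  rw [bs_congr hin]
  unfold bs
  rw [Finset.sum_mul]

end Pool.Agent.Helper286.Strict
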