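import Pool.Agent.Helper286.Strict.P09

/-! Windows, degrees and the combinatorial theorem. -/

namespace Pool.Agent.Helper286.Strict

open Finset

set_option linter.unusedSectionVars false

section Range

variable {ι : Type*} [DecidableEq ι] [Fintype ι]

/-- independence of the range of summation -/
lemma ri (V : Finset ι) (f : (ι → ℤ) → ZMod 2) (lo hi : ι → ℤ)
    (hf : ∀ x : ι → ℤ, ∀ i ∈ V, (x i < lo i ∨ hi i ≤ x i) → f x = 0)
    (y : ι → ℤ) (N : ι → ℕ) (hy : ∀ i ∈ V, y i ≤ lo i ∧ hi i ≤ y i + N i) :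
    bs V N (fun u => f (y + u)) =
      ∑ x ∈ Fintype.piFinset (fun i => if i ∈ V then Finset.Ico (lo i) (hi i) else {y i}), f x := by
  have h1 : bs V N (fun u => f (y + u)) =
      ∑ x ∈ Fintype.piFinset (fun i => if i ∈ V then Finset.Ico (y i) (y i + N i) else {y i}),
        f x := by
    unfold bs
    refine Finset.sum_bij' (fun u _ => y + u) (fun x _ => x - y) ?_ ?_ ?_ ?_ ?_
    · intro u hu
      rw [mem_bx] at hu
      rw [Fintype.mem_piFinset]
      intro i
      by_cases hi : i ∈ V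
      · rw [if_pos hi, mem_Ico]
        have := hu.1 i hi
        simp only [Pi.add_apply]
        omega
      · rw [if_neg hi, mem_singleton]
        have := hu.2 i hi
        simp [this]
    · intro x hx
      rw [Fintype.mem_piFinset] at hx
      rw [mem_bx]
      refine ⟨fun i hi => ?_, fun i hi => ?_⟩
      · have := hx i
        rw [if_pos hi, mem_Ico] at this
        simp only [Pi.sub_apply]
        omega
      · have := hx i
        rw [if_neg hi, mem_singleton] at this
        simp [this]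
    · intro u _
      simp
    · intro x _
      simp
    · intro u _
      rfl
  rw [h1]
  symm
  apply Finset.sum_subset
  · intro x hx
    rw [Fintype.mem_piFinset] at hx ⊢
    intro i
    have := hx i
    by_cases hi : i ∈ V
    · rw [if_pos hi, mem_Ico] at this ⊢
      have := hy i hi
      omega
    · rw [if_neg hi] at this ⊢
      exact this
  · intro x hx hx'
    rw [Fintype.mem_piFinset] at hx hx'
    push Not at hx'
    obtain ⟨i, hi⟩ := hx'
    have h2 := hx i
    by_cases hiV : i ∈ V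
    · rw [if_pos hiV, mem_Ico] at hi
      apply hf x i hiV
      by_contra hc
      push Not at hc
      exact hi ⟨hc.1, hc.2⟩
    · rw [if_neg hiV] at hi h2
      exact absurd h2 hi

/-- masked cochains -/
noncomputable def msk (h : Finset ι → (ι → ℤ) → Prop) (Φ : Finset ι → (ι → ℤ) → ZMod 2)
    (V : Finset ι) (x : ι → ℤ) : ZMod 2 :=
  open Classical in if h V x then Φ V x else 0

lemma msk_pos {h : Finset ι → (ι → ℤ) → Prop} {Φ : Finset ι → (ι → ℤ) → ZMod 2}
    {V : Finset ι} {x : ι → ℤ} (hh : h V x) : msk h Φ V x = Φ V x := by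
  unfold msk
  rw [if_pos hh]

lemma msk_neg {h : Finset ι → (ι → ℤ) → Prop} {Φ : Finset ι → (ι → ℤ) → ZMod 2}
    {V : Finset ι} {x : ι → ℤ} (hh : ¬ h V x) : msk h Φ V x = 0 := by
  unfold msk
  rw [if_neg hh]

lemma msk_zero {h : Finset ι → (ι → ℤ) → Prop} {Φ : Finset ι → (ι → ℤ) → ZMod 2}
    {V : Finset ι} {x : ι → ℤ} (hh : Φ V x = 0) : msk h Φ V x = 0 := by
  unfold msk
  split_ifs
  · exact hh
  · rfl

lemma dd_msk {κ : Type*} (n : ℕ) (hit : κ → Finset ι → (ι → ℤ) → Prop)
    (hmono : ∀ p V x i, i ∈ V → hit p (V.erase i) x → hit p V x)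
    (hmono' : ∀ p V x i, i ∈ V → hit p (V.erase i) (x + Pi.single i 1) → hit p V x)
    (huniq : ∀ p q V x, V.card ≤ n + 1 → hit p V x → hit q V x → p = q)
    (Φ : Finset ι → (ι → ℤ) → ZMod 2)
    (hΦ : ∀ V x, V.card = n → (∀ p, ¬ hit p V x) → Φ V x = 0)
    (p : κ) (V : Finset ι) (x : ι → ℤ) (hV : V.card = n + 1) :
    dd (msk (hit p) Φ) V x = msk (hit p) (dd Φ) V x := by
  by_cases h : hit p V x
  · rw [msk_pos h]
    unfold dd
    refine Finset.sum_congr rfl fun i hi => ?_
    have hc : (V.erase i).card = n := by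
      rw [Finset.card_erase_of_mem hi, hV]
      rfl
    congr 1
    · by_cases h1 : hit p (V.erase i) x
      · rw [msk_pos h1]
      · rw [msk_neg h1, hΦ _ _ hc]
        intro q hq
        have := huniq p q V x (le_of_eq hV) h (hmono q V x i hi hq)
        exact h1 (this ▸ hq)
    · by_cases h1 : hit p (V.erase i) (x + Pi.single i 1)
      · rw [msk_pos h1]
      · rw [msk_neg h1, hΦ _ _ hc]
        intro q hq
        have := huniq p q V x (le_of_eq hV) h (hmono' q V x i hi hq)
        exact h1 (this ▸ hq)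
  · rw [msk_neg h]
    unfold dd
    refine Finset.sum_eq_zero fun i hi => ?_
    rw [msk_neg (fun h' => h (hmono p V x i hi h')), msk_neg (fun h' => h (hmono' p V x i hi h')),
      add_zero]

end Range

section Win

variable {D : ℕ}

/-- windows of coordinates -/
def win (D a k : ℕ) : Finset (Fin D) := univ.filter (fun i => a ≤ i.1 ∧ i.1 < a + k)

lemma mem_win {a k : ℕ} {i : Fin D} : i ∈ win D a k ↔ a ≤ i.1 ∧ i.1 < a + k := by
  simp [win]

lemma win_erase_last {a k : ℕ} (h : a + k < D) :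
    (win D a (k + 1)).erase ⟨a + k, h⟩ = win D a k := by
  ext i
  simp only [mem_erase, mem_win, ne_eq, Fin.ext_iff]
  omega

lemma win_erase_first {a k : ℕ} (h : a < D) :
    (win D a (k + 1)).erase ⟨a, h⟩ = win D (a + 1) k := by
  ext i
  simp only [mem_erase, mem_win, ne_eq, Fin.ext_iff]
  omega

lemma card_win {a k : ℕ} (h : a + k ≤ D) : (win D a k).card = k := by
  induction k with
  | zero =>
    rw [Finset.card_eq_zero]
    ext i
    simp only [mem_win, notMem_empty, iff_false]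
    omega
  | succ k ih =>
    have h1 := win_erase_last (D := D) (a := a) (k := k) (by omega)
    have h2 : (⟨a + k, by omega⟩ : Fin D) ∈ win D a (k + 1) := by
      rw [mem_win]
      constructor <;> simp
    rw [← Finset.insert_erase h2, Finset.card_insert_of_notMem (Finset.notMem_erase _ _), h1,
      ih (by omega)]

variable (Z : (Fin D → ℤ) → ℕ → Prop)

/-- full cells for the labels of the window -/
noncomputable def be (a k : ℕ) (V : Finset (Fin D)) (x : Fin D → ℤ) : ZMod 2 :=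
  FF (fun v => lab (Z v) a k) k V x (Icc a (a + k))

/-- cells missing the last label -/
noncomputable def mu (a k : ℕ) (V : Finset (Fin D)) (x : Fin D → ℤ) : ZMod 2 :=
  FF (fun v => lab (Z v) a (k + 1)) k V x (Icc a (a + k))

/-- cells missing the first label -/
noncomputable def nu (a k : ℕ) (V : Finset (Fin D)) (x : Fin D → ℤ) : ZMod 2 :=
  FF (fun v => lab (Z v) a (k + 1)) k V x (Icc (a + 1) (a + 1 + k))

lemma dd_be (a k : ℕ) (V : Finset (Fin D)) (x : Fin D → ℤ) : dd (be Z a k) V x = 0 := by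
  have h := dFF (fun v => lab (Z v) a k) (Icc a (a + k))
    (fun v => by rw [mem_Icc]; exact ⟨lab_ge _ _ _, lab_le _ _ _⟩) k V x (Icc a (a + k))
    (by rw [Nat.card_Icc]; omega)
  unfold dd be
  rw [h]
  simp

lemma dd_mu (a k : ℕ) (V : Finset (Fin D)) (x : Fin D → ℤ) :
    dd (mu Z a k) V x = be Z a (k + 1) V x := by
  have h := dFF (fun v => lab (Z v) a (k + 1)) (Icc a (a + (k + 1)))
    (fun v => by rw [mem_Icc]; exact ⟨lab_ge _ _ _, lab_le _ _ _⟩) k V x (Icc a (a + k))
    (by rw [Nat.card_Icc]; omega)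
  unfold dd mu
  rw [h]
  have h1 : Icc a (a + (k + 1)) \ Icc a (a + k) = {a + k + 1} := by
    ext b
    simp only [mem_sdiff, mem_Icc, mem_singleton]
    omega
  have h2 : insert (a + k + 1) (Icc a (a + k)) = Icc a (a + (k + 1)) := by
    ext b
    simp only [mem_insert, mem_Icc]
    omega
  rw [h1, Finset.sum_singleton, h2]
  rfl

lemma dd_nu (a k : ℕ) (V : Finset (Fin D)) (x : Fin D → ℤ) :
    dd (nu Z a k) V x = be Z a (k + 1) V x := by
  have h := dFF (fun v => lab (Z v) a (k + 1)) (Icc a (a + (k + 1)))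
    (fun v => by rw [mem_Icc]; exact ⟨lab_ge _ _ _, lab_le _ _ _⟩) k V x
    (Icc (a + 1) (a + 1 + k)) (by rw [Nat.card_Icc]; omega)
  unfold dd nu
  rw [h]
  have h1 : Icc a (a + (k + 1)) \ Icc (a + 1) (a + 1 + k) = {a} := by
    ext b
    simp only [mem_sdiff, mem_Icc, mem_singleton]
    omega
  have h2 : insert a (Icc (a + 1) (a + 1 + k)) = Icc a (a + (k + 1)) := by
    ext b
    simp only [mem_insert, mem_Icc]
    omega
  rw [h1, Finset.sum_singleton, h2]
  rfl

lemma FF_zero_of_miss (l : (Fin D → ℤ) → ℕ) (k : ℕ) (V : Finset (Fin D)) (x : Fin D → ℤ)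
    (T : Finset ℕ) (t : ℕ) (ht : t ∈ T) (h : ∀ y, vt V x y → l y ≠ t) : FF l k V x T = 0 := by
  by_contra hc
  obtain ⟨y, hy, hyt⟩ := FF_attain l k V x T hc t ht
  exact h y hy hyt

variable {Z} {G : ℤ} (hZ0 : ∀ v (b : Fin D), v b ≤ 0 → Z v b)
  (hZ1 : ∀ v (b : Fin D), G ≤ v b → ¬ Z v b)

include hZ0 hZ1

lemma be_zero (a k : ℕ) (V : Finset (Fin D)) (x : Fin D → ℤ) (b : Fin D) (h1 : a ≤ b.1)
    (h2 : b.1 < a + k) (h : (∀ y, vt V x y → y b ≤ 0) ∨ (∀ y, vt V x y → G ≤ y b)) :
    be Z a k V x = 0 := by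
  rcases h with h | h
  · apply FF_zero_of_miss _ _ _ _ _ (a + k)
    · rw [mem_Icc]; omega
    · intro y hy
      have := lab_le_of (Z y) k a b.1 h1 h2 (hZ0 y b (h y hy))
      omega
  · apply FF_zero_of_miss _ _ _ _ _ b.1
    · rw [mem_Icc]; omega
    · intro y hy
      exact lab_ne (Z y) k a b.1 h2 (hZ1 y b (h y hy))

lemma mu_zero (a k : ℕ) (V : Finset (Fin D)) (x : Fin D → ℤ) (b : Fin D) (h1 : a ≤ b.1)
    (h2 : b.1 < a + k) (h : (∀ y, vt V x y → y b ≤ 0) ∨ (∀ y, vt V x y → G ≤ y b)) :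
    mu Z a k V x = 0 := by
  rcases h with h | h
  · apply FF_zero_of_miss _ _ _ _ _ (a + k)
    · rw [mem_Icc]; omega
    · intro y hy
      have := lab_le_of (Z y) (k + 1) a b.1 h1 (by omega) (hZ0 y b (h y hy))
      omega
  · apply FF_zero_of_miss _ _ _ _ _ b.1
    · rw [mem_Icc]; omega
    · intro y hy
      exact lab_ne (Z y) (k + 1) a b.1 (by omega) (hZ1 y b (h y hy))

lemma mu_hi (a k : ℕ) (V : Finset (Fin D)) (x : Fin D → ℤ) (b : Fin D) (h1 : b.1 = a + k)
    (h : ∀ y, vt V x y → G ≤ y b) : mu Z a k V x = 0 := by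
  apply FF_zero_of_miss _ _ _ _ _ b.1
  · rw [mem_Icc]; omega
  · intro y hy
    exact lab_ne (Z y) (k + 1) a b.1 (by omega) (hZ1 y b (h y hy))

lemma mu_lo (a k : ℕ) (V : Finset (Fin D)) (x : Fin D → ℤ) (b : Fin D) (h1 : b.1 = a + k)
    (h : ∀ y, vt V x y → y b ≤ 0) : mu Z a k V x = be Z a k V x := by
  apply FF_congr
  intro y hy
  apply lab_succ_of
  rw [← h1]
  exact hZ0 y b (h y hy)

lemma nu_zero (a k : ℕ) (V : Finset (Fin D)) (x : Fin D → ℤ) (b : Fin D) (h1 : a + 1 ≤ b.1)
    (h2 : b.1 < a + 1 + k) (h : (∀ y, vt V x y → y b ≤ 0) ∨ (∀ y, vt V x y → G ≤ y b)) :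
    nu Z a k V x = 0 := by
  rcases h with h | h
  · apply FF_zero_of_miss _ _ _ _ _ (a + 1 + k)
    · rw [mem_Icc]; omega
    · intro y hy
      have := lab_le_of (Z y) (k + 1) a b.1 (by omega) (by omega) (hZ0 y b (h y hy))
      omega
  · apply FF_zero_of_miss _ _ _ _ _ b.1
    · rw [mem_Icc]; omega
    · intro y hy
      exact lab_ne (Z y) (k + 1) a b.1 (by omega) (hZ1 y b (h y hy))

lemma nu_lo (a k : ℕ) (V : Finset (Fin D)) (x : Fin D → ℤ) (b : Fin D) (h1 : b.1 = a)
    (h : ∀ y, vt V x y → y b ≤ 0) : nu Z a k V x = 0 := by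
  apply FF_zero_of_miss _ _ _ _ _ (a + 1 + k)
  · rw [mem_Icc]; omega
  · intro y hy
    have := lab_le_of (Z y) (k + 1) a b.1 (by omega) (by omega) (hZ0 y b (h y hy))
    omega

lemma nu_hi (a k : ℕ) (V : Finset (Fin D)) (x : Fin D → ℤ) (b : Fin D) (h1 : b.1 = a)
    (h : ∀ y, vt V x y → G ≤ y b) : nu Z a k V x = be Z (a + 1) k V x := by
  apply FF_congr
  intro y hy
  apply lab_succ_of_not
  rw [← h1]
  exact hZ1 y b (h y hy)

end Win

end Pool.Agent.Helper286.Strict
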