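import Pool.Agent.Helper286.Strict.P10

/-! The combinatorial theorem. -/

namespace Pool.Agent.Helper286.Strict

open Finset

set_option linter.unusedSectionVars false

variable {D : ℕ}

lemma cell_lo {g : ℕ} {V : Finset (Fin D)} {X u y : Fin D → ℤ} {b : Fin D}
    (hu : u ∈ bx V (fun _ => g)) (h : (b ∉ V ∧ X b ≤ 0) ∨ X b < 0)
    (hy : vt V ((g : ℤ) • X + 0 + u) y) : y b ≤ 0 := by
  rw [mem_bx] at hu
  have h1 := hy b
  simp only [Pi.add_apply, Pi.smul_apply, smul_eq_mul, add_zero] at h1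
  have hg : (0 : ℤ) ≤ (g : ℤ) := Int.natCast_nonneg g
  rcases h with ⟨h2, h3⟩ | h3
  · have h4 := hu.2 b h2
    have h5 : (g : ℤ) * X b ≤ 0 := mul_nonpos_of_nonneg_of_nonpos hg h3
    rcases h1 with h1 | h1
    · omega
    · exact absurd h1.1 h2
  · by_cases hb : b ∈ V
    · have h4 := hu.1 b hb
      have h5 : (g : ℤ) * X b ≤ -g := by nlinarith
      rcases h1 with h1 | h1
      · omega
      · omega
    · have h4 := hu.2 b hb
      have h5 : (g : ℤ) * X b ≤ 0 := mul_nonpos_of_nonneg_of_nonpos hg h3.le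
      rcases h1 with h1 | h1
      · omega
      · exact absurd h1.1 hb

lemma cell_hi {g M : ℕ} {V : Finset (Fin D)} {X u y : Fin D → ℤ} {b : Fin D}
    (hu : u ∈ bx V (fun _ => g)) (h : (M : ℤ) ≤ X b)
    (hy : vt V ((g : ℤ) • X + 0 + u) y) : (g : ℤ) * M ≤ y b := by
  rw [mem_bx] at hu
  have h1 := hy b
  simp only [Pi.add_apply, Pi.smul_apply, smul_eq_mul, add_zero] at h1
  have hg : (0 : ℤ) ≤ (g : ℤ) := Int.natCast_nonneg g
  have h5 : (g : ℤ) * M ≤ (g : ℤ) * X b := mul_le_mul_of_nonneg_left h hg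
  have h6 : 0 ≤ u b := by
    by_cases hb : b ∈ V
    · exact (hu.1 b hb).1
    · exact (hu.2 b hb).ge
  rcases h1 with h1 | h1
  · omega
  · omega

/-- Stokes on a window when only the last lower face survives -/
lemma st_last (Ψ : Finset (Fin D) → (Fin D → ℤ) → ZMod 2) (a k M : ℕ) (h : a + k < D)
    (y : Fin D → ℤ) (hy : ∀ b : Fin D, a ≤ b.1 → b.1 ≤ a + k → y b = 0)
    (P1 : ∀ (V : Finset (Fin D)) (X : Fin D → ℤ) (b : Fin D), a ≤ b.1 → b.1 < a + k → b ∉ V →
      (X b = 0 ∨ X b = M) → Ψ V X = 0)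
    (P2 : ∀ (V : Finset (Fin D)) (X : Fin D → ℤ) (b : Fin D), b.1 = a + k → b ∉ V →
      X b = M → Ψ V X = 0) :
    bs (win D a (k + 1)) (fun _ => M) (fun u => dd Ψ (win D a (k + 1)) (y + u)) =
      bs (win D a k) (fun _ => M) (fun u => Ψ (win D a k) (y + u)) := by
  rw [stokes]
  rw [Finset.sum_eq_single ⟨a + k, h⟩]
  · rw [win_erase_last h]
    have hz : bs (win D a k) (fun _ => M)
        (fun u => Ψ (win D a k) (y + Pi.single ⟨a + k, h⟩ (M : ℤ) + u)) = 0 := by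
      apply bs_zero
      intro u hu
      rw [mem_bx] at hu
      have h1 : (⟨a + k, h⟩ : Fin D) ∉ win D a k := by
        rw [mem_win]
        simp
      apply P2 _ _ ⟨a + k, h⟩ rfl h1
      have h2 := hu.2 _ h1
      have h3 := hy ⟨a + k, h⟩ (by simp) (by simp)
      simp [h2, h3]
    rw [hz, add_zero]
  · intro i hi hne
    rw [mem_win] at hi
    have hi2 : i.1 < a + k := by
      have : i.1 ≠ a + k := fun h' => hne (Fin.ext h')
      omega
    rw [bs_zero, bs_zero, add_zero]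
    · intro u hu
      rw [mem_bx] at hu
      apply P1 _ _ i hi.1 hi2 (Finset.notMem_erase _ _)
      right
      have h2 := hu.2 i (Finset.notMem_erase _ _)
      have h3 := hy i hi.1 hi2.le
      simp [h2, h3]
    · intro u hu
      rw [mem_bx] at hu
      apply P1 _ _ i hi.1 hi2 (Finset.notMem_erase _ _)
      left
      have h2 := hu.2 i (Finset.notMem_erase _ _)
      have h3 := hy i hi.1 hi2.le
      simp [h2, h3]
  · intro h'
    exfalso
    apply h'
    rw [mem_win]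
    simp

/-- Stokes on a window when only the first upper face survives -/
lemma st_first (Ψ : Finset (Fin D) → (Fin D → ℤ) → ZMod 2) (a k M : ℕ) (h : a + k < D)
    (y : Fin D → ℤ) (hy : ∀ b : Fin D, a ≤ b.1 → b.1 ≤ a + k → y b = 0)
    (P1 : ∀ (V : Finset (Fin D)) (X : Fin D → ℤ) (b : Fin D), a + 1 ≤ b.1 → b.1 < a + 1 + k →
      b ∉ V → (X b = 0 ∨ X b = M) → Ψ V X = 0)
    (P2 : ∀ (V : Finset (Fin D)) (X : Fin D → ℤ) (b : Fin D), b.1 = a → b ∉ V →
      X b = 0 → Ψ V X = 0) :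
    bs (win D a (k + 1)) (fun _ => M) (fun u => dd Ψ (win D a (k + 1)) (y + u)) =
      bs (win D (a + 1) k) (fun _ => M)
        (fun u => Ψ (win D (a + 1) k) (y + Pi.single ⟨a, by omega⟩ (M : ℤ) + u)) := by
  have ha : a < D := by omega
  rw [stokes]
  rw [Finset.sum_eq_single ⟨a, ha⟩]
  · rw [win_erase_first ha]
    have hz : bs (win D (a + 1) k) (fun _ => M)
        (fun u => Ψ (win D (a + 1) k) (y + u)) = 0 := by
      apply bs_zero
      intro u hu
      rw [mem_bx] at hu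
      have h1 : (⟨a, ha⟩ : Fin D) ∉ win D (a + 1) k := by
        rw [mem_win]
        simp
      apply P2 _ _ ⟨a, ha⟩ rfl h1
      have h2 := hu.2 _ h1
      have h3 := hy ⟨a, ha⟩ (by simp) (by simp)
      simp [h2, h3]
    rw [hz, zero_add]
  · intro i hi hne
    rw [mem_win] at hi
    have hi2 : a + 1 ≤ i.1 := by
      have : i.1 ≠ a := fun h' => hne (Fin.ext h')
      omega
    rw [bs_zero, bs_zero, add_zero]
    · intro u hu
      rw [mem_bx] at hu
      apply P1 _ _ i hi2 (by omega) (Finset.notMem_erase _ _)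
      right
      have h2 := hu.2 i (Finset.notMem_erase _ _)
      have h3 := hy i hi.1 (by omega)
      simp [h2, h3]
    · intro u hu
      rw [mem_bx] at hu
      apply P1 _ _ i hi2 (by omega) (Finset.notMem_erase _ _)
      left
      have h2 := hu.2 i (Finset.notMem_erase _ _)
      have h3 := hy i hi.1 (by omega)
      simp [h2, h3]
  · intro h'
    exfalso
    apply h'
    rw [mem_win]
    simp

section Main

variable {g M : ℕ} {Z : (Fin D → ℤ) → ℕ → Prop}
  (hZ0 : ∀ v (b : Fin D), v b ≤ 0 → Z v b)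
  (hZ1 : ∀ v (b : Fin D), (g : ℤ) * M ≤ v b → ¬ Z v b)

lemma blk_dd (o : Fin D → ℤ) (Φ Φ' : Finset (Fin D) → (Fin D → ℤ) → ZMod 2)
    (h : ∀ V x, dd Φ V x = Φ' V x) (V : Finset (Fin D)) (X : Fin D → ℤ) :
    dd (blk g o Φ) V X = blk g o Φ' V X := by
  rw [dd_blk]
  unfold blk
  apply bs_congr
  intro u _
  exact h _ _

include hZ0 hZ1

lemma Cbe_zero (a k : ℕ) (V : Finset (Fin D)) (X : Fin D → ℤ) (b : Fin D) (h1 : a ≤ b.1)
    (h2 : b.1 < a + k) (h : (b ∉ V ∧ X b ≤ 0) ∨ X b < 0 ∨ (M : ℤ) ≤ X b) :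
    blk g 0 (be Z a k) V X = 0 := by
  apply bs_zero
  intro u hu
  apply be_zero hZ0 hZ1 a k _ _ b h1 h2
  rcases h with h | h | h
  · exact Or.inl (fun y hy => cell_lo hu (Or.inl h) hy)
  · exact Or.inl (fun y hy => cell_lo hu (Or.inr h) hy)
  · exact Or.inr (fun y hy => cell_hi hu h hy)

lemma Cmu_zero (a k : ℕ) (V : Finset (Fin D)) (X : Fin D → ℤ) (b : Fin D) (h1 : a ≤ b.1)
    (h2 : b.1 < a + k) (hb : b ∉ V) (h : X b = 0 ∨ X b = M) :
    blk g 0 (mu Z a k) V X = 0 := by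
  apply bs_zero
  intro u hu
  apply mu_zero hZ0 hZ1 a k _ _ b h1 h2
  rcases h with h | h
  · exact Or.inl (fun y hy => cell_lo hu (Or.inl ⟨hb, h.le⟩) hy)
  · exact Or.inr (fun y hy => cell_hi hu h.ge hy)

lemma Cmu_hi (a k : ℕ) (V : Finset (Fin D)) (X : Fin D → ℤ) (b : Fin D) (h1 : b.1 = a + k)
    (h : X b = M) : blk g 0 (mu Z a k) V X = 0 := by
  apply bs_zero
  intro u hu
  exact mu_hi hZ0 hZ1 a k _ _ b h1 (fun y hy => cell_hi hu h.ge hy)

lemma Cmu_lo (a k : ℕ) (V : Finset (Fin D)) (X : Fin D → ℤ) (b : Fin D) (h1 : b.1 = a + k)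
    (hb : b ∉ V) (h : X b = 0) : blk g 0 (mu Z a k) V X = blk g 0 (be Z a k) V X := by
  apply bs_congr
  intro u hu
  exact mu_lo hZ0 hZ1 a k _ _ b h1 (fun y hy => cell_lo hu (Or.inl ⟨hb, h.le⟩) hy)

lemma Cnu_zero (a k : ℕ) (V : Finset (Fin D)) (X : Fin D → ℤ) (b : Fin D) (h1 : a + 1 ≤ b.1)
    (h2 : b.1 < a + 1 + k) (hb : b ∉ V) (h : X b = 0 ∨ X b = M) :
    blk g 0 (nu Z a k) V X = 0 := by
  apply bs_zero
  intro u hu
  apply nu_zero hZ0 hZ1 a k _ _ b h1 h2
  rcases h with h | h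
  · exact Or.inl (fun y hy => cell_lo hu (Or.inl ⟨hb, h.le⟩) hy)
  · exact Or.inr (fun y hy => cell_hi hu h.ge hy)

lemma Cnu_lo (a k : ℕ) (V : Finset (Fin D)) (X : Fin D → ℤ) (b : Fin D) (h1 : b.1 = a)
    (hb : b ∉ V) (h : X b = 0) : blk g 0 (nu Z a k) V X = 0 := by
  apply bs_zero
  intro u hu
  exact nu_lo hZ0 hZ1 a k _ _ b h1 (fun y hy => cell_lo hu (Or.inl ⟨hb, h.le⟩) hy)

lemma Cnu_hi (a k : ℕ) (V : Finset (Fin D)) (X : Fin D → ℤ) (b : Fin D) (h1 : b.1 = a)
    (h : X b = M) : blk g 0 (nu Z a k) V X = blk g 0 (be Z (a + 1) k) V X := by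
  apply bs_congr
  intro u hu
  exact nu_hi hZ0 hZ1 a k _ _ b h1 (fun y hy => cell_hi hu h.ge hy)

/-- the total degree is one -/
lemma tot : ∀ (k : ℕ), k ≤ D →
    bs (win D 0 k) (fun _ => M) (fun u => blk g 0 (be Z 0 k) (win D 0 k) (0 + u)) = 1 := by
  intro k
  induction k with
  | zero =>
    intro _
    have h1 : win D 0 0 = ∅ := by
      ext i
      simp [mem_win]
    rw [h1, bs_empty]
    unfold blk
    rw [bs_empty]
    unfold be
    simp [FF, lab]
  | succ k ih =>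
    intro hk
    have h1 : bs (win D 0 (k + 1)) (fun _ => M)
        (fun u => blk g 0 (be Z 0 (k + 1)) (win D 0 (k + 1)) (0 + u)) =
        bs (win D 0 (k + 1)) (fun _ => M)
        (fun u => dd (blk g 0 (mu Z 0 k)) (win D 0 (k + 1)) (0 + u)) := by
      apply bs_congr
      intro u _
      rw [blk_dd 0 (mu Z 0 k) (be Z 0 (k + 1)) (fun V x => dd_mu Z 0 k V x)]
    rw [h1, st_last _ 0 k M (by omega) 0 (fun b _ _ => rfl)]
    · rw [← ih (by omega)]
      apply bs_congr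
      intro u hu
      rw [mem_bx] at hu
      have h2 : (⟨k, by omega⟩ : Fin D) ∉ win D 0 k := by
        rw [mem_win]
        simp
      apply Cmu_lo hZ0 hZ1 0 k _ _ ⟨k, by omega⟩ (by simp) h2
      simp [hu.2 _ h2]
    · intro V X b h1 h2 hb h
      exact Cmu_zero hZ0 hZ1 0 k V X b h1 h2 hb h
    · intro V X b h1 _ h
      exact Cmu_hi hZ0 hZ1 0 k V X b h1 h

omit hZ0 hZ1 in
lemma free_zero {n : ℕ} {V : Finset (Fin D)} {x : Fin D → ℤ} (L : (ℕ → Prop) → ℕ) (T : Finset ℕ)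
    (hT : T.card = n + 1)
    (h : ∃ S : Finset (ℕ → Prop), S.card ≤ n ∧ ∀ y, vt V x y → Z y ∈ S) :
    FF (fun v => L (Z v)) n V x T = 0 := by
  classical
  by_contra hc
  obtain ⟨S, hS, hS'⟩ := h
  have h1 := FF_attain _ n V x T hc
  have h2 : T ⊆ S.image L := by
    intro t ht
    obtain ⟨y, hy, hyt⟩ := h1 t ht
    rw [Finset.mem_image]
    exact ⟨Z y, hS' y hy, hyt⟩
  have h3 := Finset.card_le_card h2
  have h4 := Finset.card_image_le (s := S) (f := L)
  omega

variable {κ : Type*} {n : ℕ} {hit : κ → Finset (Fin D) → (Fin D → ℤ) → Prop}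
  (hmono : ∀ p V x i, i ∈ V → hit p (V.erase i) x → hit p V x)
  (hmono' : ∀ p V x i, i ∈ V → hit p (V.erase i) (x + Pi.single i 1) → hit p V x)
  (huniq : ∀ p q V x, V.card ≤ n + 1 → hit p V x → hit q V x → p = q)
  (hfree : ∀ V x, V.card = n → (∀ p, ¬ hit p V x) → ∀ u ∈ bx V (fun _ => g),
    ∃ S : Finset (ℕ → Prop), S.card ≤ n ∧ ∀ y, vt V ((g : ℤ) • x + 0 + u) y → Z y ∈ S)

include hmono hmono' huniq hfree

omit hZ0 hZ1 in
lemma dd_msk_be (a : ℕ) (p : κ) (V : Finset (Fin D)) (x : Fin D → ℤ) (hV : V.card = n + 1) :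
    dd (msk (hit p) (blk g 0 (be Z a n))) V x = 0 := by
  rw [dd_msk n hit hmono hmono' huniq (blk g 0 (be Z a n)) _ p V x hV]
  · apply msk_zero
    rw [blk_dd 0 (be Z a n) (fun _ _ => 0) (fun V x => dd_be Z a n V x)]
    exact bs_zero (fun u _ => rfl)
  · intro V x hV hu
    apply bs_zero
    intro u hu'
    exact free_zero (fun z => lab z a n) _ (by rw [Nat.card_Icc]; omega) (hfree V x hV hu u hu')

/-- moving the window by one -/
lemma chain (a : ℕ) (h : a + n < D) (p : κ) (y : Fin D → ℤ)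
    (hy : ∀ b : Fin D, a ≤ b.1 → b.1 ≤ a + n → y b = 0) :
    bs (win D a n) (fun _ => M) (fun u => msk (hit p) (blk g 0 (be Z a n)) (win D a n) (y + u)) =
    bs (win D (a + 1) n) (fun _ => M) (fun u => msk (hit p) (blk g 0 (be Z (a + 1) n))
      (win D (a + 1) n) (y + Pi.single ⟨a, by omega⟩ (M : ℤ) + u)) := by
  have hc : (win D a (n + 1)).card = n + 1 := card_win (by omega)
  have e1 := st_last (msk (hit p) (blk g 0 (mu Z a n))) a n M h y hy
    (fun V X b h1 h2 hb hX => msk_zero (Cmu_zero hZ0 hZ1 a n V X b h1 h2 hb hX))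
    (fun V X b h1 _ hX => msk_zero (Cmu_hi hZ0 hZ1 a n V X b h1 hX))
  have e2 := st_first (msk (hit p) (blk g 0 (nu Z a n))) a n M h y hy
    (fun V X b h1 h2 hb hX => msk_zero (Cnu_zero hZ0 hZ1 a n V X b h1 h2 hb hX))
    (fun V X b h1 hb hX => msk_zero (Cnu_lo hZ0 hZ1 a n V X b h1 hb hX))
  have e3 : ∀ x, dd (msk (hit p) (blk g 0 (mu Z a n))) (win D a (n + 1)) x =
      dd (msk (hit p) (blk g 0 (nu Z a n))) (win D a (n + 1)) x := by
    intro x
    rw [dd_msk n hit hmono hmono' huniq (blk g 0 (mu Z a n)) _ p _ x hc,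
      dd_msk n hit hmono hmono' huniq (blk g 0 (nu Z a n)) _ p _ x hc]
    · unfold msk
      rw [blk_dd 0 (mu Z a n) (be Z a (n + 1)) (fun V x => dd_mu Z a n V x),
        blk_dd 0 (nu Z a n) (be Z a (n + 1)) (fun V x => dd_nu Z a n V x)]
    · intro V x hV hu
      apply bs_zero
      intro u hu'
      exact free_zero (fun z => lab z a (n + 1)) _ (by rw [Nat.card_Icc]; omega)
        (hfree V x hV hu u hu')
    · intro V x hV hu
      apply bs_zero
      intro u hu'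
      exact free_zero (fun z => lab z a (n + 1)) _ (by rw [Nat.card_Icc]; omega)
        (hfree V x hV hu u hu')
  simp only [e3] at e1
  rw [e1] at e2
  have h1 : (⟨a + n, h⟩ : Fin D) ∉ win D a n := by
    rw [mem_win]
    simp
  have h2 : (⟨a, by omega⟩ : Fin D) ∉ win D (a + 1) n := by
    rw [mem_win]
    simp
  have e4 : bs (win D a n) (fun _ => M)
      (fun u => msk (hit p) (blk g 0 (mu Z a n)) (win D a n) (y + u)) =
      bs (win D a n) (fun _ => M)
      (fun u => msk (hit p) (blk g 0 (be Z a n)) (win D a n) (y + u)) := by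
    apply bs_congr
    intro u hu
    rw [mem_bx] at hu
    unfold msk
    rw [Cmu_lo hZ0 hZ1 a n _ _ ⟨a + n, h⟩ rfl h1]
    simp [hu.2 _ h1, hy ⟨a + n, h⟩ (by simp) (by simp)]
  have e5 : bs (win D (a + 1) n) (fun _ => M) (fun u => msk (hit p) (blk g 0 (nu Z a n))
      (win D (a + 1) n) (y + Pi.single ⟨a, by omega⟩ (M : ℤ) + u)) =
      bs (win D (a + 1) n) (fun _ => M) (fun u => msk (hit p) (blk g 0 (be Z (a + 1) n))
      (win D (a + 1) n) (y + Pi.single ⟨a, by omega⟩ (M : ℤ) + u)) := by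
    apply bs_congr
    intro u hu
    rw [mem_bx] at hu
    unfold msk
    rw [Cnu_hi hZ0 hZ1 a n _ _ ⟨a, by omega⟩ rfl]
    simp [hu.2 _ h2, hy ⟨a, by omega⟩ (by simp) (by simp)]
  rw [← e4, e2, e5]

end Main

end Pool.Agent.Helper286.Strict
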