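import Pool.Agent.Helper286.Strict.P11

/-! The combinatorial theorem, final form. -/

namespace Pool.Agent.Helper286.Strict

open Finset

set_option linter.unusedSectionVars false

section

variable {D m : ℕ} {g M : ℕ} {Z : (Fin D → ℤ) → ℕ → Prop}
  (hZ0 : ∀ v (b : Fin D), v b ≤ 0 → Z v b)
  (hZ1 : ∀ v (b : Fin D), (g : ℤ) * M ≤ v b → ¬ Z v b)

variable {κ : Type*} {hit : κ → Finset (Fin D) → (Fin D → ℤ) → Prop}
  (hmono : ∀ p V x i, i ∈ V → hit p (V.erase i) x → hit p V x)
  (hmono' : ∀ p V x i, i ∈ V → hit p (V.erase i) (x + Pi.single i 1) → hit p V x)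
  (huniq : ∀ p q V x, V.card ≤ (m + 1) + 1 → hit p V x → hit q V x → p = q)
  (hfree : ∀ V x, V.card = m + 1 → (∀ p, ¬ hit p V x) → ∀ u ∈ bx V (fun _ => g),
    ∃ S : Finset (ℕ → Prop), S.card ≤ m + 1 ∧ ∀ y, vt V ((g : ℤ) • x + 0 + u) y → Z y ∈ S)

include hZ0 hZ1 hmono hmono' huniq hfree

/-- the degree does not depend on the range nor on the fixed coordinates -/
lemma deg_eq (a : ℕ) (ha : a + (m + 1) ≤ D) (p : κ) (y0 y' : Fin D → ℤ) (N : Fin D → ℕ)
    (h0 : ∀ i ∈ win D a (m + 1), y0 i = 0) (h1 : ∀ i ∈ win D a (m + 1), y' i ≤ 0)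
    (h2 : ∀ i ∈ win D a (m + 1), (M : ℤ) ≤ y' i + N i) :
    bs (win D a (m + 1)) N
      (fun u => msk (hit p) (blk g 0 (be Z a (m + 1))) (win D a (m + 1)) (y' + u)) =
    bs (win D a (m + 1)) (fun _ => M)
      (fun u => msk (hit p) (blk g 0 (be Z a (m + 1))) (win D a (m + 1)) (y0 + u)) := by
  set J := win D a (m + 1) with hJ
  set β := msk (hit p) (blk g 0 (be Z a (m + 1))) with hβ
  have hv : ∀ (V : Finset (Fin D)) (x : Fin D → ℤ) (i : Fin D), i ∈ J →
      ((i ∉ V ∧ x i ≤ 0) ∨ x i < 0 ∨ (M : ℤ) ≤ x i) → β V x = 0 := by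
    intro V x i hi h
    rw [hJ, mem_win] at hi
    exact msk_zero (Cbe_zero hZ0 hZ1 a (m + 1) V x i hi.1 hi.2 h)
  have hf : ∀ x : Fin D → ℤ, ∀ i ∈ J, (x i < 0 ∨ (M : ℤ) ≤ x i) → β J x = 0 := by
    intro x i hi h
    exact hv J x i hi (Or.inr h)
  have e1 := ri J (β J) (fun _ => 0) (fun _ => (M : ℤ)) hf y' N (fun i hi => ⟨h1 i hi, h2 i hi⟩)
  set y1 : Fin D → ℤ := fun i => if i ∈ J then 0 else y' i with hy1
  have e2 := ri J (β J) (fun _ => 0) (fun _ => (M : ℤ)) hf y1 (fun _ => M)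
    (fun i hi => by simp [hy1, hi])
  have e3 : (fun i => if i ∈ J then Finset.Ico (0 : ℤ) (M : ℤ) else {y1 i}) =
      (fun i => if i ∈ J then Finset.Ico (0 : ℤ) (M : ℤ) else {y' i}) := by
    funext i
    by_cases hi : i ∈ J
    · simp [hi]
    · simp [hi, hy1]
  rw [e3, ← e1] at e2
  rw [← e2]
  apply wi_all m J (card_win ha) (fun _ => M) β y0
  · intro V x hV
    exact dd_msk_be hmono hmono' huniq hfree a p V x hV
  · intro V x _ i hi hiV hx
    rw [h0 i hi] at hx
    apply hv V x i hi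
    rcases hx with hx | hx
    · exact Or.inl ⟨hiV, hx.le⟩
    · refine Or.inr (Or.inr ?_)
      simp only [zero_add] at hx
      exact hx.ge
  · intro i hi
    simp [hy1, hi, h0 i hi]

omit hZ0 hZ1 hmono hmono' huniq hfree in
lemma blk_sum (V : Finset (Fin D)) (h r : ℕ) (s : ℤ) (o : ℤ)
    (β : Finset (Fin D) → (Fin D → ℤ) → ZMod 2) :
    bs V (fun _ => r) (fun X => blk h (fun _ => o) β V ((fun _ => s) + X)) =
      bs V (fun _ => h * r) (fun u => β V ((fun _ => (h : ℤ) * s + o) + u)) := by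
  have h1 := bs_comp h V (fun _ => r) (fun v => β V ((fun _ => (h : ℤ) * s + o) + v))
  rw [h1]
  apply bs_congr
  intro X _
  unfold blk
  apply bs_congr
  intro u _
  congr 1
  funext i
  simp only [Pi.add_apply, Pi.smul_apply, smul_eq_mul]
  ring

end

/-- The combinatorial theorem. -/
theorem combT {D m M g : ℕ} (hD : D = 2 * (m + 1)) {Z : (Fin D → ℤ) → ℕ → Prop}
    (hZ0 : ∀ v (b : Fin D), v b ≤ 0 → Z v b)
    (hZ1 : ∀ v (b : Fin D), (g : ℤ) * M ≤ v b → ¬ Z v b)
    {κ : Type*} (Pf : Finset κ)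
    {hit : κ → Finset (Fin D) → (Fin D → ℤ) → Prop}
    (hPf : ∀ p V x, hit p V x → p ∈ Pf)
    (hmono : ∀ p V x i, i ∈ V → hit p (V.erase i) x → hit p V x)
    (hmono' : ∀ p V x i, i ∈ V → hit p (V.erase i) (x + Pi.single i 1) → hit p V x)
    (huniq : ∀ p q V x, V.card ≤ (m + 1) + 1 → hit p V x → hit q V x → p = q)
    (hfree : ∀ V x, V.card = m + 1 → (∀ p, ¬ hit p V x) → ∀ u ∈ bx V (fun _ => g),
      ∃ S : Finset (ℕ → Prop), S.card ≤ m + 1 ∧ ∀ y, vt V ((g : ℤ) • x + 0 + u) y → Z y ∈ S)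
    (hblock : ∀ p ∈ Pf, ∃ k : ℕ, 0 < k ∧ ∀ (V : Finset (Fin D))
      (X : Fin D → ℤ), V.card = m + 1 →
      (∀ u ∈ bx V (fun _ => 2 * k), ¬ hit p V (((2 * k : ℕ) : ℤ) • X + (fun _ => (0 : ℤ)) + u)) ∨
      (∀ u ∈ bx Vᶜ (fun _ => 2 * k),
        ¬ hit p Vᶜ (((2 * k : ℕ) : ℤ) • (X + eV V) + (fun _ => -(k : ℤ)) + u))) :
    False := by
  classical
  -- a nonzero degree
  have h1 := tot hZ0 hZ1 (m + 1) (by omega)
  have hcard0 : (win D 0 (m + 1)).card = (m + 1) := card_win (by omega)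
  have h2 : ∀ x, blk g 0 (be Z 0 (m + 1)) (win D 0 (m + 1)) x =
      ∑ p ∈ Pf, msk (hit p) (blk g 0 (be Z 0 (m + 1))) (win D 0 (m + 1)) x := by
    intro x
    by_cases h : ∃ p, hit p (win D 0 (m + 1)) x
    · obtain ⟨p, hp⟩ := h
      rw [Finset.sum_eq_single p]
      · rw [msk_pos hp]
      · intro q _ hq
        apply msk_neg
        intro hq'
        exact hq (huniq q p _ x (by omega) hq' hp)
      · intro h
        exact absurd (hPf p _ _ hp) h
    · push Not at h
      rw [Finset.sum_eq_zero (fun p _ => msk_neg (h p))]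
      apply bs_zero
      intro u hu
      exact free_zero (fun z => lab z 0 (m + 1)) _ (by rw [Nat.card_Icc]; omega)
        (hfree _ x hcard0 h u hu)
  simp only [h2] at h1
  rw [bs_sum] at h1
  have h3 : ∑ p ∈ Pf, bs (win D 0 (m + 1)) (fun _ => M)
      (fun u => msk (hit p) (blk g 0 (be Z 0 (m + 1))) (win D 0 (m + 1)) (0 + u)) ≠ 0 := by
    rw [h1]
    exact one_ne_zero
  obtain ⟨p, hp, hp0⟩ := Finset.exists_ne_zero_of_sum_ne_zero h3
  -- the chain
  have h4 : ∀ a, a ≤ (m + 1) → bs (win D 0 (m + 1)) (fun _ => M)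
      (fun u => msk (hit p) (blk g 0 (be Z 0 (m + 1))) (win D 0 (m + 1)) (0 + u)) =
      bs (win D a (m + 1)) (fun _ => M)
      (fun u => msk (hit p) (blk g 0 (be Z a (m + 1))) (win D a (m + 1))
        ((fun i : Fin D => if i.1 < a then (M : ℤ) else 0) + u)) := by
    intro a
    induction a with
    | zero =>
      intro _
      apply bs_congr
      intro u _
      congr 1
    | succ a ih =>
      intro ha
      rw [ih (by omega), chain hZ0 hZ1 hmono hmono' huniq hfree a (by omega) p]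
      · apply bs_congr
        intro u _
        congr 2
        funext i
        by_cases hi : i = ⟨a, by omega⟩
        · subst hi
          simp
        · have hi' : i.1 ≠ a := fun h => hi (Fin.ext h)
          simp only [Pi.add_apply, Pi.single_eq_of_ne hi, add_zero]
          by_cases h5 : i.1 < a
          · rw [if_pos h5, if_pos (by omega)]
          · rw [if_neg h5, if_neg (by omega)]
      · intro b hb _
        rw [if_neg (by omega)]
  have hq0 := hp0
  rw [h4 (m + 1) le_rfl] at hq0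
  -- the blocks
  obtain ⟨k, hk, hb⟩ := hblock p hp
  set J := win D 0 (m + 1) with hJ
  have hJc : Jᶜ = win D (m + 1) (m + 1) := by
    ext i
    rw [mem_compl, hJ, mem_win, mem_win]
    have := i.2
    omega
  set β := msk (hit p) (blk g 0 (be Z 0 (m + 1))) with hβ
  set β' := msk (hit p) (blk g 0 (be Z (m + 1) (m + 1))) with hβ'
  have hβv : ∀ (V : Finset (Fin D)) (x : Fin D → ℤ) (i : Fin D), i ∈ J →
      ((i ∉ V ∧ x i ≤ 0) ∨ x i < 0 ∨ (M : ℤ) ≤ x i) → β V x = 0 := by
    intro V x i hi h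
    rw [hJ, mem_win] at hi
    exact msk_zero (Cbe_zero hZ0 hZ1 0 (m + 1) V x i hi.1 hi.2 h)
  have hβv' : ∀ (V : Finset (Fin D)) (x : Fin D → ℤ) (i : Fin D), i ∉ J →
      ((i ∉ V ∧ x i ≤ 0) ∨ x i < 0 ∨ (M : ℤ) ≤ x i) → β' V x = 0 := by
    intro V x i hi h
    rw [← mem_compl, hJc, mem_win] at hi
    exact msk_zero (Cbe_zero hZ0 hZ1 (m + 1) (m + 1) V x i hi.1 hi.2 h)
  have hkz : (1 : ℤ) ≤ (k : ℤ) := by exact_mod_cast hk
  have hMz : (0 : ℤ) ≤ (M : ℤ) := Int.natCast_nonneg M
  have e1 := PP_eval m (by rw [Fintype.card_fin, hD]) J hcard0 (-1) (M + 3)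
    (blk (2 * k) (fun _ => 0) β) (blk (2 * k) (fun _ => -(k : ℤ)) β')
    (by
      intro V x hV
      rw [dd_blk]
      apply bs_zero
      intro u _
      exact dd_msk_be hmono hmono' huniq hfree 0 p V _ hV)
    (by
      intro V x hV
      rw [dd_blk]
      apply bs_zero
      intro u _
      exact dd_msk_be hmono hmono' huniq hfree (m + 1) p V _ hV)
    (by
      intro V x _ i hi hiV hx
      apply bs_zero
      intro u hu
      rw [mem_bx] at hu
      apply hβv V _ i hi
      have h5 := hu.2 i hiV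
      simp only [Pi.add_apply, Pi.smul_apply, smul_eq_mul, h5, add_zero]
      push_cast
      rcases hx with hx | hx
      · left
        refine ⟨hiV, ?_⟩
        rw [hx]
        linarith
      · right; right
        rw [hx]
        push_cast
        nlinarith)
    (by
      intro V x _ i hi hiV hx
      apply bs_zero
      intro u hu
      rw [mem_bx] at hu
      apply hβv' V _ i hi
      have h5 := hu.2 i hiV
      simp only [Pi.add_apply, Pi.smul_apply, smul_eq_mul, h5, add_zero]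
      push_cast
      rcases hx with hx | hx
      · left
        refine ⟨hiV, ?_⟩
        rw [hx]
        linarith
      · right; right
        rw [hx]
        push_cast
        nlinarith)
  have e2 : PP m (fun _ => (-1 : ℤ)) (fun _ => M + 3) (blk (2 * k) (fun _ => 0) β)
      (blk (2 * k) (fun _ => -(k : ℤ)) β') = 0 := by
    unfold PP
    apply bs_zero
    intro X _
    refine Finset.sum_eq_zero fun V hV => ?_
    rw [mem_powersetCard_univ] at hV
    rcases hb V ((fun _ => (-1 : ℤ)) + X) hV with h | h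
    · have : blk (2 * k) (fun _ => 0) β V ((fun _ => (-1 : ℤ)) + X) = 0 := by
        apply bs_zero
        intro u hu
        exact msk_neg (h u hu)
      rw [this, zero_mul]
    · have : blk (2 * k) (fun _ => -(k : ℤ)) β' Vᶜ ((fun _ => (-1 : ℤ)) + X + eV V) = 0 := by
        apply bs_zero
        intro u hu
        exact msk_neg (h u hu)
      rw [this, mul_zero]
  rw [e2, blk_sum, blk_sum] at e1
  have f1 := deg_eq hZ0 hZ1 hmono hmono' huniq hfree 0 (by omega) p 0
    (fun _ => ((2 * k : ℕ) : ℤ) * (-1) + 0) (fun _ => 2 * k * (M + 3)) (fun i _ => rfl)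
    (by intro i _; push_cast; linarith)
    (by intro i _; push_cast; nlinarith)
  have f2 := deg_eq hZ0 hZ1 hmono hmono' huniq hfree (m + 1) (by omega) p
    (fun i : Fin D => if i.1 < (m + 1) then (M : ℤ) else 0)
    (fun _ => ((2 * k : ℕ) : ℤ) * (-1) + -(k : ℤ)) (fun _ => 2 * k * (M + 3))
    (by
      intro i hi
      rw [mem_win] at hi
      rw [if_neg (by omega)])
    (by intro i _; push_cast; linarith)
    (by intro i _; push_cast; nlinarith)
  rw [hJc] at e1
  rw [← hβ, ← hJ] at f1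
  rw [← hβ'] at f2
  rw [f1, f2] at e1
  exact (mul_ne_zero hp0 hq0) e1.symm

end Pool.Agent.Helper286.Strict
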