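import Pool.Agent.Helper286.Strict.P05

/-! The large inductive compactness degree: ambient form and basic facts. -/

universe u

namespace Pool.Agent.Helper286.Strict

open Set Topology

section Ambient

variable {E : Type u} [TopologicalSpace E]

/-- Ambient form of `CmpLargeLE`. -/
def PL : ℕ → Set E → Prop
  | 0, Y => IsCompact Y
  | 1, Y => PCmp 1 Y
  | k + 2, Y => ∀ F G : Set E, IsClosed F → IsClosed G → F ∩ G ∩ Y = ∅ →
      ∃ U V : Set E, IsOpen U ∧ IsOpen V ∧ U ∩ V ∩ Y = ∅ ∧ F ∩ Y ⊆ U ∧ G ∩ Y ⊆ V ∧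
        PL (k + 1) (Y \ (U ∪ V))

lemma cmpLargeLE_iff : ∀ (k : ℕ) {X : Type u} [TopologicalSpace X] {f : X → E},
    IsEmbedding f → (CmpLargeLE k X ↔ PL k (range f)) := by
  intro k
  induction k with
  | zero =>
    intro X _ f hf
    show CompactSpace X ↔ IsCompact (range f)
    rw [← image_univ, ← hf.isCompact_iff, isCompact_univ_iff]
  | succ k ih =>
    cases k with
    | zero =>
      intro X _ f hf
      exact cmpLE_iff 1 hf
    | succ k =>
    intro X _ f hf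
    constructor
    · rintro h F G hF hG hFG
      obtain ⟨S, U', V', hS, hU', hV', hd, hSc, hxU, hGV, hSk⟩ :=
        h (f ⁻¹' F) (f ⁻¹' G) (hF.preimage hf.continuous) (hG.preimage hf.continuous) (by
          rw [Set.disjoint_left]
          intro x hx1 hx2
          have : f x ∈ F ∩ G ∩ range f := ⟨⟨hx1, hx2⟩, x, rfl⟩
          rw [hFG] at this
          exact this)
      obtain ⟨U, hU, rfl⟩ := hf.isInducing.isOpen_iff.mp hU'
      obtain ⟨V, hV, rfl⟩ := hf.isInducing.isOpen_iff.mp hV'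
      refine ⟨U, V, hU, hV, ?_, ?_, ?_, ?_⟩
      · ext y
        simp only [mem_inter_iff, mem_empty_iff_false, iff_false, not_and]
        rintro ⟨hyU, hyV⟩ ⟨x', rfl⟩
        exact (Set.disjoint_left.mp hd) hyU hyV
      · rintro _ ⟨hyG, x', rfl⟩
        exact hxU hyG
      · rintro _ ⟨hyG, x', rfl⟩
        exact hGV hyG
      · have he : IsEmbedding (fun s : S => f s.1) := hf.comp IsEmbedding.subtypeVal
        have h1 := (ih he).mp hSk
        have h2 : range (fun s : S => f s.1) = range f \ (U ∪ V) := by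
          ext y
          constructor
          · rintro ⟨⟨s, hs⟩, rfl⟩
            refine ⟨⟨s, rfl⟩, ?_⟩
            intro hc
            have : s ∈ Sᶜ := by
              rw [hSc]
              exact hc
            exact this hs
          · rintro ⟨⟨x', rfl⟩, hx'⟩
            have : x' ∈ S := by
              by_contra hc
              have h3 : x' ∈ Sᶜ := hc
              rw [hSc] at h3
              exact hx' h3
            exact ⟨⟨x', this⟩, rfl⟩
        rw [h2] at h1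
        exact h1
    · intro h F' G' hF' hG' hFG'
      obtain ⟨F, hF, rfl⟩ := hf.isInducing.isClosed_iff.mp hF'
      obtain ⟨G, hG, rfl⟩ := hf.isInducing.isClosed_iff.mp hG'
      obtain ⟨U, V, hU, hV, hUV, hxU, hGV, hk⟩ := h F G hF hG (by
        ext y
        simp only [mem_inter_iff, mem_empty_iff_false, iff_false, not_and]
        rintro ⟨hyU, hyV⟩ ⟨x', rfl⟩
        exact (Set.disjoint_left.mp hFG') hyU hyV)
      refine ⟨(f ⁻¹' U ∪ f ⁻¹' V)ᶜ, f ⁻¹' U, f ⁻¹' V, ?_, hU.preimage hf.continuous,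
        hV.preimage hf.continuous, ?_, compl_compl _, ?_, ?_, ?_⟩
      · exact ((hU.preimage hf.continuous).union (hV.preimage hf.continuous)).isClosed_compl
      · rw [Set.disjoint_left]
        intro y hy1 hy2
        have : f y ∈ U ∩ V ∩ range f := ⟨⟨hy1, hy2⟩, y, rfl⟩
        rw [hUV] at this
        exact this
      · intro y hy
        exact hxU ⟨hy, y, rfl⟩
      · intro y hy
        exact hGV ⟨hy, y, rfl⟩
      · have he : IsEmbedding (fun s : ((f ⁻¹' U ∪ f ⁻¹' V)ᶜ : Set X) => f s.1) :=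
          hf.comp IsEmbedding.subtypeVal
        show CmpLargeLE (k + 1) _
        rw [ih he]
        have h2 : range (fun s : ((f ⁻¹' U ∪ f ⁻¹' V)ᶜ : Set X) => f s.1) =
            range f \ (U ∪ V) := by
          ext y
          constructor
          · rintro ⟨⟨s, hs⟩, rfl⟩
            exact ⟨⟨s, rfl⟩, hs⟩
          · rintro ⟨⟨x', rfl⟩, hx'⟩
            exact ⟨⟨x', hx'⟩, rfl⟩
        rw [h2]
        exact hk

/-- a small degree passes to closed subsets -/
lemma PCmp.closed : ∀ (k : ℕ) {Y F : Set E}, IsClosed F → PCmp k Y → PCmp k (Y ∩ F) := by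
  intro k
  induction k with
  | zero =>
    intro Y F hF h
    exact IsCompact.inter_right h hF
  | succ k ih =>
    intro Y F hF h p hp G hG hpG
    obtain ⟨U, V, hU, hV, hUV, hpU, hGV, hk⟩ := h p hp.1 G hG hpG
    refine ⟨U, V, hU, hV, ?_, hpU, ?_, ?_⟩
    · rw [← inter_assoc, hUV, empty_inter]
    · rintro z ⟨hz, hzY, -⟩
      exact hGV ⟨hz, hzY⟩
    · have : (Y ∩ F) \ (U ∪ V) = (Y \ (U ∪ V)) ∩ F := by
        ext z
        simp only [mem_sdiff, mem_inter_iff]
        tauto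
      rw [this]
      exact ih hF hk

/-- the large degree passes to closed subsets -/
lemma PL.closed : ∀ (k : ℕ) {Y F : Set E}, IsClosed F → PL k Y → PL k (Y ∩ F) := by
  intro k
  induction k with
  | zero =>
    intro Y F hF h
    exact IsCompact.inter_right h hF
  | succ k ih =>
    cases k with
    | zero =>
      intro Y F hF h
      exact PCmp.closed 1 hF h
    | succ k =>
    intro Y F hF h A B hA hB hAB
    obtain ⟨U, V, hU, hV, hUV, hpU, hGV, hk⟩ := h (A ∩ F) (B ∩ F) (hA.inter hF) (hB.inter hF) (by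
      ext z
      simp only [mem_inter_iff, mem_empty_iff_false, iff_false, not_and]
      rintro ⟨⟨h1, h2⟩, h3, -⟩ h4
      have : z ∈ A ∩ B ∩ (Y ∩ F) := ⟨⟨h1, h3⟩, h4, h2⟩
      rw [hAB] at this
      exact this)
    refine ⟨U, V, hU, hV, ?_, ?_, ?_, ?_⟩
    · rw [← inter_assoc, hUV, empty_inter]
    · rintro z ⟨hz, hzY, hzF⟩
      exact hpU ⟨⟨hz, hzF⟩, hzY⟩
    · rintro z ⟨hz, hzY, hzF⟩
      exact hGV ⟨⟨hz, hzF⟩, hzY⟩
    · have : (Y ∩ F) \ (U ∪ V) = (Y \ (U ∪ V)) ∩ F := by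
        ext z
        simp only [mem_sdiff, mem_inter_iff]
        tauto
      rw [this]
      exact ih hF hk

/-- union of separated pieces, small degree -/
lemma PCmp.sum : ∀ (k : ℕ) {Y₁ Y₂ O₁ O₂ : Set E}, IsOpen O₁ → IsOpen O₂ → Disjoint O₁ O₂ →
    Y₁ ⊆ O₁ → Y₂ ⊆ O₂ → PCmp k Y₁ → PCmp k Y₂ → PCmp k (Y₁ ∪ Y₂) := by
  intro k
  cases k with
  | zero =>
    intro Y₁ Y₂ O₁ O₂ _ _ _ _ _ h1 h2
    exact IsCompact.union h1 h2
  | succ k =>
    intro Y₁ Y₂ O₁ O₂ hO₁ hO₂ hO hY₁ hY₂ h1 h2 p hp G hG hpG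
    have key : ∀ {Y₁ Y₂ O₁ O₂ : Set E}, IsOpen O₁ → IsOpen O₂ → Disjoint O₁ O₂ →
        Y₁ ⊆ O₁ → Y₂ ⊆ O₂ → PCmp (k + 1) Y₁ → p ∈ Y₁ →
        ∃ U V : Set E, IsOpen U ∧ IsOpen V ∧ U ∩ V ∩ (Y₁ ∪ Y₂) = ∅ ∧ p ∈ U ∧
          G ∩ (Y₁ ∪ Y₂) ⊆ V ∧ PCmp k ((Y₁ ∪ Y₂) \ (U ∪ V)) := by
      intro Y₁ Y₂ O₁ O₂ hO₁ hO₂ hO hY₁ hY₂ h1 hp
      obtain ⟨U, V, hU, hV, hUV, hpU, hGV, hk⟩ := h1 p hp G hG hpG
      refine ⟨U ∩ O₁, (V ∩ O₁) ∪ O₂, hU.inter hO₁, (hV.inter hO₁).union hO₂, ?_,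
        ⟨hpU, hY₁ hp⟩, ?_, ?_⟩
      · ext z
        simp only [mem_inter_iff, mem_empty_iff_false, iff_false, not_and]
        rintro ⟨⟨h3, h4⟩, h5⟩ h6
        have hz2 : z ∉ O₂ := Set.disjoint_left.mp hO h4
        have hz1 : z ∈ Y₁ := h6.resolve_right (fun h => hz2 (hY₂ h))
        have hzV : z ∈ V := by
          rcases h5 with h5 | h5
          · exact h5.1
          · exact absurd h5 hz2
        have : z ∈ U ∩ V ∩ Y₁ := ⟨⟨h3, hzV⟩, hz1⟩
        rw [hUV] at this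
        exact this
      · rintro z ⟨hz, hz1 | hz2⟩
        · exact Or.inl ⟨hGV ⟨hz, hz1⟩, hY₁ hz1⟩
        · exact Or.inr (hY₂ hz2)
      · have : (Y₁ ∪ Y₂) \ (U ∩ O₁ ∪ (V ∩ O₁ ∪ O₂)) = Y₁ \ (U ∪ V) := by
          ext z
          simp only [mem_sdiff, mem_union, mem_inter_iff, not_or, not_and]
          constructor
          · rintro ⟨h3 | h3, h4, h5, h6⟩
            · exact ⟨h3, fun h => h4 h (hY₁ h3), fun h => h5 h (hY₁ h3)⟩
            · exact absurd (hY₂ h3) h6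
          · rintro ⟨h3, h4, h5⟩
            exact ⟨Or.inl h3, fun h => absurd h h4, fun h => absurd h h5,
              Set.disjoint_left.mp hO (hY₁ h3)⟩
        rw [this]
        exact hk
    rcases hp with hp | hp
    · exact key hO₁ hO₂ hO hY₁ hY₂ h1 hp
    · rw [union_comm]
      exact key hO₂ hO₁ hO.symm hY₂ hY₁ h2 hp

/-- union of separated pieces, large degree -/
lemma PL.sum : ∀ (k : ℕ) {Y₁ Y₂ O₁ O₂ : Set E}, IsOpen O₁ → IsOpen O₂ → Disjoint O₁ O₂ →
    Y₁ ⊆ O₁ → Y₂ ⊆ O₂ → PL k Y₁ → PL k Y₂ → PL k (Y₁ ∪ Y₂) := by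
  intro k
  induction k with
  | zero =>
    intro Y₁ Y₂ O₁ O₂ _ _ _ _ _ h1 h2
    exact IsCompact.union h1 h2
  | succ k ih =>
    cases k with
    | zero =>
      intro Y₁ Y₂ O₁ O₂ hO₁ hO₂ hO hY₁ hY₂ h1 h2
      exact PCmp.sum 1 hO₁ hO₂ hO hY₁ hY₂ h1 h2
    | succ k =>
    intro Y₁ Y₂ O₁ O₂ hO₁ hO₂ hO hY₁ hY₂ h1 h2 F G hF hG hFG
    obtain ⟨U₁, V₁, hU₁, hV₁, hUV₁, hF₁, hG₁, hk₁⟩ := h1 F G hF hG (by
      apply Set.eq_empty_of_subset_empty
      rw [← hFG]
      exact inter_subset_inter_right _ subset_union_left)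
    obtain ⟨U₂, V₂, hU₂, hV₂, hUV₂, hF₂, hG₂, hk₂⟩ := h2 F G hF hG (by
      apply Set.eq_empty_of_subset_empty
      rw [← hFG]
      exact inter_subset_inter_right _ subset_union_right)
    have hd : ∀ z, z ∈ O₁ → z ∉ O₂ := fun z hz => Set.disjoint_left.mp hO hz
    have e1 : ∀ z, z ∉ U₁ ∩ V₁ ∩ Y₁ := fun z => by rw [hUV₁]; exact notMem_empty z
    have e2 : ∀ z, z ∉ U₂ ∩ V₂ ∩ Y₂ := fun z => by rw [hUV₂]; exact notMem_empty z
    refine ⟨(U₁ ∩ O₁) ∪ (U₂ ∩ O₂), (V₁ ∩ O₁) ∪ (V₂ ∩ O₂),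
      (hU₁.inter hO₁).union (hU₂.inter hO₂), (hV₁.inter hO₁).union (hV₂.inter hO₂), ?_, ?_, ?_, ?_⟩
    · ext z
      simp only [mem_inter_iff, mem_empty_iff_false, iff_false, not_and]
      rintro ⟨h3, h4⟩ h6
      rcases h6 with h6 | h6
      · have hz := hd z (hY₁ h6)
        have h7 : z ∈ U₁ := by
          rcases h3 with h3 | h3
          · exact h3.1
          · exact absurd h3.2 hz
        have h8 : z ∈ V₁ := by
          rcases h4 with h3 | h3
          · exact h3.1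
          · exact absurd h3.2 hz
        exact e1 z ⟨⟨h7, h8⟩, h6⟩
      · have hz : z ∉ O₁ := fun h => hd z h (hY₂ h6)
        have h7 : z ∈ U₂ := by
          rcases h3 with h3 | h3
          · exact absurd h3.2 hz
          · exact h3.1
        have h8 : z ∈ V₂ := by
          rcases h4 with h3 | h3
          · exact absurd h3.2 hz
          · exact h3.1
        exact e2 z ⟨⟨h7, h8⟩, h6⟩
    · rintro z ⟨hz, hz1 | hz2⟩
      · exact Or.inl ⟨hF₁ ⟨hz, hz1⟩, hY₁ hz1⟩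
      · exact Or.inr ⟨hF₂ ⟨hz, hz2⟩, hY₂ hz2⟩
    · rintro z ⟨hz, hz1 | hz2⟩
      · exact Or.inl ⟨hG₁ ⟨hz, hz1⟩, hY₁ hz1⟩
      · exact Or.inr ⟨hG₂ ⟨hz, hz2⟩, hY₂ hz2⟩
    · have : (Y₁ ∪ Y₂) \ ((U₁ ∩ O₁) ∪ (U₂ ∩ O₂) ∪ ((V₁ ∩ O₁) ∪ (V₂ ∩ O₂))) =
          (Y₁ \ (U₁ ∪ V₁)) ∪ (Y₂ \ (U₂ ∪ V₂)) := by
        ext z
        simp only [mem_sdiff, mem_union, mem_inter_iff, not_or, not_and]
        constructor
        · rintro ⟨h3 | h3, ⟨h4, h5⟩, h6, h7⟩
          · exact Or.inl ⟨h3, fun h => h4 h (hY₁ h3), fun h => h6 h (hY₁ h3)⟩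
          · exact Or.inr ⟨h3, fun h => h5 h (hY₂ h3), fun h => h7 h (hY₂ h3)⟩
        · rintro (⟨h3, h4, h5⟩ | ⟨h3, h4, h5⟩)
          · have hz := hd z (hY₁ h3)
            exact ⟨Or.inl h3, ⟨fun h => absurd h h4, fun _ => hz⟩, fun h => absurd h h5,
              fun _ => hz⟩
          · have hz : z ∉ O₁ := fun h => hd z h (hY₂ h3)
            exact ⟨Or.inr h3, ⟨fun _ => hz, fun h => absurd h h4⟩, fun _ => hz,
              fun h => absurd h h5⟩
      show PL (k + 1) _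
      rw [this]
      refine ih hO₁ hO₂ hO (sdiff_subset.trans hY₁) (sdiff_subset.trans hY₂) hk₁ hk₂

end Ambient

section Metric

variable {E : Type u} [PseudoMetricSpace E]

lemma PCmp.succ : ∀ (k : ℕ) {Y : Set E}, PCmp k Y → PCmp (k + 1) Y := by
  intro k
  induction k with
  | zero => intro Y h; exact PCmp.of_isCompact 1 h
  | succ k ih =>
    intro Y h p hp G hG hpG
    obtain ⟨U, V, hU, hV, hUV, hpU, hGV, hk⟩ := h p hp G hG hpG
    exact ⟨U, V, hU, hV, hUV, hpU, hGV, ih hk⟩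

/-- disjoint relatively closed sets in a subset of a metric space have disjoint open
neighbourhoods -/
lemma separate {P Q : Set E} (h1 : ∀ z ∈ P, z ∉ closure Q) (h2 : ∀ z ∈ Q, z ∉ closure P) :
    ∃ U V : Set E, IsOpen U ∧ IsOpen V ∧ P ⊆ U ∧ Q ⊆ V ∧ Disjoint U V ∧
      ∃ K : Set E, IsClosed K ∧ U ⊆ K ∧ Disjoint K Q := by
  refine ⟨{z | Metric.infEDist z P < Metric.infEDist z Q},
    {z | Metric.infEDist z Q < Metric.infEDist z P},
    isOpen_lt Metric.continuous_infEDist Metric.continuous_infEDist,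
    isOpen_lt Metric.continuous_infEDist Metric.continuous_infEDist, ?_, ?_, ?_,
    {z | Metric.infEDist z P ≤ Metric.infEDist z Q},
    isClosed_le Metric.continuous_infEDist Metric.continuous_infEDist, ?_, ?_⟩
  · intro z hz
    show Metric.infEDist z P < Metric.infEDist z Q
    rw [Metric.infEDist_zero_of_mem hz]
    rw [pos_iff_ne_zero]
    intro h
    exact h1 z hz (Metric.mem_closure_iff_infEDist_zero.mpr h)
  · intro z hz
    show Metric.infEDist z Q < Metric.infEDist z P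
    rw [Metric.infEDist_zero_of_mem hz]
    rw [pos_iff_ne_zero]
    intro h
    exact h2 z hz (Metric.mem_closure_iff_infEDist_zero.mpr h)
  · rw [Set.disjoint_left]
    intro z hz1 hz2
    exact lt_asymm (show Metric.infEDist z P < Metric.infEDist z Q from hz1) hz2
  · intro z hz
    exact le_of_lt (show Metric.infEDist z P < Metric.infEDist z Q from hz)
  · rw [Set.disjoint_right]
    intro z hz hz2
    have hz2' : Metric.infEDist z P ≤ Metric.infEDist z Q := hz2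
    rw [Metric.infEDist_zero_of_mem hz] at hz2'
    exact h2 z hz (Metric.mem_closure_iff_infEDist_zero.mpr (le_antisymm hz2' bot_le))

lemma PL.one_to_two {Y : Set E} (h : PCmp 1 Y) : PL 2 Y := by
  intro F G hF hG hFG
  have hd : ∀ z, z ∈ F → z ∈ G → z ∈ Y → False := by
    intro z h1 h2 h3
    have : z ∈ F ∩ G ∩ Y := ⟨⟨h1, h2⟩, h3⟩
    rw [hFG] at this
    exact this
  obtain ⟨U, V, hU, hV, hFU, hGV, hUV, -⟩ := separate (P := F ∩ Y) (Q := G ∩ Y) (by
    rintro z ⟨hz, hzY⟩ hc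
    have : z ∈ G := hG.closure_subset_iff.mpr inter_subset_left hc
    exact hd z hz this hzY) (by
    rintro z ⟨hz, hzY⟩ hc
    have : z ∈ F := hF.closure_subset_iff.mpr inter_subset_left hc
    exact hd z this hz hzY)
  refine ⟨U, V, hU, hV, ?_, hFU, hGV, ?_⟩
  · rw [hUV.inter_eq, empty_inter]
  · have : Y \ (U ∪ V) = Y ∩ (U ∪ V)ᶜ := rfl
    rw [this]
    exact PCmp.closed 1 (hU.union hV).isClosed_compl h

lemma PL.succ : ∀ (k : ℕ) {Y : Set E}, PL k Y → PL (k + 1) Y := by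
  intro k
  induction k with
  | zero => intro Y h; exact PCmp.of_isCompact 1 h
  | succ k ih =>
    cases k with
    | zero =>
      intro Y h
      exact PL.one_to_two h
    | succ k =>
    intro Y h F G hF hG hFG
    obtain ⟨U, V, hU, hV, hUV, hpU, hGV, hk⟩ := h F G hF hG hFG
    exact ⟨U, V, hU, hV, hUV, hpU, hGV, ih hk⟩

end Metric

lemma PL.toPCmp {E : Type u} [TopologicalSpace E] [T1Space E] : ∀ (k : ℕ) {Y : Set E},
    PL k Y → PCmp k Y := by
  intro k
  induction k with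
  | zero => intro Y h; exact h
  | succ k ih =>
    cases k with
    | zero =>
      intro Y h
      exact h
    | succ k =>
    intro Y h p hp G hG hpG
    obtain ⟨U, V, hU, hV, hUV, hpU, hGV, hk⟩ := h {p} G isClosed_singleton hG (by
      ext z
      simp only [mem_inter_iff, mem_empty_iff_false, iff_false, not_and, mem_singleton_iff]
      rintro ⟨rfl, h2⟩ _
      exact hpG h2)
    exact ⟨U, V, hU, hV, hUV, hpU ⟨rfl, hp⟩, hGV, ih hk⟩

end Pool.Agent.Helper286.Strict
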