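import Pool.Agent.Helper286.Strict.P13

/-! The main lemma for upper bounds. -/

universe u

namespace Pool.Agent.Helper286.Strict

open Set Topology

/-- The setting: a subset `X` of a metric space with coordinates `π` and time `t`, compact at time
zero and locally compact elsewhere, with wall values `C` and classes `cls`. -/
structure Setup {E : Type u} [MetricSpace E] (d : ℕ) (X L : Set E) (π : E → Fin d → ℝ)
    (t : E → ℝ) (C : ℕ → Set ℝ) (cls : ℕ → E → Fin d → Prop) : Prop where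
  cont_pi : ∀ a, Continuous (fun z => π z a)
  cont_t : Continuous t
  sub : L ⊆ X
  comp : IsCompact L
  t_zero : ∀ z ∈ L, t z = 0
  loc : ∀ y ∈ X, y ∉ L → ∃ r > 0, IsCompact (X ∩ Metric.closedBall y r)
  gap : ∀ ε > 0, ∃ θ, 0 < θ ∧ θ < ε ∧ ∀ z ∈ X, t z ≠ θ
  nb : ∀ y ∈ L, ∀ ε > 0, ∃ η > 0, ∀ z ∈ X, (∀ a, |π z a - π y a| < η) → t z < η → dist z y < ε
  dense : ∀ r, ∀ a b : ℝ, a < b → ∃ c ∈ C r, a < c ∧ c < b
  mono : ∀ r z a, cls (r + 1) z a → cls r z a
  wall : ∀ r, ∀ c ∈ C r, ∃ θ > 0, ∀ z ∈ X, z ∉ L → t z < θ → ∀ a, π z a = c →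
    cls r z a ∧ ¬ cls (r + 1) z a

variable {E : Type u} [MetricSpace E] {d : ℕ} {X L : Set E} {π : E → Fin d → ℝ}
  {t : E → ℝ} {C : ℕ → Set ℝ} {cls : ℕ → E → Fin d → Prop}

/-- choice of a box around a point at time zero -/
lemma Setup.box (h : Setup d X L π t C cls) (r : ℕ) {y : E} (hy : y ∈ L) {ε : ℝ} (hε : 0 < ε) :
    ∃ (c c' : Fin d → ℝ) (η θ : ℝ), 0 < η ∧ 0 < θ ∧ θ ≤ η / 2 ∧
      (∀ a, c a < π y a ∧ π y a < c' a) ∧
      (∀ z ∈ X, (∀ a, c a ≤ π z a ∧ π z a ≤ c' a) → t z ≤ η / 2 → dist z y < ε) ∧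
      (∀ z ∈ X, z ∉ L → t z < θ → ∀ a, (π z a = c a ∨ π z a = c' a) →
        cls r z a ∧ ¬ cls (r + 1) z a) := by
  obtain ⟨η, hη, hη'⟩ := h.nb y hy ε hε
  have h1 : ∀ a, ∃ c ∈ C r, π y a - η < c ∧ c < π y a := fun a =>
    h.dense r _ _ (by linarith)
  have h2 : ∀ a, ∃ c ∈ C r, π y a < c ∧ c < π y a + η := fun a =>
    h.dense r _ _ (by linarith)
  choose c hc hc1 hc2 using h1
  choose c' hc' hc1' hc2' using h2
  choose θ₁ hθ₁ hw₁ using fun a => h.wall r (c a) (hc a)
  choose θ₂ hθ₂ hw₂ using fun a => h.wall r (c' a) (hc' a)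
  obtain ⟨θ, hθ0, hθ⟩ : ∃ θ : ℝ, 0 < θ ∧ θ ≤ η / 2 ∧ ∀ a, θ ≤ θ₁ a ∧ θ ≤ θ₂ a := by
    by_cases hd : Nonempty (Fin d)
    · refine ⟨min (η / 2) (Finset.univ.inf' Finset.univ_nonempty (fun a => min (θ₁ a) (θ₂ a))),
        ?_, min_le_left _ _, ?_⟩
      · apply lt_min (by linarith)
        rw [Finset.lt_inf'_iff]
        intro a _
        exact lt_min (hθ₁ a) (hθ₂ a)
      · intro a
        have := Finset.inf'_le (fun a => min (θ₁ a) (θ₂ a)) (Finset.mem_univ a)
        have h3 := (min_le_right (η / 2) (Finset.univ.inf' Finset.univ_nonempty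
          (fun a => min (θ₁ a) (θ₂ a)))).trans this
        exact ⟨h3.trans (min_le_left _ _), h3.trans (min_le_right _ _)⟩
    · exact ⟨η / 2, by linarith, le_rfl, fun a => absurd ⟨a⟩ hd⟩
  refine ⟨c, c', η, θ, hη, hθ0, hθ.1, fun a => ⟨hc2 a, hc1' a⟩, ?_, ?_⟩
  · intro z hz hza hzt
    apply hη' z hz
    · intro a
      rw [abs_lt]
      constructor <;> linarith [hc1 a, hc2' a, (hza a).1, (hza a).2]
    · linarith
  · intro z hz hzL hzt a hza
    rcases hza with hza | hza
    · exact hw₁ a z hz hzL (lt_of_lt_of_le hzt (hθ.2 a).1) a hza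
    · exact hw₂ a z hz hzL (lt_of_lt_of_le hzt (hθ.2 a).2) a hza

/-- The base case: no coordinates of the given class near time zero. -/
lemma Setup.zero (h : Setup d X L π t C cls) (r : ℕ) {F : Set E} (hF : IsClosed F)
    (hc : ∀ y ∈ L, y ∈ F → ∀ᶠ z in 𝓝 y, z ∈ X → z ∈ F → z ∉ L → ∀ a, ¬ cls r z a) :
    PL 1 (X ∩ F) := by
  intro p hp G hG hpG
  by_cases hpL : p ∈ L
  · have hev : ∀ᶠ z in 𝓝 p, (z ∈ X → z ∈ F → z ∉ L → ∀ a, ¬ cls r z a) ∧ z ∉ G :=
      (hc p hpL hp.2).and (hG.isOpen_compl.mem_nhds hpG)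
    obtain ⟨ε, hε, hball⟩ := Metric.eventually_nhds_iff.mp hev
    obtain ⟨c, c', η, θ₀, hη, hθ₀, hθη, hcc, hd, hw⟩ := h.box r hpL hε
    obtain ⟨θ, hθ, hθ', hθX⟩ := h.gap θ₀ hθ₀
    have hU : IsOpen ({z : E | ∀ a, c a < π z a ∧ π z a < c' a} ∩ {z | t z < θ}) := by
      apply IsOpen.inter
      · have : {z : E | ∀ a, c a < π z a ∧ π z a < c' a} =
            ⋂ a, {z : E | c a < π z a ∧ π z a < c' a} := by
          ext z; simp
        rw [this]
        apply isOpen_iInter_of_finite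
        intro a
        exact (isOpen_lt continuous_const (h.cont_pi a)).inter
          (isOpen_lt (h.cont_pi a) continuous_const)
      · exact isOpen_lt h.cont_t continuous_const
    have hV : IsOpen ({z : E | ∃ a, π z a < c a ∨ c' a < π z a} ∪ {z | θ < t z}) := by
      apply IsOpen.union
      · have : {z : E | ∃ a, π z a < c a ∨ c' a < π z a} =
            ⋃ a, {z : E | π z a < c a ∨ c' a < π z a} := by
          ext z; simp
        rw [this]
        apply isOpen_iUnion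
        intro a
        exact (isOpen_lt (h.cont_pi a) continuous_const).union
          (isOpen_lt continuous_const (h.cont_pi a))
      · exact isOpen_lt continuous_const h.cont_t
    refine ⟨_, _, hU, hV, ?_, ⟨fun a => hcc a, ?_⟩, ?_, ?_⟩
    · ext z
      simp only [mem_inter_iff, mem_union, mem_ofPred_eq, mem_empty_iff_false, iff_false, not_and]
      rintro ⟨⟨h1, h2⟩, (⟨a, h3 | h3⟩ | h3)⟩
      · linarith [(h1 a).1]
      · linarith [(h1 a).2]
      · linarith
    · show t p < θ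
      rw [h.t_zero p hpL]
      exact hθ
    · rintro z ⟨hzG, hzX, hzF⟩
      by_contra hcon
      simp only [mem_union, mem_ofPred_eq, not_or, not_exists, not_lt] at hcon
      have h1 : dist z p < ε := hd z hzX hcon.1 (by linarith [hcon.2])
      exact (hball h1).2 hzG
    · show IsCompact _
      have hsub : (X ∩ F) \ (({z : E | ∀ a, c a < π z a ∧ π z a < c' a} ∩ {z | t z < θ}) ∪
          ({z : E | ∃ a, π z a < c a ∨ c' a < π z a} ∪ {z | θ < t z})) =
          L ∩ (F ∩ (({z : E | ∀ a, c a < π z a ∧ π z a < c' a} ∩ {z | t z < θ}) ∪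
          ({z : E | ∃ a, π z a < c a ∨ c' a < π z a} ∪ {z | θ < t z}))ᶜ) := by
        ext z
        constructor
        · rintro ⟨⟨hzX, hzF⟩, hn⟩
          refine ⟨?_, hzF, hn⟩
          by_contra hzL
          simp only [mem_union, mem_inter_iff, mem_ofPred_eq, not_or, not_exists, not_lt] at hn
          obtain ⟨hn1, hn2, hn3⟩ := hn
          have htz : t z < θ := lt_of_le_of_ne hn3 (hθX z hzX)
          have h1 : dist z p < ε := hd z hzX hn2 (by linarith)
          have h3 : ∃ a, π z a = c a ∨ π z a = c' a := by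
            by_contra hcon
            push Not at hcon
            apply hn1
            exact ⟨fun a => ⟨lt_of_le_of_ne (hn2 a).1 (Ne.symm (hcon a).1),
              lt_of_le_of_ne (hn2 a).2 (hcon a).2⟩, htz⟩
          obtain ⟨a, ha⟩ := h3
          exact (hball h1).1 hzX hzF hzL a (hw z hzX hzL (by linarith) a ha).1
        · rintro ⟨hzL, hzF, hn⟩
          exact ⟨⟨h.sub hzL, hzF⟩, hn⟩
      rw [hsub]
      exact h.comp.inter_right (hF.inter (hU.union hV).isClosed_compl)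
  · obtain ⟨r₀, hr₀, hcomp⟩ := h.loc p hp.1 hpL
    obtain ⟨η, hη, hηG⟩ := exists_closedBall_disjoint hG hpG
    set ρ := min r₀ η with hρ
    have hρ0 : 0 < ρ := lt_min hr₀ hη
    refine ⟨Metric.ball p ρ, (Metric.closedBall p ρ)ᶜ, Metric.isOpen_ball,
      Metric.isClosed_closedBall.isOpen_compl, ?_, Metric.mem_ball_self hρ0, ?_, ?_⟩
    · ext y
      simp only [mem_inter_iff, mem_empty_iff_false, iff_false, not_and]
      rintro ⟨hy1, hy2⟩
      exact absurd (Metric.ball_subset_closedBall hy1) hy2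
    · rintro z ⟨hz, -⟩
      rw [mem_compl_iff, Metric.mem_closedBall, not_le]
      exact lt_of_le_of_lt (min_le_right _ _) (hηG z hz)
    · show IsCompact _
      have hsub : (X ∩ F) \ (Metric.ball p ρ ∪ (Metric.closedBall p ρ)ᶜ) =
          (X ∩ Metric.closedBall p r₀) ∩ (F ∩ (Metric.ball p ρ ∪ (Metric.closedBall p ρ)ᶜ)ᶜ) := by
        ext z
        constructor
        · rintro ⟨⟨hzX, hzF⟩, hn⟩
          refine ⟨⟨hzX, ?_⟩, hzF, hn⟩
          simp only [mem_union, mem_compl_iff, not_or, not_not] at hn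
          exact Metric.closedBall_subset_closedBall (min_le_left _ _) hn.2
        · rintro ⟨⟨hzX, -⟩, hzF, hn⟩
          exact ⟨⟨hzX, hzF⟩, hn⟩
      rw [hsub]
      exact hcomp.inter_right (hF.inter
        (Metric.isOpen_ball.union Metric.isClosed_closedBall.isOpen_compl).isClosed_compl)

/-- The main lemma. -/
theorem Setup.main (h : Setup d X L π t C cls) : ∀ (k r : ℕ) {F : Set E}, IsClosed F →
    (∀ y ∈ L, y ∈ F → ∀ᶠ z in 𝓝 y, z ∈ X → z ∈ F → z ∉ L → {a | cls r z a}.ncard ≤ k) →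
    PL (k + 1) (X ∩ F) := by
  intro k
  induction k with
  | zero =>
    intro r F hF hc
    apply h.zero r hF
    intro y hy hyF
    filter_upwards [hc y hy hyF] with z hz h1 h2 h3 a ha
    have h4 := hz h1 h2 h3
    have h5 : {a | cls r z a}.ncard = 0 := Nat.le_zero.mp h4
    rw [Set.ncard_eq_zero (Set.toFinite _)] at h5
    have : a ∈ {a | cls r z a} := ha
    rw [h5] at this
    exact this
  | succ k ih =>
    intro r F hF hc A B hA hB hAB
    -- boxes around the points of `A` at time zero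
    have hbox : ∀ p : E, ∃ (c c' : Fin d → ℝ) (η θ : ℝ), p ∈ L ∩ (F ∩ A) →
        (0 < η ∧ 0 < θ ∧ θ ≤ η / 2 ∧
        (∀ a, c a < π p a ∧ π p a < c' a) ∧
        (∀ z ∈ X, (∀ a, c a ≤ π z a ∧ π z a ≤ c' a) → t z ≤ η / 2 → z ∉ B) ∧
        (∀ z ∈ X, z ∉ L → t z < θ → ∀ a, (π z a = c a ∨ π z a = c' a) →
          cls r z a ∧ ¬ cls (r + 1) z a)) := by
      intro p
      by_cases hp : p ∈ L ∩ (F ∩ A)
      · have hpB : p ∉ B := by
          intro hpB
          have : p ∈ A ∩ B ∩ (X ∩ F) := ⟨⟨hp.2.2, hpB⟩, h.sub hp.1, hp.2.1⟩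
          rw [hAB] at this
          exact this
        obtain ⟨ε, hε, hball⟩ := Metric.eventually_nhds_iff.mp (hB.isOpen_compl.mem_nhds hpB)
        obtain ⟨c, c', η, θ, h1, h2, h3, h4, h5, h6⟩ := h.box r hp.1 hε
        exact ⟨c, c', η, θ, fun _ => ⟨h1, h2, h3, h4, fun z hz hza hzt =>
          hball (h5 z hz hza hzt), h6⟩⟩
      · exact ⟨fun _ => 0, fun _ => 0, 0, 0, fun h => absurd h hp⟩
    choose c c' η θ hbx using hbox
    set O : E → Set E := fun p => {z : E | ∀ a, c p a < π z a ∧ π z a < c' p a} ∩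
      {z | t z < η p / 2} with hO
    set Oc : E → Set E := fun p => {z : E | ∀ a, c p a ≤ π z a ∧ π z a ≤ c' p a} ∩
      {z | t z ≤ η p / 2} with hOc
    have hOopen : ∀ p, IsOpen (O p) := by
      intro p
      apply IsOpen.inter
      · have : {z : E | ∀ a, c p a < π z a ∧ π z a < c' p a} =
            ⋂ a, {z : E | c p a < π z a ∧ π z a < c' p a} := by
          ext z; simp
        rw [this]
        apply isOpen_iInter_of_finite
        intro a
        exact (isOpen_lt continuous_const (h.cont_pi a)).inter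
          (isOpen_lt (h.cont_pi a) continuous_const)
      · exact isOpen_lt h.cont_t continuous_const
    have hOcc : ∀ p, IsClosed (Oc p) := by
      intro p
      apply IsClosed.inter
      · have : {z : E | ∀ a, c p a ≤ π z a ∧ π z a ≤ c' p a} =
            ⋂ a, {z : E | c p a ≤ π z a ∧ π z a ≤ c' p a} := by
          ext z; simp
        rw [this]
        apply isClosed_iInter
        intro a
        exact (isClosed_le continuous_const (h.cont_pi a)).inter
          (isClosed_le (h.cont_pi a) continuous_const)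
      · exact isClosed_le h.cont_t continuous_const
    have hOsub : ∀ p, O p ⊆ Oc p := by
      rintro p z ⟨h1, h2⟩
      have h2' : t z < η p / 2 := h2
      exact ⟨fun a => ⟨(h1 a).1.le, (h1 a).2.le⟩, h2'.le⟩
    have hK : IsCompact (L ∩ (F ∩ A)) := h.comp.inter_right (hF.inter hA)
    obtain ⟨T, hT, hTK⟩ := hK.elim_nhds_subcover O (by
      intro p hp
      obtain ⟨h1, h2, h3, h4, h5, h6⟩ := hbx p hp
      apply (hOopen p).mem_nhds
      refine ⟨h4, ?_⟩
      show t p < η p / 2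
      rw [h.t_zero p hp.1]
      linarith)
    have hUO : IsOpen (⋃ p ∈ T, O p) := isOpen_biUnion (fun p _ => hOopen p)
    have hUOc : IsClosed (⋃ p ∈ T, Oc p) := T.finite_toSet.isClosed_biUnion (fun p _ => hOcc p)
    -- the part far from time zero
    set P : Set E := (A ∩ (X ∩ F)) \ ⋃ p ∈ T, O p with hP
    set Q : Set E := (B ∩ (X ∩ F)) ∪ (L ∩ F) with hQ
    have hPcl : closure P ⊆ A ∩ (⋃ p ∈ T, O p)ᶜ := by
      apply closure_minimal
      · rintro z ⟨hz1, hz2⟩
        exact ⟨hz1.1, hz2⟩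
      · exact hA.inter hUO.isClosed_compl
    have hPF : closure P ⊆ F := closure_minimal (fun z hz => hz.1.2.2) hF
    have hdis : ∀ z, z ∈ A → z ∈ B → z ∈ X → z ∈ F → False := by
      intro z h1 h2 h3 h4
      have : z ∈ A ∩ B ∩ (X ∩ F) := ⟨⟨h1, h2⟩, h3, h4⟩
      rw [hAB] at this
      exact this
    have hQcl : closure Q ⊆ B ∪ (L ∩ F) := by
      apply closure_minimal
      · rintro z (hz | hz)
        · exact Or.inl hz.1
        · exact Or.inr hz
      · apply hB.union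
        exact h.comp.isClosed.inter hF
    obtain ⟨W, W2, hW, hW2, hPW, hQW2, hWW2, Wc, hWc, hWWc, hWcQ⟩ := separate (P := P) (Q := Q) (by
      intro z hz hzQ
      rcases hQcl hzQ with h1 | h1
      · exact hdis z hz.1.1 h1 hz.1.2.1 hz.1.2.2
      · exact hz.2 (hTK ⟨h1.1, h1.2, hz.1.1⟩)) (by
      intro z hz hzP
      have h1 := hPcl hzP
      rcases hz with hz | hz
      · exact hdis z h1.1 hz.1 hz.2.1 hz.2.2
      · exact h1.2 (hTK ⟨hz.1, hz.2, h1.1⟩))
    have hUopen : IsOpen ((⋃ p ∈ T, O p) ∪ W) := hUO.union hW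
    have hVopen : IsOpen ((⋃ p ∈ T, Oc p) ∪ Wc)ᶜ := (hUOc.union hWc).isOpen_compl
    refine ⟨(⋃ p ∈ T, O p) ∪ W, ((⋃ p ∈ T, Oc p) ∪ Wc)ᶜ, hUopen, hVopen, ?_, ?_, ?_, ?_⟩
    · ext z
      simp only [mem_inter_iff, mem_empty_iff_false, iff_false, not_and]
      rintro ⟨h1, h2⟩
      exfalso
      apply h2
      rcases h1 with h1 | h1
      · left
        rw [mem_iUnion₂] at h1 ⊢
        obtain ⟨p, hp, h1⟩ := h1
        exact ⟨p, hp, hOsub p h1⟩
      · right
        exact hWWc h1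
    · rintro z ⟨hzA, hzX, hzF⟩
      by_cases hz : z ∈ ⋃ p ∈ T, O p
      · exact Or.inl hz
      · exact Or.inr (hPW ⟨⟨hzA, hzX, hzF⟩, hz⟩)
    · rintro z ⟨hzB, hzX, hzF⟩ hcon
      rcases hcon with hcon | hcon
      · rw [mem_iUnion₂] at hcon
        obtain ⟨p, hp, h1⟩ := hcon
        exact (hbx p (hT p hp)).2.2.2.2.1 z hzX h1.1 h1.2 hzB
      · exact (Set.disjoint_left.mp hWcQ) hcon (Or.inl ⟨hzB, hzX, hzF⟩)
    · have hS : (X ∩ F) \ ((⋃ p ∈ T, O p) ∪ W ∪ ((⋃ p ∈ T, Oc p) ∪ Wc)ᶜ) =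
          X ∩ (F ∩ ((⋃ p ∈ T, O p) ∪ W ∪ ((⋃ p ∈ T, Oc p) ∪ Wc)ᶜ)ᶜ) := by
        ext z
        simp only [mem_sdiff, mem_inter_iff, mem_compl_iff]
        tauto
      rw [hS]
      apply ih (r + 1) (hF.inter (hUopen.union hVopen).isClosed_compl)
      rintro y hyL ⟨hyF, -⟩
      have e1 := hc y hyL hyF
      have e2 : ∀ᶠ z in 𝓝 y, z ∉ Wc := by
        apply hWc.isOpen_compl.mem_nhds
        intro hyW
        exact (Set.disjoint_left.mp hWcQ) hyW (Or.inr ⟨hyL, hyF⟩)
      have e3 : ∀ᶠ z in 𝓝 y, ∀ p ∈ T, t z < θ p := by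
        rw [Filter.eventually_all_finset]
        intro p hp
        apply (isOpen_lt h.cont_t continuous_const).mem_nhds
        show t y < θ p
        rw [h.t_zero y hyL]
        exact (hbx p (hT p hp)).2.1
      filter_upwards [e1, e2, e3] with z h1 h2 h3 hzX hzF hzL
      obtain ⟨hzF, hzn⟩ := hzF
      have h4 := h1 hzX hzF hzL
      simp only [mem_compl_iff, mem_union, not_or] at hzn
      obtain ⟨⟨hn1, hn2⟩, hn3⟩ := hzn
      have h5 : z ∈ ⋃ p ∈ T, Oc p := by
        by_contra hcon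
        exact hn3 ⟨hcon, h2⟩
      rw [mem_iUnion₂] at h5
      obtain ⟨p, hp, h5⟩ := h5
      obtain ⟨g1, g2, g3, g4, g5, g6⟩ := hbx p (hT p hp)
      have h6 : ∃ a, π z a = c p a ∨ π z a = c' p a := by
        by_contra hcon
        push Not at hcon
        apply hn1
        rw [mem_iUnion₂]
        refine ⟨p, hp, fun a => ⟨lt_of_le_of_ne (h5.1 a).1 (Ne.symm (hcon a).1),
          lt_of_le_of_ne (h5.1 a).2 (hcon a).2⟩, ?_⟩
        show t z < η p / 2
        linarith [h3 p hp]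
      obtain ⟨a, ha⟩ := h6
      have h7 := g6 z hzX hzL (h3 p hp) a ha
      have h8 : {a | cls (r + 1) z a} ⊂ {a | cls r z a} :=
        ⟨fun a ha => h.mono r z a ha, fun hsub => h7.2 (hsub h7.1)⟩
      have h9 := Set.ncard_lt_ncard h8 (Set.toFinite _)
      omega

end Pool.Agent.Helper286.Strict
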