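import Pool.Agent.Helper286.Strict.P11
import Pool.Agent.Helper286.Strict.P14

/-! Wall values and the Poincare-Miranda theorem. -/

namespace Pool.Agent.Helper286.Strict

open Set Topology

/-- wall values -/
noncomputable def wr (n : ℕ) (q : ℚ) : ℝ := ((n : ℝ) + 1) * √2 + q

lemma wr_irr (n : ℕ) (q : ℚ) : Irrational (wr n q) := by
  have h1 : Irrational (√2 * (((n : ℤ) + 1 : ℤ) : ℝ)) :=
    irrational_sqrt_two.mul_intCast (by omega)
  have h2 := h1.add_ratCast q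
  unfold wr
  have h3 : ((n : ℝ) + 1) * √2 + q = √2 * (((n : ℤ) + 1 : ℤ) : ℝ) + q := by
    push_cast
    ring
  rw [h3]
  exact h2

lemma wr_inj {n n' : ℕ} {q q' : ℚ} (h : wr n q = wr n' q') : n = n' ∧ q = q' := by
  have hn : n = n' := by
    by_contra hne
    have h1 : (n : ℤ) - (n' : ℤ) ≠ 0 := by omega
    have h2 : Irrational (√2 * (((n : ℤ) - (n' : ℤ) : ℤ) : ℝ)) :=
      irrational_sqrt_two.mul_intCast h1
    apply h2
    refine ⟨q' - q, ?_⟩
    unfold wr at h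
    push_cast
    linarith
  refine ⟨hn, ?_⟩
  subst hn
  unfold wr at h
  have : (q : ℝ) = q' := by linarith
  exact_mod_cast this

lemma wr_btwn (n : ℕ) {a b : ℝ} (hab : a < b) : ∃ q : ℚ, a < wr n q ∧ wr n q < b := by
  obtain ⟨q, h1, h2⟩ := exists_rat_btwn (show a - ((n : ℝ) + 1) * √2 < b - ((n : ℝ) + 1) * √2 by
    linarith)
  refine ⟨q, ?_, ?_⟩ <;> unfold wr <;> linarith

/-- the cube -/
def cube (D : ℕ) : Set (Fin D → ℝ) := {x | ∀ i, x i ∈ Icc (-1 : ℝ) 1}

lemma cube_compact (D : ℕ) : IsCompact (cube D) := by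
  have : cube D = Set.pi univ (fun _ => Icc (-1 : ℝ) 1) := by
    ext x
    constructor
    · intro h i _
      exact h i
    · intro h i
      exact h i (mem_univ i)
  rw [this]
  exact isCompact_univ_pi (fun _ => isCompact_Icc)

/-- grid points in the cube -/
noncomputable def gp (D N : ℕ) (v : Fin D → ℤ) : Fin D → ℝ :=
  fun i => -1 + 2 * (((max 0 (min (v i) N) : ℤ) : ℝ) / N)

lemma gp_mem {D N : ℕ} (hN : 0 < N) (v : Fin D → ℤ) : gp D N v ∈ cube D := by
  intro i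
  have hN' : (0 : ℝ) < N := by exact_mod_cast hN
  have h1 : (0 : ℝ) ≤ ((max 0 (min (v i) N) : ℤ) : ℝ) := by
    exact_mod_cast le_max_left 0 _
  have h2 : ((max 0 (min (v i) N) : ℤ) : ℝ) ≤ N := by
    have : max 0 (min (v i) (N : ℤ)) ≤ N := max_le (Int.natCast_nonneg N) (min_le_right _ _)
    exact_mod_cast this
  have h3 : 0 ≤ ((max 0 (min (v i) N) : ℤ) : ℝ) / N := div_nonneg h1 hN'.le
  have h4 : ((max 0 (min (v i) N) : ℤ) : ℝ) / N ≤ 1 := (div_le_one hN').mpr h2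
  unfold gp
  constructor <;> linarith

lemma gp_dist {D N : ℕ} (hN : 0 < N) {V : Finset (Fin D)} {x y : Fin D → ℤ} (h : vt V x y) :
    dist (gp D N y) (gp D N x) ≤ 2 / N := by
  have hN' : (0 : ℝ) < N := by exact_mod_cast hN
  rw [dist_pi_le_iff (by positivity)]
  intro i
  have h1 : |(max 0 (min (y i) N) : ℤ) - (max 0 (min (x i) N) : ℤ)| ≤ 1 := by
    rcases h i with h | ⟨_, h⟩
    · rw [h]
      simp
    · rw [abs_le]
      omega
  have h2 : |((max 0 (min (y i) N) : ℤ) : ℝ) - ((max 0 (min (x i) N) : ℤ) : ℝ)| ≤ 1 := by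
    exact_mod_cast h1
  rw [Real.dist_eq]
  unfold gp
  have h3 : (-1 + 2 * (((max 0 (min (y i) N) : ℤ) : ℝ) / N)) -
      (-1 + 2 * (((max 0 (min (x i) N) : ℤ) : ℝ) / N)) =
      (((max 0 (min (y i) N) : ℤ) : ℝ) - ((max 0 (min (x i) N) : ℤ) : ℝ)) * (2 / N) := by
    field_simp
    ring
  rw [h3, abs_mul, abs_of_pos (show (0 : ℝ) < 2 / N by positivity)]
  calc _ ≤ 1 * (2 / (N : ℝ)) := by
        apply mul_le_mul_of_nonneg_right h2 (by positivity)
    _ = 2 / N := one_mul _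

/-- Poincare-Miranda -/
theorem pm (D : ℕ) (φ : Fin D → C(Fin D → ℝ, ℝ))
    (h0 : ∀ b, ∀ x ∈ cube D, x b = -1 → φ b x < 0)
    (h1 : ∀ b, ∀ x ∈ cube D, x b = 1 → 0 < φ b x) : ∃ x ∈ cube D, ∀ b, φ b x = 0 := by
  -- approximate zeros
  have happ : ∀ n : ℕ, ∃ x ∈ cube D, ∀ b, ∃ y y' : Fin D → ℝ, dist y x ≤ 2 / ((n : ℝ) + 1) ∧
      dist y' x ≤ 2 / ((n : ℝ) + 1) ∧ φ b y < 0 ∧ 0 ≤ φ b y' := by
    intro n
    set N := n + 1 with hN
    have hN0 : 0 < N := Nat.succ_pos n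
    have hN' : (0 : ℝ) < N := by exact_mod_cast hN0
    set Z : (Fin D → ℤ) → ℕ → Prop := fun v a => ∃ h : a < D, φ ⟨a, h⟩ (gp D N v) < 0 with hZ
    have hZ0 : ∀ v (b : Fin D), v b ≤ 0 → Z v b := by
      intro v b hb
      refine ⟨b.2, h0 b _ (gp_mem hN0 v) ?_⟩
      unfold gp
      have : max 0 (min (v b) (N : ℤ)) = 0 := by omega
      rw [this]
      simp
    have hZ1 : ∀ v (b : Fin D), ((1 : ℕ) : ℤ) * N ≤ v b → ¬ Z v b := by
      rintro v b hb ⟨hbD, hlt⟩
      have h2 := h1 b _ (gp_mem hN0 v) (by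
        unfold gp
        have : max 0 (min (v b) (N : ℤ)) = N := by omega
        rw [this]
        rw [Int.cast_natCast, div_self hN'.ne']
        norm_num)
      have : (⟨b.1, hbD⟩ : Fin D) = b := rfl
      rw [this] at hlt
      linarith
    have ht := tot (g := 1) (M := N) hZ0 hZ1 D le_rfl
    have hne : bs (win D 0 D) (fun _ => N)
        (fun u => blk 1 0 (be Z 0 D) (win D 0 D) (0 + u)) ≠ 0 := by
      rw [ht]
      exact one_ne_zero
    obtain ⟨u, -, hu⟩ := Finset.exists_ne_zero_of_sum_ne_zero hne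
    obtain ⟨u', -, hu'⟩ := Finset.exists_ne_zero_of_sum_ne_zero hu
    set x0 := ((1 : ℕ) : ℤ) • (0 + u) + 0 + u' with hx0
    have hatt := FF_attain _ _ _ _ _ hu'
    refine ⟨gp D N x0, gp_mem hN0 _, fun b => ?_⟩
    obtain ⟨y, hy, hyb⟩ := hatt b.1 (by rw [Finset.mem_Icc]; omega)
    obtain ⟨y', hy', hyb'⟩ := hatt D (by rw [Finset.mem_Icc]; omega)
    have hN1 : (N : ℝ) = (n : ℝ) + 1 := by rw [hN]; push_cast; ring
    refine ⟨gp D N y, gp D N y', ?_, ?_, ?_, ?_⟩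
    · rw [← hN1]
      exact gp_dist hN0 hy
    · rw [← hN1]
      exact gp_dist hN0 hy'
    · by_contra hc
      apply lab_ne (Z y) D 0 b.1 (by omega) _ hyb
      rintro ⟨_, hlt⟩
      exact hc hlt
    · by_contra hc
      push Not at hc
      have h3 := lab_le_of (Z y') D 0 b.1 (by omega) (by omega) ⟨b.2, hc⟩
      have h4 := b.2
      omega
  choose x hx y y' hy hy' hn hp using happ
  obtain ⟨z, hz, ψ, hψ, hlim⟩ := (cube_compact D).tendsto_subseq hx
  refine ⟨z, hz, fun b => ?_⟩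
  have hdec : Filter.Tendsto (fun n : ℕ => 2 / ((ψ n : ℝ) + 1)) Filter.atTop (𝓝 0) := by
    have h2 : Filter.Tendsto (fun n : ℕ => 2 / ((n : ℝ) + 1)) Filter.atTop (𝓝 0) := by
      have := (tendsto_one_div_add_atTop_nhds_zero_nat (𝕜 := ℝ)).const_mul 2
      simpa [div_eq_mul_inv] using this
    exact h2.comp hψ.tendsto_atTop
  have hlim1 : Filter.Tendsto (fun n => y (ψ n) b) Filter.atTop (𝓝 z) := by
    rw [tendsto_iff_dist_tendsto_zero] at hlim ⊢
    apply squeeze_zero (fun _ => dist_nonneg)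
      (fun n => (dist_triangle _ (x (ψ n)) _).trans (add_le_add (hy (ψ n) b) le_rfl))
    simpa using hdec.add hlim
  have hlim2 : Filter.Tendsto (fun n => y' (ψ n) b) Filter.atTop (𝓝 z) := by
    rw [tendsto_iff_dist_tendsto_zero] at hlim ⊢
    apply squeeze_zero (fun _ => dist_nonneg)
      (fun n => (dist_triangle _ (x (ψ n)) _).trans (add_le_add (hy' (ψ n) b) le_rfl))
    simpa using hdec.add hlim
  have h2 : φ b z ≤ 0 := by
    apply le_of_tendsto (((φ b).continuous.tendsto z).comp hlim1)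
    exact Filter.Eventually.of_forall (fun n => (hn (ψ n) b).le)
  have h3 : 0 ≤ φ b z := by
    apply ge_of_tendsto (((φ b).continuous.tendsto z).comp hlim2)
    exact Filter.Eventually.of_forall (fun n => hp (ψ n) b)
  exact le_antisymm h2 h3

end Pool.Agent.Helper286.Strict
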