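import Pool.Agent.Helper286.Strict.P15

/-! The first piece of the example. -/

namespace Pool.Agent.Helper286.Strict

open Set Topology

/-- the times -/
def TT : Set ℝ := {s | s = 0 ∨ ∃ j : ℕ, s = 1 / ((j : ℝ) + 1)}

/-- The first piece: the cube at the times `1/(j+1)`, its boundary at time zero. -/
def AA : Set ((Fin 5 → ℝ) × ℝ) :=
  {z | (∀ i, z.1 i ∈ Icc (-1 : ℝ) 1) ∧
    ((z.2 = 0 ∧ ∃ i, z.1 i = 1 ∨ z.1 i = -1) ∨ ∃ j : ℕ, z.2 = 1 / ((j : ℝ) + 1))}

lemma TT_compact : IsCompact TT := by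
  have h := (tendsto_one_div_add_atTop_nhds_zero_nat (𝕜 := ℝ)).isCompact_insert_range
  have : TT = insert 0 (range (fun n : ℕ => 1 / ((n : ℝ) + 1))) := by
    ext s
    simp only [TT, mem_ofPred_eq, mem_insert_iff, mem_range]
    constructor
    · rintro (h | ⟨j, h⟩)
      · exact Or.inl h
      · exact Or.inr ⟨j, h.symm⟩
    · rintro (h | ⟨j, h⟩)
      · exact Or.inl h
      · exact Or.inr ⟨j, h.symm⟩
  rw [this]
  exact h

lemma jpos (j : ℕ) : (0 : ℝ) < 1 / ((j : ℝ) + 1) := by positivity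

lemma jle (j : ℕ) : 1 / ((j : ℝ) + 1) ≤ 1 := by
  rw [div_le_one (by positivity)]
  have : (0 : ℝ) ≤ j := Nat.cast_nonneg j
  linarith

lemma AA_eq : AA = ZM 4 ∩ {z | z.2 ∈ TT} := by
  ext z
  constructor
  · rintro ⟨h1, h2⟩
    rcases h2 with ⟨h2, h3⟩ | ⟨j, h2⟩
    · exact ⟨⟨h1, by rw [h2]; exact ⟨le_rfl, by norm_num⟩, Or.inr h3⟩, Or.inl h2⟩
    · refine ⟨⟨h1, ?_, Or.inl ?_⟩, Or.inr ⟨j, h2⟩⟩
      · rw [h2]
        exact ⟨(jpos j).le, (jle j).trans (by norm_num)⟩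
      · rw [h2]
        exact jpos j
  · rintro ⟨⟨h1, _, h3⟩, h4⟩
    refine ⟨h1, ?_⟩
    rcases h4 with h4 | ⟨j, h4⟩
    · left
      refine ⟨h4, ?_⟩
      rcases h3 with h3 | h3
      · exact absurd h4 h3.ne'
      · exact h3
    · exact Or.inr ⟨j, h4⟩

lemma AA_pcmp : PCmp 3 AA := by
  rw [AA_eq]
  apply PCmp.closed 3 _ (pcmp_three 4)
  exact TT_compact.isClosed.preimage continuous_snd

/-- time zero of the first piece -/
def AL : Set ((Fin 5 → ℝ) × ℝ) := {z | z ∈ AA ∧ z.2 = 0}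

lemma face_compact (i : Fin 5) (c : ℝ) (hc : c = 1 ∨ c = -1) :
    IsCompact {z : (Fin 5 → ℝ) × ℝ | z ∈ AA ∧ z.1 i = c} := by
  have h1 : {z : (Fin 5 → ℝ) × ℝ | z ∈ AA ∧ z.1 i = c} =
      ((cube 5) ×ˢ TT) ∩ {z | z.1 i = c} := by
    ext z
    constructor
    · rintro ⟨⟨h1, h2⟩, h3⟩
      refine ⟨⟨h1, ?_⟩, h3⟩
      rcases h2 with h2 | h2
      · exact Or.inl h2.1
      · exact Or.inr h2
    · rintro ⟨⟨h1, h2⟩, h3⟩
      refine ⟨⟨h1, ?_⟩, h3⟩
      rcases h2 with h2 | h2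
      · left
        refine ⟨h2, i, ?_⟩
        rcases hc with hc | hc
        · exact Or.inl (h3.trans hc)
        · exact Or.inr (h3.trans hc)
      · exact Or.inr h2
  rw [h1]
  apply ((cube_compact 5).prod TT_compact).inter_right
  exact isClosed_eq ((continuous_apply i).comp continuous_fst) continuous_const

lemma AL_compact : IsCompact AL := by
  have h1 : AL = (⋃ i : Fin 5, ({z : (Fin 5 → ℝ) × ℝ | z ∈ AA ∧ z.1 i = 1} ∪
      {z : (Fin 5 → ℝ) × ℝ | z ∈ AA ∧ z.1 i = -1})) ∩ {z | z.2 = 0} := by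
    ext z
    constructor
    · rintro ⟨hz, h0⟩
      refine ⟨?_, h0⟩
      rw [mem_iUnion]
      rcases hz.2 with h2 | ⟨j, h2⟩
      · obtain ⟨_, i, hi | hi⟩ := h2
        · exact ⟨i, Or.inl ⟨hz, hi⟩⟩
        · exact ⟨i, Or.inr ⟨hz, hi⟩⟩
      · rw [h0] at h2
        exact absurd h2 (jpos j).ne
    · rintro ⟨hz, h0⟩
      rw [mem_iUnion] at hz
      obtain ⟨i, hz | hz⟩ := hz
      · exact ⟨hz.1, h0⟩
      · exact ⟨hz.1, h0⟩
  rw [h1]
  apply IsCompact.inter_right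
  · apply isCompact_iUnion
    intro i
    exact (face_compact i 1 (Or.inl rfl)).union (face_compact i (-1) (Or.inr rfl))
  · exact isClosed_eq continuous_snd continuous_const

lemma AA_part_compact (ε : ℝ) (hε : 0 < ε) :
    IsCompact {z : (Fin 5 → ℝ) × ℝ | z ∈ AA ∧ ε ≤ z.2} := by
  have h1 : {z : (Fin 5 → ℝ) × ℝ | z ∈ AA ∧ ε ≤ z.2} =
      ((cube 5) ×ˢ TT) ∩ {z | ε ≤ z.2} := by
    ext z
    constructor
    · rintro ⟨⟨h1, h2⟩, h3⟩
      refine ⟨⟨h1, ?_⟩, h3⟩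
      rcases h2 with h2 | h2
      · exact Or.inl h2.1
      · exact Or.inr h2
    · rintro ⟨⟨h1, h2⟩, h3⟩
      refine ⟨⟨h1, ?_⟩, h3⟩
      rcases h2 with h2 | h2
      · exfalso
        have h3' : ε ≤ z.2 := h3
        rw [h2] at h3'
        linarith
      · exact Or.inr h2
  rw [h1]
  apply ((cube_compact 5).prod TT_compact).inter_right
  exact isClosed_le continuous_const continuous_snd

lemma gapT (ε : ℝ) (hε : 0 < ε) : ∃ θ : ℝ, 0 < θ ∧ θ < ε ∧ ∀ j : ℕ, 1 / ((j : ℝ) + 1) ≠ θ := by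
  obtain ⟨q, h1, h2⟩ := wr_btwn 0 hε
  refine ⟨wr 0 q, h1, h2, ?_⟩
  intro j hj
  apply wr_irr 0 q
  refine ⟨1 / ((j : ℚ) + 1), ?_⟩
  push_cast
  exact hj

/-- classes for the first piece -/
def Acls (r : ℕ) (z : (Fin 5 → ℝ) × ℝ) (a : Fin 5) : Prop := ∃ r', r ≤ r' ∧ ∃ q : ℚ, z.1 a = wr r' q

lemma AA_setup : Setup 5 AA AL (fun z => z.1) (fun z => z.2) (fun r => range (wr r)) Acls where
  cont_pi := fun a => (continuous_apply a).comp continuous_fst
  cont_t := continuous_snd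
  sub := fun z hz => hz.1
  comp := AL_compact
  t_zero := fun z hz => hz.2
  loc := by
    intro y hy hyL
    have hpos : 0 < y.2 := by
      rcases hy.2 with h | ⟨j, h⟩
      · exact absurd ⟨hy, h.1⟩ hyL
      · rw [h]
        exact jpos j
    refine ⟨y.2 / 2, by linarith, ?_⟩
    have h1 : AA ∩ Metric.closedBall y (y.2 / 2) =
        {z : (Fin 5 → ℝ) × ℝ | z ∈ AA ∧ y.2 / 2 ≤ z.2} ∩ Metric.closedBall y (y.2 / 2) := by
      ext z
      constructor
      · rintro ⟨h2, h3⟩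
        refine ⟨⟨h2, ?_⟩, h3⟩
        have h4 : dist z.2 y.2 ≤ y.2 / 2 := (le_max_right _ _).trans (Metric.mem_closedBall.mp h3)
        rw [Real.dist_eq, abs_le] at h4
        linarith [h4.1]
      · rintro ⟨⟨h2, _⟩, h3⟩
        exact ⟨h2, h3⟩
    rw [h1]
    exact (AA_part_compact _ (by linarith)).inter_right Metric.isClosed_closedBall
  gap := by
    intro ε hε
    obtain ⟨θ, h1, h2, h3⟩ := gapT ε hε
    refine ⟨θ, h1, h2, ?_⟩
    intro z hz hzt
    rcases hz.2 with h | ⟨j, h⟩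
    · rw [h.1] at hzt
      linarith
    · rw [h] at hzt
      exact h3 j hzt
  nb := by
    intro y hy ε hε
    refine ⟨ε, hε, ?_⟩
    intro z hz h1 h2
    have hz0 : 0 ≤ z.2 := by
      rcases hz.2 with h | ⟨j, h⟩
      · rw [h.1]
      · rw [h]
        exact (jpos j).le
    rw [Prod.dist_eq]
    apply max_lt
    · rw [dist_pi_lt_iff hε]
      intro a
      rw [Real.dist_eq]
      exact h1 a
    · rw [Real.dist_eq, hy.2, sub_zero, abs_of_nonneg hz0]
      exact h2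
  dense := by
    intro r a b hab
    obtain ⟨q, h1, h2⟩ := wr_btwn r hab
    exact ⟨_, ⟨q, rfl⟩, h1, h2⟩
  mono := by
    rintro r z a ⟨r', h1, h2⟩
    exact ⟨r', by omega, h2⟩
  wall := by
    rintro r c ⟨q, rfl⟩
    refine ⟨1, one_pos, ?_⟩
    intro z _ _ _ a ha
    refine ⟨⟨r, le_rfl, q, ha⟩, ?_⟩
    rintro ⟨r', h1, q', h2⟩
    have h3 : z.1 a = wr r q := ha
    rw [h3] at h2
    have := (wr_inj h2).1
    omega

lemma AA_pl : PL 6 AA := by
  have h := AA_setup.main 5 0 isClosed_univ (by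
    intro y _ _
    filter_upwards with z _ _ _
    have := Set.ncard_le_ncard (subset_univ {a | Acls 0 z a}) (Set.toFinite _)
    rw [Set.ncard_univ, Nat.card_eq_fintype_card, Fintype.card_fin] at this
    exact this)
  rw [inter_univ] at h
  exact h

/-! ### lower bound -/

lemma rim_pair {E : Type*} [TopologicalSpace E] {Y K G : Set E} (h : PCmp 1 Y) (hK : IsCompact K)
    (hKY : K ⊆ Y) (hG : IsClosed G) (hKG : Disjoint K G) :
    ∃ U V : Set E, IsOpen U ∧ IsOpen V ∧ U ∩ V ∩ Y = ∅ ∧ K ⊆ U ∧ G ∩ Y ⊆ V ∧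
      IsCompact (Y \ (U ∪ V)) := by
  have h1 : ∀ p : E, ∃ U V : Set E, p ∈ K → (IsOpen U ∧ IsOpen V ∧ U ∩ V ∩ Y = ∅ ∧ p ∈ U ∧
      G ∩ Y ⊆ V ∧ IsCompact (Y \ (U ∪ V))) := by
    intro p
    by_cases hp : p ∈ K
    · obtain ⟨U, V, h1⟩ := h p (hKY hp) G hG (Set.disjoint_left.mp hKG hp)
      exact ⟨U, V, fun _ => h1⟩
    · exact ⟨∅, ∅, fun h => absurd h hp⟩
  choose U V hUV using h1
  obtain ⟨T, hT, hTK⟩ := hK.elim_nhds_subcover U (fun p hp =>
    (hUV p hp).1.mem_nhds (hUV p hp).2.2.2.1)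
  have hUo : IsOpen (⋃ p ∈ T, U p) := isOpen_biUnion (fun p hp => (hUV p (hT p hp)).1)
  have hVo : IsOpen (⋂ p ∈ T, V p) := isOpen_biInter_finset (fun p hp => (hUV p (hT p hp)).2.1)
  refine ⟨⋃ p ∈ T, U p, ⋂ p ∈ T, V p, hUo, hVo, ?_, hTK, ?_, ?_⟩
  · ext z
    simp only [mem_inter_iff, mem_empty_iff_false, iff_false, not_and]
    rintro ⟨h2, h3⟩ h4
    rw [mem_iUnion₂] at h2
    obtain ⟨p, hp, h2⟩ := h2
    rw [mem_iInter₂] at h3
    have : z ∈ U p ∩ V p ∩ Y := ⟨⟨h2, h3 p hp⟩, h4⟩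
    rw [(hUV p (hT p hp)).2.2.1] at this
    exact this
  · intro z hz
    rw [mem_iInter₂]
    intro p hp
    exact (hUV p (hT p hp)).2.2.2.2.1 hz
  · have h2 : Y \ ((⋃ p ∈ T, U p) ∪ ⋂ p ∈ T, V p) =
        (⋃ p ∈ T, (Y \ (U p ∪ V p))) ∩ ((⋃ p ∈ T, U p) ∪ ⋂ p ∈ T, V p)ᶜ := by
      ext z
      constructor
      · rintro ⟨h3, h4⟩
        refine ⟨?_, h4⟩
        simp only [mem_union, not_or, mem_iUnion₂, mem_iInter₂, not_exists, not_forall] at h4
        obtain ⟨h5, p, hp, h6⟩ := h4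
        rw [mem_iUnion₂]
        refine ⟨p, hp, h3, ?_⟩
        rintro (h7 | h7)
        · exact h5 p hp h7
        · exact h6 h7
      · rintro ⟨h3, h4⟩
        rw [mem_iUnion₂] at h3
        obtain ⟨p, hp, h3⟩ := h3
        exact ⟨h3.1, h4⟩
    rw [h2]
    apply IsCompact.inter_right
    · exact T.isCompact_biUnion (fun p hp => (hUV p (hT p hp)).2.2.2.2.2)
    · exact (hUo.union hVo).isClosed_compl

/-- a function with prescribed signs -/
lemma sgn {E : Type*} [MetricSpace E] {S U V : Set E} (hS : IsClosed S) (hU : IsOpen U)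
    (hV : IsOpen V) (hUV : U ∩ V ∩ S = ∅) (p : E) (hp : p ∉ S) :
    ∃ g : C(E, ℝ), ∀ x ∈ S, (x ∈ U → g x < 0) ∧ (x ∈ V → 0 < g x) ∧
      (x ∉ U → x ∉ V → g x = 0) := by
  have hSU : IsClosed ((S \ U) ∪ {p}) := (hS.sdiff hU).union isClosed_singleton
  have hSV : IsClosed ((S \ V) ∪ {p}) := (hS.sdiff hV).union isClosed_singleton
  refine ⟨⟨fun x => Metric.infDist x ((S \ V) ∪ {p}) - Metric.infDist x ((S \ U) ∪ {p}),
    (Metric.continuous_infDist_pt _).sub (Metric.continuous_infDist_pt _)⟩, ?_⟩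
  intro x hx
  have hpos : ∀ {A : Set E}, IsClosed (A ∪ {p}) → x ∉ A → 0 < Metric.infDist x (A ∪ {p}) := by
    intro A hA hxA
    rw [← hA.notMem_iff_infDist_pos ⟨p, Or.inr rfl⟩]
    rintro (h | h)
    · exact hxA h
    · rw [mem_singleton_iff] at h
      exact hp (h ▸ hx)
  have hzero : ∀ {A : Set E}, x ∈ A → Metric.infDist x (A ∪ {p}) = 0 := by
    intro A hxA
    exact Metric.infDist_zero_of_mem (Or.inl hxA)
  refine ⟨fun h => ?_, fun h => ?_, fun h1 h2 => ?_⟩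
  · have hxV : x ∉ V := by
      intro hxV
      have : x ∈ U ∩ V ∩ S := ⟨⟨h, hxV⟩, hx⟩
      rw [hUV] at this
      exact this
    show Metric.infDist x ((S \ V) ∪ {p}) - Metric.infDist x ((S \ U) ∪ {p}) < 0
    rw [hzero (A := S \ V) ⟨hx, hxV⟩]
    have := hpos hSU (fun h' => h'.2 h)
    linarith
  · have hxU : x ∉ U := by
      intro hxU
      have : x ∈ U ∩ V ∩ S := ⟨⟨hxU, h⟩, hx⟩
      rw [hUV] at this
      exact this
    show 0 < Metric.infDist x ((S \ V) ∪ {p}) - Metric.infDist x ((S \ U) ∪ {p})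
    rw [hzero (A := S \ U) ⟨hx, hxU⟩]
    have := hpos hSV (fun h' => h'.2 h)
    linarith
  · show Metric.infDist x ((S \ V) ∪ {p}) - Metric.infDist x ((S \ U) ∪ {p}) = 0
    rw [hzero (A := S \ U) ⟨hx, h1⟩, hzero (A := S \ V) ⟨hx, h2⟩, sub_zero]

/-- one more function -/
lemma one_more {Y U V F : Set ((Fin 5 → ℝ) × ℝ)} (hF : IsClosed F) (hY : Y = AA ∩ F)
    (hU : IsOpen U) (hV : IsOpen V) (hUV : U ∩ V ∩ Y = ∅) (b : Fin 5)
    (hbU : ∀ z ∈ Y, z.1 b = -1 → z ∈ U) (hbV : ∀ z ∈ Y, z.1 b = 1 → z ∈ V) (j : ℕ) :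
    ∃ f : C(Fin 5 → ℝ, ℝ), (∀ x ∈ cube 5, x b = -1 → f x < 0) ∧
      (∀ x ∈ cube 5, x b = 1 → 0 < f x) ∧
      (∀ x ∈ cube 5, (x, 1 / ((j : ℝ) + 1)) ∈ Y → f x = 0 →
        (x, 1 / ((j : ℝ) + 1)) ∈ Y \ (U ∪ V)) := by
  set s : ℝ := 1 / ((j : ℝ) + 1) with hs
  have hcont : Continuous (fun x : Fin 5 → ℝ => (x, s)) := by fun_prop
  set S : Set (Fin 5 → ℝ) := cube 5 ∩ (fun x => (x, s)) ⁻¹' F with hS
  have hScl : IsClosed S := (cube_compact 5).isClosed.inter (hF.preimage hcont)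
  have hSY : ∀ x, x ∈ S ↔ x ∈ cube 5 ∧ (x, s) ∈ Y := by
    intro x
    constructor
    · rintro ⟨h1, h2⟩
      refine ⟨h1, ?_⟩
      rw [hY]
      exact ⟨⟨h1, Or.inr ⟨j, rfl⟩⟩, h2⟩
    · rintro ⟨h1, h2⟩
      rw [hY] at h2
      exact ⟨h1, h2.2⟩
  obtain ⟨g, hg⟩ := sgn hScl (hU.preimage hcont) (hV.preimage hcont) (by
    ext x
    simp only [mem_inter_iff, mem_empty_iff_false, iff_false, not_and]
    rintro ⟨h1, h2⟩ h3
    have : (x, s) ∈ U ∩ V ∩ Y := ⟨⟨h1, h2⟩, ((hSY x).mp h3).2⟩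
    rw [hUV] at this
    exact this) (fun _ => 5) (by
    rintro ⟨h1, -⟩
    have := (h1 0).2
    norm_num at this)
  have hfc : ∀ c : ℝ, IsClosed {x : Fin 5 → ℝ | x ∈ cube 5 ∧ x b = c} := fun c =>
    (cube_compact 5).isClosed.inter (isClosed_eq (continuous_apply b) continuous_const)
  obtain ⟨f, hf1, hf2, hf3⟩ := sign_extend hScl (hfc 1) (hfc (-1)) (by
    rw [Set.disjoint_left]
    rintro x ⟨_, h1⟩ ⟨_, h2⟩
    rw [h1] at h2
    norm_num at h2) g (by
    rintro x hx ⟨_, hxb⟩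
    exact (hg x hx).2.1 (hbV _ ((hSY x).mp hx).2 hxb)) (by
    rintro x hx ⟨_, hxb⟩
    exact (hg x hx).1 (hbU _ ((hSY x).mp hx).2 hxb))
  refine ⟨f, fun x hx h => hf3 x ⟨hx, h⟩, fun x hx h => hf2 x ⟨hx, h⟩, ?_⟩
  intro x hx hxY hfx
  have hxS : x ∈ S := (hSY x).mpr ⟨hx, hxY⟩
  have hgx : g x = 0 := by rw [← hf1 x hxS]; exact hfx
  refine ⟨hxY, ?_⟩
  rintro (h | h)
  · have := (hg x hxS).1 h
    linarith
  · have := (hg x hxS).2.1 h
    linarith

/-- coordinate functions -/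
def cf (b : Fin 5) : C(Fin 5 → ℝ, ℝ) := ⟨fun x => x b, continuous_apply b⟩

lemma chainA : ∀ (k a0 : ℕ) (Y F : Set ((Fin 5 → ℝ) × ℝ)), IsClosed F → Y = AA ∩ F →
    a0 + (k + 1) = 5 → PL (k + 1) Y →
    ∃ T : Set ((Fin 5 → ℝ) × ℝ), IsCompact T ∧ T ⊆ Y ∧
      (∀ b : Fin 5, a0 ≤ b.1 → ∀ z ∈ T, z.1 b ≠ 1 ∧ z.1 b ≠ -1) ∧
      ∀ j : ℕ, (∀ z ∈ T, z.2 ≠ 1 / ((j : ℝ) + 1)) →
        ∃ φ : Fin 5 → C(Fin 5 → ℝ, ℝ), (∀ b, ∀ x ∈ cube 5, x b = -1 → φ b x < 0) ∧
          (∀ b, ∀ x ∈ cube 5, x b = 1 → 0 < φ b x) ∧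
          ∀ x ∈ cube 5, (x, 1 / ((j : ℝ) + 1)) ∈ Y → ∃ b : Fin 5, a0 ≤ b.1 ∧ φ b x ≠ 0 := by
  intro k
  induction k with
  | zero =>
    intro a0 Y F hF hY ha hPL
    have hb4 : a0 < 5 := by omega
    set b : Fin 5 := ⟨a0, hb4⟩ with hb
    obtain ⟨U, V, hU, hV, hUV, hKU, hGV, hcomp⟩ := rim_pair (K := {z | z ∈ AA ∧ z.1 b = -1} ∩ F)
      (G := {z | z.1 b = 1}) hPL ((face_compact b (-1) (Or.inr rfl)).inter_right hF) (by
        rw [hY]
        rintro z ⟨⟨h1, _⟩, h2⟩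
        exact ⟨h1, h2⟩) (isClosed_eq ((continuous_apply b).comp continuous_fst)
        continuous_const) (by
        rw [Set.disjoint_left]
        rintro z ⟨⟨_, h1⟩, _⟩ h2
        have h2' : z.1 b = 1 := h2
        rw [h1] at h2'
        norm_num at h2')
    have hbU : ∀ z ∈ Y, z.1 b = -1 → z ∈ U := by
      intro z hz hzb
      rw [hY] at hz
      exact hKU ⟨⟨hz.1, hzb⟩, hz.2⟩
    have hbV : ∀ z ∈ Y, z.1 b = 1 → z ∈ V := fun z hz hzb => hGV ⟨hzb, hz⟩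
    refine ⟨Y \ (U ∪ V), hcomp, sdiff_subset, ?_, ?_⟩
    · intro b' hb' z hz
      have hbb : b' = b := by
        apply Fin.ext
        have := b'.2
        simp only [hb]
        omega
      rw [hbb]
      exact ⟨fun h => hz.2 (Or.inr (hbV z hz.1 h)), fun h => hz.2 (Or.inl (hbU z hz.1 h))⟩
    · intro j hj
      obtain ⟨f, h1, h2, h3⟩ := one_more hF hY hU hV hUV b hbU hbV j
      refine ⟨Function.update cf b f, ?_, ?_, ?_⟩
      · intro b' x hx hxb
        by_cases hbb : b' = b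
        · subst hbb
          rw [Function.update_self]
          exact h1 x hx hxb
        · rw [Function.update_of_ne hbb]
          show x b' < 0
          rw [hxb]
          norm_num
      · intro b' x hx hxb
        by_cases hbb : b' = b
        · subst hbb
          rw [Function.update_self]
          exact h2 x hx hxb
        · rw [Function.update_of_ne hbb]
          show 0 < x b'
          rw [hxb]
          norm_num
      · intro x hx hxY
        refine ⟨b, le_rfl, ?_⟩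
        rw [Function.update_self]
        intro hfx
        exact hj _ (h3 x hx hxY hfx) rfl
  | succ k ih =>
    intro a0 Y F hF hY ha hPL
    have hb4 : a0 < 5 := by omega
    set b : Fin 5 := ⟨a0, hb4⟩ with hb
    have hfc : ∀ c : ℝ, IsClosed {z : (Fin 5 → ℝ) × ℝ | z.1 b = c} := fun c =>
      isClosed_eq ((continuous_apply b).comp continuous_fst) continuous_const
    obtain ⟨U, V, hU, hV, hUV, hFU, hGV, hk⟩ := hPL {z | z.1 b = -1} {z | z.1 b = 1} (hfc _) (hfc _)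
      (by
        ext z
        simp only [mem_inter_iff, mem_empty_iff_false, iff_false, not_and, mem_ofPred_eq]
        rintro ⟨h1, h2⟩
        rw [h1] at h2
        norm_num at h2)
    have hbU : ∀ z ∈ Y, z.1 b = -1 → z ∈ U := fun z hz hzb => hFU ⟨hzb, hz⟩
    have hbV : ∀ z ∈ Y, z.1 b = 1 → z ∈ V := fun z hz hzb => hGV ⟨hzb, hz⟩
    have hY' : Y \ (U ∪ V) = AA ∩ (F ∩ (U ∪ V)ᶜ) := by
      rw [hY]
      ext z
      simp only [mem_sdiff, mem_inter_iff, mem_compl_iff]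
      tauto
    obtain ⟨T, hT, hTY, hTb, hTj⟩ := ih (a0 + 1) (Y \ (U ∪ V)) (F ∩ (U ∪ V)ᶜ)
      (hF.inter (hU.union hV).isClosed_compl) hY' (by omega) hk
    refine ⟨T, hT, hTY.trans sdiff_subset, ?_, ?_⟩
    · intro b' hb' z hz
      by_cases hbb : b' = b
      · rw [hbb]
        have h4 := hTY hz
        exact ⟨fun h => h4.2 (Or.inr (hbV z h4.1 h)), fun h => h4.2 (Or.inl (hbU z h4.1 h))⟩
      · apply hTb b' _ z hz
        have : b'.1 ≠ a0 := fun h => hbb (Fin.ext h)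
        omega
    · intro j hj
      obtain ⟨φ, hφ0, hφ1, hφ⟩ := hTj j hj
      obtain ⟨f, h1, h2, h3⟩ := one_more hF hY hU hV hUV b hbU hbV j
      refine ⟨Function.update φ b f, ?_, ?_, ?_⟩
      · intro b' x hx hxb
        by_cases hbb : b' = b
        · subst hbb
          rw [Function.update_self]
          exact h1 x hx hxb
        · rw [Function.update_of_ne hbb]
          exact hφ0 b' x hx hxb
      · intro b' x hx hxb
        by_cases hbb : b' = b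
        · subst hbb
          rw [Function.update_self]
          exact h2 x hx hxb
        · rw [Function.update_of_ne hbb]
          exact hφ1 b' x hx hxb
      · intro x hx hxY
        by_cases hfx : f x = 0
        · obtain ⟨b', hb', hne⟩ := hφ x hx (h3 x hx hxY hfx)
          have hbb : b' ≠ b := by
            intro h
            rw [h] at hb'
            simp only [hb] at hb'
            omega
          refine ⟨b', by omega, ?_⟩
          rw [Function.update_of_ne hbb]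
          exact hne
        · exact ⟨b, le_rfl, by rw [Function.update_self]; exact hfx⟩

theorem AA_not_pl : ¬ PL 5 AA := by
  intro h
  obtain ⟨T, hT, hTY, hTb, hTj⟩ := chainA 4 0 AA univ isClosed_univ (inter_univ _).symm rfl h
  have hpos : ∀ z ∈ T, 0 < z.2 := by
    intro z hz
    rcases (hTY hz).2 with ⟨_, i, hi | hi⟩ | ⟨j, hj⟩
    · exact absurd hi (hTb i (Nat.zero_le _) z hz).1
    · exact absurd hi (hTb i (Nat.zero_le _) z hz).2
    · rw [hj]
      exact jpos j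
  obtain ⟨j, hj⟩ : ∃ j : ℕ, ∀ z ∈ T, z.2 ≠ 1 / ((j : ℝ) + 1) := by
    by_cases hne : T.Nonempty
    · obtain ⟨z0, hz0, hmin⟩ := hT.exists_isMinOn hne continuous_snd.continuousOn
      obtain ⟨j, hj⟩ := exists_nat_one_div_lt (hpos z0 hz0)
      refine ⟨j, fun z hz hzj => ?_⟩
      have : z0.2 ≤ z.2 := hmin hz
      linarith
    · rw [not_nonempty_iff_eq_empty] at hne
      exact ⟨0, fun z hz => by rw [hne] at hz; exact absurd hz (notMem_empty z)⟩
  obtain ⟨φ, h0, h1, hφ⟩ := hTj j hj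
  obtain ⟨x, hx, hx0⟩ := pm 5 φ h0 h1
  obtain ⟨b, _, hb⟩ := hφ x hx ⟨hx, Or.inr ⟨j, rfl⟩⟩
  exact hb (hx0 b)

end Pool.Agent.Helper286.Strict
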