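import Pool.Agent.Helper286.Strict.P16

/-! The stages of the second piece. -/

namespace Pool.Agent.Helper286.Strict

open Set Topology

/-- A label: `H + 1` blocks along every side, and a set of blocks. -/
abbrev Lb : Type := Σ H : ℕ, Finset (Fin 12 → Fin (H + 1))

/-- the value attached to a label, a class and a rational number -/
noncomputable def vl (s : (Lb × ℕ) × ℚ) : ℝ := wr (Encodable.encode s.1) s.2

lemma vl_inj {s s' : (Lb × ℕ) × ℚ} (h : vl s = vl s') : s = s' := by
  obtain ⟨h1, h2⟩ := wr_inj h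
  exact Prod.ext (Encodable.encode_injective h1) h2

/-- the finite set of active values -/
lemma act_finite (i : ℕ) : {s : (Lb × ℕ) × ℚ | Encodable.encode s < i}.Finite := by
  apply Set.Finite.preimage (f := fun s : (Lb × ℕ) × ℚ => Encodable.encode s)
    (s := {n | n < i})
  · exact Encodable.encode_injective.injOn
  · exact Set.finite_lt_nat i

lemma exists_M (i : ℕ) : ∃ M : ℕ, i < M ∧
    (∀ s : (Lb × ℕ) × ℚ, Encodable.encode s < i → 2 * (s.1.1.1 + 1) ∣ M) ∧
    (∀ s s' : (Lb × ℕ) × ℚ, Encodable.encode s < i → Encodable.encode s' < i → s ≠ s' →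
      ⌊(M : ℝ) * vl s⌋ ≠ ⌊(M : ℝ) * vl s'⌋) := by
  classical
  set A : Finset ((Lb × ℕ) × ℚ) := (act_finite i).toFinset with hA
  have hmem : ∀ s, s ∈ A ↔ Encodable.encode s < i := by
    intro s
    simp [hA]
  set D0 : ℕ := ∏ s ∈ A, 2 * (s.1.1.1 + 1) with hD0
  have hD0pos : 0 < D0 := Finset.prod_pos (fun s _ => by omega)
  have h1 : ∀ᶠ N : ℕ in Filter.atTop, ∀ a ∈ A ×ˢ A, a.1 ≠ a.2 →
      ⌊((N * D0 : ℕ) : ℝ) * vl a.1⌋ ≠ ⌊((N * D0 : ℕ) : ℝ) * vl a.2⌋ := by
    rw [Filter.eventually_all_finset]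
    rintro ⟨s, s'⟩ _
    by_cases hss : s = s'
    · exact Filter.Eventually.of_forall (fun N h => absurd hss h)
    · have hne : 0 < |vl s - vl s'| := by
        rw [abs_pos, sub_ne_zero]
        exact fun h => hss (vl_inj h)
      obtain ⟨N0, hN0⟩ := exists_nat_gt (1 / |vl s - vl s'|)
      filter_upwards [Filter.eventually_ge_atTop N0] with N hN _ hfl
      have h2 := Int.abs_sub_lt_one_of_floor_eq_floor hfl
      rw [← mul_sub, abs_mul, abs_of_nonneg (Nat.cast_nonneg _)] at h2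
      have h3 : (N0 : ℝ) ≤ ((N * D0 : ℕ) : ℝ) := by
        exact_mod_cast hN.trans (Nat.le_mul_of_pos_right N hD0pos)
      rw [div_lt_iff₀ hne] at hN0
      have h4 : (N0 : ℝ) * |vl s - vl s'| ≤ ((N * D0 : ℕ) : ℝ) * |vl s - vl s'| :=
        mul_le_mul_of_nonneg_right h3 hne.le
      linarith
  obtain ⟨N, hN1, hN2⟩ := (h1.and (Filter.eventually_gt_atTop i)).exists
  refine ⟨N * D0, lt_of_lt_of_le hN2 (Nat.le_mul_of_pos_right N hD0pos), ?_, ?_⟩
  · intro s hs
    exact Dvd.dvd.mul_left (Finset.dvd_prod_of_mem _ ((hmem s).mpr hs)) N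
  · intro s s' hs hs' hne
    exact hN1 (s, s') (Finset.mem_product.mpr ⟨(hmem s).mpr hs, (hmem s').mpr hs'⟩) hne

/-- the number of grid intervals of stage `i` -/
noncomputable def MM (i : ℕ) : ℕ := (exists_M i).choose

lemma MM_gt (i : ℕ) : i < MM i := (exists_M i).choose_spec.1

lemma MM_dvd (i : ℕ) (s : (Lb × ℕ) × ℚ) (h : Encodable.encode s < i) :
    2 * (s.1.1.1 + 1) ∣ MM i := (exists_M i).choose_spec.2.1 s h

lemma MM_floor (i : ℕ) (s s' : (Lb × ℕ) × ℚ) (h : Encodable.encode s < i)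
    (h' : Encodable.encode s' < i) (hf : ⌊(MM i : ℝ) * vl s⌋ = ⌊(MM i : ℝ) * vl s'⌋) :
    s = s' := by
  by_contra hne
  exact (exists_M i).choose_spec.2.2 s s' h h' hne hf

lemma MM_pos (i : ℕ) : (0 : ℝ) < MM i := by
  have := MM_gt i
  exact_mod_cast (Nat.zero_le i).trans_lt this

/-- the grid interval `[t, t+1]` of stage `i` carries the label `p` and the class `r` -/
def Lab (i : ℕ) (t : ℤ) (p : Lb) (r : ℕ) : Prop :=
  ∃ q : ℚ, Encodable.encode ((p, r), q) < i ∧ ⌊(MM i : ℝ) * vl ((p, r), q)⌋ = t ∧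
    0 ≤ t ∧ t < MM i

lemma Lab_unique {i : ℕ} {t : ℤ} {p p' : Lb} {r r' : ℕ} (h : Lab i t p r) (h' : Lab i t p' r') :
    p = p' ∧ r = r' := by
  obtain ⟨q, h1, h2, -⟩ := h
  obtain ⟨q', h1', h2', -⟩ := h'
  have := MM_floor i _ _ h1 h1' (h2.trans h2'.symm)
  simp only [Prod.mk.injEq] at this
  exact this.1

/-- `y` lies strictly inside the grid interval `[t, t+1]` of stage `i` -/
def InI (i : ℕ) (t : ℤ) (y : ℝ) : Prop := (t : ℝ) < MM i * y ∧ MM i * y < t + 1

lemma InI_floor {i : ℕ} {t : ℤ} {y : ℝ} (h : InI i t y) : ⌊(MM i : ℝ) * y⌋ = t := by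
  rw [Int.floor_eq_iff]
  exact ⟨h.1.le, h.2⟩

/-- the union of the blocks of a label -/
def Ap (p : Lb) : Set (Fin 12 → ℝ) :=
  {x | ∃ B ∈ p.2, ∀ a, ((B a : ℕ) : ℝ) / ((p.1 : ℝ) + 1) ≤ x a ∧
    x a ≤ (((B a : ℕ) : ℝ) + 1) / ((p.1 : ℝ) + 1)}

/-- directions in which `x` is inside an interval with label `p` -/
def LS (i : ℕ) (p : Lb) (x : Fin 12 → ℝ) : Set (Fin 12) :=
  {a | ∃ t r, Lab i t p r ∧ InI i t (x a)}

/-- `w` is a vertex of the smallest grid cube containing `x` -/
def cv (i : ℕ) (x : Fin 12 → ℝ) (w : Fin 12 → ℤ) : Prop := ∀ a, |(w a : ℝ) - MM i * x a| < 1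

/-- the point with grid coordinates `w` -/
noncomputable def gpt (i : ℕ) (w : Fin 12 → ℤ) : Fin 12 → ℝ := fun a => (w a : ℝ) / MM i

/-- the unit cube -/
def uc : Set (Fin 12 → ℝ) := {x | ∀ a, x a ∈ Icc (0 : ℝ) 1}

/-- The layer of stage `i`: no label has four directions and both kinds of vertices. -/
def Ls (i : ℕ) : Set (Fin 12 → ℝ) :=
  {x | x ∈ uc ∧ ∀ p, 4 ≤ (LS i p x).ncard →
    (∀ w, cv i x w → gpt i w ∈ Ap p) ∨ (∀ w, cv i x w → gpt i w ∉ Ap p)}

lemma uc_compact : IsCompact uc := by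
  have : uc = Set.pi univ (fun _ => Icc (0 : ℝ) 1) := by
    ext x
    constructor
    · intro h i _
      exact h i
    · intro h i
      exact h i (mem_univ i)
  rw [this]
  exact isCompact_univ_pi (fun _ => isCompact_Icc)

lemma cv_floor (i : ℕ) (x : Fin 12 → ℝ) : cv i x (fun a => ⌊(MM i : ℝ) * x a⌋) := by
  intro a
  rw [abs_sub_comm, abs_of_nonneg (by linarith [Int.floor_le ((MM i : ℝ) * x a)])]
  linarith [Int.lt_floor_add_one ((MM i : ℝ) * x a)]

lemma cv_open (i : ℕ) (w : Fin 12 → ℤ) : IsOpen {x | cv i x w} := by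
  have : {x | cv i x w} = ⋂ a, {x : Fin 12 → ℝ | |(w a : ℝ) - MM i * x a| < 1} := by
    ext x; simp [cv]
  rw [this]
  apply isOpen_iInter_of_finite
  intro a
  exact isOpen_lt (by fun_prop) continuous_const

lemma LS_open (i : ℕ) (p : Lb) (n : ℕ) : IsOpen {x | n ≤ (LS i p x).ncard} := by
  rw [isOpen_iff_mem_nhds]
  intro x hx
  have h1 : ∀ a, ∀ᶠ y in 𝓝 x, a ∈ LS i p x → a ∈ LS i p y := by
    intro a
    by_cases ha : a ∈ LS i p x
    · obtain ⟨t, r, hL, hI⟩ := ha
      have h2 : IsOpen {y : Fin 12 → ℝ | InI i t (y a)} := by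
        have hc : Continuous (fun y : Fin 12 → ℝ => (MM i : ℝ) * y a) :=
          continuous_const.mul (continuous_apply a)
        exact (isOpen_lt continuous_const hc).inter (isOpen_lt hc continuous_const)
      filter_upwards [h2.mem_nhds hI] with y hy _
      exact ⟨t, r, hL, hy⟩
    · exact Filter.Eventually.of_forall (fun y h => absurd h ha)
  filter_upwards [Filter.eventually_all.mpr h1] with y hy
  have hx' : n ≤ (LS i p x).ncard := hx
  exact hx'.trans (Set.ncard_le_ncard (fun a ha => hy a ha) (Set.toFinite _))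

lemma Ls_closed (i : ℕ) : IsClosed (Ls i) := by
  have h1 : Ls i = uc ∩ ⋂ p : Lb, ({x | 4 ≤ (LS i p x).ncard} ∩
      ({x | ∃ w, cv i x w ∧ gpt i w ∉ Ap p} ∩ {x | ∃ w, cv i x w ∧ gpt i w ∈ Ap p}))ᶜ := by
    ext x
    constructor
    · rintro ⟨h1, h2⟩
      refine ⟨h1, ?_⟩
      rw [mem_iInter]
      rintro p ⟨h3, ⟨w, h4, h5⟩, ⟨w', h6, h7⟩⟩
      rcases h2 p h3 with h8 | h8
      · exact h5 (h8 w h4)
      · exact h8 w' h6 h7
    · rintro ⟨h1, h2⟩
      refine ⟨h1, ?_⟩
      intro p h3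
      rw [mem_iInter] at h2
      by_contra hcon
      push Not at hcon
      exact h2 p ⟨h3, hcon.1, hcon.2⟩
  rw [h1]
  apply uc_compact.isClosed.inter
  apply isClosed_iInter
  intro p
  rw [isClosed_compl_iff]
  apply (LS_open i p 4).inter
  apply IsOpen.inter
  · have : {x | ∃ w, cv i x w ∧ gpt i w ∉ Ap p} =
        ⋃ w : Fin 12 → ℤ, ({x | cv i x w} ∩ {_x | gpt i w ∉ Ap p}) := by
      ext x; simp
    rw [this]
    apply isOpen_iUnion
    intro w
    exact (cv_open i w).inter isOpen_const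
  · have : {x | ∃ w, cv i x w ∧ gpt i w ∈ Ap p} =
        ⋃ w : Fin 12 → ℤ, ({x | cv i x w} ∩ {_x | gpt i w ∈ Ap p}) := by
      ext x; simp
    rw [this]
    apply isOpen_iUnion
    intro w
    exact (cv_open i w).inter isOpen_const

lemma Ls_compact (i : ℕ) : IsCompact (Ls i) :=
  uc_compact.of_isClosed_subset (Ls_closed i) (fun _ h => h.1)

/-- the time of the `j`-th copy of stage `i` -/
noncomputable def tau (i j : ℕ) : ℝ × ℝ := (1 / ((i : ℝ) + 1), 1 / (((i : ℝ) + 1) * ((j : ℝ) + 1)))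

/-- The second piece. -/
def BB : Set ((Fin 12 → ℝ) × ℝ × ℝ) :=
  {z | (z.1 ∈ uc ∧ z.2 = (0, 0)) ∨ ∃ i j : ℕ, z.1 ∈ Ls i ∧ z.2 = tau i j}

/-- its time zero -/
def BL : Set ((Fin 12 → ℝ) × ℝ × ℝ) := {z | z.1 ∈ uc ∧ z.2 = (0, 0)}

lemma inv_inj {i i' : ℕ} (h : 1 / ((i : ℝ) + 1) = 1 / ((i' : ℝ) + 1)) : i = i' := by
  have h1 : (0 : ℝ) < (i : ℝ) + 1 := by positivity
  have h2 : (0 : ℝ) < (i' : ℝ) + 1 := by positivity
  rw [div_eq_div_iff h1.ne' h2.ne'] at h
  have : (i : ℝ) = i' := by linarith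
  exact_mod_cast this

lemma gapN {n n' : ℕ} (h : n ≠ n') :
    1 / (((n : ℝ) + 1) * ((n : ℝ) + 2)) ≤ |1 / ((n' : ℝ) + 1) - 1 / ((n : ℝ) + 1)| := by
  have h1 : (0 : ℝ) < (n : ℝ) + 1 := by positivity
  have h2 : (0 : ℝ) < (n' : ℝ) + 1 := by positivity
  have h3 : (0 : ℝ) < (n : ℝ) + 2 := by positivity
  rcases lt_or_gt_of_ne h with h | h
  · have h4 : (n : ℝ) + 1 ≤ n' := by exact_mod_cast h
    have h5 : 1 / ((n' : ℝ) + 1) ≤ 1 / ((n : ℝ) + 2) :=
      one_div_le_one_div_of_le h3 (by linarith)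
    have h6 : 1 / ((n : ℝ) + 1) - 1 / ((n : ℝ) + 2) = 1 / (((n : ℝ) + 1) * ((n : ℝ) + 2)) := by
      field_simp
      ring
    rw [abs_sub_comm]
    refine le_trans ?_ (le_abs_self _)
    linarith
  · have h4 : (n' : ℝ) + 1 ≤ n := by exact_mod_cast h
    have hn : (0 : ℝ) < n := by linarith
    have h5 : 1 / (n : ℝ) ≤ 1 / ((n' : ℝ) + 1) := one_div_le_one_div_of_le h2 h4
    have h6 : 1 / (n : ℝ) - 1 / ((n : ℝ) + 1) = 1 / ((n : ℝ) * ((n : ℝ) + 1)) := by
      field_simp
      ring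
    have h7 : 1 / (((n : ℝ) + 1) * ((n : ℝ) + 2)) ≤ 1 / ((n : ℝ) * ((n : ℝ) + 1)) := by
      apply one_div_le_one_div_of_le (by positivity)
      nlinarith
    refine le_trans ?_ (le_abs_self _)
    linarith

lemma BL_compact : IsCompact BL := by
  have : BL = uc ×ˢ {((0 : ℝ), (0 : ℝ))} := by
    ext z
    constructor
    · rintro ⟨h1, h2⟩
      exact ⟨h1, h2⟩
    · rintro ⟨h1, h2⟩
      exact ⟨h1, h2⟩
  rw [this]
  exact uc_compact.prod isCompact_singleton

lemma tau_fst (i j : ℕ) : (tau i j).1 = 1 / ((i : ℝ) + 1) := rfl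

lemma tau_snd (i j : ℕ) : (tau i j).2 = 1 / (((i : ℝ) + 1) * ((j : ℝ) + 1)) := rfl

lemma tau_snd_pos (i j : ℕ) : 0 < (tau i j).2 := by
  rw [tau_snd]
  positivity

lemma tau_snd_le (i j : ℕ) : (tau i j).2 ≤ (tau i j).1 := by
  rw [tau_snd, tau_fst]
  apply one_div_le_one_div_of_le (by positivity)
  have h1 : (0 : ℝ) ≤ i := Nat.cast_nonneg i
  have h2 : (0 : ℝ) ≤ j := Nat.cast_nonneg j
  nlinarith

/-- classes for the second piece -/
def Bcls (p : Lb) (r : ℕ) (z : (Fin 12 → ℝ) × ℝ × ℝ) (a : Fin 12) : Prop :=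
  ∃ (i : ℕ) (t : ℤ) (r' : ℕ), r ≤ r' ∧ Lab i t p r' ∧ z.2.1 = 1 / ((i : ℝ) + 1) ∧ InI i t (z.1 a)

lemma BB_setup (p : Lb) : Setup 12 BB BL (fun z => z.1) (fun z => z.2.1)
    (fun r => range (wr (Encodable.encode (p, r)))) (Bcls p) where
  cont_pi := fun a => (continuous_apply a).comp continuous_fst
  cont_t := continuous_fst.comp continuous_snd
  sub := fun z hz => Or.inl hz
  comp := BL_compact
  t_zero := fun z hz => by
    show z.2.1 = 0
    rw [hz.2]
  loc := by
    intro y hy hyL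
    rcases hy with hy | ⟨i, j, hy1, hy2⟩
    · exact absurd hy hyL
    · set r1 : ℝ := 1 / (((i : ℝ) + 1) * ((i : ℝ) + 2)) with hr1
      set r2 : ℝ := 1 / ((i : ℝ) + 1) * (1 / (((j : ℝ) + 1) * ((j : ℝ) + 2))) with hr2
      have hr1p : 0 < r1 := by positivity
      have hr2p : 0 < r2 := by positivity
      refine ⟨min r1 r2 / 2, by positivity, ?_⟩
      have h1 : BB ∩ Metric.closedBall y (min r1 r2 / 2) =
          ((Ls i) ×ˢ {tau i j}) ∩ Metric.closedBall y (min r1 r2 / 2) := by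
        ext z
        constructor
        · rintro ⟨h2, h3⟩
          refine ⟨?_, h3⟩
          have h4 : dist z.2 y.2 ≤ min r1 r2 / 2 :=
            (le_max_right _ _).trans (Metric.mem_closedBall.mp h3)
          rw [hy2, Prod.dist_eq] at h4
          have h5 : dist z.2.1 (tau i j).1 ≤ min r1 r2 / 2 := (le_max_left _ _).trans h4
          have h6 : dist z.2.2 (tau i j).2 ≤ min r1 r2 / 2 := (le_max_right _ _).trans h4
          have h7 : min r1 r2 / 2 < r1 := by
            have := min_le_left r1 r2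
            linarith
          have h8 : min r1 r2 / 2 < r2 := by
            have := min_le_right r1 r2
            linarith
          rcases h2 with h2 | ⟨i', j', h2, h2'⟩
          · exfalso
            rw [h2.2, tau_fst, Real.dist_eq] at h5
            have h9 : |(0 : ℝ) - 1 / ((i : ℝ) + 1)| = 1 / ((i : ℝ) + 1) := by
              rw [zero_sub, abs_neg, abs_of_pos (by positivity)]
            simp only at h5
            rw [h9] at h5
            have h10 : r1 ≤ 1 / ((i : ℝ) + 1) := by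
              rw [hr1]
              apply one_div_le_one_div_of_le (by positivity)
              have : (0 : ℝ) ≤ i := Nat.cast_nonneg i
              nlinarith
            linarith
          · rw [h2', tau_fst, tau_fst, Real.dist_eq] at h5
            have hii : i = i' := by
              by_contra hne
              have := gapN hne
              linarith
            subst hii
            rw [h2', tau_snd, tau_snd, Real.dist_eq] at h6
            have hjj : j = j' := by
              by_contra hne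
              have h11 := gapN hne
              have h12 : 1 / (((i : ℝ) + 1) * ((j' : ℝ) + 1)) - 1 / (((i : ℝ) + 1) * ((j : ℝ) + 1)) =
                  1 / ((i : ℝ) + 1) * (1 / ((j' : ℝ) + 1) - 1 / ((j : ℝ) + 1)) := by
                field_simp
              rw [h12, abs_mul, abs_of_pos (show (0 : ℝ) < 1 / ((i : ℝ) + 1) by positivity)] at h6
              have h13 : r2 ≤ 1 / ((i : ℝ) + 1) * |1 / ((j' : ℝ) + 1) - 1 / ((j : ℝ) + 1)| := by
                rw [hr2]
                exact mul_le_mul_of_nonneg_left h11 (by positivity)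
              linarith
            subst hjj
            exact ⟨h2, h2'⟩
        · rintro ⟨⟨h2, h2'⟩, h3⟩
          exact ⟨Or.inr ⟨i, j, h2, h2'⟩, h3⟩
      rw [h1]
      exact ((Ls_compact i).prod isCompact_singleton).inter_right Metric.isClosed_closedBall
  gap := by
    intro ε hε
    obtain ⟨θ, h1, h2, h3⟩ := gapT ε hε
    refine ⟨θ, h1, h2, ?_⟩
    intro z hz hzt
    rcases hz with h | ⟨i, j, -, h⟩
    · rw [h.2] at hzt
      simp only at hzt
      linarith
    · rw [h] at hzt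
      exact h3 i hzt
  nb := by
    intro y hy ε hε
    refine ⟨ε, hε, ?_⟩
    intro z hz h1 h2
    have hz0 : 0 ≤ z.2.1 ∧ 0 ≤ z.2.2 ∧ z.2.2 ≤ z.2.1 := by
      rcases hz with h | ⟨i, j, -, h⟩
      · rw [h.2]
        exact ⟨le_rfl, le_rfl, le_rfl⟩
      · rw [h]
        exact ⟨(jpos i).le, (tau_snd_pos i j).le, tau_snd_le i j⟩
    rw [Prod.dist_eq]
    apply max_lt
    · rw [dist_pi_lt_iff hε]
      intro a
      rw [Real.dist_eq]
      exact h1 a
    · rw [hy.2, Prod.dist_eq]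
      apply max_lt
      · rw [Real.dist_eq, sub_zero, abs_of_nonneg hz0.1]
        exact h2
      · rw [Real.dist_eq, sub_zero, abs_of_nonneg hz0.2.1]
        exact lt_of_le_of_lt hz0.2.2 h2
  dense := by
    intro r a b hab
    obtain ⟨q, h1, h2⟩ := wr_btwn (Encodable.encode (p, r)) hab
    exact ⟨_, ⟨q, rfl⟩, h1, h2⟩
  mono := by
    rintro r z a ⟨i, t, r', h1, h2⟩
    exact ⟨i, t, r', by omega, h2⟩
  wall := by
    rintro r c ⟨q, rfl⟩
    refine ⟨1 / ((Encodable.encode ((p, r), q) : ℝ) + 1), by positivity, ?_⟩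
    intro z hz hzL hzt a ha
    rcases hz with hz | ⟨i, j, hz1, hz2⟩
    · exact absurd hz hzL
    · have ha' : z.1 a = vl ((p, r), q) := ha
      have hi : Encodable.encode ((p, r), q) < i := by
        have h1 : 1 / ((i : ℝ) + 1) < 1 / ((Encodable.encode ((p, r), q) : ℝ) + 1) := by
          have h2 : z.2.1 < 1 / ((Encodable.encode ((p, r), q) : ℝ) + 1) := hzt
          rw [hz2] at h2
          exact h2
        rw [one_div_lt_one_div (by positivity) (by positivity)] at h1
        have : (Encodable.encode ((p, r), q) : ℝ) < i := by linarith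
        exact_mod_cast this
      have hirr : Irrational ((MM i : ℝ) * vl ((p, r), q)) := by
        have h0 : MM i ≠ 0 := by
          have := MM_gt i
          omega
        exact (wr_irr _ q).natCast_mul h0
      have h01 := hz1.1 a
      rw [ha'] at h01
      have hlt1 : vl ((p, r), q) < 1 := by
        apply lt_of_le_of_ne h01.2
        intro h
        apply wr_irr (Encodable.encode (p, r)) q
        refine ⟨1, ?_⟩
        rw [Rat.cast_one]
        exact h.symm
      have hM := MM_pos i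
      have hInI : InI i ⌊(MM i : ℝ) * vl ((p, r), q)⌋ (z.1 a) := by
        rw [ha']
        refine ⟨?_, Int.lt_floor_add_one _⟩
        apply lt_of_le_of_ne (Int.floor_le _)
        intro h
        apply hirr
        exact ⟨(⌊(MM i : ℝ) * vl ((p, r), q)⌋ : ℚ), by push_cast; exact h⟩
      have hLab : Lab i ⌊(MM i : ℝ) * vl ((p, r), q)⌋ p r := by
        refine ⟨q, hi, rfl, ?_, ?_⟩
        · exact Int.floor_nonneg.mpr (mul_nonneg hM.le h01.1)
        · rw [Int.floor_lt]
          push_cast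
          nlinarith
      refine ⟨⟨i, _, r, le_rfl, hLab, by rw [hz2]; rfl, hInI⟩, ?_⟩
      rintro ⟨i', t', r', h1, h2, h3, h4⟩
      rw [hz2] at h3
      have hii : i = i' := inv_inj h3
      subst hii
      have ht : ⌊(MM i : ℝ) * vl ((p, r), q)⌋ = t' := by
        rw [← ha']
        exact InI_floor h4
      rw [ht] at hLab
      have := (Lab_unique hLab h2).2
      omega

end Pool.Agent.Helper286.Strict
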