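import Pool.Agent.Helper286.Strict.P17

/-! Upper bound for the second piece. -/

namespace Pool.Agent.Helper286.Strict

open Set Topology

/-- trace at time zero -/
def KF (F : Set ((Fin 12 → ℝ) × ℝ × ℝ)) : Set (Fin 12 → ℝ) := {x | x ∈ uc ∧ (x, (0, 0)) ∈ F}

lemma near_K {F : Set ((Fin 12 → ℝ) × ℝ × ℝ)} (hF : IsClosed F) {ε : ℝ} (hε : 0 < ε) :
    ∃ i0 : ℕ, ∀ i, i0 ≤ i → ∀ j, ∀ x ∈ uc, (x, tau i j) ∈ F → ∃ y ∈ KF F, ∀ a, |x a - y a| < ε := by
  set N := Metric.thickening ε (KF F) with hN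
  have hQ : IsCompact ((uc \ N) ×ˢ {((0 : ℝ), (0 : ℝ))}) :=
    (uc_compact.diff Metric.isOpen_thickening).prod isCompact_singleton
  have hd : Disjoint ((uc \ N) ×ˢ {((0 : ℝ), (0 : ℝ))}) F := by
    rw [Set.disjoint_left]
    rintro ⟨x, s⟩ ⟨⟨h1, h2⟩, h3⟩ h4
    have h3' : s = (0, 0) := h3
    apply h2
    apply Metric.self_subset_thickening hε
    rw [h3'] at h4
    exact ⟨h1, h4⟩
  obtain ⟨δ, hδ, hdis⟩ := hd.exists_thickenings hQ hF
  obtain ⟨i0, hi0⟩ := exists_nat_one_div_lt hδ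
  refine ⟨i0, ?_⟩
  intro i hi j x hx hxF
  have hxN : x ∈ N := by
    by_contra hcon
    apply (Set.disjoint_left.mp hdis) (a := (x, tau i j))
    · rw [Metric.mem_thickening_iff]
      refine ⟨(x, (0, 0)), ⟨⟨hx, hcon⟩, rfl⟩, ?_⟩
      rw [Prod.dist_eq]
      apply max_lt
      · rw [dist_self]
        exact hδ
      · have h1 : (tau i j).1 < δ := by
          rw [tau_fst]
          refine lt_of_le_of_lt ?_ hi0
          apply one_div_le_one_div_of_le (by positivity)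
          have : (i0 : ℝ) ≤ i := by exact_mod_cast hi
          linarith
        have h0 : 0 < (tau i j).1 := jpos i
        rw [Prod.dist_eq]
        apply max_lt
        · rw [Real.dist_eq, sub_zero, abs_of_pos h0]
          exact h1
        · rw [Real.dist_eq, sub_zero, abs_of_pos (tau_snd_pos i j)]
          exact lt_of_le_of_lt (tau_snd_le i j) h1
    · exact Metric.self_subset_thickening hδ F hxF
  rw [hN, Metric.mem_thickening_iff] at hxN
  obtain ⟨y, hy, hxy⟩ := hxN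
  refine ⟨y, hy, fun a => ?_⟩
  rw [← Real.dist_eq]
  exact lt_of_le_of_lt (dist_le_pi_dist x y a) hxy

lemma gpt_near {i : ℕ} {x : Fin 12 → ℝ} {w : Fin 12 → ℤ} (h : cv i x w) (a : Fin 12) :
    |gpt i w a - x a| < 1 / MM i := by
  have hM := MM_pos i
  have h1 := h a
  unfold gpt
  have h2 : (w a : ℝ) / MM i - x a = ((w a : ℝ) - MM i * x a) / MM i := by
    field_simp
  rw [h2, abs_div, abs_of_pos hM]
  exact (div_lt_div_iff_of_pos_right hM).mpr h1

lemma cv_range {i : ℕ} {x : Fin 12 → ℝ} {w : Fin 12 → ℤ} (hx : x ∈ uc) (h : cv i x w)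
    (a : Fin 12) : 0 ≤ w a ∧ w a ≤ MM i := by
  have hM := MM_pos i
  have h1 := h a
  have h2 := hx a
  rw [abs_lt] at h1
  have h3 : (0 : ℝ) ≤ MM i * x a := mul_nonneg hM.le h2.1
  have h4 : MM i * x a ≤ MM i := by nlinarith [h2.2]
  constructor
  · have : (-1 : ℝ) < w a := by linarith [h1.1]
    have : (-1 : ℤ) < w a := by exact_mod_cast this
    omega
  · have : (w a : ℝ) < MM i + 1 := by linarith [h1.2]
    have : w a < (MM i : ℤ) + 1 := by exact_mod_cast this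
    omega

lemma gpt_mem {i : ℕ} {x : Fin 12 → ℝ} {w : Fin 12 → ℤ} (hx : x ∈ uc) (h : cv i x w) :
    gpt i w ∈ uc := by
  intro a
  have hM := MM_pos i
  have h1 := cv_range hx h a
  unfold gpt
  constructor
  · exact div_nonneg (by exact_mod_cast h1.1) hM.le
  · rw [div_le_one hM]
    exact_mod_cast h1.2

/-- points of late stages all of whose vertices satisfy a condition -/
def N0 (i0 : ℕ) (Pd : (Fin 12 → ℝ) → Prop) : Set ((Fin 12 → ℝ) × ℝ × ℝ) :=
  {z | ∃ i j, i0 ≤ i ∧ z.1 ∈ Ls i ∧ z.2 = tau i j ∧ ∀ w, cv i z.1 w → Pd (gpt i w)}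

lemma notin_closure {i0 : ℕ} {Pd : (Fin 12 → ℝ) → Prop} {K : Set (Fin 12 → ℝ)} {ε : ℝ}
    (hε : 0 < ε) (hK : ∀ v ∈ uc, ∀ y ∈ K, (∀ a, |v a - y a| ≤ ε) → ¬ Pd v)
    (hi0 : 2 / ε ≤ i0) {z : (Fin 12 → ℝ) × ℝ × ℝ} (hz : z ∈ BB) (h1 : z ∈ BL → z.1 ∈ K)
    (h2 : ∀ i j, i0 ≤ i → z.1 ∈ Ls i → z.2 = tau i j → ∃ w, cv i z.1 w ∧ ¬ Pd (gpt i w)) :
    z ∉ closure (N0 i0 Pd) := by
  rw [mem_closure_iff_frequently, Filter.not_frequently]
  rcases hz with hz | ⟨i, j, hz1, hz2⟩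
  · have h3 : ∀ᶠ z' in 𝓝 z, ∀ a, |z'.1 a - z.1 a| < ε / 2 := by
      rw [Filter.eventually_all]
      intro a
      have hc : Continuous (fun z' : (Fin 12 → ℝ) × ℝ × ℝ => |z'.1 a - z.1 a|) := by fun_prop
      apply (isOpen_lt hc continuous_const).mem_nhds
      show |z.1 a - z.1 a| < ε / 2
      rw [sub_self, abs_zero]
      linarith
    filter_upwards [h3] with z' hz'
    rintro ⟨i, j, hi, hL, ht, hw⟩
    have hfl := cv_floor i z'.1
    apply hK _ (gpt_mem hL.1 hfl) z.1 (h1 hz) _ (hw _ hfl)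
    intro a
    have h4 := gpt_near hfl a
    have h5 := hz' a
    have hM := MM_pos i
    have h6 : 1 / (MM i : ℝ) ≤ ε / 2 := by
      rw [div_le_iff₀ hM]
      have h7 : (i : ℝ) < MM i := by exact_mod_cast MM_gt i
      have h8 : (i0 : ℝ) ≤ i := by exact_mod_cast hi
      rw [div_le_iff₀ hε] at hi0
      nlinarith
    have h9 := abs_sub_le (gpt i (fun a => ⌊(MM i : ℝ) * z'.1 a⌋) a) (z'.1 a) (z.1 a)
    linarith
  · by_cases hi : i < i0
    · have hc : Continuous (fun z' : (Fin 12 → ℝ) × ℝ × ℝ => z'.2.1) := by fun_prop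
      have h3 : ∀ᶠ z' in 𝓝 z, 1 / ((i0 : ℝ) + 1) < z'.2.1 := by
        apply (isOpen_lt continuous_const hc).mem_nhds
        show 1 / ((i0 : ℝ) + 1) < z.2.1
        rw [hz2, tau_fst]
        apply one_div_lt_one_div_of_lt (by positivity)
        have : (i : ℝ) < i0 := by exact_mod_cast hi
        linarith
      filter_upwards [h3] with z' hz'
      rintro ⟨i', j', hi', hL, ht, hw⟩
      rw [ht, tau_fst] at hz'
      have h4 : 1 / ((i' : ℝ) + 1) ≤ 1 / ((i0 : ℝ) + 1) := by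
        apply one_div_le_one_div_of_le (by positivity)
        have : (i0 : ℝ) ≤ i' := by exact_mod_cast hi'
        linarith
      linarith
    · push Not at hi
      obtain ⟨w, hw, hPd⟩ := h2 i j hi hz1 hz2
      have h3 : ∀ᶠ z' in 𝓝 z, cv i z'.1 w := by
        have : IsOpen {z' : (Fin 12 → ℝ) × ℝ × ℝ | cv i z'.1 w} :=
          (cv_open i w).preimage continuous_fst
        exact this.mem_nhds hw
      have hc : Continuous (fun z' : (Fin 12 → ℝ) × ℝ × ℝ => |z'.2.1 - 1 / ((i : ℝ) + 1)|) := by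
        fun_prop
      have h4 : ∀ᶠ z' in 𝓝 z, |z'.2.1 - 1 / ((i : ℝ) + 1)| < 1 / (((i : ℝ) + 1) * ((i : ℝ) + 2)) := by
        apply (isOpen_lt hc continuous_const).mem_nhds
        show |z.2.1 - 1 / ((i : ℝ) + 1)| < 1 / (((i : ℝ) + 1) * ((i : ℝ) + 2))
        rw [hz2, tau_fst, sub_self, abs_zero]
        positivity
      filter_upwards [h3, h4] with z' hz' hz''
      rintro ⟨i', j', hi', hL, ht, hw'⟩
      have hii : i = i' := by
        by_contra hne
        have h5 := gapN hne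
        rw [ht, tau_fst] at hz''
        linarith
      subst hii
      exact hPd (hw' w hz')

open Classical in
/-- the label attached to a set -/
noncomputable def plb (H : ℕ) (K : Set (Fin 12 → ℝ)) : Lb :=
  ⟨H, Finset.univ.filter (fun B : Fin 12 → Fin (H + 1) => ∃ y ∈ K, ∀ a,
    |y a - ((B a : ℕ) : ℝ) / ((H : ℝ) + 1)| ≤ 2 / ((H : ℝ) + 1))⟩

lemma Ap_of_near {H : ℕ} {K : Set (Fin 12 → ℝ)} {v y : Fin 12 → ℝ} (hv : v ∈ uc) (hy : y ∈ K)
    (h : ∀ a, |v a - y a| ≤ 1 / ((H : ℝ) + 1)) : v ∈ Ap (plb H K) := by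
  classical
  have hH : (0 : ℝ) < (H : ℝ) + 1 := by positivity
  set B : Fin 12 → Fin (H + 1) := fun a =>
    ⟨min ⌊v a * ((H : ℝ) + 1)⌋₊ H, by omega⟩ with hB
  have hBval : ∀ a, (B a : ℕ) = min ⌊v a * ((H : ℝ) + 1)⌋₊ H := fun a => rfl
  have h1 : ∀ a, ((B a : ℕ) : ℝ) ≤ v a * ((H : ℝ) + 1) := by
    intro a
    have h2 : ((B a : ℕ) : ℝ) ≤ ((⌊v a * ((H : ℝ) + 1)⌋₊ : ℕ) : ℝ) := by
      rw [hBval, Nat.cast_le]
      exact min_le_left _ _
    exact h2.trans (Nat.floor_le (mul_nonneg (hv a).1 hH.le))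
  have h2 : ∀ a, v a * ((H : ℝ) + 1) ≤ ((B a : ℕ) : ℝ) + 1 := by
    intro a
    by_cases hle : ⌊v a * ((H : ℝ) + 1)⌋₊ ≤ H
    · have h3 : ((B a : ℕ) : ℝ) = ((⌊v a * ((H : ℝ) + 1)⌋₊ : ℕ) : ℝ) := by
        rw [hBval, min_eq_left hle]
      rw [h3]
      exact (Nat.lt_floor_add_one _).le
    · have h3 : ((B a : ℕ) : ℝ) = (H : ℝ) := by
        rw [hBval, min_eq_right (by omega)]
      rw [h3]
      have := (hv a).2
      nlinarith
  refine ⟨B, ?_, fun a => ⟨?_, ?_⟩⟩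
  · show B ∈ Finset.univ.filter _
    rw [Finset.mem_filter]
    refine ⟨Finset.mem_univ _, y, hy, fun a => ?_⟩
    have h3 := h a
    have h4 : |v a - ((B a : ℕ) : ℝ) / ((H : ℝ) + 1)| ≤ 1 / ((H : ℝ) + 1) := by
      have h5 : v a - ((B a : ℕ) : ℝ) / ((H : ℝ) + 1) =
          (v a * ((H : ℝ) + 1) - ((B a : ℕ) : ℝ)) / ((H : ℝ) + 1) := by
        field_simp
      rw [h5, abs_div, abs_of_pos hH, abs_of_nonneg (by linarith [h1 a])]
      apply div_le_div_of_nonneg_right _ hH.le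
      linarith [h2 a]
    have h6 := abs_sub_le (y a) (v a) (((B a : ℕ) : ℝ) / ((H : ℝ) + 1))
    rw [abs_sub_comm (y a) (v a)] at h6
    have h7 : 2 / ((H : ℝ) + 1) = 1 / ((H : ℝ) + 1) + 1 / ((H : ℝ) + 1) := by ring
    show |y a - ((B a : ℕ) : ℝ) / ((H : ℝ) + 1)| ≤ 2 / ((H : ℝ) + 1)
    linarith
  · show ((B a : ℕ) : ℝ) / ((H : ℝ) + 1) ≤ v a
    rw [div_le_iff₀ hH]
    exact h1 a
  · show v a ≤ (((B a : ℕ) : ℝ) + 1) / ((H : ℝ) + 1)
    rw [le_div_iff₀ hH]
    exact h2 a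

lemma near_of_Ap {H : ℕ} {K : Set (Fin 12 → ℝ)} {v : Fin 12 → ℝ} (hv : v ∈ Ap (plb H K)) :
    ∃ y ∈ K, ∀ a, |v a - y a| ≤ 3 / ((H : ℝ) + 1) := by
  classical
  have hH : (0 : ℝ) < (H : ℝ) + 1 := by positivity
  obtain ⟨B, hB, hBv⟩ : ∃ B : Fin 12 → Fin (H + 1), B ∈ (plb H K).2 ∧
      ∀ a, ((B a : ℕ) : ℝ) / ((H : ℝ) + 1) ≤ v a ∧ v a ≤ (((B a : ℕ) : ℝ) + 1) / ((H : ℝ) + 1) := hv
  obtain ⟨_, y, hy, hyB⟩ := Finset.mem_filter.mp hB
  refine ⟨y, hy, fun a => ?_⟩
  have h1 : ((B a : ℕ) : ℝ) / ((H : ℝ) + 1) ≤ v a := (hBv a).1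
  have h2 : v a ≤ (((B a : ℕ) : ℝ) + 1) / ((H : ℝ) + 1) := (hBv a).2
  have h3 := hyB a
  have h4 : (((B a : ℕ) : ℝ) + 1) / ((H : ℝ) + 1) =
      ((B a : ℕ) : ℝ) / ((H : ℝ) + 1) + 1 / ((H : ℝ) + 1) := by ring
  rw [h4] at h2
  have h5 : 3 / ((H : ℝ) + 1) = 2 / ((H : ℝ) + 1) + 1 / ((H : ℝ) + 1) := by ring
  rw [h5]
  rw [abs_le] at h3 ⊢
  constructor <;> linarith [h3.1, h3.2]

theorem BB_pl : PL 5 BB := by
  intro F G hF hG hFG
  have hdis : ∀ z, z ∈ F → z ∈ G → z ∈ BB → False := by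
    intro z h1 h2 h3
    have : z ∈ F ∩ G ∩ BB := ⟨⟨h1, h2⟩, h3⟩
    rw [hFG] at this
    exact this
  have hcont : Continuous (fun x : Fin 12 → ℝ => (x, ((0 : ℝ), (0 : ℝ)))) := by fun_prop
  have hKc : ∀ {F : Set ((Fin 12 → ℝ) × ℝ × ℝ)}, IsClosed F → IsCompact (KF F) := fun hF =>
    uc_compact.inter_right (hF.preimage hcont)
  have hKd : Disjoint (KF F) (KF G) := by
    rw [Set.disjoint_left]
    rintro x ⟨h1, h2⟩ ⟨_, h3⟩
    exact hdis _ h2 h3 (Or.inl ⟨h1, rfl⟩)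
  obtain ⟨δ, hδ, hthick⟩ := hKd.exists_thickenings (hKc hF) (hKc hG).isClosed
  have hfar : ∀ y ∈ KF F, ∀ y' ∈ KF G, ¬ (∀ a, |y a - y' a| < δ) := by
    intro y hy y' hy' hcon
    apply (Set.disjoint_left.mp hthick) (a := y')
    · rw [Metric.mem_thickening_iff]
      refine ⟨y, hy, ?_⟩
      rw [dist_pi_lt_iff hδ]
      intro a
      rw [Real.dist_eq, abs_sub_comm]
      exact hcon a
    · exact Metric.self_subset_thickening hδ _ hy'
  obtain ⟨H, hH⟩ := exists_nat_one_div_lt (show 0 < δ / 5 by linarith)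
  have hHp : (0 : ℝ) < (H : ℝ) + 1 := by positivity
  set ε : ℝ := 1 / ((H : ℝ) + 1) with hε
  have hεp : 0 < ε := by positivity
  set p : Lb := plb H (KF F) with hp
  obtain ⟨i1, hi1⟩ := near_K hF (show 0 < ε / 2 by linarith)
  obtain ⟨i2, hi2⟩ := near_K hG (show 0 < ε / 2 by linarith)
  obtain ⟨i3, hi3⟩ := exists_nat_ge (2 / ε)
  set i0 := max i1 (max i2 i3) with hi0
  have hi0' : 2 / ε ≤ i0 := by
    refine hi3.trans ?_
    exact_mod_cast (le_max_right i2 i3).trans (le_max_right i1 _)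
  have hMsmall : ∀ i, i0 ≤ i → 1 / (MM i : ℝ) ≤ ε / 2 := by
    intro i hi
    have hM := MM_pos i
    rw [div_le_iff₀ hM]
    have h7 : (i : ℝ) < MM i := by exact_mod_cast MM_gt i
    have h8 : (i0 : ℝ) ≤ i := by exact_mod_cast hi
    have h9 := hi0'
    rw [div_le_iff₀ hεp] at h9
    nlinarith
  -- vertices near the two sets
  have hFv : ∀ i j, i0 ≤ i → ∀ x, x ∈ uc → (x, tau i j) ∈ F → ∀ w, cv i x w → gpt i w ∈ Ap p := by
    intro i j hi x hx hxF w hw
    obtain ⟨y, hy, hxy⟩ := hi1 i ((le_max_left _ _).trans hi) j x hx hxF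
    apply Ap_of_near (gpt_mem hx hw) hy
    intro a
    have h1 := gpt_near hw a
    have h2 := hxy a
    have h3 := hMsmall i hi
    have h4 := abs_sub_le (gpt i w a) (x a) (y a)
    linarith
  have hGv : ∀ i j, i0 ≤ i → ∀ x, x ∈ uc → (x, tau i j) ∈ G → ∀ w, cv i x w → gpt i w ∉ Ap p := by
    intro i j hi x hx hxG w hw hcon
    obtain ⟨y', hy', hxy'⟩ := hi2 i ((le_max_left _ _).trans ((le_max_right _ _).trans hi)) j x hx hxG
    obtain ⟨y, hy, hvy⟩ := near_of_Ap hcon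
    apply hfar y hy y' hy'
    intro a
    have h1 := gpt_near hw a
    have h2 := hxy' a
    have h3 := hMsmall i hi
    have h4 := abs_sub_le (gpt i w a) (x a) (y' a)
    have h5 := hvy a
    have h6 := abs_sub_le (y a) (gpt i w a) (y' a)
    rw [abs_sub_comm (y a) (gpt i w a)] at h6
    have h7 : 3 / ((H : ℝ) + 1) = 3 * ε := by rw [hε]; ring
    rw [h7] at h5
    linarith
  -- the two sets to be separated
  set P1 : Set ((Fin 12 → ℝ) × ℝ × ℝ) := (F ∩ BB) ∪ N0 i0 (fun v => v ∈ Ap p) with hP1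
  set Q1 : Set ((Fin 12 → ℝ) × ℝ × ℝ) := (G ∩ BB) ∪ N0 i0 (fun v => v ∉ Ap p) with hQ1
  have hN0B : ∀ Pd, N0 i0 Pd ⊆ BB := by
    rintro Pd z ⟨i, j, _, h1, h2, _⟩
    exact Or.inr ⟨i, j, h1, h2⟩
  have hnBL : ∀ {z : (Fin 12 → ℝ) × ℝ × ℝ} {i j : ℕ}, z.2 = tau i j → z ∉ BL := by
    rintro z i j h1 ⟨_, h2⟩
    rw [h1] at h2
    have h3 : (tau i j).1 = 0 := by rw [h2]
    exact (jpos i).ne' h3
  have hstage : ∀ {z : (Fin 12 → ℝ) × ℝ × ℝ} {i j i' j' : ℕ}, z.2 = tau i j → z.2 = tau i' j' →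
      i = i' := by
    intro z i j i' j' h1 h2
    rw [h1] at h2
    have h3 : (tau i j).1 = (tau i' j').1 := by rw [h2]
    exact inv_inj h3
  have e1 : ∀ z ∈ P1, z ∉ closure Q1 := by
    intro z hz hc
    rw [hQ1, closure_union] at hc
    have hzB : z ∈ BB := by
      rcases hz with hz | hz
      · exact hz.2
      · exact hN0B _ hz
    rcases hc with hc | hc
    · have hzG : z ∈ G := closure_minimal inter_subset_left hG hc
      rcases hz with hz | ⟨i, j, hi, hL, ht, hw⟩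
      · exact hdis z hz.1 hzG hz.2
      · have hz' : z = (z.1, tau i j) := Prod.ext rfl ht
        rw [hz'] at hzG
        exact hGv i j hi z.1 hL.1 hzG _ (cv_floor i z.1) (hw _ (cv_floor i z.1))
    · revert hc
      apply notin_closure (K := KF F) hεp _ hi0' hzB
      · intro hzL
        rcases hz with hz | ⟨i, j, hi, hL, ht, hw⟩
        · refine ⟨hzL.1, ?_⟩
          have hz' : z = (z.1, (0, 0)) := Prod.ext rfl hzL.2
          rw [← hz']
          exact hz.1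
        · exact absurd hzL (hnBL ht)
      · intro i j hi hL ht
        refine ⟨_, cv_floor i z.1, ?_⟩
        rw [not_not]
        rcases hz with hz | ⟨i', j', hi', hL', ht', hw⟩
        · have hz' : z = (z.1, tau i j) := Prod.ext rfl ht
          have h1 := hz.1
          rw [hz'] at h1
          exact hFv i j hi z.1 hL.1 h1 _ (cv_floor i z.1)
        · have hii := hstage ht ht'
          subst hii
          exact hw _ (cv_floor i z.1)
      · intro v hv y hy hvy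
        rw [not_not]
        exact Ap_of_near hv hy hvy
  have e2 : ∀ z ∈ Q1, z ∉ closure P1 := by
    intro z hz hc
    rw [hP1, closure_union] at hc
    have hzB : z ∈ BB := by
      rcases hz with hz | hz
      · exact hz.2
      · exact hN0B _ hz
    rcases hc with hc | hc
    · have hzF : z ∈ F := closure_minimal inter_subset_left hF hc
      rcases hz with hz | ⟨i, j, hi, hL, ht, hw⟩
      · exact hdis z hzF hz.1 hz.2
      · have hz' : z = (z.1, tau i j) := Prod.ext rfl ht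
        rw [hz'] at hzF
        exact hw _ (cv_floor i z.1) (hFv i j hi z.1 hL.1 hzF _ (cv_floor i z.1))
    · revert hc
      apply notin_closure (K := KF G) hεp _ hi0' hzB
      · intro hzL
        rcases hz with hz | ⟨i, j, hi, hL, ht, hw⟩
        · refine ⟨hzL.1, ?_⟩
          have hz' : z = (z.1, (0, 0)) := Prod.ext rfl hzL.2
          rw [← hz']
          exact hz.1
        · exact absurd hzL (hnBL ht)
      · intro i j hi hL ht
        refine ⟨_, cv_floor i z.1, ?_⟩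
        rcases hz with hz | ⟨i', j', hi', hL', ht', hw⟩
        · have hz' : z = (z.1, tau i j) := Prod.ext rfl ht
          have h1 := hz.1
          rw [hz'] at h1
          exact hGv i j hi z.1 hL.1 h1 _ (cv_floor i z.1)
        · have hii := hstage ht ht'
          subst hii
          exact hw _ (cv_floor i z.1)
      · intro v hv y' hy' hvy hcon
        obtain ⟨y, hy, hvy2⟩ := near_of_Ap hcon
        apply hfar y hy y' hy'
        intro a
        have h5 := hvy2 a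
        have h6 := abs_sub_le (y a) (v a) (y' a)
        rw [abs_sub_comm (y a) (v a)] at h6
        have h7 : 3 / ((H : ℝ) + 1) = 3 * ε := by rw [hε]; ring
        rw [h7] at h5
        linarith [hvy a]
  obtain ⟨U, V, hU, hV, hPU, hQV, hUV, -⟩ := separate e1 e2
  refine ⟨U, V, hU, hV, ?_, fun z hz => hPU (Or.inl hz), fun z hz => hQV (Or.inl hz), ?_⟩
  · rw [hUV.inter_eq, empty_inter]
  · have hS : BB \ (U ∪ V) = BB ∩ (U ∪ V)ᶜ := rfl
    rw [hS]
    apply (BB_setup p).main 3 0 (hU.union hV).isClosed_compl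
    intro y hyL _
    have hc : Continuous (fun z' : (Fin 12 → ℝ) × ℝ × ℝ => z'.2.1) := by fun_prop
    have h3 : ∀ᶠ z' in 𝓝 y, z'.2.1 < 1 / ((i0 : ℝ) + 1) := by
      apply (isOpen_lt hc continuous_const).mem_nhds
      show y.2.1 < 1 / ((i0 : ℝ) + 1)
      rw [hyL.2]
      exact jpos i0
    filter_upwards [h3] with z hz3 hzB hzUV hzL
    rcases hzB with hzB | ⟨i, j, hL, ht⟩
    · exact absurd hzB hzL
    · have hi : i0 ≤ i := by
        rw [ht, tau_fst, one_div_lt_one_div (by positivity) (by positivity)] at hz3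
        have : (i0 : ℝ) < i := by linarith
        exact_mod_cast this.le
      have hnP : z ∉ P1 := fun h => hzUV (Or.inl (hPU h))
      have hnQ : z ∉ Q1 := fun h => hzUV (Or.inr (hQV h))
      have h4 : ¬ 4 ≤ (LS i p z.1).ncard := by
        intro h4
        rcases hL.2 p h4 with h5 | h5
        · exact hnP (Or.inr ⟨i, j, hi, hL, ht, h5⟩)
        · exact hnQ (Or.inr ⟨i, j, hi, hL, ht, h5⟩)
      have h5 : {a | Bcls p 0 z a} ⊆ LS i p z.1 := by
        rintro a ⟨i', t, r', _, h6, h7, h8⟩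
        rw [ht, tau_fst] at h7
        have hii := inv_inj h7
        subst hii
        exact ⟨t, r', h6, h8⟩
      have h6 := Set.ncard_le_ncard h5 (Set.toFinite _)
      omega

end Pool.Agent.Helper286.Strict
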