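import Pool.Agent.Helper286.Strict.P12
import Pool.Agent.Helper286.Strict.P18

/-! The layers have no covers of small order. -/

namespace Pool.Agent.Helper286.Strict

open Set Topology

lemma intA {g M t X v c : ℤ} (hg : 0 < g) (ht : 0 ≤ t) (htM : t < M)
    (hc : c = max 0 (min v (g * M))) (h1 : g * t < c) (h2 : c < g * (t + 1))
    (hv : g * X ≤ v ∧ v ≤ g * X + g) : X = t ∧ v ≠ g * X := by
  have h3 : 0 ≤ g * t := mul_nonneg hg.le ht
  have h4 : g * (t + 1) ≤ g * M := mul_le_mul_of_nonneg_left (by omega) hg.le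
  have hcv : c = v := by omega
  have h5 : X < t + 1 := lt_of_mul_lt_mul_left (a := g) (by omega) hg.le
  have h6 : t < X + 1 := lt_of_mul_lt_mul_left (a := g) (by rw [mul_add, mul_one]; omega) hg.le
  have h7 : X = t := by omega
  refine ⟨h7, ?_⟩
  rw [h7]
  omega

lemma intB {g M X v w c : ℤ} (hg : 0 < g) (hM : 0 ≤ M) (hc : c = max 0 (min v (g * M)))
    (h1 : g * w - c < g) (h2 : c - g * w < g) (hv : g * X ≤ v ∧ v ≤ g * X + g) :
    max 0 (min X M) = w ∨ (v ≠ g * X ∧ max 0 (min (X + 1) M) = w) := by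
  have hgM : 0 ≤ g * M := mul_nonneg hg.le hM
  rcases lt_or_ge v 0 with h | h
  · left
    have hc0 : c = 0 := by omega
    have h3 : w < 1 := lt_of_mul_lt_mul_left (a := g) (by omega) hg.le
    have h4 : -1 < w := lt_of_mul_lt_mul_left (a := g) (by omega) hg.le
    have h5 : X < 0 := lt_of_mul_lt_mul_left (a := g) (by rw [mul_zero]; omega) hg.le
    omega
  · rcases lt_or_ge (g * M) v with h' | h'
    · left
      have hc0 : c = g * M := by omega
      have h3 : w < M + 1 := lt_of_mul_lt_mul_left (a := g) (by rw [mul_add]; omega) hg.le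
      have h4 : M - 1 < w := lt_of_mul_lt_mul_left (a := g) (by rw [mul_sub]; omega) hg.le
      have h5 : M < X + 1 := lt_of_mul_lt_mul_left (a := g) (by rw [mul_add]; omega) hg.le
      omega
    · have hc0 : c = v := by omega
      have h3 : w < X + 2 := lt_of_mul_lt_mul_left (a := g) (by rw [mul_add]; omega) hg.le
      have h4 : X - 1 < w := lt_of_mul_lt_mul_left (a := g) (by rw [mul_sub]; omega) hg.le
      have h5 : -1 < w := lt_of_mul_lt_mul_left (a := g) (by omega) hg.le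
      have h6 : w < M + 1 := lt_of_mul_lt_mul_left (a := g) (by rw [mul_add]; omega) hg.le
      by_cases hw : w = X
      · left
        omega
      · right
        have hw' : w = X + 1 := by omega
        refine ⟨?_, by omega⟩
        rw [hw', mul_add] at h1
        omega

lemma intC {k H X B v v' M : ℤ} (hk : 0 < k) (hB : 0 ≤ B) (hBH : B ≤ H) (hM : M = 2 * k * (H + 1))
    (hv' : v' = 2 * k * X + k) (hv : 2 * k * X ≤ v ∧ v ≤ 2 * k * X + 2 * k)
    (h : 2 * k * B ≤ max 0 (min v' M) ∧ max 0 (min v' M) ≤ 2 * k * B + 2 * k) :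
    2 * k * B ≤ max 0 (min v M) ∧ max 0 (min v M) ≤ 2 * k * B + 2 * k := by
  have hM' : M = 2 * (k * H) + 2 * k := by rw [hM]; ring
  have e1 : 2 * k * X = 2 * (k * X) := by ring
  have e2 : 2 * k * B = 2 * (k * B) := by ring
  rw [e1] at hv' hv
  rw [e2] at h ⊢
  have hkB : 0 ≤ k * B := mul_nonneg hk.le hB
  have hkBH : k * B ≤ k * H := mul_le_mul_of_nonneg_left hBH hk.le
  rcases lt_or_ge X 0 with hX | hX
  · have h1 : k * X ≤ k * (-1) := mul_le_mul_of_nonneg_left (by omega) hk.le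
    rw [mul_neg_one] at h1
    have h2 : k * B < k * 1 := by omega
    have h3 : B < 1 := lt_of_mul_lt_mul_left h2 hk.le
    have h4 : B = 0 := by omega
    subst h4
    omega
  · rcases lt_or_ge H X with hX' | hX'
    · have h1 : k * (H + 1) ≤ k * X := mul_le_mul_of_nonneg_left (by omega) hk.le
      rw [mul_add, mul_one] at h1
      omega
    · have h1 : k * X ≤ k * H := mul_le_mul_of_nonneg_left hX' hk.le
      have h2 : 0 ≤ k * X := mul_nonneg hk.le hX
      have h3 : max 0 (min v' M) = v' := by omega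
      rw [h3] at h
      have h4 : B < X + 1 := lt_of_mul_lt_mul_left (a := k) (by rw [mul_add]; omega) hk.le
      have h5 : X < B + 1 := lt_of_mul_lt_mul_left (a := k) (by rw [mul_add]; omega) hk.le
      have h6 : B = X := by omega
      subst h6
      omega

lemma intD {k H X B v v' M : ℤ} (hk : 0 < k) (hB : 0 ≤ B) (hBH : B ≤ H) (hM : M = 2 * k * (H + 1))
    (hv : v = 2 * k * X) (hv' : 2 * k * X - k ≤ v' ∧ v' ≤ 2 * k * X + k)
    (h : 2 * k * B ≤ max 0 (min v' M) ∧ max 0 (min v' M) ≤ 2 * k * B + 2 * k) :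
    2 * k * B ≤ max 0 (min v M) ∧ max 0 (min v M) ≤ 2 * k * B + 2 * k := by
  have hM' : M = 2 * (k * H) + 2 * k := by rw [hM]; ring
  have e1 : 2 * k * X = 2 * (k * X) := by ring
  have e2 : 2 * k * B = 2 * (k * B) := by ring
  rw [e1] at hv' hv
  rw [e2] at h ⊢
  have hkB : 0 ≤ k * B := mul_nonneg hk.le hB
  have hkBH : k * B ≤ k * H := mul_le_mul_of_nonneg_left hBH hk.le
  rcases lt_or_ge X 0 with hX | hX
  · have h1 : k * X ≤ k * (-1) := mul_le_mul_of_nonneg_left (by omega) hk.le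
    rw [mul_neg_one] at h1
    have h2 : k * B < k * 1 := by omega
    have h3 : B < 1 := lt_of_mul_lt_mul_left h2 hk.le
    have h4 : B = 0 := by omega
    subst h4
    omega
  · rcases lt_or_ge (H + 1) X with hX' | hX'
    · have h1 : k * (H + 2) ≤ k * X := mul_le_mul_of_nonneg_left (by omega) hk.le
      rw [mul_add] at h1
      omega
    · have h1 : k * X ≤ k * (H + 1) := mul_le_mul_of_nonneg_left hX' hk.le
      rw [mul_add] at h1
      have h2 : 0 ≤ k * X := mul_nonneg hk.le hX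
      have h3 : max 0 (min v M) = 2 * (k * X) := by omega
      rw [h3]
      have h4 : B < X + 1 := lt_of_mul_lt_mul_left (a := k) (by rw [mul_add]; omega) hk.le
      have h5 : X < B + 2 := lt_of_mul_lt_mul_left (a := k) (by rw [mul_add]; omega) hk.le
      have h6 : k * B ≤ k * X := mul_le_mul_of_nonneg_left (by omega) hk.le
      have h7 : k * X ≤ k * (B + 1) := mul_le_mul_of_nonneg_left (by omega) hk.le
      rw [mul_add] at h7
      omega

/-- clamping of integer vectors -/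
def cl (M : ℤ) (v : Fin 12 → ℤ) : Fin 12 → ℤ := fun a => max 0 (min (v a) M)

/-- a coarse face hits a label -/
def hitB (i : ℕ) (p : Lb) (V : Finset (Fin 12)) (X : Fin 12 → ℤ) : Prop :=
  4 ≤ {a | a ∈ V ∧ ∃ r, Lab i (X a) p r}.ncard ∧
    (∃ v, vt V X v ∧ gpt i (cl (MM i) v) ∈ Ap p) ∧ (∃ v, vt V X v ∧ gpt i (cl (MM i) v) ∉ Ap p)

lemma hitB_mono (i : ℕ) (p : Lb) (V : Finset (Fin 12)) (x : Fin 12 → ℤ) (j : Fin 12)
    (_ : j ∈ V) (h : hitB i p (V.erase j) x) : hitB i p V x := by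
  obtain ⟨h1, ⟨v, h2, h3⟩, v', h4, h5⟩ := h
  refine ⟨h1.trans (Set.ncard_le_ncard ?_ (Set.toFinite _)),
    ⟨v, vt_mono (Finset.erase_subset _ _) h2, h3⟩, v', vt_mono (Finset.erase_subset _ _) h4, h5⟩
  rintro a ⟨h6, h7⟩
  exact ⟨Finset.mem_of_mem_erase h6, h7⟩

lemma hitB_mono' (i : ℕ) (p : Lb) (V : Finset (Fin 12)) (x : Fin 12 → ℤ) (j : Fin 12)
    (hj : j ∈ V) (h : hitB i p (V.erase j) (x + Pi.single j 1)) : hitB i p V x := by
  obtain ⟨h1, ⟨v, h2, h3⟩, v', h4, h5⟩ := h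
  refine ⟨h1.trans (Set.ncard_le_ncard ?_ (Set.toFinite _)), ⟨v, vt_step hj h2, h3⟩, v',
    vt_step hj h4, h5⟩
  rintro a ⟨h6, r, h7⟩
  rw [Finset.mem_erase] at h6
  refine ⟨h6.2, r, ?_⟩
  rw [Pi.add_apply, Pi.single_eq_of_ne h6.1, add_zero] at h7
  exact h7

lemma hitB_uniq (i : ℕ) (p q : Lb) (V : Finset (Fin 12)) (x : Fin 12 → ℤ)
    (hV : V.card ≤ (5 + 1) + 1) (h : hitB i p V x) (h' : hitB i q V x) : p = q := by
  by_contra hne
  have hd : Disjoint {a | a ∈ V ∧ ∃ r, Lab i (x a) p r} {a | a ∈ V ∧ ∃ r, Lab i (x a) q r} := by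
    rw [Set.disjoint_left]
    rintro a ⟨_, r, h1⟩ ⟨_, r', h2⟩
    exact hne (Lab_unique h1 h2).1
  have h1 := Set.ncard_union_eq hd (Set.toFinite _) (Set.toFinite _)
  have h2 : ({a | a ∈ V ∧ ∃ r, Lab i (x a) p r} ∪ {a | a ∈ V ∧ ∃ r, Lab i (x a) q r}) ⊆
      (V : Set (Fin 12)) := by
    rintro a (⟨h3, _⟩ | ⟨h3, _⟩)
    · exact h3
    · exact h3
  have h3 := Set.ncard_le_ncard h2 (Set.toFinite _)
  rw [Set.ncard_coe_finset] at h3
  have h4 := h.1
  have h5 := h'.1
  omega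

/-- the labels of a stage -/
noncomputable def Pfs (i : ℕ) : Finset Lb :=
  open Classical in (act_finite i).toFinset.image (fun s => s.1.1)

lemma mem_Pfs {i : ℕ} {p : Lb} : p ∈ Pfs i ↔ ∃ s : (Lb × ℕ) × ℚ, Encodable.encode s < i ∧
    s.1.1 = p := by
  unfold Pfs
  simp only [Finset.mem_image, Set.Finite.mem_toFinset, mem_ofPred_eq]

lemma hitB_mem (i : ℕ) (p : Lb) (V : Finset (Fin 12)) (x : Fin 12 → ℤ) (h : hitB i p V x) :
    p ∈ Pfs i := by
  have h1 : {a | a ∈ V ∧ ∃ r, Lab i (x a) p r}.Nonempty := by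
    rw [← Set.ncard_pos (Set.toFinite _)]
    have := h.1
    omega
  obtain ⟨a, -, r, q, h2, -⟩ := h1
  exact mem_Pfs.mpr ⟨((p, r), q), h2, rfl⟩

lemma conv1 {H k c : ℕ} {b : ℤ} {M : ℕ} (hk : 0 < k) (hM : M = 2 * (H + 1) * k) :
    ((c : ℝ) / ((H : ℝ) + 1) ≤ (b : ℝ) / M ↔ 2 * (k : ℤ) * c ≤ b) := by
  have hH : (0 : ℝ) < (H : ℝ) + 1 := by positivity
  have hk' : (0 : ℝ) < k := by exact_mod_cast hk
  have hM' : (M : ℝ) = 2 * ((H : ℝ) + 1) * k := by rw [hM]; push_cast; ring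
  have hMp : (0 : ℝ) < M := by rw [hM']; positivity
  rw [div_le_div_iff₀ hH hMp, hM']
  constructor
  · intro h
    have h1 : 2 * (k : ℝ) * c ≤ b := by
      have h2 : (2 * (k : ℝ) * c) * ((H : ℝ) + 1) ≤ b * ((H : ℝ) + 1) := by linarith
      exact le_of_mul_le_mul_right h2 hH
    exact_mod_cast h1
  · intro h
    have h1 : 2 * (k : ℝ) * c ≤ b := by exact_mod_cast h
    have h2 := mul_le_mul_of_nonneg_right h1 hH.le
    linarith

lemma conv2 {H k c : ℕ} {b : ℤ} {M : ℕ} (hk : 0 < k) (hM : M = 2 * (H + 1) * k) :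
    ((b : ℝ) / M ≤ ((c : ℝ) + 1) / ((H : ℝ) + 1) ↔ b ≤ 2 * (k : ℤ) * c + 2 * k) := by
  have hH : (0 : ℝ) < (H : ℝ) + 1 := by positivity
  have hk' : (0 : ℝ) < k := by exact_mod_cast hk
  have hM' : (M : ℝ) = 2 * ((H : ℝ) + 1) * k := by rw [hM]; push_cast; ring
  have hMp : (0 : ℝ) < M := by rw [hM']; positivity
  rw [div_le_div_iff₀ hMp hH, hM']
  constructor
  · intro h
    have h1 : (b : ℝ) ≤ 2 * k * c + 2 * k := by
      have h2 : b * ((H : ℝ) + 1) ≤ (2 * (k : ℝ) * c + 2 * k) * ((H : ℝ) + 1) := by linarith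
      exact le_of_mul_le_mul_right h2 hH
    exact_mod_cast h1
  · intro h
    have h1 : (b : ℝ) ≤ 2 * k * c + 2 * k := by exact_mod_cast h
    have h2 := mul_le_mul_of_nonneg_right h1 hH.le
    linarith

lemma hitB_block (i : ℕ) (p : Lb) (hp : p ∈ Pfs i) : ∃ k : ℕ, 0 < k ∧
    ∀ (V : Finset (Fin 12)) (X : Fin 12 → ℤ), V.card = 5 + 1 →
      (∀ u ∈ bx V (fun _ => 2 * k),
        ¬ hitB i p V (((2 * k : ℕ) : ℤ) • X + (fun _ => (0 : ℤ)) + u)) ∨
      (∀ u ∈ bx Vᶜ (fun _ => 2 * k),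
        ¬ hitB i p Vᶜ (((2 * k : ℕ) : ℤ) • (X + eV V) + (fun _ => -(k : ℤ)) + u)) := by
  obtain ⟨s, hs, hsp⟩ := mem_Pfs.mp hp
  obtain ⟨k, hk⟩ := MM_dvd i s hs
  rw [hsp] at hk
  have hMp := MM_gt i
  have hk0 : 0 < k := by
    rcases Nat.eq_zero_or_pos k with h | h
    · rw [h, mul_zero] at hk
      omega
    · exact h
  refine ⟨k, hk0, ?_⟩
  intro V X _
  by_contra hcon
  push Not at hcon
  obtain ⟨⟨u, hu, h1⟩, u', hu', h2⟩ := hcon
  rw [mem_bx] at hu hu'
  obtain ⟨-, -, v, hv, hvA⟩ := h1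
  obtain ⟨-, ⟨v', hv', B, hB, hBv⟩, -⟩ := h2
  apply hvA
  refine ⟨B, hB, fun a => ?_⟩
  have hBa := hBv a
  unfold gpt cl at hBa ⊢
  have hBa1 := (conv1 hk0 hk).mp hBa.1
  have hBa2 := (conv2 hk0 hk).mp hBa.2
  have hkz : (0 : ℤ) < k := by exact_mod_cast hk0
  have hB0 : (0 : ℤ) ≤ ((B a : ℕ) : ℤ) := Int.natCast_nonneg _
  have hBH : ((B a : ℕ) : ℤ) ≤ (p.1 : ℤ) := by
    have := (B a).2
    omega
  have hMz : ((MM i : ℕ) : ℤ) = 2 * (k : ℤ) * ((p.1 : ℤ) + 1) := by
    rw [hk]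
    push_cast
    ring
  have hva := hv a
  have hva' := hv' a
  simp only [Pi.add_apply, Pi.smul_apply, smul_eq_mul, add_zero] at hva hva'
  push_cast at hva hva'
  have key : 2 * (k : ℤ) * ((B a : ℕ) : ℤ) ≤ max 0 (min (v a) ((MM i : ℕ) : ℤ)) ∧
      max 0 (min (v a) ((MM i : ℕ) : ℤ)) ≤ 2 * (k : ℤ) * ((B a : ℕ) : ℤ) + 2 * k := by
    by_cases ha : a ∈ V
    · apply intC (v' := v' a) (X := X a) hkz hB0 hBH hMz
      · have h3 : a ∉ Vᶜ := by simp [ha]
        have h4 := hu'.2 a h3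
        have h5 : eV V a = 1 := by
          unfold eV
          rw [if_pos ha]
        rcases hva' with h6 | ⟨h6, _⟩
        · rw [h6, h4, h5]
          ring
        · exact absurd h6 h3
      · have h4 := hu.1 a ha
        push_cast at h4
        rcases hva with h6 | ⟨_, h6⟩
        · rw [h6]
          constructor <;> linarith [h4.1, h4.2]
        · rw [h6]
          constructor
          · linarith [h4.1]
          · have := h4.2
            omega
      · exact ⟨hBa1, hBa2⟩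
    · apply intD (v' := v' a) (X := X a) hkz hB0 hBH hMz
      · have h4 := hu.2 a ha
        rcases hva with h6 | ⟨h6, _⟩
        · rw [h6, h4]
          ring
        · exact absurd h6 ha
      · have h3 : a ∈ Vᶜ := by simp [ha]
        have h4 := hu'.1 a h3
        push_cast at h4
        have h5 : eV V a = 0 := by
          unfold eV
          rw [if_neg ha]
        rw [h5, add_zero] at hva'
        rcases hva' with h6 | ⟨_, h6⟩
        · rw [h6]
          constructor <;> linarith [h4.1, h4.2]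
        · rw [h6]
          constructor
          · linarith [h4.1]
          · have := h4.2
            omega
      · exact ⟨hBa1, hBa2⟩
  exact ⟨(conv1 hk0 hk).mpr key.1, (conv2 hk0 hk).mpr key.2⟩

/-- the point with fine grid coordinates `v` -/
noncomputable def fp (i g : ℕ) (v : Fin 12 → ℤ) : Fin 12 → ℝ :=
  fun a => ((max 0 (min (v a) ((g : ℤ) * MM i)) : ℤ) : ℝ) / (g * MM i)

lemma fp_mem_uc {i g : ℕ} (hg : 0 < g) (v : Fin 12 → ℤ) : fp i g v ∈ uc := by
  intro a
  have hM := MM_pos i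
  have hg' : (0 : ℝ) < g := by exact_mod_cast hg
  have hgM : (0 : ℝ) < g * MM i := mul_pos hg' hM
  have h0 : (0 : ℤ) ≤ (g : ℤ) * MM i := by positivity
  unfold fp
  constructor
  · apply div_nonneg _ hgM.le
    exact_mod_cast le_max_left _ _
  · rw [div_le_one hgM]
    have h1 : max 0 (min (v a) ((g : ℤ) * MM i)) ≤ (g : ℤ) * MM i := max_le h0 (min_le_right _ _)
    exact_mod_cast h1

lemma unhit_mem {i g : ℕ} (hg : 0 < g) {V : Finset (Fin 12)} {X : Fin 12 → ℤ}
    (hu : ∀ p, ¬ hitB i p V X) {v : Fin 12 → ℤ}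
    (hv : ∀ a, (g : ℤ) * X a ≤ v a ∧ v a ≤ (g : ℤ) * X a + g)
    (hv' : ∀ a, a ∉ V → v a = (g : ℤ) * X a) : fp i g v ∈ Ls i := by
  have hM := MM_pos i
  have hg' : (0 : ℝ) < g := by exact_mod_cast hg
  have hgz : (0 : ℤ) < g := by exact_mod_cast hg
  have hMz : (0 : ℤ) ≤ (MM i : ℤ) := Int.natCast_nonneg _
  refine ⟨fp_mem_uc hg v, ?_⟩
  intro p hp
  by_contra hcon
  push Not at hcon
  obtain ⟨⟨w, hw, hwA⟩, w', hw', hwA'⟩ := hcon
  apply hu p
  have hMz' : ∀ a, (MM i : ℝ) * fp i g v a =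
      ((max 0 (min (v a) ((g : ℤ) * MM i)) : ℤ) : ℝ) / g := by
    intro a
    unfold fp
    field_simp
  -- vertices
  have hvert : ∀ w : Fin 12 → ℤ, cv i (fp i g v) w → ∃ v', vt V X v' ∧ cl (MM i) v' = w := by
    intro w hw
    have h1 : ∀ a, ∃ y : ℤ, (y = X a ∨ (a ∈ V ∧ y = X a + 1)) ∧ max 0 (min y (MM i)) = w a := by
      intro a
      have h2 := hw a
      rw [hMz', abs_lt] at h2
      set c : ℤ := max 0 (min (v a) ((g : ℤ) * MM i)) with hc
      have h3 : (g : ℤ) * w a - c < g := by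
        have h4 : (w a : ℝ) - c / g < 1 := h2.2
        have h5 : ((w a : ℝ) - c / g) * g < 1 * g := mul_lt_mul_of_pos_right h4 hg'
        have h6 : ((w a : ℝ) - c / g) * g = g * w a - c := by
          field_simp
        rw [h6, one_mul] at h5
        exact_mod_cast h5
      have h4 : c - (g : ℤ) * w a < g := by
        have h4 : -1 < (w a : ℝ) - c / g := h2.1
        have h5 : -1 * (g : ℝ) < ((w a : ℝ) - c / g) * g := mul_lt_mul_of_pos_right h4 hg'
        have h6 : ((w a : ℝ) - c / g) * g = g * w a - c := by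
          field_simp
        rw [h6] at h5
        have h7 : (c : ℝ) - g * w a < g := by linarith
        exact_mod_cast h7
      rcases intB hgz hMz hc h3 h4 (hv a) with h5 | ⟨h5, h6⟩
      · exact ⟨X a, Or.inl rfl, h5⟩
      · refine ⟨X a + 1, Or.inr ⟨?_, rfl⟩, h6⟩
        by_contra ha
        exact h5 (hv' a ha)
    choose y hy hyw using h1
    exact ⟨y, hy, funext hyw⟩
  obtain ⟨v1, hv1, hv1w⟩ := hvert w hw
  obtain ⟨v2, hv2, hv2w⟩ := hvert w' hw'
  refine ⟨?_, ⟨v2, hv2, ?_⟩, ⟨v1, hv1, ?_⟩⟩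
  · refine hp.trans (Set.ncard_le_ncard ?_ (Set.toFinite _))
    rintro a ⟨t, r, hL, hI1, hI2⟩
    rw [hMz'] at hI1 hI2
    set c : ℤ := max 0 (min (v a) ((g : ℤ) * MM i)) with hc
    obtain ⟨q, _, _, ht0, htM⟩ := hL
    have h3 : (g : ℤ) * t < c := by
      rw [lt_div_iff₀ hg'] at hI1
      have : (g : ℝ) * t < c := by linarith
      exact_mod_cast this
    have h4 : c < (g : ℤ) * (t + 1) := by
      rw [div_lt_iff₀ hg'] at hI2
      have : (c : ℝ) < (g : ℝ) * (t + 1) := by linarith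
      exact_mod_cast this
    obtain ⟨h5, h6⟩ := intA hgz ht0 htM hc h3 h4 (hv a)
    refine ⟨?_, r, ?_⟩
    · by_contra ha
      exact h6 (hv' a ha)
    · rw [h5]
      exact ⟨q, by assumption, by assumption, ht0, htM⟩
  · rw [hv2w]
    exact hwA'
  · rw [hv1w]
    exact hwA

/-- No cover of small order of a layer by sets missing one of any two opposite faces. -/
theorem no_cover (i : ℕ) {κ : Type*} (W : κ → Set (Ls i)) (hW : ∀ c, IsOpen (W c))
    (hcov : ∀ x, ∃ c, x ∈ W c) (hord : ∀ x, ∃ S : Finset κ, S.card ≤ 6 ∧ ∀ c, x ∈ W c → c ∈ S)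
    (hface : ∀ c (a : Fin 12) (x x' : Ls i), x ∈ W c → x' ∈ W c → x.1 a = 0 → x'.1 a = 1 → False) :
    False := by
  classical
  have : CompactSpace (Ls i) := isCompact_iff_compactSpace.mp (Ls_compact i)
  obtain ⟨δ, hδ, hleb⟩ := lebesgue_number_lemma_of_metric (isCompact_univ (X := Ls i)) hW
    (fun x _ => mem_iUnion.mpr (hcov x))
  choose ch hch using fun x : Ls i => hleb x (mem_univ x)
  obtain ⟨n, hn⟩ := exists_nat_one_div_lt hδ
  set g : ℕ := n + 1 with hg
  have hg0 : 0 < g := Nat.succ_pos n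
  have hg' : (0 : ℝ) < g := by exact_mod_cast hg0
  have hM := MM_pos i
  have hM1 : (1 : ℝ) ≤ MM i := by
    have := MM_gt i
    exact_mod_cast (show 1 ≤ MM i by omega)
  have hgM : (0 : ℝ) < g * MM i := mul_pos hg' hM
  set pf : κ → ℕ → Prop := fun c b => ∃ hb : b < 12, ∃ x ∈ W c, x.1 ⟨b, hb⟩ = 0 with hpf
  set Z : (Fin 12 → ℤ) → ℕ → Prop := fun v => if h : fp i g v ∈ Ls i then pf (ch ⟨fp i g v, h⟩)
    else fun b => ∃ hb : b < 12, fp i g v ⟨b, hb⟩ = 0 with hZ
  have hZin : ∀ v (h : fp i g v ∈ Ls i), Z v = pf (ch ⟨fp i g v, h⟩) := by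
    intro v h
    simp only [hZ]
    rw [dif_pos h]
  have hZout : ∀ v, fp i g v ∉ Ls i → Z v = fun b => ∃ hb : b < 12, fp i g v ⟨b, hb⟩ = 0 := by
    intro v h
    simp only [hZ]
    rw [dif_neg h]
  have hself : ∀ x : Ls i, x ∈ W (ch x) := fun x => hch x (Metric.mem_ball_self hδ)
  have hZ0 : ∀ v (b : Fin 12), v b ≤ 0 → Z v b := by
    intro v b hb
    have h1 : fp i g v b = 0 := by
      unfold fp
      have : max 0 (min (v b) ((g : ℤ) * MM i)) = 0 := by omega
      rw [this]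
      simp
    by_cases h : fp i g v ∈ Ls i
    · rw [hZin v h]
      exact ⟨b.2, ⟨fp i g v, h⟩, hself _, h1⟩
    · rw [hZout v h]
      exact ⟨b.2, h1⟩
  have hZ1 : ∀ v (b : Fin 12), (g : ℤ) * MM i ≤ v b → ¬ Z v b := by
    intro v b hb hcon
    have h0 : (0 : ℤ) ≤ (g : ℤ) * MM i := by positivity
    have h1 : fp i g v b = 1 := by
      unfold fp
      have : max 0 (min (v b) ((g : ℤ) * MM i)) = (g : ℤ) * MM i := by omega
      rw [this]
      push_cast
      exact div_self hgM.ne'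
    by_cases h : fp i g v ∈ Ls i
    · rw [hZin v h] at hcon
      obtain ⟨hb', x, hx, hx0⟩ := hcon
      exact hface _ b x ⟨fp i g v, h⟩ hx (hself _) hx0 h1
    · rw [hZout v h] at hcon
      obtain ⟨hb', hx0⟩ := hcon
      have h2 : fp i g v b = 0 := hx0
      rw [h1] at h2
      norm_num at h2
  refine combT (D := 12) (m := 5) (M := MM i) (g := g) rfl hZ0 hZ1 (Pfs i)
    (hit := hitB i) (hitB_mem i) (hitB_mono i) (hitB_mono' i) (hitB_uniq i) ?_ (hitB_block i)
  intro V x hV hu u hub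
  rw [mem_bx] at hub
  set y0 : Fin 12 → ℤ := (g : ℤ) • x + 0 + u with hy0
  -- all vertices lie in the layer
  have hmem : ∀ y, vt V y0 y → fp i g y ∈ Ls i := by
    intro y hy
    apply unhit_mem hg0 hu
    · intro a
      have h1 := hy a
      simp only [hy0, Pi.add_apply, Pi.smul_apply, smul_eq_mul, add_zero] at h1
      by_cases ha : a ∈ V
      · have h2 := hub.1 a ha
        rcases h1 with h1 | ⟨_, h1⟩
        · rw [h1]
          constructor <;> linarith [h2.1, h2.2]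
        · rw [h1]
          constructor
          · linarith [h2.1]
          · have := h2.2
            omega
      · have h2 := hub.2 a ha
        rcases h1 with h1 | ⟨h3, _⟩
        · rw [h1, h2]
          constructor
          · linarith
          · have : (0 : ℤ) ≤ g := Int.natCast_nonneg g
            linarith
        · exact absurd h3 ha
    · intro a ha
      have h1 := hy a
      simp only [hy0, Pi.add_apply, Pi.smul_apply, smul_eq_mul, add_zero] at h1
      have h2 := hub.2 a ha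
      rcases h1 with h1 | ⟨h3, _⟩
      · rw [h1, h2, add_zero]
      · exact absurd h3 ha
  have hm0 : fp i g y0 ∈ Ls i := hmem y0 (vt_self V y0)
  obtain ⟨S, hS, hS'⟩ := hord ⟨fp i g y0, hm0⟩
  refine ⟨S.image pf, Finset.card_image_le.trans hS, ?_⟩
  intro y hy
  have hym := hmem y hy
  rw [hZin y hym]
  apply Finset.mem_image_of_mem
  apply hS'
  apply hch
  rw [Metric.mem_ball, Subtype.dist_eq]
  have hle : dist (fp i g y0) (fp i g y) ≤ 1 / (g * MM i) := by
    rw [dist_pi_le_iff (by positivity)]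
    intro a
    rw [Real.dist_eq]
    unfold fp
    rw [← sub_div, abs_div, abs_of_pos hgM]
    apply div_le_div_of_nonneg_right _ hgM.le
    have h1 : |(max 0 (min (y0 a) ((g : ℤ) * MM i)) : ℤ) - (max 0 (min (y a) ((g : ℤ) * MM i)) : ℤ)|
        ≤ 1 := by
      rcases hy a with h | ⟨_, h⟩
      · rw [h]
        simp
      · rw [abs_le]
        omega
    exact_mod_cast h1
  refine lt_of_le_of_lt hle (lt_of_le_of_lt ?_ hn)
  apply one_div_le_one_div_of_le (by positivity)
  have : (g : ℝ) = (n : ℝ) + 1 := by rw [hg]; push_cast; ring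
  rw [← this]
  nlinarith

end Pool.Agent.Helper286.Strict
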