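import Pool.Agent.Helper286.Strict.P19

/-! The compactness deficiency. -/

universe u

namespace Pool.Agent.Helper286.Strict

open Set Topology

/-- open sets of a subspace extend to the whole space without increasing the order -/
lemma extend_order {Y : Type*} [MetricSpace Y] {M : Set Y} {𝒱 : Set (Set M)} (hfin : 𝒱.Finite)
    {k : ℕ} (hord : ∀ x : M, {V | V ∈ 𝒱 ∧ x ∈ V}.ncard ≤ k) (y : Y) :
    ∃ S : Finset 𝒱, S.card ≤ k ∧ ∀ V : 𝒱,
      Metric.infEDist y ((↑) '' (V : Set M)) < Metric.infEDist y ((↑) '' (V : Set M)ᶜ) → V ∈ S := by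
  classical
  have : Finite 𝒱 := hfin
  have : Fintype 𝒱 := Fintype.ofFinite _
  set T : Finset 𝒱 := Finset.univ.filter (fun V : 𝒱 =>
    Metric.infEDist y ((↑) '' (V : Set M)) < Metric.infEDist y ((↑) '' (V : Set M)ᶜ)) with hT
  by_cases hne : T.Nonempty
  · obtain ⟨V1, hV1, hmin1⟩ := T.exists_min_image
      (fun V : 𝒱 => Metric.infEDist y ((↑) '' (V : Set M) : Set Y)) hne
    obtain ⟨V2, hV2, hmin2⟩ := T.exists_min_image
      (fun V : 𝒱 => Metric.infEDist y ((↑) '' (V : Set M)ᶜ : Set Y)) hne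
    have h1 : Metric.infEDist y ((↑) '' (V1 : Set M) : Set Y) <
        Metric.infEDist y ((↑) '' (V2 : Set M)ᶜ : Set Y) :=
      lt_of_le_of_lt (hmin1 V2 hV2) (Finset.mem_filter.mp hV2).2
    rw [Metric.infEDist_lt_iff] at h1
    obtain ⟨_, ⟨z, hz, rfl⟩, hzy⟩ := h1
    have hall : ∀ V ∈ T, z ∈ (V : Set M) := by
      intro V hV
      by_contra hc
      have h2 : Metric.infEDist y ((↑) '' (V : Set M)ᶜ : Set Y) ≤ edist y (z : Y) :=
        Metric.infEDist_le_edist_of_mem ⟨z, hc, rfl⟩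
      exact absurd (lt_of_lt_of_le hzy (hmin2 V hV)) (not_lt.mpr h2)
    refine ⟨T, ?_, fun V hV => Finset.mem_filter.mpr ⟨Finset.mem_univ _, hV⟩⟩
    have h3 : ((T.image (fun V : 𝒱 => (V : Set M)) : Finset (Set M)) : Set (Set M)) ⊆
        {V | V ∈ 𝒱 ∧ z ∈ V} := by
      intro V hV
      rw [Finset.mem_coe, Finset.mem_image] at hV
      obtain ⟨V', hV', rfl⟩ := hV
      exact ⟨V'.2, hall V' hV'⟩
    have h4 := Set.ncard_le_ncard h3 (hfin.subset (fun V hV => hV.1))
    rw [Set.ncard_coe_finset, Finset.card_image_of_injective _ Subtype.val_injective] at h4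
    exact h4.trans (hord z)
  · rw [Finset.not_nonempty_iff_eq_empty] at hne
    refine ⟨∅, by simp, ?_⟩
    intro V hV
    have h5 : V ∈ T := Finset.mem_filter.mpr ⟨Finset.mem_univ _, hV⟩
    rw [hne] at h5
    exact h5

/-- the point of a copy of a layer -/
noncomputable def bp (i j : ℕ) (x : Ls i) : BB := ⟨(x.1, tau i j), Or.inr ⟨i, j, x.2, rfl⟩⟩

lemma bp_cont (i j : ℕ) : Continuous (bp i j) := by
  unfold bp
  fun_prop

theorem def_bound {X : Type u} [TopologicalSpace X] (e : BB → X) (he : IsClosedEmbedding e) :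
    ¬ DefLE 6 X := by
  classical
  rintro ⟨Y, hY, f, hYc, hYm, hf, -, hdim⟩
  let _ : MetricSpace Y := TopologicalSpace.metrizableSpaceMetric Y
  set ψ : BB → Y := fun z => f (e z) with hψ
  have hψe : IsEmbedding ψ := hf.comp he.isEmbedding
  have hψc : Continuous ψ := hψe.continuous
  -- faces at time zero
  set Fc : ℝ → Fin 12 → Set BB := fun c a => {z | z.1 ∈ BL ∧ z.1.1 a = c} with hFc
  have hFcomp : ∀ c a, IsCompact (Fc c a) := by
    intro c a
    rw [IsEmbedding.subtypeVal.isCompact_iff]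
    have h1 : ((↑) '' (Fc c a) : Set ((Fin 12 → ℝ) × ℝ × ℝ)) = BL ∩ {z | z.1 a = c} := by
      ext z
      constructor
      · rintro ⟨z', ⟨h1, h2⟩, rfl⟩
        exact ⟨h1, h2⟩
      · rintro ⟨h1, h2⟩
        exact ⟨⟨z, Or.inl h1⟩, ⟨h1, h2⟩, rfl⟩
    rw [h1]
    exact BL_compact.inter_right
      (isClosed_eq ((continuous_apply a).comp continuous_fst) continuous_const)
  have hFd : ∀ a, Disjoint (ψ '' (Fc 0 a)) (ψ '' (Fc 1 a)) := by
    intro a
    rw [Set.disjoint_left]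
    rintro _ ⟨z, ⟨_, h1⟩, rfl⟩ ⟨z', ⟨_, h2⟩, h3⟩
    have h4 := hψe.injective h3
    rw [h4, h1] at h2
    norm_num at h2
  have hth : ∀ a, ∃ δ : ℝ, 0 < δ ∧ Disjoint (Metric.cthickening δ (ψ '' (Fc 0 a)))
      (Metric.cthickening δ (ψ '' (Fc 1 a))) := fun a =>
    (hFd a).exists_cthickenings ((hFcomp 0 a).image hψc) ((hFcomp 1 a).image hψc).isClosed
  choose δ hδ hδd using hth
  -- a late stage
  have hstage : ∀ c : ℝ, (c = 0 ∨ c = 1) → ∀ a, ∀ᶠ i : ℕ in Filter.atTop, ∀ j, ∀ x : Ls i,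
      x.1 a = c → ψ (bp i j x) ∈ Metric.cthickening (δ a) (ψ '' (Fc c a)) := by
    intro c _ a
    have hopen : IsOpen (ψ ⁻¹' (Metric.thickening (δ a) (ψ '' (Fc c a)))) :=
      Metric.isOpen_thickening.preimage hψc
    obtain ⟨ε, hε, hsub⟩ := (hFcomp c a).exists_thickening_subset_open hopen (by
      intro z hz
      exact Metric.self_subset_thickening (hδ a) _ ⟨z, hz, rfl⟩)
    obtain ⟨n, hn⟩ := exists_nat_one_div_lt hε
    filter_upwards [Filter.eventually_ge_atTop n] with i hi j x hx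
    apply Metric.thickening_subset_cthickening
    apply hsub
    rw [Metric.mem_thickening_iff]
    refine ⟨⟨(x.1, (0, 0)), Or.inl ⟨x.2.1, rfl⟩⟩, ⟨⟨x.2.1, rfl⟩, hx⟩, ?_⟩
    rw [Subtype.dist_eq]
    show dist (x.1, tau i j) (x.1, ((0 : ℝ), (0 : ℝ))) < ε
    have h1 : (tau i j).1 < ε := by
      rw [tau_fst]
      refine lt_of_le_of_lt ?_ hn
      apply one_div_le_one_div_of_le (by positivity)
      have : (n : ℝ) ≤ i := by exact_mod_cast hi
      linarith
    have h0 : 0 < (tau i j).1 := jpos i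
    rw [Prod.dist_eq]
    apply max_lt
    · rw [dist_self]
      exact hε
    · rw [Prod.dist_eq]
      apply max_lt
      · rw [Real.dist_eq, sub_zero, abs_of_pos h0]
        exact h1
      · rw [Real.dist_eq, sub_zero, abs_of_pos (tau_snd_pos i j)]
        exact lt_of_le_of_lt (tau_snd_le i j) h1
  obtain ⟨i, hi0, hi1⟩ := ((Filter.eventually_all.mpr (hstage 0 (Or.inl rfl))).and
    (Filter.eventually_all.mpr (hstage 1 (Or.inr rfl)))).exists
  -- the cover of the remainder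
  set av : Bool → Fin 12 → Set Y := fun s a =>
    if s = true then Metric.cthickening (δ a) (ψ '' (Fc 1 a))
    else Metric.cthickening (δ a) (ψ '' (Fc 0 a)) with hav
  have havc : ∀ s a, IsClosed (av s a) := by
    intro s a
    simp only [hav]
    split_ifs
    · exact Metric.isClosed_cthickening
    · exact Metric.isClosed_cthickening
  set US : (Fin 12 → Bool) → Set Y := fun σ => {y | ∀ a, y ∉ av (σ a) a} with hUS
  have hUSo : ∀ σ, IsOpen (US σ) := by
    intro σ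
    have : US σ = ⋂ a, (av (σ a) a)ᶜ := by
      ext y; simp [hUS]
    rw [this]
    apply isOpen_iInter_of_finite
    intro a
    exact (havc _ _).isOpen_compl
  have hUScov : ∀ y : Y, ∃ σ, y ∈ US σ := by
    intro y
    refine ⟨fun a => decide (y ∈ Metric.cthickening (δ a) (ψ '' (Fc 0 a))), fun a => ?_⟩
    by_cases h : y ∈ Metric.cthickening (δ a) (ψ '' (Fc 0 a))
    · simp only [hav, h, decide_true, if_true]
      exact Set.disjoint_left.mp (hδd a) h
    · simp only [hav, h, decide_false]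
      simpa using h
  obtain ⟨𝒱, hVfin, hVo, hVcov, hVref, hVord⟩ := hdim
    (range (fun σ : Fin 12 → Bool => ((↑) ⁻¹' (US σ) : Set ((range f)ᶜ : Set Y))))
    (Set.finite_range _)
    (by
      rintro _ ⟨σ, rfl⟩
      exact (hUSo σ).preimage continuous_subtype_val)
    (by
      ext y
      simp only [mem_sUnion, mem_univ, iff_true]
      obtain ⟨σ, hσ⟩ := hUScov y
      exact ⟨_, ⟨σ, rfl⟩, hσ⟩)
  have hσ : ∀ V : 𝒱, ∃ σ : Fin 12 → Bool, ∀ y ∈ (V : Set ((range f)ᶜ : Set Y)), (y : Y) ∈ US σ := by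
    intro V
    obtain ⟨_, ⟨σ, rfl⟩, h⟩ := hVref V V.2
    exact ⟨σ, fun y hy => h hy⟩
  choose σ hσV using hσ
  set WY : 𝒱 → Set Y := fun V =>
    {y | Metric.infEDist y ((↑) '' (V : Set ((range f)ᶜ : Set Y))) <
      Metric.infEDist y ((↑) '' (V : Set ((range f)ᶜ : Set Y))ᶜ)} ∩ US (σ V) with hWY
  have hWYo : ∀ V, IsOpen (WY V) := by
    intro V
    exact (isOpen_lt Metric.continuous_infEDist Metric.continuous_infEDist).inter (hUSo _)
  have hWYcov : ∀ y : Y, y ∉ range f → ∃ V, y ∈ WY V := by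
    intro y hy
    have h1 : (⟨y, hy⟩ : ((range f)ᶜ : Set Y)) ∈ ⋃₀ 𝒱 := by
      rw [hVcov]
      exact mem_univ _
    obtain ⟨V, hV, hyV⟩ := h1
    refine ⟨⟨V, hV⟩, ?_, hσV ⟨V, hV⟩ _ hyV⟩
    show Metric.infEDist y _ < Metric.infEDist y _
    rw [Metric.infEDist_zero_of_mem (show y ∈ ((↑) '' V : Set Y) from ⟨_, hyV, rfl⟩)]
    rw [pos_iff_ne_zero]
    intro h2
    have h3 := Metric.mem_closure_iff_infEDist_zero.mpr h2
    obtain ⟨O, hO, hOV⟩ := isOpen_induced_iff.mp (hVo V hV)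
    have hyO : y ∈ O := by
      have : (⟨y, hy⟩ : ((range f)ᶜ : Set Y)) ∈ (↑) ⁻¹' O := by
        rw [hOV]
        exact hyV
      exact this
    rw [mem_closure_iff] at h3
    obtain ⟨_, hzO, z, hz, rfl⟩ := h3 O hO hyO
    apply hz
    have : z ∈ (↑) ⁻¹' O := hzO
    rw [hOV] at this
    exact this
  -- the uncovered part is compact
  set K : Set Y := (⋃ V, WY V)ᶜ with hK
  have hKc : IsCompact K := (isOpen_iUnion hWYo).isClosed_compl.isCompact
  have hKr : K ⊆ range f := by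
    intro y hy
    by_contra hc
    obtain ⟨V, hV⟩ := hWYcov y hc
    exact hy (mem_iUnion.mpr ⟨V, hV⟩)
  have hfK : IsCompact (f ⁻¹' K) := (hf.isInducing.isCompact_preimage_iff hKr).mpr hKc
  have heK : IsCompact (e ⁻¹' (f ⁻¹' K)) := he.isCompact_preimage hfK
  have hCK : IsCompact (((↑) '' (e ⁻¹' (f ⁻¹' K)) : Set ((Fin 12 → ℝ) × ℝ × ℝ)) ∩
      {z | z.2.1 = 1 / ((i : ℝ) + 1)}) := by
    apply (heK.image continuous_subtype_val).inter_right
    exact isClosed_eq (continuous_fst.comp continuous_snd) continuous_const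
  obtain ⟨j, hj⟩ : ∃ j : ℕ, ∀ x : Ls i, ψ (bp i j x) ∉ K := by
    have hpos : ∀ z ∈ ((↑) '' (e ⁻¹' (f ⁻¹' K)) : Set ((Fin 12 → ℝ) × ℝ × ℝ)) ∩
      {z | z.2.1 = 1 / ((i : ℝ) + 1)}, 0 < z.2.2 := by
      rintro _ ⟨⟨z, _, rfl⟩, hz2⟩
      rcases z.2 with h | ⟨i', j', _, h⟩
      · exfalso
        have h3 : z.1.2.1 = 1 / ((i : ℝ) + 1) := hz2
        rw [h.2] at h3
        exact (jpos i).ne h3
      · rw [h]
        exact tau_snd_pos i' j'
    by_cases hne : (((↑) '' (e ⁻¹' (f ⁻¹' K)) : Set ((Fin 12 → ℝ) × ℝ × ℝ)) ∩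
      {z | z.2.1 = 1 / ((i : ℝ) + 1)}).Nonempty
    · obtain ⟨z0, hz0, hmin⟩ := hCK.exists_isMinOn hne
        (f := fun z : (Fin 12 → ℝ) × ℝ × ℝ => z.2.2)
        (continuous_snd.comp continuous_snd).continuousOn
      obtain ⟨j, hj⟩ := exists_nat_one_div_lt (hpos z0 hz0)
      refine ⟨j, fun x hx => ?_⟩
      have h1 : z0.2.2 ≤ (tau i j).2 :=
        hmin (a := ((x.1, tau i j) : (Fin 12 → ℝ) × ℝ × ℝ)) ⟨⟨bp i j x, hx, rfl⟩, rfl⟩
      have h2 : (tau i j).2 ≤ 1 / ((j : ℝ) + 1) := by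
        rw [tau_snd]
        apply one_div_le_one_div_of_le (by positivity)
        have h3 : (0 : ℝ) ≤ i := Nat.cast_nonneg i
        have h4 : (0 : ℝ) ≤ j := Nat.cast_nonneg j
        nlinarith
      linarith
    · refine ⟨0, fun x hx => hne ⟨(x.1, tau i 0), ⟨bp i 0 x, hx, rfl⟩, rfl⟩⟩
  -- apply the cover lemma
  refine no_cover i (fun V : 𝒱 => (fun x => ψ (bp i j x)) ⁻¹' (WY V)) ?_ ?_ ?_ ?_
  · intro V
    exact (hWYo V).preimage (hψc.comp (bp_cont i j))
  · intro x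
    have h1 := hj x
    rw [hK, mem_compl_iff, not_not, mem_iUnion] at h1
    exact h1
  · intro x
    obtain ⟨S, hS, hS'⟩ := extend_order hVfin hVord (ψ (bp i j x))
    exact ⟨S, hS, fun V hV => hS' V hV.1⟩
  · intro V a x x' hx hx' h0 h1
    have h2 := hi0 a j x h0
    have h3 := hi1 a j x' h1
    have h4 := hx.2 a
    have h5 := hx'.2 a
    simp only [hav] at h4 h5
    by_cases hs : σ V a = true
    · rw [if_pos hs] at h5
      exact h5 h3
    · rw [if_neg hs] at h4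
      exact h4 h2

end Pool.Agent.Helper286.Strict
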